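import Pool.Agent.Lib.MP_b8e197_co.SL.Iface

/-!
# Project SL, module BETA (Paper 7.1)

Jensen induction: `B_{k+1} ≥ log c0 + N0 log Hh + B_k + (N0 (aL+aR) - C1)` for the averages
`B_k` of `log beta_k`, followed by one more use of the entropy inequality.
-/

set_option linter.all false

namespace SL1324

namespace BETA

theorem mmv_pos (k : ℕ) : 0 < mmv k := by
  unfold mmv
  split <;> norm_num

theorem wt_pos : ∀ (x : List Bool) (k : ℕ), 0 < wt k x
  | [], k => by simp [wt]
  | false :: x, k => by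
    simpa [wt] using wt_pos x 0
  | true :: x, k => by
    have h := wt_pos x (k + 1)
    simpa [wt] using mul_pos (mmv_pos (k + 1)) h

theorem beta_pos {n N0 : ℕ}
    (hW : ∀ z ∈ bitsF N0, ∀ z' ∈ bitsF N0, 0 < Wt n (init z z')) :
    ∀ k : ℕ, ∀ z' ∈ bitsF N0, 0 < beta n N0 k z'
  | 0, z', _ => by simp [beta]
  | k + 1, z', hz' => by
    have h : 0 < ∑ z ∈ bitsF N0, wt 0 z * beta n N0 k z * Wt n (init z z') := by
      apply Finset.sum_pos
      · intro z hz
        exact mul_pos (mul_pos (wt_pos z 0) (beta_pos hW k z hz)) (hW z hz z' hz')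
      · exact bits_nonempty N0
    simpa [beta] using h

theorem Hh_pos : 0 < Hh := by unfold Hh; norm_num

theorem step_log {c0 : ℝ} {n N0 : ℕ} (hc : 0 < c0) (hE : EntIneq c0 N0)
    (hW : ∀ z ∈ bitsF N0, ∀ z' ∈ bitsF N0, 0 < Wt n (init z z')) (k : ℕ) (z' : List Bool)
    (hz' : z' ∈ bitsF N0) :
    Real.log c0 + N0 * Real.log Hh + EE false N0 (fun z => Real.log (beta n N0 k z)) +
        EE false N0 (fun z => Real.log (Wt n (init z z'))) ≤
      Real.log (beta n N0 (k + 1) z') := by
  have hF : ∀ z ∈ bitsF N0, 0 < beta n N0 k z * Wt n (init z z') := fun z hz =>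
    mul_pos (beta_pos hW k z hz) (hW z hz z' hz')
  have h1 := hE (fun z => beta n N0 k z * Wt n (init z z')) hF
  have h2 : (∑ x ∈ bitsF N0, wt 0 x * (beta n N0 k x * Wt n (init x z'))) =
      beta n N0 (k + 1) z' := by
    simp only [beta]
    exact Finset.sum_congr rfl (fun x _ => by ring)
  rw [h2] at h1
  have h3 : EE false N0 (fun x => Real.log (beta n N0 k x * Wt n (init x z'))) =
      EE false N0 (fun z => Real.log (beta n N0 k z)) +
        EE false N0 (fun z => Real.log (Wt n (init z z'))) := by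
    rw [← EE_add]
    exact EE_congr (fun x hx =>
      Real.log_mul (beta_pos hW k x hx).ne' (hW x hx z' hz').ne')
  rw [h3] at h1
  have h4 := Real.log_le_log (by
    have := Hh_pos
    positivity) h1
  rw [Real.log_mul (by have := Hh_pos; positivity) (Real.exp_pos _).ne',
    Real.log_mul hc.ne' (pow_pos Hh_pos _).ne', Real.log_pow, Real.log_exp] at h4
  linarith

theorem avg_step {c0 C1 : ℝ} {n N0 : ℕ} (hc : 0 < c0) (hE : EntIneq c0 N0)
    (hP : PotIneq C1 n N0) (k : ℕ) :
    Real.log c0 + N0 * Real.log Hh + EE false N0 (fun z => Real.log (beta n N0 k z)) +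
        ((N0 : ℝ) * (aL + aR) - C1) ≤
      EE false N0 (fun z => Real.log (beta n N0 (k + 1) z)) := by
  obtain ⟨hW, hP⟩ := hP
  rw [EE_comm (fun z z' => Real.log (Wt n (init z z')))] at hP
  have h1 : EE false N0 (fun z' =>
      (Real.log c0 + N0 * Real.log Hh + EE false N0 (fun z => Real.log (beta n N0 k z))) +
        EE false N0 (fun z => Real.log (Wt n (init z z')))) ≤
      EE false N0 (fun z => Real.log (beta n N0 (k + 1) z)) :=
    EE_mono (fun z' hz' => step_log hc hE hW k z' hz')
  rw [EE_add, EE_const] at h1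
  linarith

theorem avg_bound {c0 C1 : ℝ} {n N0 : ℕ} (hc : 0 < c0) (hE : EntIneq c0 N0)
    (hP : PotIneq C1 n N0) : ∀ k : ℕ,
    k * (Real.log c0 + N0 * Real.log Hh + ((N0 : ℝ) * (aL + aR) - C1)) ≤
      EE false N0 (fun z => Real.log (beta n N0 k z))
  | 0 => by
    have h : EE false N0 (fun z => Real.log (beta n N0 0 z)) = 0 := by
      simp only [beta, Real.log_one]
      exact EE_const 0 N0 false
    rw [h]
    simp
  | k + 1 => by
    have h1 := avg_step hc hE hP k
    have h2 := avg_bound hc hE hP k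
    push_cast
    linarith

end BETA

open BETA in
theorem beta' : BetaStatement := by
  intro c0 C1 n N0 hc hN hE hP k
  have hW := hP.1
  have h1 := hE (fun z => beta n N0 k z) (beta_pos hW k)
  refine le_trans ?_ h1
  have h2 := avg_bound hc hE hP k
  have h3 : c0 ^ (k + 1) * Hh ^ ((k + 1) * N0) * Real.exp (k * ((N0 : ℝ) * (aL + aR) - C1)) =
      c0 * Hh ^ N0 * Real.exp (k * (Real.log c0 + N0 * Real.log Hh +
        ((N0 : ℝ) * (aL + aR) - C1))) := by
    have e1 : Real.exp (k * (Real.log c0 + N0 * Real.log Hh + ((N0 : ℝ) * (aL + aR) - C1))) =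
        c0 ^ k * Hh ^ (k * N0) * Real.exp (k * ((N0 : ℝ) * (aL + aR) - C1)) := by
      have e2 : (k : ℝ) * (Real.log c0 + N0 * Real.log Hh + ((N0 : ℝ) * (aL + aR) - C1)) =
          k * Real.log c0 + ((k * N0 : ℕ) : ℝ) * Real.log Hh +
            k * ((N0 : ℝ) * (aL + aR) - C1) := by
        push_cast
        ring
      rw [e2, Real.exp_add, Real.exp_add, Real.exp_nat_mul, Real.exp_nat_mul, Real.exp_log hc,
        Real.exp_log Hh_pos]
    rw [e1]
    ring
  rw [h3]
  exact mul_le_mul_of_nonneg_left (Real.exp_le_exp.2 h2)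
    (mul_nonneg hc.le (pow_nonneg Hh_pos.le _))

end SL1324
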