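import Pool.Agent.Lib.MP_b8e197_co.SL.Iface

/-!
# Project SL, module BLK (Paper 5.8)

Block words: for words `w_i` of the blocks, `(r U)^H0 ++ w_0 ++ ... ++ w_{R-1} ++ (D l)^H0` is a
word for the concatenated bit lists.
-/

set_option linter.all false

namespace SL1324

namespace BLK

theorem ru_succ (t : ℕ) : ru (t + 1) = Mv.r :: Mv.U :: ru t := by
  simp [ru, List.replicate_succ]

theorem dl_succ (t : ℕ) : dl (t + 1) = Mv.D :: Mv.l :: dl t := by
  simp [dl, List.replicate_succ]

theorem ru_run (xs ys : List Bool) : ∀ (t : ℕ) (y : ℤ), 0 ≤ y →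
    NN ⟨.F, y, none, none, xs, ys⟩ (ru t) ⟨.F, y + t, none, none, xs, ys⟩
  | 0, y, h => by
    have e : ru 0 = [] := by simp [ru]
    rw [e]
    simpa using NN.nil (⟨.F, y, none, none, xs, ys⟩ : St) h
  | t + 1, y, h => by
    rw [ru_succ]
    refine NN.cons h (by simp [step]) (σ' := ⟨.R, y, none, none, xs, ys⟩) ?_
    refine NN.cons h (by simp [step]) (σ' := ⟨.F, y + 1, none, none, xs, ys⟩) ?_
    have h2 := ru_run xs ys t (y + 1) (by linarith)
    have e : y + 1 + (t : ℤ) = y + ((t + 1 : ℕ) : ℤ) := by push_cast; ring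
    rw [e] at h2
    exact h2

theorem dl_run (xs ys : List Bool) : ∀ (t : ℕ) (y : ℤ), (t : ℤ) ≤ y →
    NN ⟨.F, y, none, none, xs, ys⟩ (dl t) ⟨.F, y - t, none, none, xs, ys⟩
  | 0, y, h => by
    have e : dl 0 = [] := by simp [dl]
    rw [e]
    simpa using NN.nil (⟨.F, y, none, none, xs, ys⟩ : St) (by simpa using h)
  | t + 1, y, h => by
    rw [dl_succ]
    push_cast at h
    have ht : (0 : ℤ) ≤ t := Int.natCast_nonneg t
    refine NN.cons (by show 0 ≤ y; linarith) (by simp [step, floorOK, minUp])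
      (σ' := ⟨.L, y - 1, none, none, xs, ys⟩) ?_
    refine NN.cons (by show 0 ≤ y - 1; linarith) (by simp [step])
      (σ' := ⟨.F, y - 1, none, none, xs, ys⟩) ?_
    have h2 := dl_run xs ys t (y - 1) (by linarith)
    have e : y - 1 - (t : ℤ) = y - ((t + 1 : ℕ) : ℤ) := by push_cast; ring
    rw [e] at h2
    exact h2

theorem count_ru : ∀ t : ℕ, (ru t).count Mv.U = t
  | 0 => by simp [ru]
  | t + 1 => by
    rw [ru_succ, List.count_cons, List.count_cons, count_ru t]
    simp

theorem count_dl : ∀ t : ℕ, (dl t).count Mv.U = 0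
  | 0 => by simp [dl]
  | t + 1 => by
    rw [dl_succ, List.count_cons, List.count_cons, count_dl t]
    simp

/-- the concatenation of the words of the blocks -/
def cw {R : ℕ} (w : Fin R → List Mv) : List Mv := (List.ofFn w).flatten

theorem cw_succ {R : ℕ} (w : Fin (R + 1) → List Mv) :
    cw w = w 0 ++ cw (fun i : Fin R => w i.succ) := by
  simp [cw, List.ofFn_succ]

theorem flat_succ {R : ℕ} (z : Fin (R + 1) → List Bool) :
    flat z = z 0 ++ flat (fun i : Fin R => z i.succ) := by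
  simp [flat, List.ofFn_succ]

theorem count_cw {R : ℕ} (w : Fin R → List Mv) :
    (cw w).count Mv.U = ∑ i, (w i).count Mv.U := by
  unfold cw
  rw [List.count_flatten, List.map_ofFn, List.sum_ofFn]
  rfl

theorem blocks (h_WRUN : WrunStatement) (h_LIFT : LiftStatement) (n N0 : ℕ) (x2 y2 : List Bool) :
    ∀ (R : ℕ) (z z' : Fin R → List Bool) (w : Fin R → List Mv), (∀ i, z i ∈ bitsF N0) →
      (∀ i, z' i ∈ bitsF N0) → (∀ i, w i ∈ words n (init (z i) (z' i))) →
      NN ⟨.F, ((10 * n + 2 * N0 + 40 : ℕ) : ℤ), none, none, flat z ++ x2, flat z' ++ y2⟩ (cw w)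
        ⟨.F, ((10 * n + 2 * N0 + 40 : ℕ) : ℤ), none, none, x2, y2⟩
  | 0, z, z', w, hz, hz', hw => by
    have e : cw w = [] := by simp [cw]
    have e1 : flat z = [] := by simp [flat]
    have e2 : flat z' = [] := by simp [flat]
    rw [e, e1, e2]
    exact NN.nil _ (Int.natCast_nonneg _)
  | R + 1, z, z', w, hz, hz', hw => by
    rw [cw_succ, flat_succ, flat_succ]
    obtain ⟨hr, hl⟩ := h_WRUN n N0 (z 0) (z' 0) (hz 0) (hz' 0) (w 0) (hw 0)
    have h1 := h_LIFT.1 _ _ _ ((10 * n + 2 * N0 + 40 : ℕ) : ℤ)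
      (flat (fun i : Fin R => z i.succ) ++ x2) (flat (fun i : Fin R => z' i.succ) ++ y2) hr
    have h2 := h_LIFT.2.1 _ _ _ h1 (by
      show ((w 0).length : ℤ) ≤ (0 : ℤ) + ((10 * n + 2 * N0 + 40 : ℕ) : ℤ)
      rw [zero_add]
      exact_mod_cast hl)
    have h3 := blocks h_WRUN h_LIFT n N0 x2 y2 R (fun i => z i.succ) (fun i => z' i.succ)
      (fun i => w i.succ) (fun i => hz i.succ) (fun i => hz' i.succ) (fun i => hw i.succ)
    refine h_LIFT.2.2 _ _ _ _ _ ?_ h3
    have e1 : (init (z 0) (z' 0)).shift ((10 * n + 2 * N0 + 40 : ℕ) : ℤ)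
        (flat (fun i : Fin R => z i.succ) ++ x2) (flat (fun i : Fin R => z' i.succ) ++ y2) =
        ⟨.F, ((10 * n + 2 * N0 + 40 : ℕ) : ℤ), none, none,
          z 0 ++ flat (fun i : Fin R => z i.succ) ++ x2,
          z' 0 ++ flat (fun i : Fin R => z' i.succ) ++ y2⟩ := by
      simp [St.shift, init]
    have e2 : fin0.shift ((10 * n + 2 * N0 + 40 : ℕ) : ℤ)
        (flat (fun i : Fin R => z i.succ) ++ x2) (flat (fun i : Fin R => z' i.succ) ++ y2) =
        ⟨.F, ((10 * n + 2 * N0 + 40 : ℕ) : ℤ), none, none,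
          flat (fun i : Fin R => z i.succ) ++ x2,
          flat (fun i : Fin R => z' i.succ) ++ y2⟩ := by
      simp [St.shift, init, fin0]
    rw [e1, e2] at h2
    exact h2

theorem cw_inj (h_WPRE : WpreStatement) (n : ℕ) : ∀ (R : ℕ) (σ : Fin R → St)
    (w w' : Fin R → List Mv) (r r' : List Mv), (∀ i, w i ∈ words n (σ i)) →
      (∀ i, w' i ∈ words n (σ i)) → cw w ++ r = cw w' ++ r' → w = w'
  | 0, σ, w, w', r, r', hw, hw', h => by
    funext i
    exact i.elim0
  | R + 1, σ, w, w', r, r', hw, hw', h => by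
    rw [cw_succ, cw_succ, List.append_assoc, List.append_assoc] at h
    have h0 := (h_WPRE n (σ 0)).2 (w 0) (hw 0) (w' 0) (hw' 0) _ _ h
    rw [h0] at h
    have h1 := List.append_cancel_left h
    have h2 := cw_inj h_WPRE n R (fun i => σ i.succ) (fun i => w i.succ) (fun i => w' i.succ)
      r r' (fun i => hw i.succ) (fun i => hw' i.succ) h1
    funext i
    refine Fin.cases h0 (fun j => ?_) i
    exact congrFun h2 j

/-- the word of the whole column -/
def tw (H0 : ℕ) {R : ℕ} (w : Fin R → List Mv) : List Mv := ru H0 ++ (cw w ++ dl H0)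

theorem tw_NN (h_WRUN : WrunStatement) (h_LIFT : LiftStatement) (n N0 : ℕ) (R : ℕ)
    (z z' : Fin R → List Bool) (w : Fin R → List Mv) (hz : ∀ i, z i ∈ bitsF N0)
    (hz' : ∀ i, z' i ∈ bitsF N0) (hw : ∀ i, w i ∈ words n (init (z i) (z' i))) :
    NN (init (flat z) (flat z')) (tw (10 * n + 2 * N0 + 40) w) fin0 := by
  have h1 := ru_run (flat z) (flat z') (10 * n + 2 * N0 + 40) 0 le_rfl
  rw [zero_add] at h1
  have h2 := blocks h_WRUN h_LIFT n N0 [] [] R z z' w hz hz' hw
  rw [List.append_nil, List.append_nil] at h2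
  have h3 := dl_run [] [] (10 * n + 2 * N0 + 40) ((10 * n + 2 * N0 + 40 : ℕ) : ℤ) le_rfl
  rw [sub_self] at h3
  exact h_LIFT.2.2 _ _ _ _ _ h1 (h_LIFT.2.2 _ _ _ _ _ h2 h3)

theorem count_tw (H0 : ℕ) {R : ℕ} (w : Fin R → List Mv) :
    (tw H0 w).count Mv.U = H0 + ∑ i, (w i).count Mv.U := by
  unfold tw
  rw [List.count_append, List.count_append, count_ru, count_dl, count_cw, add_zero]

theorem zt_pos : 0 < zt := by unfold zt uw dw; norm_num

end BLK

open BLK in
open Classical in
theorem blk (h_WRUN : WrunStatement) (h_WSUM : WsumStatement) (h_WPRE : WpreStatement)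
    (h_WBAL : WbalStatement) (h_LIFT : LiftStatement) (h_CN : CnStatement) : BlkStatement := by
  intro n N0 hN
  refine ⟨10 * n + 2 * N0 + 40, ?_⟩
  intro R z z' hz hz'
  have hW : ∀ i, Wt n (init (z i) (z' i)) =
      ∑ w ∈ (words n (init (z i) (z' i))).toFinset, zt ^ (w.count Mv.U) := by
    intro i
    rw [h_WSUM, ← List.sum_toFinset _ (h_WPRE n _).1]
    refine Finset.sum_congr rfl ?_
    intro w hw
    exact h_WBAL _ _ _ (h_WRUN n N0 _ _ (hz i) (hz' i) w (List.mem_toFinset.1 hw)).1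
  have hprod : zt ^ (10 * n + 2 * N0 + 40) * ∏ i, Wt n (init (z i) (z' i)) =
      ∑ w ∈ Fintype.piFinset (fun i => (words n (init (z i) (z' i))).toFinset),
        zt ^ ((tw (10 * n + 2 * N0 + 40) w).count Mv.U) := by
    rw [Finset.prod_congr rfl (fun i _ => hW i), Finset.prod_univ_sum, Finset.mul_sum]
    refine Finset.sum_congr rfl ?_
    intro w _
    rw [count_tw, pow_add _ (10 * n + 2 * N0 + 40) (∑ i, (w i).count Mv.U),
      Finset.prod_pow_eq_pow_sum]
  rw [hprod]
  have hmem : ∀ w ∈ Fintype.piFinset (fun i => (words n (init (z i) (z' i))).toFinset),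
      ∀ i, w i ∈ words n (init (z i) (z' i)) := by
    intro w hw i
    exact List.mem_toFinset.1 (Fintype.mem_piFinset.1 hw i)
  have hmaps : ∀ w ∈ Fintype.piFinset (fun i => (words n (init (z i) (z' i))).toFinset),
      (tw (10 * n + 2 * N0 + 40) w).count Mv.U ∈
        Finset.range ((10 * n + 2 * N0 + 40) * (R + 1) + 1) := by
    intro w hw
    rw [Finset.mem_range, count_tw]
    have h1 : ∀ i ∈ (Finset.univ : Finset (Fin R)),
        (w i).count Mv.U ≤ 10 * n + 2 * N0 + 40 := by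
      intro i _
      exact List.count_le_length.trans
        (h_WRUN n N0 _ _ (hz i) (hz' i) (w i) (hmem w hw i)).2
    have h2 := Finset.sum_le_card_nsmul _ _ _ h1
    rw [Finset.card_univ, Fintype.card_fin, smul_eq_mul] at h2
    have h3 : (10 * n + 2 * N0 + 40) * (R + 1) = (10 * n + 2 * N0 + 40) +
      R * (10 * n + 2 * N0 + 40) := by ring
    rw [h3]
    omega
  rw [← Finset.sum_fiberwise_of_maps_to hmaps]
  refine Finset.sum_le_sum ?_
  intro m _
  have hc : ∑ w ∈ (Fintype.piFinset (fun i => (words n (init (z i) (z' i))).toFinset)).filter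
      (fun w => (tw (10 * n + 2 * N0 + 40) w).count Mv.U = m),
        zt ^ ((tw (10 * n + 2 * N0 + 40) w).count Mv.U) =
      zt ^ m * (((Fintype.piFinset (fun i => (words n (init (z i) (z' i))).toFinset)).filter
        (fun w => (tw (10 * n + 2 * N0 + 40) w).count Mv.U = m)).card : ℝ) := by
    rw [Finset.sum_congr rfl (g := fun _ => zt ^ m) (by
      intro w hw
      rw [(Finset.mem_filter.1 hw).2]), Finset.sum_const, nsmul_eq_mul, mul_comm]
  rw [hc]
  refine mul_le_mul_of_nonneg_left ?_ (pow_pos zt_pos m).le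
  rw [Nat.cast_le]
  -- the words inject
  have hinj : Set.InjOn (fun w : Fin R → List Mv => tw (10 * n + 2 * N0 + 40) w)
      ((Fintype.piFinset (fun i => (words n (init (z i) (z' i))).toFinset)).filter
        (fun w => (tw (10 * n + 2 * N0 + 40) w).count Mv.U = m) : Finset (Fin R → List Mv)) := by
    intro w hw w' hw' h
    have hw1 := hmem w (Finset.mem_filter.1 hw).1
    have hw2 := hmem w' (Finset.mem_filter.1 hw').1
    simp only [tw] at h
    exact cw_inj h_WPRE n R (fun i => init (z i) (z' i)) w w' _ _ hw1 hw2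
      (List.append_cancel_left h)
  rw [← Finset.card_image_of_injOn hinj]
  have hfin := h_CN m (flat z) (flat z')
  have e : nWord m (flat z) (flat z') =
      {w : List Mv | NN (init (flat z) (flat z')) w fin0 ∧ w.count .U = m}.ncard := rfl
  rw [e, ← Set.ncard_coe_finset]
  refine Set.ncard_le_ncard ?_ hfin
  intro v hv
  rw [Finset.mem_coe, Finset.mem_image] at hv
  obtain ⟨w, hw, rfl⟩ := hv
  exact ⟨tw_NN h_WRUN h_LIFT n N0 R z z' w hz hz' (hmem w (Finset.mem_filter.1 hw).1),
    (Finset.mem_filter.1 hw).2⟩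

end SL1324
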