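import Pool.Agent.Lib.MP_b8e197_co.SL.Iface

/-!
# Project SL, module BND (Paper 6.8)

Boundary values: when at most one letter is left on one side, the potential is at most the
logarithm of the weight of the fallback word plus a constant.
-/

set_option linter.all false

namespace SL1324

namespace BND

theorem cv_lt (f : Fl) (l r : ℕ) : cv f l r < 2 ^ 40 := by
  unfold cv
  exact Nat.mod_lt _ (by norm_num)

theorem cc1_abs (f : Fl) (l r : ℕ) : |(cc1 f l r : ℝ)| ≤ 2 ^ 24 := by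
  unfold cc1
  have h := Nat.mod_lt (aData >>> (25 * idxF f l r)) (show 0 < 2 ^ 25 by norm_num)
  generalize (aData >>> (25 * idxF f l r)) % 2 ^ 25 = t at h ⊢
  have h1 : (t : ℝ) < 2 ^ 25 := by exact_mod_cast h
  have h2 : (0 : ℝ) ≤ t := Nat.cast_nonneg t
  push_cast
  rw [abs_le]
  constructor <;> linarith

theorem cc2_abs (f : Fl) (l r : ℕ) : |(cc2 f l r : ℝ)| ≤ 2 ^ 24 := by
  unfold cc2
  have h := Nat.mod_lt (bData >>> (25 * idxF f l r)) (show 0 < 2 ^ 25 by norm_num)
  generalize (bData >>> (25 * idxF f l r)) % 2 ^ 25 = t at h ⊢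
  have h1 : (t : ℝ) < 2 ^ 25 := by exact_mod_cast h
  have h2 : (0 : ℝ) ≤ t := Nat.cast_nonneg t
  push_cast
  rw [abs_le]
  constructor <;> linarith

theorem log_cv_le (f : Fl) (l r : ℕ) (h : 0 < cv f l r) : Real.log (cv f l r : ℝ) ≤ 40 := by
  have h1 : (cv f l r : ℝ) ≤ 2 ^ 40 := by exact_mod_cast (cv_lt f l r).le
  have h0 : (0 : ℝ) < (cv f l r : ℝ) := by exact_mod_cast h
  have h2 := Real.log_le_log h0 h1
  rw [Real.log_pow] at h2
  have h3 : Real.log 2 ≤ 1 := by
    have := Real.log_le_sub_one_of_pos (show (0 : ℝ) < 2 by norm_num)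
    linarith
  push_cast at h2
  linarith

/-- `log t ≥ -c` from a lower bound for `exp c` -/
theorem neg_log_le {t c : ℝ} (ht : 0 < t) (hc : 0 ≤ c)
    (h : 1 / t ≤ ∑ i ∈ Finset.range 6, c ^ i / (Nat.factorial i : ℝ)) : -Real.log t ≤ c := by
  have h1 : 1 / t ≤ Real.exp c := h.trans (Real.sum_le_exp_of_nonneg hc 6)
  have h2 := Real.log_le_log (by positivity) h1
  rw [Real.log_exp, one_div, Real.log_inv] at h2
  exact h2

theorem aL_le : aL ≤ S1 := by
  unfold aL S1
  apply neg_log_le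
  · norm_num [muL]
  · norm_num
  · norm_num [muL, Finset.sum_range_succ, Nat.factorial]

theorem aR_le : aR ≤ S1 := by
  unfold aR S1
  apply neg_log_le
  · norm_num [muR]
  · norm_num
  · norm_num [muR, Finset.sum_range_succ, Nat.factorial]

theorem log_dw : -Real.log dw ≤ S2 := by
  unfold S2
  apply neg_log_le
  · norm_num [dw]
  · norm_num
  · norm_num [dw, Finset.sum_range_succ, Nat.factorial]

theorem aL_nonneg : 0 ≤ aL := by
  unfold aL
  have : Real.log muL ≤ 0 := Real.log_nonpos (by norm_num [muL]) (by norm_num [muL])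
  linarith

theorem aR_nonneg : 0 ≤ aR := by
  unfold aR
  have : Real.log muR ≤ 0 := Real.log_nonpos (by norm_num [muR]) (by norm_num [muR])
  linarith

theorem dw_pos : 0 < dw := by norm_num [dw]

theorem num_part {i j : ℝ} (hi : 1 ≤ i) (hj : 1 ≤ j) (h : i ≤ 1 ∨ j ≤ 1) :
    i + j ≤ |i - j| + 2 := by
  rcases h with h | h
  · have h1 : i - j = -(j - i) := by ring
    have := neg_le_abs (i - j)
    linarith
  · have := le_abs_self (i - j)
    linarith

end BND

open BND in
theorem bnd (h_FBW : FbwStatement) (h_PHI : PhiStatement) (h_CERT : CertStatement) :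
    BndStatement := by
  refine ⟨200, ?_⟩
  intro fl y lf rm xs ys hA hB hx hy hxy
  obtain ⟨hl, hr, hc⟩ := hA
  have hfb := h_FBW ⟨fl, y, lf, rm, xs, ys⟩ hB hr
  have h1 := Real.log_le_log (pow_pos dw_pos _) hfb
  rw [Real.log_pow] at h1
  simp only at h1
  have habs : ((y.natAbs + 40 : ℕ) : ℝ) = |(y : ℝ)| + 40 := by
    push_cast
    rw [Nat.cast_natAbs]
    simp
  rw [habs] at h1
  have h2 : -(|(y : ℝ)| + 40) * S2 ≤ (|(y : ℝ)| + 40) * Real.log dw := by
    have h3 := mul_le_mul_of_nonneg_left log_dw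
      (by positivity : (0 : ℝ) ≤ |(y : ℝ)| + 40)
    linarith
  have hP1 := (h_PHI.1 ((xs.length : ℝ) - ys.length +
    (cc1 fl (relC lf y) (relC rm y) : ℝ) / 1000000)).2.2.1
  have hP2 := (h_PHI.1 ((y : ℝ) + (cc2 fl (relC lf y) (relC rm y) : ℝ) / 1000000)).2.2.1
  have hcc1 := cc1_abs fl (relC lf y) (relC rm y)
  have hcc2 := cc2_abs fl (relC lf y) (relC rm y)
  have hlog := log_cv_le fl (relC lf y) (relC rm y) hc
  unfold phi
  generalize (cc1 fl (relC lf y) (relC rm y) : ℝ) = c1 at *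
  generalize (cc2 fl (relC lf y) (relC rm y) : ℝ) = c2 at *
  generalize Real.log (cv fl (relC lf y) (relC rm y) : ℝ) = v at *
  have hxr : (1 : ℝ) ≤ xs.length := by exact_mod_cast hx
  have hyr : (1 : ℝ) ≤ ys.length := by exact_mod_cast hy
  have hxyr : (xs.length : ℝ) ≤ 1 ∨ (ys.length : ℝ) ≤ 1 := by
    rcases hxy with h | h
    · left; exact_mod_cast h
    · right; exact_mod_cast h
  generalize (xs.length : ℝ) = i at *
  generalize (ys.length : ℝ) = j at *
  have hn := num_part hxr hyr hxyr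
  have t1 : |i - j| - 17 ≤ |i - j + c1 / 1000000| := by
    have e := abs_sub_abs_le_abs_sub (i - j) (-(c1 / 1000000))
    rw [abs_neg, sub_neg_eq_add] at e
    have e2 : |c1 / 1000000| ≤ 17 := by
      rw [abs_div, abs_of_pos (by norm_num : (0 : ℝ) < 1000000), div_le_iff₀ (by norm_num)]
      refine hcc1.trans (by norm_num)
    linarith
  have t2 : |(y : ℝ)| - 17 ≤ |(y : ℝ) + c2 / 1000000| := by
    have e := abs_sub_abs_le_abs_sub (y : ℝ) (-(c2 / 1000000))
    rw [abs_neg, sub_neg_eq_add] at e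
    have e2 : |c2 / 1000000| ≤ 17 := by
      rw [abs_div, abs_of_pos (by norm_num : (0 : ℝ) < 1000000), div_le_iff₀ (by norm_num)]
      refine hcc2.trans (by norm_num)
    linarith
  have s1 : (0 : ℝ) ≤ S1 := by norm_num [S1]
  have s2 : (0 : ℝ) ≤ S2 := by norm_num [S2]
  have u1 : S1 * (|i - j| - 17) ≤ S1 * Ph (i - j + c1 / 1000000) :=
    mul_le_mul_of_nonneg_left (t1.trans hP1) s1
  have u2 : S2 * (|(y : ℝ)| - 17) ≤ S2 * Ph ((y : ℝ) + c2 / 1000000) :=
    mul_le_mul_of_nonneg_left (t2.trans hP2) s2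
  have u3 : aL * i ≤ S1 * i := mul_le_mul_of_nonneg_right aL_le (by linarith)
  have u4 : aR * j ≤ S1 * j := mul_le_mul_of_nonneg_right aR_le (by linarith)
  have u5 : S1 * (i + j) ≤ S1 * (|i - j| + 2) := mul_le_mul_of_nonneg_left hn s1
  have w1 : S1 = 71 / 100 := rfl
  have w2 : S2 = 6 / 5 := rfl
  rw [w1] at u1 u3 u4 u5
  rw [w2] at u2 h2
  rw [w1, w2]
  linarith

end SL1324
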