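import Pool.Agent.Lib.MP_b8e197_co.SL.Cert

/-!
# Project SL: basic lemmas (all proved) and further definitions
-/

set_option linter.all false

namespace SL1324

open H98Av (Av1324 Av132)

noncomputable section

/-! ## bit lists -/

theorem mem_bits_length : ∀ {n : ℕ} {x : List Bool}, x ∈ bitsF n → x.length = n
  | 0, x, h => by simp [bitsF] at h; simp [h]
  | 1, x, h => by simp [bitsF] at h; simp [h]
  | n + 2, x, h => by
    simp only [bitsF, Finset.mem_union, Finset.mem_image] at h
    rcases h with ⟨a, ha, rfl⟩ | ⟨a, ha, rfl⟩ <;>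
    · simp [mem_bits_length ha]

theorem mem_bits_cons {n : ℕ} {b : Bool} {x : List Bool} :
    b :: x ∈ bitsF (n + 2) ↔ x ∈ bitsF (n + 1) := by
  simp only [bitsF, Finset.mem_union, Finset.mem_image, List.cons.injEq]
  cases b <;> simp

theorem bits_nonempty : ∀ n, (bitsF n).Nonempty
  | 0 => ⟨[], by simp [bitsF]⟩
  | 1 => ⟨[false], by simp [bitsF]⟩
  | n + 2 => by
    obtain ⟨x, hx⟩ := bits_nonempty (n + 1)
    exact ⟨false :: x, mem_bits_cons.2 hx⟩

/-- sums over bit lists -/
theorem sum_bits (n : ℕ) (F : List Bool → ℝ) :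
    ∑ x ∈ bitsF (n + 2), F x = ∑ x ∈ bitsF (n + 1), F (false :: x) +
      ∑ x ∈ bitsF (n + 1), F (true :: x) := by
  rw [bitsF, Finset.sum_union]
  · rw [Finset.sum_image (by intro a _ b _ h; simpa using h),
      Finset.sum_image (by intro a _ b _ h; simpa using h)]
  · rw [Finset.disjoint_left]
    intro a ha hb
    simp only [Finset.mem_image] at ha hb
    obtain ⟨u, _, rfl⟩ := ha
    obtain ⟨v, _, h⟩ := hb
    simp at h

/-! ## averages -/

theorem th_mem (s : Bool) : 0 < th s ∧ th s < 1 := by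
  cases s <;> norm_num [th]

@[simp] theorem EE_zero (s : Bool) (f : List Bool → ℝ) : EE s 0 f = f [] := by
  simp [EE]

@[simp] theorem EE_one (s : Bool) (f : List Bool → ℝ) : EE s 1 f = f [false] := by
  simp [EE]

theorem EE_succ (s : Bool) (n : ℕ) (f : List Bool → ℝ) :
    EE s (n + 2) f = (1 - th s) * EE false (n + 1) (fun x => f (false :: x)) +
      th s * EE true (n + 1) (fun x => f (true :: x)) := by
  simp [EE]

theorem EE_const (c : ℝ) : ∀ (n : ℕ) (s : Bool), EE s n (fun _ => c) = c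
  | 0, s => by simp
  | 1, s => by simp
  | n + 2, s => by rw [EE_succ, EE_const c (n + 1), EE_const c (n + 1)]; ring

theorem EE_add (f g : List Bool → ℝ) : ∀ (n : ℕ) (s : Bool),
    EE s n (fun x => f x + g x) = EE s n f + EE s n g
  | 0, s => by simp
  | 1, s => by simp
  | n + 2, s => by
    rw [EE_succ, EE_succ, EE_succ, EE_add (fun x => f (false :: x)) (fun x => g (false :: x)),
      EE_add (fun x => f (true :: x)) (fun x => g (true :: x))]
    ring

theorem EE_smul (c : ℝ) (f : List Bool → ℝ) : ∀ (n : ℕ) (s : Bool),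
    EE s n (fun x => c * f x) = c * EE s n f
  | 0, s => by simp
  | 1, s => by simp
  | n + 2, s => by
    rw [EE_succ, EE_succ, EE_smul c (fun x => f (false :: x)), EE_smul c (fun x => f (true :: x))]
    ring

theorem EE_mono {f g : List Bool → ℝ} : ∀ {n : ℕ} {s : Bool},
    (∀ x ∈ bitsF n, f x ≤ g x) → EE s n f ≤ EE s n g
  | 0, s, h => by simpa using h [] (by simp [bitsF])
  | 1, s, h => by simpa using h [false] (by simp [bitsF])
  | n + 2, s, h => by
    rw [EE_succ, EE_succ]
    have h1 : EE false (n + 1) (fun x => f (false :: x)) ≤ EE false (n + 1) (fun x => g (false :: x)) :=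
      EE_mono (fun x hx => h _ (mem_bits_cons.2 hx))
    have h2 : EE true (n + 1) (fun x => f (true :: x)) ≤ EE true (n + 1) (fun x => g (true :: x)) :=
      EE_mono (fun x hx => h _ (mem_bits_cons.2 hx))
    have h3 := th_mem s
    have h4 := mul_le_mul_of_nonneg_left h1 (by linarith : 0 ≤ 1 - th s)
    have h5 := mul_le_mul_of_nonneg_left h2 h3.1.le
    linarith

theorem EE_congr {f g : List Bool → ℝ} {n : ℕ} {s : Bool} (h : ∀ x ∈ bitsF n, f x = g x) :
    EE s n f = EE s n g :=
  le_antisymm (EE_mono (fun x hx => (h x hx).le)) (EE_mono (fun x hx => (h x hx).ge))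

/-- Two averages commute. -/
theorem EE_comm (F : List Bool → List Bool → ℝ) : ∀ (n m : ℕ) (s t : Bool),
    EE s n (fun x => EE t m (fun y => F x y)) = EE t m (fun y => EE s n (fun x => F x y))
  | 0, m, s, t => by simp
  | 1, m, s, t => by simp
  | n + 2, m, s, t => by
    rw [EE_succ, EE_comm (fun x y => F (false :: x) y) (n + 1) m,
      EE_comm (fun x y => F (true :: x) y) (n + 1) m, ← EE_smul, ← EE_smul, ← EE_add]
    rfl

/-! ## the potential -/

/-- relative code of a floor or a minimum: `0` if there is none, else `1 +` distance -/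
def relC : Option ℤ → ℤ → ℕ
  | none, _ => 0
  | some f, y => (y - f).toNat + 1

/-- the relative state is in the table and alive -/
def Alive (fl : Fl) (y : ℤ) (lf rm : Option ℤ) : Prop :=
  relC lf y ≤ 9 ∧ relC rm y ≤ 9 ∧ 0 < cv fl (relC lf y) (relC rm y)

/-- floor and minimum are not above the height -/
def Bel (y : ℤ) (lf rm : Option ℤ) : Prop :=
  (∀ f, lf = some f → f ≤ y) ∧ (∀ m, rm = some m → m ≤ y)

def KK : ℝ := 100000
def S1 : ℝ := 71 / 100
def S2 : ℝ := 6 / 5
def Ph (z : ℝ) : ℝ := Real.sqrt (z ^ 2 + KK ^ 2)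
def aL : ℝ := -Real.log muL
def aR : ℝ := -Real.log muR

/-- the logarithm of the potential, `i` left and `j` right letters remaining -/
def phi (fl : Fl) (y : ℤ) (lf rm : Option ℤ) (i j : ℕ) : ℝ :=
  Real.log (cv fl (relC lf y) (relC rm y) : ℝ) + aL * i + aR * j -
    S1 * Ph ((i : ℝ) - j + (cc1 fl (relC lf y) (relC rm y) : ℝ) / 1000000) -
    S2 * Ph ((y : ℝ) + (cc2 fl (relC lf y) (relC rm y) : ℝ) / 1000000)

/-- supersolution -/
def gam : Fl → ℝ
  | .F => 1
  | .L => 3 / 2
  | .R => 9 / 20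

def gg (σ : St) : ℝ := gam σ.fl * 4 ^ (σ.xs.length + σ.ys.length)

def VV (n : ℕ) (σ : St) : ℝ := Wt n σ + (19 / 20) ^ n * gg σ

/-! ## shifts -/

/-- raise a state by `h` and append letters -/
def St.shift (σ : St) (h : ℤ) (x2 y2 : List Bool) : St :=
  ⟨σ.fl, σ.y + h, σ.lf.map (· + h), σ.rm.map (· + h), σ.xs ++ x2, σ.ys ++ y2⟩

end

end SL1324
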