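import Pool.Agent.Lib.MP_b8e197_co.SL.Iface

/-!
# Project SL, module CAT (3.1)
-/

set_option linter.all false

namespace SL1324

open H98Av (Av1324 Av132)

namespace CAT

/-- the 132-avoiding lists -/
abbrev A (n : ℕ) := {v : List ℕ // v.Perm (List.range n) ∧ Av132 v}

instance finA (n : ℕ) : Finite (A n) := by
  apply Set.Finite.to_subtype (s := {v : List ℕ | v.Perm (List.range n) ∧ Av132 v})
  apply Set.Finite.subset (s := {v : List ℕ | v ∈ (List.range n).permutations})
  · exact List.finite_toSet _
  · intro v hv
    exact List.mem_permutations.2 hv.1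

/-- Gluing two avoiders around the maximum. -/
def gl (n i : ℕ) (L W : List ℕ) : List ℕ := L.map (· + (n - i)) ++ n :: W

theorem gl_perm {n i : ℕ} (hi : i ≤ n) {L W : List ℕ} (hL : L.Perm (List.range i))
    (hW : W.Perm (List.range (n - i))) : (gl n i L W).Perm (List.range (n + 1)) := by
  have h1 : (L.map (· + (n - i))).Perm (List.range' (n - i) i) := by
    refine (hL.map _).trans ?_
    rw [List.range'_eq_map_range]
    have : (List.map (fun x => x + (n - i)) (List.range i)) =
        (List.map (fun x => (n - i) + x) (List.range i)) := by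
      apply List.map_congr_left
      intro a _
      omega
    rw [this]
  have h2 : (gl n i L W).Perm (List.range' (n - i) i ++ n :: List.range (n - i)) :=
    h1.append (hW.cons n)
  refine h2.trans ?_
  refine (List.perm_append_comm).trans ?_
  have h3 : List.range (n + 1) = List.range (n - i) ++ (List.range' (n - i) i ++ [n]) := by
    rw [List.range_succ, ← List.append_assoc]
    congr 1
    rw [List.range_eq_range', List.range_eq_range']
    have := List.range'_append_1 (s := 0) (m := n - i) (n := i)
    rw [Nat.zero_add] at this
    rw [this]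
    congr 1
    omega
  rw [h3, List.cons_append]
  refine (List.perm_middle (a := n) (l₁ := []) (l₂ := List.range (n - i) ++ List.range' (n - i) i)).symm.trans ?_
  simp only [List.nil_append]
  refine (List.perm_append_singleton n (List.range (n - i) ++ List.range' (n - i) i)).symm.trans ?_
  rw [List.append_assoc]

theorem gl_av {n i : ℕ} (hi : i ≤ n) {L W : List ℕ} (hL : L.Perm (List.range i))
    (hW : W.Perm (List.range (n - i))) (aL : Av132 L) (aW : Av132 W) : Av132 (gl n i L W) := by
  intro a b c hs hh
  have hLm : ∀ x ∈ L.map (· + (n - i)), n - i ≤ x ∧ x < n := by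
    intro x hx
    rw [List.mem_map] at hx
    obtain ⟨y, hy, rfl⟩ := hx
    have : y ∈ List.range i := hL.mem_iff.1 hy
    rw [List.mem_range] at this
    omega
  have hWm : ∀ x ∈ W, x < n - i := by
    intro x hx
    have : x ∈ List.range (n - i) := hW.mem_iff.1 hx
    simpa using this
  unfold gl at hs
  rw [List.sublist_append_iff] at hs
  obtain ⟨l1, l2, h12, hs1, hs2⟩ := hs
  have hc1 : ∀ x ∈ l1, n - i ≤ x ∧ x < n := fun x hx => hLm x (hs1.subset hx)
  have hc2 : ∀ x ∈ l2, x = n ∨ x < n - i := fun x hx => by
    have := hs2.subset hx
    rw [List.mem_cons] at this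
    rcases this with h | h
    · exact Or.inl h
    · exact Or.inr (hWm x h)
  match l1, h12 with
  | [], h12 =>
    simp only [List.nil_append] at h12
    subst h12
    have ha := hc2 a (by simp)
    have hb := hc2 b (by simp)
    rcases ha with ha | ha
    · rcases hb with hb | hb <;> omega
    · have hs3 : List.Sublist [a, b, c] W := by
        rcases List.sublist_cons_iff.1 hs2 with h | ⟨r, hr, _⟩
        · exact h
        · simp only [List.cons.injEq] at hr
          omega
      exact aW a b c hs3 hh
  | [a'], h12 =>
    simp only [List.singleton_append, List.cons.injEq] at h12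
    obtain ⟨rfl, rfl⟩ := h12
    have h1 := hc1 a (by simp)
    have h2 := hc2 c (by simp)
    have h3 := hc2 b (by simp)
    omega
  | [a', b'], h12 =>
    simp only [List.cons_append, List.nil_append, List.cons.injEq] at h12
    obtain ⟨rfl, rfl, rfl⟩ := h12
    have h1 := hc1 a (by simp)
    have h2 := hc2 c (by simp)
    have h3 := hc1 b (by simp)
    omega
  | [a', b', c'], h12 =>
    simp only [List.cons_append, List.nil_append, List.cons.injEq] at h12
    obtain ⟨rfl, rfl, rfl, rfl⟩ := h12
    rw [List.sublist_map_iff] at hs1
    obtain ⟨l', hl', he⟩ := hs1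
    match l', he, hl' with
    | [x, y, z], he, hl' =>
      simp only [List.map_cons, List.map_nil, List.cons.injEq, and_true] at he
      exact aL x y z hl' (by omega)
    | [], he, _ => simp at he
    | [x], he, _ => simp at he
    | [x, y], he, _ => simp at he
    | x :: y :: z :: w :: r, he, _ => simp at he
  | a' :: b' :: c' :: d' :: r, h12 => simp at h12

theorem gl_inj {n i i' : ℕ} (hi : i ≤ n) (hi' : i' ≤ n) {L W L' W' : List ℕ}
    (hL : L.Perm (List.range i)) (hW : W.Perm (List.range (n - i)))
    (hL' : L'.Perm (List.range i')) (hW' : W'.Perm (List.range (n - i')))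
    (h : gl n i L W = gl n i' L' W') : i = i' ∧ L = L' ∧ W = W' := by
  have hm : n ∉ L.map (· + (n - i)) := by
    intro hx
    rw [List.mem_map] at hx
    obtain ⟨y, hy, he⟩ := hx
    have : y ∈ List.range i := hL.mem_iff.1 hy
    rw [List.mem_range] at this
    omega
  have hm' : n ∉ W := by
    intro hx
    have : n ∈ List.range (n - i) := hW.mem_iff.1 hx
    rw [List.mem_range] at this
    omega
  unfold gl at h
  rw [List.append_cons_inj_of_notMem] at h
  · obtain ⟨h1, _, h2⟩ := h
    have hl : i = i' := by
      have e1 : L.length = i := by simpa using hL.length_eq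
      have e2 : L'.length = i' := by simpa using hL'.length_eq
      have e3 := congrArg List.length h1
      simp only [List.length_map] at e3
      omega
    subst hl
    refine ⟨rfl, ?_, h2⟩
    exact List.map_injective_iff.2 (fun a b hab => by simpa using hab) h1
  all_goals first
    | exact hm
    | exact hm'
    | (intro hx
       rw [List.mem_map] at hx
       obtain ⟨y, hy, he⟩ := hx
       have : y ∈ List.range i' := hL'.mem_iff.1 hy
       rw [List.mem_range] at this
       omega)
    | (intro hx
       have : n ∈ List.range (n - i') := hW'.mem_iff.1 hx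
       rw [List.mem_range] at this
       omega)

end CAT

open CAT in
theorem cat : CatStatement := by
  intro n
  induction n using Nat.strong_induction_on with
  | _ n ih =>
    match n, ih with
    | 0, _ =>
      rw [catalan_zero]
      have : Nonempty (A 0) := ⟨⟨[], by simp, by
        intro a b c hs
        simp at hs⟩⟩
      exact Nat.card_pos
    | n + 1, ih =>
      rw [catalan_succ]
      let f : (Σ i : Fin n.succ, A i × A (n - i)) → A (n + 1) := fun p =>
        ⟨gl n p.1 p.2.1.1 p.2.2.1,
          gl_perm (Nat.lt_succ_iff.1 p.1.2) p.2.1.2.1 p.2.2.2.1,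
          gl_av (Nat.lt_succ_iff.1 p.1.2) p.2.1.2.1 p.2.2.2.1 p.2.1.2.2 p.2.2.2.2⟩
      have hf : Function.Injective f := by
        rintro ⟨i, L, W⟩ ⟨i', L', W'⟩ h
        have h' : gl n i L.1 W.1 = gl n i' L'.1 W'.1 := congrArg Subtype.val h
        obtain ⟨h1, h2, h3⟩ := gl_inj (Nat.lt_succ_iff.1 i.2) (Nat.lt_succ_iff.1 i'.2) L.2.1 W.2.1
          L'.2.1 W'.2.1 h'
        have h4 : i = i' := Fin.ext h1
        subst h4
        have h5 : L = L' := Subtype.ext h2
        have h6 : W = W' := Subtype.ext h3
        rw [h5, h6]
      have h1 := Nat.card_le_card_of_injective f hf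
      rw [Nat.card_sigma] at h1
      refine le_trans ?_ h1
      apply Finset.sum_le_sum
      intro i _
      rw [Nat.card_prod]
      exact Nat.mul_le_mul (ih i (by have := i.2; omega)) (ih (n - i) (by omega))

end SL1324
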