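import Pool.Agent.Lib.MP_b8e197_co.SL.Iface

/-!
# Project SL, module CB (4.2): basic invariants of the backward scan
-/

set_option linter.all false

namespace SL1324

namespace CB

/-- the invariants -/
structure Q (N : ℕ) (X' : List ℕ) (y : ℤ) (xl yl cu : ℕ) (b : Bk) : Prop where
  q1 : (b.stk.length : ℤ) = y
  q2 : b.lv.length = xl
  q3 : b.rem = X'.reverse.drop yl
  q4 : b.s.length = cu + yl
  q5 : b.s.filter (fun t => decide (t < N)) = X'.drop (N - yl)
  q6 : b.stk.Pairwise (· > ·)
  q7 : b.lv.Pairwise (· < ·)
  q8 : N ≤ b.c
  q9 : (b.s.filter (fun t => decide (N ≤ t)) ++ b.stk ++ b.lv).Perm (List.range' N (b.c - N))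

theorem mem_lt {N : ℕ} {b : Bk} (h8 : N ≤ b.c)
    (h9 : (b.s.filter (fun t => decide (N ≤ t)) ++ b.stk ++ b.lv).Perm
      (List.range' N (b.c - N))) {t : ℕ} (ht : t ∈ b.stk ∨ t ∈ b.lv) : N ≤ t ∧ t < b.c := by
  have : t ∈ List.range' N (b.c - N) := by
    rw [← h9.mem_iff]
    simp only [List.mem_append]
    tauto
  rw [List.mem_range'_1] at this
  omega

theorem base (N : ℕ) (X' : List ℕ) (hX : X'.Perm (List.range N)) :
    Q N X' 0 0 0 0 (bld N X' []) := by
  have hl : X'.length = N := by rw [hX.length_eq]; simp
  refine ⟨?_, ?_, ?_, ?_, ?_, ?_, ?_, ?_, ?_⟩ <;> simp [bld, hl]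

theorem stD {N : ℕ} {X' : List ℕ} {y : ℤ} {xl yl cu : ℕ} {b : Bk}
    (h : Q N X' (y - 1) xl yl cu b) : Q N X' y xl yl cu (bstep .D b) := by
  refine ⟨?_, h.q2, h.q3, h.q4, h.q5, ?_, h.q7, ?_, ?_⟩
  · have := h.q1
    simp only [bstep, List.length_cons]
    push_cast
    omega
  · simp only [bstep, List.pairwise_cons]
    exact ⟨fun t ht => (mem_lt h.q8 h.q9 (Or.inl ht)).2, h.q6⟩
  · have := h.q8
    simp only [bstep]
    omega
  · have h8 := h.q8
    have h9 := h.q9
    simp only [bstep]
    have e : b.c + 1 - N = (b.c - N) + 1 := by omega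
    rw [e, List.range'_concat]
    have e2 : N + 1 * (b.c - N) = b.c := by omega
    rw [e2]
    refine List.Perm.trans ?_ (List.Perm.append_right [b.c] h9)
    have : (b.s.filter (fun t => decide (N ≤ t)) ++ b.c :: b.stk ++ b.lv).Perm
      (b.c :: (b.s.filter (fun t => decide (N ≤ t)) ++ b.stk ++ b.lv)) := by
      have := (List.perm_middle (a := b.c) (l₁ := b.s.filter (fun t => decide (N ≤ t)))
        (l₂ := b.stk)).append_right b.lv
      simpa using this
    exact this.trans (List.perm_append_comm (l₁ := [b.c]))

theorem stL {N : ℕ} {X' : List ℕ} {y : ℤ} {xl yl cu : ℕ} {b : Bk}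
    (h : Q N X' y xl yl cu b) : Q N X' y (xl + 1) yl cu (bstep .L b) := by
  refine ⟨h.q1, ?_, h.q3, h.q4, h.q5, h.q6, ?_, ?_, ?_⟩
  · have := h.q2
    simp only [bstep, List.length_append, List.length_singleton]
    omega
  · simp only [bstep, List.pairwise_append]
    refine ⟨h.q7, by simp, ?_⟩
    intro t ht u hu
    simp only [List.mem_singleton] at hu
    subst hu
    exact (mem_lt h.q8 h.q9 (Or.inr ht)).2
  · have := h.q8
    simp only [bstep]
    omega
  · have h8 := h.q8
    have h9 := h.q9
    simp only [bstep]
    have e : b.c + 1 - N = (b.c - N) + 1 := by omega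
    rw [e, List.range'_concat]
    have e2 : N + 1 * (b.c - N) = b.c := by omega
    rw [e2, ← List.append_assoc]
    exact List.Perm.append_right [b.c] h9

theorem stU {N : ℕ} {X' : List ℕ} {y : ℤ} {xl yl cu : ℕ} {b : Bk} (hy : 0 ≤ y)
    (h : Q N X' (y + 1) xl yl cu b) : Q N X' y xl yl (cu + 1) (bstep .U b) := by
  obtain ⟨s, stk, lv, c, rem⟩ := b
  cases stk with
  | nil =>
    have := h.q1
    simp at this
    omega
  | cons t st =>
    have ht := mem_lt h.q8 h.q9 (t := t) (Or.inl (by simp))
    have hq1 := h.q1
    have hq4 := h.q4
    have hq5 := h.q5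
    have hq6 := h.q6
    have hq9 := h.q9
    simp only at hq1 hq4 hq5 hq6 hq9 ht
    refine ⟨?_, h.q2, h.q3, ?_, ?_, ?_, h.q7, h.q8, ?_⟩
    · simp only [bstep]
      simp only [List.length_cons] at hq1
      push_cast at hq1
      omega
    · simp only [bstep, List.length_cons]
      omega
    · simp only [bstep]
      rw [List.filter_cons_of_neg (by simp; exact ht.1)]
      exact hq5
    · simp only [bstep]
      exact (List.pairwise_cons.1 hq6).2
    · simp only [bstep]
      rw [List.filter_cons_of_pos (by simp; exact ht.1)]
      refine List.Perm.trans ?_ hq9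
      have := (List.perm_middle (a := t) (l₁ := s.filter (fun t => decide (N ≤ t)))
        (l₂ := st)).symm.append_right lv
      simpa using this

theorem stR {N : ℕ} {X' : List ℕ} (hX : X'.Perm (List.range N)) {y : ℤ} {xl yl cu : ℕ} {b : Bk}
    (hy : yl + 1 ≤ N) (h : Q N X' y xl yl cu b) : Q N X' y xl (yl + 1) cu (bstep .R b) := by
  have hl : X'.length = N := by rw [hX.length_eq]; simp
  obtain ⟨s, stk, lv, c, rem⟩ := b
  have hq3 := h.q3
  have hq4 := h.q4
  have hq5 := h.q5
  have hq9 := h.q9
  simp only at hq3 hq4 hq5 hq9
  have hlt : yl < X'.reverse.length := by simp; omega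
  have hc := List.drop_eq_getElem_cons hlt
  rw [hc] at hq3
  subst hq3
  have hmem : X'.reverse[yl] ∈ X' := by
    have := List.getElem_mem hlt
    simpa using this
  have haN : X'.reverse[yl] < N := by
    have := (hX.mem_iff).1 hmem
    simpa using this
  refine ⟨h.q1, h.q2, ?_, ?_, ?_, h.q6, h.q7, h.q8, ?_⟩
  · simp only [bstep]
  · simp only [bstep, List.length_cons]
    omega
  · simp only [bstep]
    rw [List.filter_cons_of_pos (by simpa using haN), hq5]
    have hlt2 : N - (yl + 1) < X'.length := by omega
    rw [List.drop_eq_getElem_cons hlt2, show N - (yl + 1) + 1 = N - yl by omega]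
    congr 1
    rw [List.getElem_reverse]
    congr 1
    omega
  · simp only [bstep]
    rw [List.filter_cons_of_neg (by simpa using haN)]
    exact hq9

theorem main (N : ℕ) (X' : List ℕ) (hX : X'.Perm (List.range N)) {σ τ : St} {w : List Mv}
    (h : NN σ w τ) : τ = fin0 → σ.ys.length ≤ N →
    Q N X' σ.y σ.xs.length σ.ys.length (w.count Mv.U) (bld N X' w) := by
  induction h with
  | nil σ h0 =>
    intro hτ hys
    subst hτ
    exact base N X' hX
  | @cons σ σ' τ mv w h0 hs hr ih =>
    intro hτ hys
    have ih' := ih hτ
    have hb : bld N X' (mv :: w) = bstep mv (bld N X' w) := rfl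
    rw [hb]
    obtain ⟨fl, y, lf, rm, xs, ys⟩ := σ
    simp only at h0 hys
    cases fl with
    | F =>
      cases mv with
      | r =>
        simp only [step, Option.some.injEq] at hs
        subst hs
        have := ih' hys
        simpa [bstep, List.count_cons] using this
      | D =>
        simp only [step] at hs
        split at hs
        · simp only [Option.some.injEq] at hs
          subst hs
          have := stD (ih' hys)
          simpa [List.count_cons] using this
        · simp at hs
      | _ => simp [step] at hs
    | L =>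
      cases mv with
      | l =>
        simp only [step, Option.some.injEq] at hs
        subst hs
        have := ih' hys
        simpa [bstep, List.count_cons] using this
      | L =>
        cases xs with
        | nil => simp [step] at hs
        | cons b xs =>
          simp only [step, Option.some.injEq] at hs
          subst hs
          have := stL (ih' hys)
          simpa [List.count_cons] using this
      | _ => simp [step] at hs
    | R =>
      cases mv with
      | U =>
        simp only [step, Option.some.injEq] at hs
        subst hs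
        have := stU h0 (ih' hys)
        simpa [List.count_cons] using this
      | R =>
        cases ys with
        | nil => simp [step] at hs
        | cons b ys =>
          simp only [step] at hs
          split at hs
          · simp only [Option.some.injEq] at hs
            subst hs
            simp only [List.length_cons] at hys
            have := stR hX hys (ih' (by simp only; omega))
            simpa [List.count_cons] using this
          · simp at hs
      | _ => simp [step] at hs

end CB

theorem cb : CbStatement := by
  intro N X' σ w hX hys h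
  have q := CB.main N X' hX h rfl hys
  exact ⟨q.q1, q.q2, q.q3, q.q4, q.q5, q.q6, q.q7, q.q8, q.q9⟩

end SL1324
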