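import Pool.Agent.Lib.MP_b8e197_co.SL.Iface

namespace SL1324

theorem CERT.tabF : chkTab .F = true := by decide +kernel
theorem CERT.tabL : chkTab .L = true := by decide +kernel
theorem CERT.tabR : chkTab .R = true := by decide +kernel

theorem CERT.row {f : Fl} {l : ℕ} (h : chkRow f l = true) : ∀ r, r ≤ 9 → chk1 f l r = true := by
  intro r hr
  simp only [chkRow, Bool.and_eq_true] at h
  obtain ⟨⟨⟨⟨⟨⟨⟨⟨⟨h0, h1⟩, h2⟩, h3⟩, h4⟩, h5⟩, h6⟩, h7⟩, h8⟩, h9⟩ := h
  interval_cases r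
  · exact h0
  · exact h1
  · exact h2
  · exact h3
  · exact h4
  · exact h5
  · exact h6
  · exact h7
  · exact h8
  · exact h9

theorem CERT.tab {f : Fl} (h : chkTab f = true) : ∀ l r, l ≤ 9 → r ≤ 9 → chk1 f l r = true := by
  intro l r hl hr
  simp only [chkTab, Bool.and_eq_true] at h
  obtain ⟨⟨⟨⟨⟨⟨⟨⟨⟨h0, h1⟩, h2⟩, h3⟩, h4⟩, h5⟩, h6⟩, h7⟩, h8⟩, h9⟩ := h
  interval_cases l
  · exact CERT.row h0 r hr
  · exact CERT.row h1 r hr
  · exact CERT.row h2 r hr
  · exact CERT.row h3 r hr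
  · exact CERT.row h4 r hr
  · exact CERT.row h5 r hr
  · exact CERT.row h6 r hr
  · exact CERT.row h7 r hr
  · exact CERT.row h8 r hr
  · exact CERT.row h9 r hr

theorem cert : CertStatement := by
  refine ⟨?_, by decide +kernel, by decide +kernel, by decide +kernel⟩
  intro f l r hl hr
  cases f
  · exact CERT.tab CERT.tabF l r hl hr
  · exact CERT.tab CERT.tabL l r hl hr
  · exact CERT.tab CERT.tabR l r hl hr

end SL1324
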