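import Pool.Agent.Lib.MP_b8e197_co.SL.Iface

/-!
# Project SL, module CF (4.3)
-/

set_option linter.all false

namespace SL1324

theorem cf : CfStatement := by
  intro N m s lv hlv hlen hlow htop a ha
  have hmem : ∀ t, N ≤ t → t < 2 * N + m → (t ∈ s ∨ t ∈ lv) := by
    intro t h1 h2
    have : t ∈ List.range' N (N + m) := by
      rw [List.mem_range'_1]; omega
    rw [← htop.mem_iff, List.mem_append, List.mem_filter] at this
    rcases this with h | h
    · exact Or.inl h.1
    · exact Or.inr h
  have hmem2 : ∀ t, t < N → t ∈ s := by
    intro t h1
    have : t ∈ List.range N := List.mem_range.2 h1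
    rw [← hlow.mem_iff, List.mem_filter] at this
    exact this.1
  have hrange : ∀ t ∈ lv, N ≤ t ∧ t < 2 * N + m := by
    intro t ht
    have : t ∈ List.range' N (N + m) := by
      rw [← htop.mem_iff, List.mem_append]; exact Or.inr ht
    rw [List.mem_range'_1] at this
    omega
  have hnd : (s.filter (fun t => decide (N ≤ t)) ++ lv).Nodup :=
    htop.nodup_iff.2 (List.nodup_range')
  have hnot : ∀ t ∈ lv, t ∉ s := by
    intro t ht hs
    have h1 : t ∈ s.filter (fun t => decide (N ≤ t)) := by
      rw [List.mem_filter]
      exact ⟨hs, by simpa using (hrange t ht).1⟩
    exact (List.nodup_append.1 hnd).2.2 t h1 t ht rfl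
  have hmono : ∀ i j (hi : i < lv.length) (hj : j < lv.length), i < j → lv[i] < lv[j] := by
    intro i j hi hj hij
    exact (List.pairwise_iff_getElem.1 hlv) i j hi hj hij
  have haL : a < lv.length := by omega
  rw [List.getD_eq_getElem _ _ haL]
  have hcount : Nat.count (fun t => t ∉ s) lv[a] = a := by
    classical
    rw [Nat.count_eq_card_filter_range]
    have : (Finset.range lv[a]).filter (fun t => t ∉ s) = (lv.take a).toFinset := by
      ext t
      simp only [Finset.mem_filter, Finset.mem_range, List.mem_toFinset]
      constructor
      · rintro ⟨h1, h2⟩
        have h3 : N ≤ t := by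
          by_contra hlt
          exact h2 (hmem2 t (by omega))
        have h4 := (hrange _ (List.getElem_mem haL)).2
        rcases hmem t h3 (by omega) with h | h
        · exact absurd h h2
        · obtain ⟨b, hb, rfl⟩ := List.getElem_of_mem h
          have hba : b < a := by
            by_contra hle
            rcases Nat.lt_or_ge a b with h5 | h5
            · have := hmono a b haL hb h5
              omega
            · have : a = b := by omega
              subst this
              omega
          rw [List.mem_take_iff_getElem]
          exact ⟨b, by omega, rfl⟩
      · intro ht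
        rw [List.mem_take_iff_getElem] at ht
        obtain ⟨b, hb, rfl⟩ := ht
        have hb' : b < lv.length := by omega
        exact ⟨hmono b a hb' haL (by omega), hnot _ (List.getElem_mem hb')⟩
    have h2 : Finset.card (Finset.filter (fun t => t ∉ s) (Finset.range lv[a])) = a := by
      rw [this, List.toFinset_card_of_nodup, List.length_take]
      · omega
      · exact (hlv.imp (fun h => Nat.ne_of_lt h)).sublist (List.take_sublist _ _)
    convert h2 using 2
  have h := Nat.nth_count (p := fun t => t ∉ s) (n := lv[a]) (hnot _ (List.getElem_mem haL))
  rw [hcount] at h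
  exact h

end SL1324
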