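import Pool.Agent.Lib.MP_b8e197_co.SL.Iface

/-!
# Project SL: module CHN (2.5)
-/

set_option linter.all false

namespace SL1324

open H98Av (Av1324 Av132)

namespace CHN

/-- permutations of `range n` with a property -/
theorem finite_perm (n : ℕ) (P : List ℕ → Prop) :
    Finite {v : List ℕ // v.Perm (List.range n) ∧ P v} := by
  have h : {v : List ℕ | v ∈ (List.range n).permutations}.Finite := List.finite_toSet _
  have h2 : {v : List ℕ | v.Perm (List.range n) ∧ P v} ⊆
      {v : List ℕ | v ∈ (List.range n).permutations} :=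
    fun v hv => List.mem_permutations.2 hv.1
  exact (h.subset h2).to_subtype

theorem finite_col (N m : ℕ) (X X' : List ℕ) : Finite {s : List ℕ // Colm N m X X' s} := by
  refine Finite.of_injective (β := Fin (N + m) → Fin (2 * N + m))
    (fun s i => ⟨s.1.getD i 0, ?_⟩) ?_
  · have hi : (i : ℕ) < s.1.length := by rw [s.2.len]; exact i.2
    rw [List.getD_eq_getElem _ _ hi]
    exact s.2.lt _ (List.getElem_mem hi)
  · intro s t h
    apply Subtype.ext
    apply List.ext_getElem
    · rw [s.2.len, t.2.len]
    · intro i h1 h2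
      have hi : i < N + m := by rw [← s.2.len]; exact h1
      have h3 := congrFun h ⟨i, hi⟩
      have h4 : s.1.getD i 0 = t.1.getD i 0 := by
        have := congrArg Fin.val h3
        simpa using this
      rwa [List.getD_eq_getElem _ _ h1, List.getD_eq_getElem _ _ h2] at h4

theorem filter_self {N : ℕ} {X : List ℕ} (h : X.Perm (List.range N)) :
    X.filter (fun t => decide (t < N)) = X := by
  rw [List.filter_eq_self]
  intro a ha
  have := h.mem_iff.1 ha
  simpa using this

end CHN

open CHN in
theorem chn (h_GLUE : GlueStatement) (h_GLUI : GluiStatement) : ChnStatement := by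
  intro N S hS ms
  induction ms with
  | nil =>
    intro X hX
    haveI := finite_perm ((([] : List ℕ).length + 1) * N + ([] : List ℕ).sum)
      (fun v => Av1324 v ∧ v.filter (fun t => decide (t < N)) = X)
    have hne : Nonempty {v : List ℕ // v.Perm (List.range ((([] : List ℕ).length + 1) * N +
        ([] : List ℕ).sum)) ∧ Av1324 v ∧ v.filter (fun t => decide (t < N)) = X} := by
      refine ⟨⟨X, ?_, (hS X hX).2, filter_self (hS X hX).1⟩⟩
      simpa using (hS X hX).1
    have h1 : 0 < Nat.card {v : List ℕ // v.Perm (List.range ((([] : List ℕ).length + 1) * N +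
        ([] : List ℕ).sum)) ∧ Av1324 v ∧ v.filter (fun t => decide (t < N)) = X} := Nat.card_pos
    show chainN N S [] X ≤ _
    rw [chainN]
    exact h1
  | cons m ms ih =>
    intro X' hX'
    set n := (ms.length + 1) * N + ms.sum with hn
    have hn' : ((m :: ms).length + 1) * N + (m :: ms).sum = n + N + m := by
      simp only [List.length_cons, List.sum_cons, hn]; ring
    rw [hn']
    haveI hfA : ∀ X : List ℕ, Finite {v : List ℕ // v.Perm (List.range n) ∧ Av1324 v ∧
        v.filter (fun t => decide (t < N)) = X} := fun X => finite_perm n _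
    haveI hfB : ∀ X : List ℕ, Finite {s : List ℕ // Colm N m X X' s} := fun X =>
      finite_col N m X X'
    haveI hfC : Finite {v : List ℕ // v.Perm (List.range (n + N + m)) ∧ Av1324 v ∧
        v.filter (fun t => decide (t < N)) = X'} := finite_perm (n + N + m) _
    have h1 : chainN N S (m :: ms) X' ≤ ∑ X ∈ S,
        Nat.card ({v : List ℕ // v.Perm (List.range n) ∧ Av1324 v ∧
          v.filter (fun t => decide (t < N)) = X} × {s : List ℕ // Colm N m X X' s}) := by
      rw [chainN]
      refine Finset.sum_le_sum fun X hX => ?_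
      rw [Nat.card_prod]
      exact Nat.mul_le_mul (ih X hX) le_rfl
    refine h1.trans ?_
    have h2 : ∑ X ∈ S,
        Nat.card ({v : List ℕ // v.Perm (List.range n) ∧ Av1324 v ∧
          v.filter (fun t => decide (t < N)) = X} × {s : List ℕ // Colm N m X X' s}) =
        Nat.card (Σ X : S, ({v : List ℕ // v.Perm (List.range n) ∧ Av1324 v ∧
          v.filter (fun t => decide (t < N)) = X.1} × {s : List ℕ // Colm N m X.1 X' s})) := by
      rw [Nat.card_sigma]
      exact (Finset.sum_coe_sort S (fun X => Nat.card ({v : List ℕ // v.Perm (List.range n) ∧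
        Av1324 v ∧ v.filter (fun t => decide (t < N)) = X} ×
          {s : List ℕ // Colm N m X X' s}))).symm
    rw [h2]
    have hNn : N ≤ n := by
      rw [hn]; nlinarith [Nat.zero_le (ms.length * N), Nat.zero_le ms.sum]
    have key : ∀ (X : S) (v : {v : List ℕ // v.Perm (List.range n) ∧ Av1324 v ∧
          v.filter (fun t => decide (t < N)) = X.1}) (s : {s : List ℕ // Colm N m X.1 X' s}),
        (v.1.map (enumC s.1) ++ s.1).Perm (List.range (n + N + m)) ∧
          Av1324 (v.1.map (enumC s.1) ++ s.1) ∧
          (v.1.map (enumC s.1) ++ s.1).filter (fun t => decide (t < N)) = X' := by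
      intro X v s
      refine h_GLUE n N m v.1 s.1 X' hNn v.2.1 v.2.2.1 (hS X' hX').1 ?_
      rw [v.2.2.2]
      exact s.2
    refine Nat.card_le_card_of_injective (fun p => (⟨p.2.1.1.map (enumC p.2.2.1) ++ p.2.2.1,
      key p.1 p.2.1 p.2.2⟩ : {v : List ℕ // v.Perm (List.range (n + N + m)) ∧ Av1324 v ∧
        v.filter (fun t => decide (t < N)) = X'})) ?_
    rintro ⟨⟨X, hX⟩, ⟨v, hv⟩, ⟨s, hs⟩⟩ ⟨⟨X₂, hX₂⟩, ⟨v₂, hv₂⟩, ⟨s₂, hs₂⟩⟩ h
    have h3 := congrArg Subtype.val h
    simp only at h3
    obtain ⟨h4, h5⟩ := h_GLUI v s v₂ s₂ h3 (by rw [hs.len, hs₂.len])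
    have h6 : X = X₂ := by
      have e1 := hv.2.2
      have e2 := hv₂.2.2
      simp only at e1 e2
      rw [← e1, ← e2, h5]
    subst h4
    subst h5
    subst h6
    rfl

end SL1324
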