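import Pool.Agent.Lib.MP_b8e197_co.SL.Iface

/-!
# Project SL: module CHR (2.6)
-/

set_option linter.all false

namespace SL1324

open H98Av (Av1324 Av132)

namespace CHR

/-- lists of length `k` with entries `≤ mm` -/
def Lk (mm : ℕ) : ℕ → Finset (List ℕ)
  | 0 => {[]}
  | k + 1 => ((Finset.range (mm + 1)) ×ˢ (Lk mm k)).image (fun p => p.1 :: p.2)

theorem sum_Lk (mm k : ℕ) (F : List ℕ → ℝ) :
    ∑ l ∈ Lk mm (k + 1), F l = ∑ m ∈ Finset.range (mm + 1), ∑ ms ∈ Lk mm k, F (m :: ms) := by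
  rw [Lk, Finset.sum_image, Finset.sum_product]
  intro a _ b _ h
  simp only [List.cons.injEq] at h
  exact Prod.ext h.1 h.2

theorem card_Lk (mm : ℕ) : ∀ k, (Lk mm k).card ≤ (mm + 1) ^ k
  | 0 => by simp [Lk]
  | k + 1 => by
    rw [Lk]
    refine Finset.card_image_le.trans ?_
    rw [Finset.card_product, Finset.card_range, pow_succ']
    exact Nat.mul_le_mul_left _ (card_Lk mm k)

theorem len_Lk (mm : ℕ) : ∀ k, ∀ l ∈ Lk mm k, l.length = k
  | 0, l, h => by
    simp only [Lk, Finset.mem_singleton] at h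
    simp [h]
  | k + 1, l, h => by
    simp only [Lk, Finset.mem_image, Finset.mem_product] at h
    obtain ⟨p, hp, rfl⟩ := h
    simp [len_Lk mm k p.2 hp.2]

theorem Lk_nonempty (mm : ℕ) : ∀ k, (Lk mm k).Nonempty
  | 0 => ⟨[], by simp [Lk]⟩
  | k + 1 => by
    obtain ⟨x, hx⟩ := Lk_nonempty mm k
    refine ⟨0 :: x, ?_⟩
    simp only [Lk, Finset.mem_image, Finset.mem_product]
    exact ⟨(0, x), ⟨by simp, hx⟩, rfl⟩

theorem chainR_eq (ζ : ℝ) (N mm : ℕ) (S : Finset (List ℕ)) : ∀ (k : ℕ) (X' : List ℕ),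
    chainR ζ N mm S k X' = ∑ ms ∈ Lk mm k, ζ ^ ms.sum * (chainN N S ms X' : ℝ)
  | 0, X' => by simp [chainR, Lk, chainN]
  | k + 1, X' => by
    rw [chainR, sum_Lk]
    have h1 : ∀ X ∈ S, chainR ζ N mm S k X *
        ∑ m ∈ Finset.range (mm + 1), ζ ^ m * (nCol N m X X' : ℝ) =
        ∑ m ∈ Finset.range (mm + 1), ∑ ms ∈ Lk mm k,
          ζ ^ (m + ms.sum) * ((chainN N S ms X : ℝ) * (nCol N m X X' : ℝ)) := by
      intro X _
      rw [chainR_eq ζ N mm S k X, Finset.mul_sum]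
      refine Finset.sum_congr rfl fun m _ => ?_
      rw [Finset.sum_mul]
      refine Finset.sum_congr rfl fun ms _ => ?_
      rw [pow_add]; ring
    rw [Finset.sum_congr rfl h1, Finset.sum_comm]
    refine Finset.sum_congr rfl fun m _ => ?_
    rw [Finset.sum_comm]
    refine Finset.sum_congr rfl fun ms _ => ?_
    rw [chainN, List.sum_cons]
    push_cast
    rw [Finset.mul_sum]

theorem finite_perm (n : ℕ) (P : List ℕ → Prop) :
    Finite {v : List ℕ // v.Perm (List.range n) ∧ P v} := by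
  have h : {v : List ℕ | v ∈ (List.range n).permutations}.Finite := List.finite_toSet _
  have h2 : {v : List ℕ | v.Perm (List.range n) ∧ P v} ⊆
      {v : List ℕ | v ∈ (List.range n).permutations} :=
    fun v hv => List.mem_permutations.2 hv.1
  exact (h.subset h2).to_subtype

theorem sum_chainN (h_CHN : ChnStatement) (N : ℕ) (S : Finset (List ℕ))
    (hS : ∀ X ∈ S, X.Perm (List.range N) ∧ Av1324 X) (ms : List ℕ) :
    ∑ X ∈ S, chainN N S ms X ≤ cntAv ((ms.length + 1) * N + ms.sum) := by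
  set n := (ms.length + 1) * N + ms.sum with hn
  haveI hfA : ∀ X : List ℕ, Finite {v : List ℕ // v.Perm (List.range n) ∧ Av1324 v ∧
      v.filter (fun t => decide (t < N)) = X} := fun X => finite_perm n _
  haveI hfC : Finite {v : List ℕ // v.Perm (List.range n) ∧ Av1324 v} := finite_perm n _
  have h1 : ∑ X ∈ S, chainN N S ms X ≤ ∑ X ∈ S,
      Nat.card {v : List ℕ // v.Perm (List.range n) ∧ Av1324 v ∧
        v.filter (fun t => decide (t < N)) = X} :=
    Finset.sum_le_sum fun X hX => h_CHN N S hS ms X hX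
  refine h1.trans ?_
  have h2 : ∑ X ∈ S,
      Nat.card {v : List ℕ // v.Perm (List.range n) ∧ Av1324 v ∧
        v.filter (fun t => decide (t < N)) = X} =
      Nat.card (Σ X : S, {v : List ℕ // v.Perm (List.range n) ∧ Av1324 v ∧
        v.filter (fun t => decide (t < N)) = X.1}) := by
    rw [Nat.card_sigma]
    exact (Finset.sum_coe_sort S (fun X => Nat.card {v : List ℕ // v.Perm (List.range n) ∧
      Av1324 v ∧ v.filter (fun t => decide (t < N)) = X})).symm
  rw [h2, cntAv]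
  refine Nat.card_le_card_of_injective (fun p => (⟨p.2.1, p.2.2.1, p.2.2.2.1⟩ :
    {v : List ℕ // v.Perm (List.range n) ∧ Av1324 v})) ?_
  rintro ⟨⟨X, hX⟩, ⟨v, hv⟩⟩ ⟨⟨X₂, hX₂⟩, ⟨v₂, hv₂⟩⟩ h
  have h3 : v = v₂ := congrArg Subtype.val h
  have h6 : X = X₂ := by
    have e1 := hv.2.2
    have e2 := hv₂.2.2
    simp only at e1 e2
    rw [← e1, ← e2, h3]
  subst h3
  subst h6
  rfl

end CHR

open CHR in
theorem chr (h_CHN : ChnStatement) : ChrStatement := by
  intro ζ hζ N mm S hS k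
  obtain ⟨l, hl, hmax⟩ := Finset.exists_max_image (Lk mm k)
    (fun ms => ζ ^ ((k + 1) * N + ms.sum) * (cntAv ((k + 1) * N + ms.sum) : ℝ)) (Lk_nonempty mm k)
  refine ⟨(k + 1) * N + l.sum, Nat.le_add_right _ _, ?_⟩
  have h1 : ζ ^ ((k + 1) * N) * ∑ X ∈ S, chainR ζ N mm S k X =
      ∑ ms ∈ Lk mm k, ζ ^ ((k + 1) * N + ms.sum) * ((∑ X ∈ S, chainN N S ms X : ℕ) : ℝ) := by
    simp_rw [chainR_eq]
    rw [Finset.sum_comm, Finset.mul_sum]
    refine Finset.sum_congr rfl fun ms _ => ?_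
    push_cast
    rw [← Finset.mul_sum, pow_add]
    ring
  rw [h1]
  have h2 : ∀ ms ∈ Lk mm k,
      ζ ^ ((k + 1) * N + ms.sum) * ((∑ X ∈ S, chainN N S ms X : ℕ) : ℝ) ≤
      ζ ^ ((k + 1) * N + l.sum) * (cntAv ((k + 1) * N + l.sum) : ℝ) := by
    intro ms hms
    refine le_trans ?_ (hmax ms hms)
    refine mul_le_mul_of_nonneg_left ?_ (pow_nonneg hζ.le _)
    have h3 := sum_chainN h_CHN N S hS ms
    rw [len_Lk mm k ms hms] at h3
    exact_mod_cast h3
  have h4 : ∑ ms ∈ Lk mm k,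
      ζ ^ ((k + 1) * N + ms.sum) * ((∑ X ∈ S, chainN N S ms X : ℕ) : ℝ) ≤
      (Lk mm k).card • (ζ ^ ((k + 1) * N + l.sum) * (cntAv ((k + 1) * N + l.sum) : ℝ)) :=
    Finset.sum_le_card_nsmul _ _ _ h2
  refine h4.trans ?_
  rw [nsmul_eq_mul]
  refine mul_le_mul_of_nonneg_right ?_ (mul_nonneg (pow_nonneg hζ.le _) (Nat.cast_nonneg _))
  have h5 := card_Lk mm k
  exact_mod_cast h5

end SL1324
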