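import Pool.Agent.Lib.MP_b8e197_co.SL.StepInd

/-!
# Project SL: module CI (4.8), injectivity of the map from words to columns
-/

set_option linter.all false

namespace SL1324

namespace CI

theorem bld_cons (N : ℕ) (X' : List ℕ) (mv : Mv) (w : List Mv) :
    bld N X' (mv :: w) = bstep mv (bld N X' w) := rfl

/-- all listed values are between `N` and `c` -/
theorem rng (hCB : CbStatement) {N : ℕ} {X' : List ℕ} {σ : St} {w : List Mv}
    (hX : X'.Perm (List.range N)) (hy : σ.ys.length ≤ N) (h : NN σ w fin0) :
    (∀ t ∈ (bld N X' w).stk, N ≤ t ∧ t < (bld N X' w).c) ∧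
      ∀ t ∈ (bld N X' w).lv, N ≤ t ∧ t < (bld N X' w).c := by
  obtain ⟨-, -, -, -, -, -, -, hc, hp⟩ := hCB N X' σ w hX hy h
  have key : ∀ t, t ∈ (bld N X' w).s.filter (fun t => decide (N ≤ t)) ++ (bld N X' w).stk ++
      (bld N X' w).lv → N ≤ t ∧ t < (bld N X' w).c := by
    intro t ht
    have := hp.mem_iff.1 ht
    rw [List.mem_range'_1] at this
    omega
  exact ⟨fun t ht => key t (by simp [ht]), fun t ht => key t (by simp [ht])⟩

/-- Lemma A: outside the left phase the last value is not the value of a left letter. -/
theorem lemA (hCB : CbStatement) {N : ℕ} {X' : List ℕ} (hX : X'.Perm (List.range N)) :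
    ∀ (w : List Mv) (σ : St), σ.ys.length ≤ N → NN σ w fin0 → σ.fl ≠ .L →
      ∀ t ∈ (bld N X' w).lv, t + 1 < (bld N X' w).c := by
  intro w
  induction w with
  | nil =>
    intro σ _ _ _ t ht
    exact absurd ht (by simp [bld])
  | cons mv w ih =>
    intro σ hy h hfl t ht
    obtain ⟨h0, σ', -, hs, hr⟩ := nn_cons h
    rw [bld_cons] at ht ⊢
    cases hs with
    | r y lf rm xs ys => exact ih _ (by exact hy) hr (by simp) t ht
    | D y lf rm xs ys hf =>
      have := (rng hCB (σ := ⟨.L, y - 1, lf, minUp rm (y - 1), xs, ys⟩) hX hy hr).2 t ht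
      show t + 1 < (bld N X' w).c + 1
      omega
    | l y lf rm xs ys => exact absurd rfl hfl
    | L y lf rm b xs ys => exact absurd rfl hfl
    | U y lf rm xs ys =>
      have ih' := ih _ (by exact hy) hr (by simp)
      revert ht
      unfold bstep
      dsimp only
      split
      · intro ht; exact ih' t ht
      · intro ht; exact ih' t ht
    | R y lf rm xs b ys hf =>
      have ih' := ih ⟨.R, y, lf, nxt b y, xs, ys⟩ (by simp at hy; simp; omega) hr (by simp)
      revert ht
      unfold bstep
      dsimp only
      split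
      · intro ht; exact ih' t ht
      · intro ht; exact ih' t ht

/-- Lemma B: in the right phase the last value is not on the stack. -/
theorem lemB (hCB : CbStatement) {N : ℕ} {X' : List ℕ} (hX : X'.Perm (List.range N)) :
    ∀ (w : List Mv) (σ : St), σ.ys.length ≤ N → NN σ w fin0 → σ.fl = .R →
      ∀ t ∈ (bld N X' w).stk, t + 1 < (bld N X' w).c := by
  intro w
  induction w with
  | nil =>
    intro σ _ h hfl
    rw [nn_nil h] at hfl
    exact absurd hfl (by simp [fin0, init])
  | cons mv w ih =>
    intro σ hy h hfl t ht
    obtain ⟨h0, σ', -, hs, hr⟩ := nn_cons h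
    rw [bld_cons] at ht ⊢
    cases hs with
    | r y lf rm xs ys => exact absurd hfl (by simp)
    | D y lf rm xs ys hf => exact absurd hfl (by simp)
    | l y lf rm xs ys => exact absurd hfl (by simp)
    | L y lf rm b xs ys => exact absurd hfl (by simp)
    | U y lf rm xs ys =>
      have hcb := hCB N X' ⟨.F, y + 1, lf, rm, xs, ys⟩ w hX hy hr
      have hrg := rng hCB (σ := ⟨.F, y + 1, lf, rm, xs, ys⟩) hX hy hr
      have hlen := hcb.1
      have hpw := hcb.2.2.2.2.2.1
      revert ht
      unfold bstep
      dsimp only
      split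
      · next hst =>
        rw [hst] at hlen
        simp at hlen
        simp at h0
        omega
      · next t0 st hst =>
        intro ht
        rw [hst] at hpw hrg
        have h1 := (List.pairwise_cons.1 hpw).1 t ht
        have h2 := hrg.1 t0 (by simp)
        show t + 1 < (bld N X' w).c
        omega
    | R y lf rm xs b ys hf =>
      have ih' := ih ⟨.R, y, lf, nxt b y, xs, ys⟩ (by simp at hy; simp; omega) hr rfl
      revert ht
      unfold bstep
      dsimp only
      split
      · intro ht; exact ih' t ht
      · intro ht; exact ih' t ht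

/-- after an up move -/
theorem afterU (hCB : CbStatement) {N : ℕ} {X' : List ℕ} (hX : X'.Perm (List.range N))
    {y : ℤ} {lf rm : Option ℤ} {xs ys : List Bool} {w : List Mv} (hy : ys.length ≤ N)
    (h0 : 0 ≤ y) (hr : NN ⟨.F, y + 1, lf, rm, xs, ys⟩ w fin0) :
    ∃ t st, (bld N X' w).stk = t :: st ∧ N ≤ t ∧ (bld N X' (.U :: w)).s = t :: (bld N X' w).s ∧
      (bld N X' (.U :: w)).stk = st := by
  have hcb := hCB N X' ⟨.F, y + 1, lf, rm, xs, ys⟩ w hX hy hr
  have hrg := rng hCB (σ := ⟨.F, y + 1, lf, rm, xs, ys⟩) hX hy hr
  have hlen := hcb.1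
  rw [bld_cons]
  unfold bstep
  dsimp only
  split
  · next hst =>
    rw [hst] at hlen
    simp at hlen
    omega
  · next t0 st hst =>
    exact ⟨t0, st, hst, (hrg.1 t0 (by rw [hst]; simp)).1, rfl, rfl⟩

/-- after a right letter -/
theorem afterR (hCB : CbStatement) {N : ℕ} {X' : List ℕ} (hX : X'.Perm (List.range N))
    {y : ℤ} {lf rm : Option ℤ} {xs ys : List Bool} {w : List Mv} (hy : ys.length + 1 ≤ N)
    (hr : NN ⟨.R, y, lf, rm, xs, ys⟩ w fin0) :
    ∃ a, a < N ∧ (bld N X' (.R :: w)).s = a :: (bld N X' w).s ∧
      (bld N X' (.R :: w)).stk = (bld N X' w).stk := by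
  have hcb := hCB N X' ⟨.R, y, lf, rm, xs, ys⟩ w hX (by simp; omega) hr
  have hrem := hcb.2.2.1
  rw [bld_cons]
  unfold bstep
  dsimp only at hrem ⊢
  split
  · next hst =>
    rw [hst] at hrem
    have := congrArg List.length hrem
    rw [List.length_drop, List.length_reverse, hX.length_eq] at this
    simp at this
    omega
  · next a r hst =>
    refine ⟨a, ?_, rfl, rfl⟩
    have h1 : a ∈ X'.reverse.drop ys.length := by rw [← hrem, hst]; simp
    have h2 : a ∈ X' := by
      have := List.mem_of_mem_drop h1
      simpa using this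
    have := hX.mem_iff.1 h2
    simpa using this

/-- the empty column comes from the empty word only -/
theorem lemC (hCB : CbStatement) {N : ℕ} {X' : List ℕ} (hX : X'.Perm (List.range N))
    (w : List Mv) (h : NN fin0 w fin0) (hs : (bld N X' w).s = []) : w = [] := by
  cases w with
  | nil => rfl
  | cons mv w =>
    exfalso
    obtain ⟨h0, σ', -, hst, hr⟩ := nn_cons h
    have hf : fin0 = ⟨.F, 0, none, none, [], []⟩ := rfl
    rw [hf] at hst
    cases hst with
    | r =>
      cases w with
      | nil =>
        have := nn_nil hr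
        rw [hf] at this
        simp at this
      | cons mv2 w =>
        obtain ⟨h02, σ2, -, hst2, hr2⟩ := nn_cons hr
        cases hst2 with
        | U =>
          obtain ⟨t, st, -, -, h1, -⟩ := afterU hCB hX (by simp) h02 hr2
          have h2 : bld N X' (.r :: .U :: w) = bld N X' (.U :: w) := rfl
          rw [h2, h1] at hs
          cases hs
    | D _ _ _ _ _ hfl =>
      have := nn_nonneg hr
      simp at this

/-- `c` and `lv` are determined -/
theorem det (hCB : CbStatement) {N : ℕ} {X' : List ℕ} {σ : St} {w w' : List Mv}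
    (hX : X'.Perm (List.range N)) (hy : σ.ys.length ≤ N) (h : NN σ w fin0) (h' : NN σ w' fin0)
    (hs : (bld N X' w).s = (bld N X' w').s) (hk : (bld N X' w).stk = (bld N X' w').stk) :
    (bld N X' w).c = (bld N X' w').c ∧ (bld N X' w).lv = (bld N X' w').lv := by
  obtain ⟨-, hl, -, -, -, -, hpw, hc, hp⟩ := hCB N X' σ w hX hy h
  obtain ⟨-, hl', -, -, -, -, hpw', hc', hp'⟩ := hCB N X' σ w' hX hy h'
  have e1 := hp.length_eq
  have e2 := hp'.length_eq
  simp only [List.length_append, List.length_range'] at e1 e2
  rw [hs, hk] at e1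
  have ec : (bld N X' w).c = (bld N X' w').c := by omega
  refine ⟨ec, ?_⟩
  rw [hs, hk, ec] at hp
  have h3 := hp.trans hp'.symm
  rw [List.perm_append_left_iff] at h3
  exact h3.eq_of_pairwise (fun a b _ _ h1 h2 => absurd h1 (by omega)) hpw hpw'

end CI

theorem ci (hCB : CbStatement) : CiStatement := by
  intro N X' σ w w' hX
  induction w generalizing σ w' with
  | nil =>
    intro hy h h' hs hk
    have := nn_nil h
    subst this
    exact (CI.lemC hCB hX w' h' (by rw [← hs]; rfl)).symm
  | cons mv w ih =>
    intro hy h h' hs hk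
    cases w' with
    | nil =>
      have := nn_nil h'
      subst this
      exact CI.lemC hCB hX _ h (by rw [hs]; rfl)
    | cons mv' w' =>
      obtain ⟨ec, el⟩ := CI.det hCB hX hy h h' hs hk
      obtain ⟨h0, σ1, hst1, hp1, hr1⟩ := nn_cons h
      obtain ⟨h0', σ2, hst2, hp2, hr2⟩ := nn_cons h'
      cases hp1 with
      | r y lf rm xs ys =>
        cases hp2 with
        | r =>
          rw [ih _ w' (by exact hy) hr1 hr2 hs hk]
        | D _ _ _ _ _ hf =>
          exfalso
          have hB := CI.lemB hCB hX w _ (by exact hy) hr1 rfl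
          have hk' : (bld N X' w).stk = (bld N X' w').c :: (bld N X' w').stk := hk
          have ec' : (bld N X' w).c = (bld N X' w').c + 1 := ec
          have := hB (bld N X' w').c (by rw [hk']; simp)
          omega
      | D y lf rm xs ys hf =>
        cases hp2 with
        | r =>
          exfalso
          have hB := CI.lemB hCB hX w' _ (by exact hy) hr2 rfl
          have hk' : (bld N X' w).c :: (bld N X' w).stk = (bld N X' w').stk := hk
          have ec' : (bld N X' w).c + 1 = (bld N X' w').c := ec
          have := hB (bld N X' w).c (by rw [← hk']; simp)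
          omega
        | D _ _ _ _ _ hf' =>
          have hk' : (bld N X' w).c :: (bld N X' w).stk =
            (bld N X' w').c :: (bld N X' w').stk := hk
          rw [ih _ w' (by exact hy) hr1 hr2 hs (List.cons.inj hk').2]
      | l y lf rm xs ys =>
        cases hp2 with
        | l => rw [ih _ w' (by exact hy) hr1 hr2 hs hk]
        | L _ _ _ b xs _ =>
          exfalso
          have hA := CI.lemA hCB hX w _ (by exact hy) hr1 (by simp)
          have el' : (bld N X' w).lv = (bld N X' w').lv ++ [(bld N X' w').c] := el
          have ec' : (bld N X' w).c = (bld N X' w').c + 1 := ec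
          have := hA (bld N X' w').c (by rw [el']; simp)
          omega
      | L y lf rm b xs ys =>
        cases hp2 with
        | l =>
          exfalso
          have hA := CI.lemA hCB hX w' _ (by exact hy) hr2 (by simp)
          have el' : (bld N X' w).lv ++ [(bld N X' w).c] = (bld N X' w').lv := el
          have ec' : (bld N X' w).c + 1 = (bld N X' w').c := ec
          have := hA (bld N X' w).c (by rw [← el']; simp)
          omega
        | L => rw [ih _ w' (by exact hy) hr1 hr2 hs hk]
      | U y lf rm xs ys =>
        obtain ⟨t, st, e1, e2, e3, e4⟩ := CI.afterU hCB hX hy h0 hr1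
        cases hp2 with
        | U =>
          obtain ⟨t', st', e1', e2', e3', e4'⟩ := CI.afterU hCB hX hy h0 hr2
          rw [e3, e3'] at hs
          rw [e4, e4'] at hk
          obtain ⟨ht, hs'⟩ := List.cons.inj hs
          rw [ih _ w' (by exact hy) hr1 hr2 hs' (by rw [e1, e1', ht, hk])]
        | R _ _ _ _ b ys hf =>
          exfalso
          obtain ⟨a, ha, e5, -⟩ := CI.afterR hCB hX (by simpa using hy) hr2
          rw [e3, e5] at hs
          have := (List.cons.inj hs).1
          omega
      | R y lf rm xs b ys hf =>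
        obtain ⟨a, ha, e5, e6⟩ := CI.afterR hCB hX (by simpa using hy) hr1
        cases hp2 with
        | U =>
          exfalso
          obtain ⟨t', st', e1', e2', e3', e4'⟩ := CI.afterU hCB hX hy h0 hr2
          rw [e5, e3'] at hs
          have := (List.cons.inj hs).1
          omega
        | R _ _ _ _ _ _ hf' =>
          obtain ⟨a', ha', e5', e6'⟩ := CI.afterR hCB hX (by simpa using hy) hr2
          rw [e5, e5'] at hs
          rw [e6, e6'] at hk
          rw [ih _ w' (by simp at hy; simp; omega) hr1 hr2 (List.cons.inj hs).2 hk]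

end SL1324
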