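import Pool.Agent.Lib.MP_b8e197_co.SL.StepInd

/-!
# Project SL: module CL (4.4), left invariants
-/

set_option linter.all false

namespace SL1324

open H98Av (Av1324 Av132)

namespace CL

theorem bld_cons (N : ℕ) (X' : List ℕ) (mv : Mv) (w : List Mv) :
    bld N X' (mv :: w) = bstep mv (bld N X' w) := rfl

/-- all listed values are below `c` -/
theorem rng (hCB : CbStatement) {N : ℕ} {X' : List ℕ} {σ : St} {w : List Mv}
    (hX : X'.Perm (List.range N)) (hy : σ.ys.length ≤ N) (h : NN σ w fin0) :
    (∀ t ∈ (bld N X' w).stk, t < (bld N X' w).c) ∧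
      ∀ t ∈ (bld N X' w).lv, t < (bld N X' w).c := by
  obtain ⟨-, -, -, -, -, -, -, hc, hp⟩ := hCB N X' σ w hX hy h
  have key : ∀ t, t ∈ (bld N X' w).s.filter (fun t => decide (N ≤ t)) ++ (bld N X' w).stk ++
      (bld N X' w).lv → t < (bld N X' w).c := by
    intro t ht
    have := hp.mem_iff.1 ht
    rw [List.mem_range'_1] at this
    omega
  exact ⟨fun t ht => key t (by simp [ht]), fun t ht => key t (by simp [ht])⟩

theorem afterU (hCB : CbStatement) {N : ℕ} {X' : List ℕ} (hX : X'.Perm (List.range N))
    {y : ℤ} {lf rm : Option ℤ} {xs ys : List Bool} {w : List Mv} (hy : ys.length ≤ N)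
    (h0 : 0 ≤ y) (hr : NN ⟨.F, y + 1, lf, rm, xs, ys⟩ w fin0) :
    ∃ t, (bld N X' w).stk = t :: (bld N X' (.U :: w)).stk ∧
      (bld N X' (.U :: w)).lv = (bld N X' w).lv ∧
      ((bld N X' (.U :: w)).stk.length : ℤ) = y := by
  have hcb := hCB N X' ⟨.F, y + 1, lf, rm, xs, ys⟩ w hX hy hr
  have hlen := hcb.1
  rw [bld_cons]
  unfold bstep
  dsimp only
  split
  · next hst =>
    rw [hst] at hlen
    simp at hlen
    omega
  · next t0 st hst =>
    rw [hst] at hlen
    refine ⟨t0, hst, rfl, ?_⟩
    simp at hlen
    exact hlen

theorem afterR (N : ℕ) (X' : List ℕ) (w : List Mv) :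
    (bld N X' (.R :: w)).stk = (bld N X' w).stk ∧ (bld N X' (.R :: w)).lv = (bld N X' w).lv := by
  rw [bld_cons]
  unfold bstep
  dsimp only
  split
  · exact ⟨rfl, rfl⟩
  · exact ⟨rfl, rfl⟩

theorem getD_app_left {l l' : List ℕ} {k : ℕ} (h : k < l.length) :
    (l ++ l').getD k 0 = l.getD k 0 := by
  rw [List.getD_append _ _ _ _ h]

/-- first part -/
theorem part1 (hCB : CbStatement) (hSTI : StiStatement) {N : ℕ} {X' : List ℕ}
    (hX : X'.Perm (List.range N)) : ∀ (w : List Mv) (σ : St), σ.ys.length ≤ N → Inv σ →
      NN σ w fin0 → ∀ f : ℤ, σ.lf = some f → ∀ k : ℕ, (k : ℤ) < f → ∀ a, a < σ.xs.length →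
      (∀ i, i < σ.xs.length - 1 - a → σ.xs.getD i false = true) →
        (bld N X' w).stk.reverse.getD k 0 < (bld N X' w).lv.getD a 0 := by
  intro w
  induction w with
  | nil =>
    intro σ _ _ h f hf
    rw [nn_nil h] at hf
    cases hf
  | cons mv w ih =>
    intro σ hy hinv h f hf k hk a ha hbits
    obtain ⟨h0, σ', hst, hs, hr⟩ := nn_cons h
    have hinv' := hSTI σ σ' mv hinv hst
    cases hs with
    | r y lf rm xs ys =>
      exact ih _ (by exact hy) hinv' hr f hf k hk a ha hbits
    | D y lf rm xs ys hfl =>
      have hfy : f ≤ y - 1 := by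
        have hf' : lf = some f := hf
        rw [hf'] at hfl
        simpa [floorOK] using hfl
      have hlen := (hCB N X' _ w hX (by exact hy) hr).1
      have ih' := ih _ (by exact hy) hinv' hr f hf k hk a ha hbits
      have hk' : k < (bld N X' w).stk.reverse.length := by
        rw [List.length_reverse]
        have : ((bld N X' w).stk.length : ℤ) = y - 1 := hlen
        omega
      show ((bld N X' w).c :: (bld N X' w).stk).reverse.getD k 0 < (bld N X' w).lv.getD a 0
      rw [List.reverse_cons, getD_app_left hk']
      exact ih'
    | l y lf rm xs ys =>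
      exact ih _ (by exact hy) hinv' hr f hf k hk a ha hbits
    | L y lf rm b xs ys =>
      have hcb := hCB N X' ⟨.L, y, nxt b y, rm, xs, ys⟩ w hX (by exact hy) hr
      have hlen : ((bld N X' w).stk.length : ℤ) = y := hcb.1
      have hlv : (bld N X' w).lv.length = xs.length := hcb.2.1
      have hrg := rng hCB (σ := ⟨.L, y, nxt b y, rm, xs, ys⟩) (w := w) hX (by exact hy) hr
      have hfy : f ≤ y := (hinv.lf f hf).1
      show (bld N X' w).stk.reverse.getD k 0 < ((bld N X' w).lv ++ [(bld N X' w).c]).getD a 0
      have hk' : k < (bld N X' w).stk.reverse.length := by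
        rw [List.length_reverse]
        omega
      have hmem : (bld N X' w).stk.reverse.getD k 0 ∈ (bld N X' w).stk := by
        rw [List.getD_eq_getElem _ _ hk']
        exact List.mem_reverse.1 (List.getElem_mem hk')
      simp only [List.length_cons] at ha hbits
      rcases Nat.lt_or_ge a xs.length with ha' | ha'
      · have hb : b = true := by
          have := hbits 0 (by omega)
          simpa using this
        subst hb
        rw [getD_app_left (by omega)]
        refine ih _ (by exact hy) hinv' hr y rfl k (by omega) a ha' ?_
        intro i hi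
        have := hbits (i + 1) (by dsimp only at hi; omega)
        simpa using this
      · have ha'' : a = (bld N X' w).lv.length := by omega
        rw [ha'']
        have : ((bld N X' w).lv ++ [(bld N X' w).c]).getD (bld N X' w).lv.length 0 =
            (bld N X' w).c := by
          simp [List.getD_eq_getElem?_getD]
        rw [this]
        exact hrg.1 _ hmem
    | U y lf rm xs ys =>
      obtain ⟨t, e1, e2, e3⟩ := afterU hCB hX (by exact hy) h0 hr
      have ih' := ih _ (by exact hy) hinv' hr f hf k hk a ha hbits
      have hfy : f ≤ y := (hinv.lf f hf).1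
      rw [e2]
      have hk' : k < (bld N X' (.U :: w)).stk.reverse.length := by
        rw [List.length_reverse]
        have h9 : (k : ℤ) < (bld N X' (.U :: w)).stk.length :=
          lt_of_lt_of_le hk (hfy.trans (le_of_eq e3.symm))
        exact_mod_cast h9
      rw [e1, List.reverse_cons, getD_app_left hk'] at ih'
      exact ih'
    | R y lf rm xs b ys hf' =>
      obtain ⟨e1, e2⟩ := afterR N X' w
      rw [e1, e2]
      exact ih ⟨.R, y, lf, nxt b y, xs, ys⟩ (by simp at hy; simp; omega) hinv' hr f hf k hk a ha
        hbits

/-- positions of a sublist of length two -/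
theorem pos2 {l : List ℕ} {a b : ℕ} (h : List.Sublist [a, b] l) :
    ∃ p q, p < q ∧ q < l.length ∧ l.getD p 0 = a ∧ l.getD q 0 = b := by
  have h1 : l.Pairwise (fun a b => ∃ p q, p < q ∧ q < l.length ∧ l.getD p 0 = a ∧
      l.getD q 0 = b) := by
    rw [List.pairwise_iff_getElem]
    intro i j hi hj hij
    exact ⟨i, j, hij, hj, List.getD_eq_getElem _ _ hi, List.getD_eq_getElem _ _ hj⟩
  exact List.pairwise_iff_forall_sublist.1 h1 h

/-- the left part of `Zl` -/
def xp (X lv : List ℕ) : List ℕ :=
  (X.filter (fun a => decide (a < lv.length))).map (fun a => lv.getD a 0)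

theorem mem_xp {X lv : List ℕ} {t : ℕ} (h : t ∈ xp X lv) : t ∈ lv := by
  unfold xp at h
  rw [List.mem_map] at h
  obtain ⟨a, ha, rfl⟩ := h
  have := (List.mem_filter.1 ha).2
  rw [decide_eq_true_eq] at this
  rw [List.getD_eq_getElem _ _ this]
  exact List.getElem_mem this

/-- a maximum at the end creates no pattern 132 -/
theorem av_snoc {l : List ℕ} {c : ℕ} (hl : Av132 l) (hc : ∀ t ∈ l, t < c) :
    Av132 (l ++ [c]) := by
  intro p q r h hpr
  rw [List.sublist_append_iff] at h
  obtain ⟨l1, l2, he, h1, h2⟩ := h
  have h3 : l2 = [] ∨ l2 = [c] := by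
    cases h2 with
    | cons _ h => exact Or.inl (List.sublist_nil.1 h)
    | cons_cons _ h =>
      right
      rw [List.sublist_nil.1 h]
  rcases h3 with rfl | rfl
  · rw [List.append_nil] at he
    rw [← he] at h1
    exact hl p q r h1 hpr
  · have h4 : [p, q, r] = (l1 ++ [c]) := he
    have h5 : [p, q] ++ [r] = l1 ++ [c] := by simpa using h4
    obtain ⟨h6, h7⟩ := List.append_inj' h5 rfl
    have hr : r = c := by simpa using h7
    have hq : q ∈ l := h1.subset (by rw [← h6]; simp)
    have := hc q hq
    omega

/-- second part -/
theorem part2 (hCB : CbStatement) (hSHU : ShuStatement) (hSTI : StiStatement) {N : ℕ}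
    {x : List Bool} {X X' : List ℕ} (hx : Sh x X) (hxN : x.length = N)
    (hX : X'.Perm (List.range N)) : ∀ (w : List Mv) (σ : St), σ.xs <:+ x → σ.ys.length ≤ N →
      Inv σ → NN σ w fin0 →
      Av132 (xp X (bld N X' w).lv ++ (bld N X' w).stk.reverse) := by
  intro w
  induction w with
  | nil =>
    intro σ _ _ _ _
    intro p q r h
    have h1 : xp X (bld N X' []).lv ++ (bld N X' []).stk.reverse = [] := by
      simp [bld, xp]
    rw [h1] at h
    have := h.length_le
    simp at this
  | cons mv w ih =>
    intro σ hsuf hy hinv h
    obtain ⟨h0, σ', hst, hs, hr⟩ := nn_cons h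
    have hinv' := hSTI σ σ' mv hinv hst
    cases hs with
    | r y lf rm xs ys => exact ih ⟨.R, y, lf, rm, xs, ys⟩ hsuf (by exact hy) hinv' hr
    | D y lf rm xs ys hfl =>
      have ih' := ih ⟨.L, y - 1, lf, minUp rm (y - 1), xs, ys⟩ hsuf (by exact hy) hinv' hr
      have hrg := rng hCB (σ := ⟨.L, y - 1, lf, minUp rm (y - 1), xs, ys⟩) (w := w) hX
        (by exact hy) hr
      show Av132 (xp X (bld N X' w).lv ++ ((bld N X' w).c :: (bld N X' w).stk).reverse)
      rw [List.reverse_cons, ← List.append_assoc]
      refine av_snoc ih' ?_
      intro t ht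
      rcases List.mem_append.1 ht with ht | ht
      · exact hrg.2 t (mem_xp ht)
      · exact hrg.1 t (List.mem_reverse.1 ht)
    | l y lf rm xs ys => exact ih ⟨.F, y, lf, rm, xs, ys⟩ hsuf (by exact hy) hinv' hr
    | U y lf rm xs ys =>
      obtain ⟨t, e1, e2, e3⟩ := afterU hCB hX (by exact hy) h0 hr
      have ih' := ih ⟨.F, y + 1, lf, rm, xs, ys⟩ hsuf (by exact hy) hinv' hr
      rw [e1, List.reverse_cons] at ih'
      rw [e2]
      intro p q r h
      refine ih' p q r (h.trans ?_)
      rw [← List.append_assoc]
      exact List.sublist_append_left _ _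
    | R y lf rm xs b ys hf' =>
      obtain ⟨e1, e2⟩ := afterR N X' w
      rw [e1, e2]
      exact ih ⟨.R, y, lf, nxt b y, xs, ys⟩ hsuf (by simp at hy; simp; omega) hinv' hr
    | L y lf rm b xs ys =>
      have hsuf' : xs <:+ x := (List.suffix_cons b xs).trans hsuf
      have ih' := ih ⟨.L, y, nxt b y, rm, xs, ys⟩ hsuf' (by exact hy) hinv' hr
      have hcb := hCB N X' ⟨.L, y, nxt b y, rm, xs, ys⟩ w hX (by exact hy) hr
      have hrg := rng hCB (σ := ⟨.L, y, nxt b y, rm, xs, ys⟩) (w := w) hX (by exact hy) hr
      have p1 := part1 hCB hSTI hX w ⟨.L, y, nxt b y, rm, xs, ys⟩ (by exact hy) hinv' hr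
      have hlen : ((bld N X' w).stk.length : ℤ) = y := hcb.1
      have hlv : (bld N X' w).lv.length = xs.length := hcb.2.1
      have hlvinc : (bld N X' w).lv.Pairwise (· < ·) := hcb.2.2.2.2.2.2.1
      show Av132 (xp X ((bld N X' w).lv ++ [(bld N X' w).c]) ++ (bld N X' w).stk.reverse)
      generalize hS : (bld N X' w).stk.reverse = S at *
      generalize hlvg : (bld N X' w).lv = lv at *
      generalize hcg : (bld N X' w).c = c at *
      generalize hstk : (bld N X' w).stk = stk at *
      -- the new enumeration
      have eold : ∀ a, a < lv.length → (lv ++ [c]).getD a 0 = lv.getD a 0 := fun a ha =>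
        getD_app_left ha
      have enew : (lv ++ [c]).getD lv.length 0 = c := by
        simp [List.getD_eq_getElem?_getD]
      have elt : ∀ a, a < lv.length → lv.getD a 0 < c := by
        intro a ha
        rw [List.getD_eq_getElem _ _ ha]
        exact hrg.2 _ (List.getElem_mem ha)
      have einc : ∀ a a', a < a' → a' < lv.length → lv.getD a 0 < lv.getD a' 0 := by
        intro a a' h1 h2
        rw [List.getD_eq_getElem _ _ h2, List.getD_eq_getElem _ _ (h1.trans h2)]
        exact List.pairwise_iff_getElem.1 hlvinc _ _ _ _ h1
      have einc' : ∀ a a', a < lv.length + 1 → a' < lv.length + 1 →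
          (lv ++ [c]).getD a 0 < (lv ++ [c]).getD a' 0 → a < a' := by
        intro a a' h1 h2 h3
        by_contra hcon
        rcases Nat.eq_or_lt_of_le (Nat.le_of_not_lt hcon) with h4 | h4
        · rw [h4] at h3
          exact lt_irrefl _ h3
        · rcases Nat.lt_or_ge a lv.length with h5 | h5
          · rw [eold a h5, eold a' (by omega)] at h3
            have := einc a' a h4 h5
            omega
          · have h6 : a = lv.length := by omega
            subst h6
            rw [enew, eold a' h4] at h3
            have := elt a' h4
            omega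
      intro p q r hsub hpr
      rw [List.sublist_append_iff] at hsub
      obtain ⟨l1, l2, he, h1, h2⟩ := hsub
      unfold xp at h1
      rw [List.sublist_map_iff] at h1
      obtain ⟨m1, hm1, rfl⟩ := h1
      have hlen1 : (lv ++ [c]).length = lv.length + 1 := by simp
      -- members of `m1`
      have hmem : ∀ a ∈ m1, a < lv.length + 1 := by
        intro a ha
        have := (List.mem_filter.1 (hm1.subset ha)).2
        rw [decide_eq_true_eq] at this
        omega
      have hm1X : m1.Sublist X := hm1.trans List.filter_sublist
      -- if all members are old, use `ih'`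
      have hold : (∀ a ∈ m1, a < lv.length) → False := by
        intro hall
        refine ih' p q r ?_ hpr
        rw [he]
        refine List.Sublist.append ?_ h2
        unfold xp
        have e : m1.map (fun a => (lv ++ [c]).getD a 0) = m1.map (fun a => lv.getD a 0) := by
          refine List.map_congr_left fun a ha => eold a (hall a ha)
        rw [e]
        refine List.Sublist.map _ ?_
        have e2 : m1 = m1.filter (fun a => decide (a < lv.length)) := by
          rw [List.filter_eq_self.2]
          intro a ha
          simpa using hall a ha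
        rw [e2]
        exact hm1X.filter _
      -- the members of `S` are below `c`
      have hSc : ∀ t ∈ S, t < c := by
        intro t ht
        rw [← hS] at ht
        exact hrg.1 t (List.mem_reverse.1 ht)
      match m1, he, h2, hm1, hmem, hm1X, hold with
      | [], he, h2, hm1, hmem, hm1X, hold => exact hold (by simp)
      | [α], he, h2, hm1, hmem, hm1X, hold =>
        simp only [List.map_cons, List.map_nil, List.cons_append, List.nil_append,
          List.cons.injEq] at he
        obtain ⟨hp, hl2⟩ := he
        rw [← hl2] at h2
        have hq : q < c := hSc q (h2.subset (by simp))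
        refine hold ?_
        intro a ha
        rw [List.mem_singleton] at ha
        subst ha
        have := hmem a (by simp)
        by_contra hcon
        have h3 : a = lv.length := by omega
        rw [h3, enew] at hp
        omega
      | [α, β], he, h2, hm1, hmem, hm1X, hold =>
        simp only [List.map_cons, List.map_nil, List.cons_append, List.nil_append,
          List.cons.injEq] at he
        obtain ⟨hp, hq, hl2⟩ := he
        rw [← hl2] at h2
        have hrS : r ∈ S := h2.subset (by simp)
        have hα := hmem α (by simp)
        have hβ := hmem β (by simp)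
        have hαβ : α < β := einc' α β hα hβ (by rw [← hp, ← hq]; omega)
        rcases Nat.lt_or_ge β lv.length with hβ' | hβ'
        · refine hold ?_
          intro a ha
          simp only [List.mem_cons, List.not_mem_nil, or_false] at ha
          rcases ha with rfl | rfl
          · omega
          · exact hβ'
        · have hβe : β = lv.length := by omega
          subst hβe
          rw [eold α hαβ] at hp
          -- positions
          obtain ⟨i1, i2, hi, hi2, hXi1, hXi2⟩ := pos2 hm1X
          have hXlen : X.length = N := by
            rw [hx.1.length_eq, List.length_range, hxN]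
          have hb := (hSHU.2.2 x X hx i1 i2 hi hi2 (by rw [hXi1, hXi2]; exact hαβ)).2
          rw [hXi1, hXi2, hXlen] at hb
          -- the suffix
          obtain ⟨pre, hpre⟩ := hsuf
          have hpl : pre.length + (xs.length + 1) = N := by
            rw [← hxN, ← hpre]
            simp
          have hbits : ∀ i, i < xs.length - α → (b :: xs).getD i false = true := by
            intro i hi'
            have h3 := hb (pre.length + i) (by omega) (by omega)
            rw [← hpre, List.getD_append_right _ _ _ _ (by omega)] at h3
            rw [show pre.length + i - pre.length = i by omega] at h3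
            exact h3
          have hbt : b = true := by
            have := hbits 0 (by omega)
            simpa using this
          subst hbt
          obtain ⟨k, hk, hkr⟩ := List.mem_iff_getElem.1 hrS
          have hSlen : S.length = stk.length := by rw [← hS]; simp
          have := p1 y rfl k (by omega) α (by dsimp only; omega) (by
            intro i hi'
            dsimp only at hi' ⊢
            have := hbits (i + 1) (by omega)
            simpa using this)
          rw [List.getD_eq_getElem _ _ hk, hkr, ← hp] at this
          omega
      | [α, β, γ], he, h2, hm1, hmem, hm1X, hold =>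
        simp only [List.map_cons, List.map_nil, List.cons_append, List.nil_append,
          List.cons.injEq] at he
        obtain ⟨hp, hq, hr', hl2⟩ := he
        have hα := hmem α (by simp)
        have hβ := hmem β (by simp)
        have hγ := hmem γ (by simp)
        refine hx.2.1 α β γ hm1X ⟨einc' α γ hα hγ (by rw [← hp, ← hr']; omega),
          einc' γ β hγ hβ (by rw [← hq, ← hr']; omega)⟩
      | α :: β :: γ :: δ :: m, he, h2, hm1, hmem, hm1X, hold =>
        have := congrArg List.length he
        simp at this

end CL

theorem cl (hCB : CbStatement) (hSHU : ShuStatement) (hSTI : StiStatement) : ClStatement := by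
  intro N x X X' σ w hx hxN hX hsuf hy hinv h
  exact ⟨CL.part1 hCB hSTI hX w σ hy hinv h, CL.part2 hCB hSHU hSTI hx hxN hX w σ hsuf hy hinv h⟩

end SL1324
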