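import Pool.Agent.Lib.MP_b8e197_co.SL.Iface

/-!
# Project SL: module CN (4.9), finiteness of the set of words
-/

set_option linter.all false

namespace SL1324

namespace CN

instance : Finite Mv := by
  have : Fintype Mv := ⟨{.D, .U, .L, .R, .l, .r}, by intro x; cases x <;> simp⟩
  exact Finite.of_fintype Mv

/-- phase correction -/
def a : Fl → ℤ
  | .F => 0
  | .L => 1
  | .R => -1

theorem step_len {σ τ : St} {mv : Mv} (h : step σ mv = some τ) :
    (1 : ℤ) = ((σ.xs.length : ℤ) - τ.xs.length) + ((σ.ys.length : ℤ) - τ.ys.length) +
      4 * ([mv].count Mv.U : ℤ) + 2 * (σ.y - τ.y) + (a σ.fl - a τ.fl) := by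
  obtain ⟨fl, y, lf, rm, xs, ys⟩ := σ
  cases mv <;> cases fl <;> simp only [step, reduceCtorEq] at h
  · -- D, F
    split_ifs at h with hc
    simp only [Option.some.injEq] at h
    subst h
    simp [a]
  · -- U, R
    simp only [Option.some.injEq] at h
    subst h
    simp [a]
  · -- L, L
    cases xs with
    | nil => simp [step] at h
    | cons b xs =>
      simp only [Option.some.injEq] at h
      subst h
      simp [a]
  · cases ys with
    | nil => simp [step] at h
    | cons b ys =>
      simp only [] at h
      split_ifs at h with hc
      simp only [Option.some.injEq] at h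
      subst h
      simp [a]
  · simp only [Option.some.injEq] at h
    subst h
    simp [a]
  · simp only [Option.some.injEq] at h
    subst h
    simp [a]

theorem len {σ τ : St} {w : List Mv} (h : NN σ w τ) :
    (w.length : ℤ) = ((σ.xs.length : ℤ) - τ.xs.length) + ((σ.ys.length : ℤ) - τ.ys.length) +
      4 * (w.count Mv.U : ℤ) + 2 * (σ.y - τ.y) + (a σ.fl - a τ.fl) := by
  induction h with
  | nil σ h => simp
  | @cons σ σ' τ mv w h hs hr ih =>
    have h1 := step_len hs
    rw [List.length_cons, List.count_cons]
    rw [List.count_singleton] at h1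
    push_cast at h1 ih ⊢
    linarith

end CN

theorem cn : CnStatement := by
  intro m x x'
  refine (List.finite_length_le Mv (x.length + x'.length + 4 * m)).subset ?_
  rintro w ⟨h, hm⟩
  have := CN.len h
  rw [hm] at this
  simp only [init, fin0, CN.a, List.length_nil] at this
  simp only [Set.mem_ofPred_eq, Set.mem_setOf_eq]
  omega

end SL1324
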