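import Pool.Agent.Lib.MP_b8e197_co.SL.Iface

/-!
# COL (4.10): complete words give columns
-/

set_option linter.all false

namespace SL1324

open H98Av (Av1324 Av132)

namespace COL

theorem filter_not_eq (n : ℕ) (s : List ℕ) :
    s.filter (fun t => !(decide (t < n))) = s.filter (fun t => decide (n ≤ t)) := by
  apply List.filter_congr
  intro t _
  by_cases h : t < n
  · simp [h, Nat.not_le.2 h]
  · simp [h, Nat.not_lt.1 h]

theorem perm_filter (n : ℕ) (s : List ℕ) :
    (s.filter (fun t => decide (t < n)) ++ s.filter (fun t => decide (n ≤ t))).Perm s := by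
  have h := List.filter_append_perm (fun t => decide (t < n)) s
  rw [filter_not_eq] at h
  exact h

theorem fin_lists (k b : ℕ) : {s : List ℕ | s.length = k ∧ ∀ t ∈ s, t < b}.Finite := by
  refine Set.Finite.subset ((List.finite_length_eq (Fin b) k).image (List.map Fin.val)) ?_
  rintro s ⟨hs, hb⟩
  refine ⟨s.pmap (fun t ht => (⟨t, ht⟩ : Fin b)) hb, ?_, ?_⟩
  · simp [hs]
  · rw [List.map_pmap]
    simp

/-- everything that is needed about one complete word -/
theorem key (h_CB : CbStatement) (h_CF : CfStatement) (h_CZ : CzStatement)
    (m n : ℕ) (x x' : List Bool) (X X' : List ℕ) (hx : x ∈ bitsF n) (hx' : x' ∈ bitsF n)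
    (hX : Sh x X) (hX' : Sh x' X') (w : List Mv) (hw : NN (init x x') w fin0)
    (hm : w.count .U = m) :
    (bld n X' w).stk = [] ∧ Colm n m X X' (bld n X' w).s := by
  have lx := mem_bits_length hx
  have lx' := mem_bits_length hx'
  have pX : X.Perm (List.range n) := by
    have := hX.1
    rwa [lx] at this
  have pX' : X'.Perm (List.range n) := by
    have := hX'.1
    rwa [lx'] at this
  obtain ⟨c1, c2, c3, c4, c5, c6, c7, c8, c9⟩ :=
    h_CB n X' (init x x') w pX' (by simp [init, lx']) hw
  have hinv : Inv (init x x') := by
    refine ⟨?_, ?_, ?_, ?_⟩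
    · intro f hf; simp [init] at hf
    · intro f hf; simp [init] at hf
    · simpa [init, lx] using hx
    · simpa [init, lx'] using hx'
  have hz := h_CZ n x x' X X' (init x x') w hX hX' lx lx' (List.suffix_refl x)
    (List.suffix_refl x') hinv hw
  have hstk : (bld n X' w).stk = [] := by
    apply List.length_eq_zero_iff.1
    have : ((bld n X' w).stk.length : ℤ) = 0 := by simpa [init] using c1
    exact_mod_cast this
  have hlv : (bld n X' w).lv.length = n := by simpa [init, lx] using c2
  have hlen : (bld n X' w).s.length = n + m := by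
    have : (bld n X' w).s.length = w.count Mv.U + n := by simpa [init, lx'] using c4
    rw [this, hm, Nat.add_comm]
  have hlow : (bld n X' w).s.filter (fun t => decide (t < n)) = X' := by
    simpa [init, lx'] using c5
  have lX' : X'.length = n := by simpa using pX'.length_eq
  have hp := perm_filter n (bld n X' w).s
  have hfl : ((bld n X' w).s.filter (fun t => decide (n ≤ t))).length = m := by
    have h := hp.length_eq
    rw [List.length_append, hlow, lX', hlen] at h
    omega
  rw [hstk, List.append_nil] at c9
  have hc : (bld n X' w).c - n = n + m := by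
    have h := c9.length_eq
    rw [List.length_append, hfl, hlv, List.length_range'] at h
    omega
  rw [hc] at c9
  have hnd9 : ((bld n X' w).s.filter (fun t => decide (n ≤ t)) ++ (bld n X' w).lv).Nodup :=
    c9.nodup_iff.2 List.nodup_range'
  have hcf := h_CF n m (bld n X' w).s (bld n X' w).lv c7 hlv (by rw [hlow]; exact pX') c9
  refine ⟨hstk, ?_, hlen, ?_, hlow, ?_⟩
  · rw [← hp.nodup_iff, List.nodup_append]
    refine ⟨?_, (List.nodup_append.1 hnd9).1, ?_⟩
    · rw [hlow]; exact pX'.nodup_iff.2 List.nodup_range
    · intro a ha b hb hab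
      have h1 := (List.mem_filter.1 ha).2
      have h2 := (List.mem_filter.1 hb).2
      simp at h1 h2
      omega
  · intro t ht
    by_cases h : t < n
    · omega
    · have : t ∈ List.range' n (n + m) := by
        apply (c9.mem_iff).1
        apply List.mem_append_left
        exact List.mem_filter.2 ⟨ht, by simpa using Nat.not_lt.1 h⟩
      rw [List.mem_range'_1] at this
      omega
  · have hZ : Zl X (bld n X' w) = X.map (enumC (bld n X' w).s) ++ (bld n X' w).s := by
      unfold Zl
      rw [hstk, hlv]
      have hf : X.filter (fun a => decide (a < n)) = X := by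
        rw [List.filter_eq_self]
        intro a ha
        have := (pX.mem_iff).1 ha
        simpa using this
      rw [hf]
      have hmap : X.map (fun a => (bld n X' w).lv.getD a 0) = X.map (enumC (bld n X' w).s) := by
        apply List.map_congr_left
        intro a ha
        have h1 : a < n := by simpa using (pX.mem_iff).1 ha
        exact (hcf a h1).symm
      rw [hmap]
      simp
    rw [← hZ]
    exact hz

end COL

theorem col (h_CB : CbStatement) (h_CF : CfStatement) (h_CZ : CzStatement)
    (h_CI : CiStatement) : ColStatement := by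
  intro m n x x' X X' hx hx' hX hX'
  have lx' := mem_bits_length hx'
  have pX' : X'.Perm (List.range n) := by
    have := hX'.1
    rwa [lx'] at this
  have hK := COL.key h_CB h_CF h_CZ m n x x' X X' hx hx' hX hX'
  unfold nWord nCol
  have hfin : Finite {s : List ℕ // Colm n m X X' s} := by
    have h1 : {s : List ℕ | Colm n m X X' s}.Finite :=
      Set.Finite.subset (COL.fin_lists (n + m) (2 * n + m)) (fun s hs => ⟨hs.len, hs.lt⟩)
    exact h1.to_subtype
  refine Nat.card_le_card_of_injective
    (fun w : {w : List Mv // NN (init x x') w fin0 ∧ w.count .U = m} =>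
      (⟨(bld n X' w.1).s, (hK w.1 w.2.1 w.2.2).2⟩ : {s : List ℕ // Colm n m X X' s})) ?_
  rintro ⟨w, hw, hwm⟩ ⟨w', hw', hwm'⟩ h
  have hs : (bld n X' w).s = (bld n X' w').s := by
    exact congrArg Subtype.val h
  apply Subtype.ext
  refine h_CI n X' (init x x') w w' pX' (by simp [init, lx']) hw hw' hs ?_
  rw [(hK w hw hwm).1, (hK w' hw' hwm').1]

end SL1324
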