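import Pool.Agent.Lib.MP_b8e197_co.SL.Iface

/-!
# Project SL, module CR (4.6): right invariants
-/

set_option linter.all false

namespace SL1324

open H98Av (Av1324 Av132)

namespace CR

theorem getD_lt {N : ℕ} {X' : List ℕ} (hX : X'.Perm (List.range N)) (k : ℕ) (hk : k < N) :
    X'.getD k 0 < N := by
  have hl : X'.length = N := by rw [hX.length_eq, List.length_range]
  have h1 : X'.getD k 0 ∈ X' := by
    rw [List.getD_eq_getElem _ _ (by omega)]; exact List.getElem_mem _
  exact List.mem_range.1 (hX.mem_iff.1 h1)

theorem top_lt {N c : ℕ} {s stk lv : List ℕ}
    (h9 : (s.filter (fun t => decide (N ≤ t)) ++ stk ++ lv).Perm (List.range' N (c - N)))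
    (hc : N ≤ c) : (∀ t ∈ s, N ≤ t → t < c) ∧ (∀ t ∈ stk, N ≤ t ∧ t < c) := by
  have h1 : ∀ t, t ∈ (s.filter (fun t => decide (N ≤ t)) ++ stk ++ lv) → N ≤ t ∧ t < c := by
    intro t ht
    have := List.mem_range'_1.1 (h9.mem_iff.1 ht)
    omega
  refine ⟨fun t ht hN => (h1 t ?_).2, fun t ht => h1 t ?_⟩
  · simp [ht, hN]
  · simp [ht]

/-- the statement (2) -/
def S2' (N : ℕ) (X' : List ℕ) (ys : List Bool) (d : ℤ) (s stk : List ℕ) : Prop :=
  ∀ p q : List ℕ, s = p ++ (X'.getD (N - ys.length) 0) :: q →
    ∀ i : ℕ, (i : ℤ) < d → ∀ t ∈ q, N ≤ t → t < stk.getD i 0

/-- the statement (1) -/
def S1' (N : ℕ) (X' : List ℕ) (ys : List Bool) (s : List ℕ) : Prop :=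
  ∀ t, t < ys.length → (∀ i, i < t → ys.getD i false = true) → ∀ p q : List ℕ,
    s = p ++ (X'.getD (N - ys.length + t) 0) :: q →
      ∀ u ∈ p, ∀ u' ∈ q, N ≤ u → N ≤ u' → u' < u

/-- the first bottom point of `s` comes before the others -/
theorem after_first {N : ℕ} {X' : List ℕ} (hX : X'.Perm (List.range N)) (ys : List Bool)
    (hy : ys.length ≤ N) {s : List ℕ}
    (h5 : s.filter (fun t => decide (t < N)) = X'.drop (N - ys.length)) (t : ℕ)
    (ht : t < ys.length) (p q : List ℕ) (hs : s = p ++ (X'.getD (N - ys.length + t) 0) :: q) :
    ∃ p0 q0 : List ℕ, s = p0 ++ (X'.getD (N - ys.length) 0) :: q0 ∧ ∀ u ∈ q, u ∈ q0 := by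
  have hl : X'.length = N := by rw [hX.length_eq, List.length_range]
  have hdrop : X'.drop (N - ys.length) = X'.getD (N - ys.length) 0 ::
      X'.drop (N - ys.length + 1) := by
    rw [List.getD_eq_getElem _ _ (by omega), List.getElem_cons_drop]
  have ha : X'.getD (N - ys.length + t) 0 < N := getD_lt hX _ (by omega)
  have h1 := h5
  rw [hs, List.filter_append, List.filter_cons, if_pos (by simpa using ha), hdrop] at h1
  cases hp : p.filter (fun t => decide (t < N)) with
  | nil =>
    rw [hp, List.nil_append] at h1
    have h2 := (List.cons.inj h1).1
    exact ⟨p, q, by rw [hs, h2], fun u hu => hu⟩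
  | cons x0 p1 =>
    rw [hp, List.cons_append] at h1
    have h2 := (List.cons.inj h1).1
    have hx : x0 ∈ p := by
      have : x0 ∈ p.filter (fun t => decide (t < N)) := by rw [hp]; simp
      exact (List.mem_filter.1 this).1
    obtain ⟨p2, p3, rfl⟩ := List.append_of_mem hx
    refine ⟨p2, p3 ++ X'.getD (N - ys.length + t) 0 :: q, ?_, fun u hu => by simp [hu]⟩
    rw [hs, ← h2]
    simp

theorem aux (h_CB : CbStatement) (h_STI : StiStatement) (N : ℕ) (X' : List ℕ)
    (hX : X'.Perm (List.range N)) {σ τ : St} {w : List Mv} (h : NN σ w τ) : τ = fin0 →
    σ.ys.length ≤ N → Inv σ → ∀ m : ℤ, σ.rm = some m →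
      S1' N X' σ.ys (bld N X' w).s ∧
      S2' N X' σ.ys (σ.y - m) (bld N X' w).s (bld N X' w).stk := by
  induction h with
  | nil σ h =>
    intro hτ _ _ m hm
    rw [hτ] at hm
    simp [fin0, init] at hm
  | @cons σ σ' τ mv w h0 hs hr ih =>
    intro hτ hy hI m hm
    have hI' := h_STI σ σ' mv hI hs
    have ih := ih hτ
    have hNN : NN σ (mv :: w) fin0 := hτ ▸ NN.cons h0 hs hr
    have hNN' : NN σ' w fin0 := hτ ▸ hr
    have cb := h_CB N X' σ (mv :: w) hX hy hNN
    have hbld : bld N X' (mv :: w) = bstep mv (bld N X' w) := rfl
    rw [hbld] at cb ⊢
    have cb' := fun hy' => h_CB N X' σ' w hX hy' hNN'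
    generalize bld N X' w = b' at *
    obtain ⟨s', stk', lv', c', rem'⟩ := b'
    obtain ⟨fl, y, lf, rm, xs, ys⟩ := σ
    have hrm := hI.rm m hm
    simp only at hm hy h0 hrm
    subst hm
    cases mv with
    | r =>
      cases fl with
      | F =>
        simp only [step, Option.some.injEq] at hs
        subst hs
        exact ih hy hI' m rfl
      | L => simp [step] at hs
      | R => simp [step] at hs
    | l =>
      cases fl with
      | F => simp [step] at hs
      | L =>
        simp only [step, Option.some.injEq] at hs
        subst hs
        exact ih hy hI' m rfl
      | R => simp [step] at hs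
    | L =>
      cases fl with
      | F => simp [step] at hs
      | L =>
        cases xs with
        | nil => simp [step] at hs
        | cons b xs =>
          simp only [step, Option.some.injEq] at hs
          subst hs
          exact ih hy hI' m rfl
      | R => simp [step] at hs
    | D =>
      cases fl with
      | F =>
        simp only [step] at hs
        split at hs
        · simp only [Option.some.injEq] at hs
          subst hs
          obtain ⟨i1, i2⟩ := ih hy hI' (min m (y - 1)) rfl
          obtain ⟨-, -, -, -, -, -, -, c8, c9⟩ := cb' hy
          refine ⟨i1, ?_⟩
          intro p q hpq i hi t ht hN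
          simp only [bstep] at hpq ⊢
          cases i with
          | zero =>
            simp only [List.getD_cons_zero]
            refine (top_lt c9 c8).1 t ?_ hN
            simp only [hpq]
            simp [ht]
          | succ i =>
            simp only [List.getD_cons_succ]
            refine i2 p q hpq i ?_ t ht hN
            simp only
            push_cast at hi
            have : min m (y - 1) ≤ m := min_le_left _ _
            omega
        · simp at hs
      | L => simp [step] at hs
      | R => simp [step] at hs
    | U =>
      cases fl with
      | F => simp [step] at hs
      | L => simp [step] at hs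
      | R =>
        simp only [step, Option.some.injEq] at hs
        subst hs
        obtain ⟨i1, i2⟩ := ih hy hI' m rfl
        obtain ⟨c1, -, -, -, c5, -, -, c8, c9⟩ := cb' hy
        simp only at c1 c5 c8 c9 i1 i2
        cases stk' with
        | nil => simp at c1; omega
        | cons t0 stk =>
          have ht0 := (top_lt c9 c8).2 t0 (by simp)
          simp only [bstep]
          have hsplit : ∀ (p q : List ℕ) (a : ℕ), a < N → t0 :: s' = p ++ a :: q →
              ∃ p', p = t0 :: p' ∧ s' = p' ++ a :: q := by
            intro p q a ha hpq
            cases p with
            | nil =>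
              rw [List.nil_append] at hpq
              have := (List.cons.inj hpq).1
              omega
            | cons x p' =>
              rw [List.cons_append] at hpq
              obtain ⟨e1, e2⟩ := List.cons.inj hpq
              exact ⟨p', by rw [e1], e2⟩
          constructor
          · intro t ht hbits p q hpq u hu u' hu' hN hN'
            obtain ⟨p', rfl, hs'⟩ := hsplit p q _ (getD_lt hX _ (by omega)) hpq
            rcases List.mem_cons.1 hu with rfl | hu
            · obtain ⟨p0, q0, e0, hq0⟩ := after_first hX ys hy c5 t ht p' q hs'
              have := i2 p0 q0 e0 0 (by simp only [Nat.cast_zero]; omega) u' (hq0 u' hu') hN'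
              simpa using this
            · exact i1 t ht hbits p' q hs' u hu u' hu' hN hN'
          · intro p q hpq i hi t ht hN
            by_cases hys : ys.length = 0
            · -- then the chosen point is not in `s'`: no bottom points remain
              exfalso
              have hl : X'.length = N := by rw [hX.length_eq, List.length_range]
              exact absurd (List.length_eq_zero_iff.1 hys) hrm.2
            · obtain ⟨p', rfl, hs'⟩ := hsplit p q _ (getD_lt hX _ (by omega)) hpq
              have := i2 p' q hs' (i + 1) (by push_cast; omega) t ht hN
              simpa using this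
    | R =>
      cases fl with
      | F => simp [step] at hs
      | L => simp [step] at hs
      | R =>
        cases ys with
        | nil => simp [step] at hs
        | cons b ys =>
          simp only [step] at hs
          split at hs
          · rename_i hmin
            simp only [Option.some.injEq] at hs
            subst hs
            have hy1 : ys.length + 1 ≤ N := by simpa using hy
            have hym : y ≤ m := by simpa [minOK] using hmin
            obtain ⟨-, -, c3, -, c5, -, -, c8, c9⟩ := cb' (by simp only; omega)
            obtain ⟨-, -, -, -, d5, -, -, -, -⟩ := cb
            simp only at c3 c5 d5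
            have hl : X'.length = N := by rw [hX.length_eq, List.length_range]
            have hrem : rem' = X'.getD (N - (ys.length + 1)) 0 :: X'.reverse.drop (ys.length + 1) := by
              rw [c3, List.getD_eq_getElem _ _ (by omega)]
              have h1 : ys.length < X'.reverse.length := by rw [List.length_reverse]; omega
              rw [← List.getElem_cons_drop h1, List.getElem_reverse]
              congr 2
              omega
            subst hrem
            simp only [bstep] at d5 ⊢
            have hXn : X'.Nodup := hX.nodup_iff.2 List.nodup_range
            constructor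
            · intro t ht hbits p q hpq u hu u' hu' hN hN'
              cases p with
              | nil => simp at hu
              | cons a0 p' =>
                rw [List.cons_append] at hpq
                obtain ⟨e1, e2⟩ := List.cons.inj hpq
                cases t with
                | zero =>
                  exfalso
                  -- the point appears twice
                  have h2 : (X'.getD (N - (ys.length + 1)) 0 :: s').filter
                      (fun t => decide (t < N)) = X'.drop (N - (ys.length + 1)) := d5
                  have h3 := getD_lt hX (N - (ys.length + 1)) (by omega)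
                  rw [List.filter_cons, if_pos (by simpa using h3)] at h2
                  have h4 : (X'.drop (N - (ys.length + 1))).Nodup := hXn.sublist (List.drop_sublist _ _)
                  rw [← h2, List.nodup_cons] at h4
                  refine h4.1 (List.mem_filter.2 ⟨?_, by simpa using h3⟩)
                  rw [e2]
                  simp
                | succ t =>
                  have hb : b = true := by simpa using hbits 0 (by omega)
                  subst hb
                  obtain ⟨i1, -⟩ := ih (by simp only; omega) hI' y (by simp [nxt])
                  rcases List.mem_cons.1 hu with rfl | hu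
                  · have h3 := getD_lt hX (N - (ys.length + 1)) (by omega)
                    omega
                  · refine i1 t (by simpa using ht) (fun i hi => ?_) p' q ?_ u hu u' hu' hN hN'
                    · simpa using hbits (i + 1) (by omega)
                    · rw [e2]
                      have e3 : N - (true :: ys).length + (t + 1) = N - ys.length + t := by
                        simp only [List.length_cons]
                        omega
                      rw [e3]
            · intro p q hpq i hi t ht hN
              exfalso
              omega
          · simp at hs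

end CR

theorem cr (h_CB : CbStatement) (h_STI : StiStatement) : CrStatement := by
  intro N X' σ w hX hy hI hNN m hm
  exact CR.aux h_CB h_STI N X' hX hNN rfl hy hI m hm

end SL1324
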