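import Pool.Agent.Lib.MP_b8e197_co.SL.Iface

set_option linter.all false

namespace SL1324

namespace CT

theorem step_ys {σ σ' : St} {mv : Mv} (hs : step σ mv = some σ') :
    σ'.ys.length ≤ σ.ys.length := by
  obtain ⟨fl, y, lf, rm, xs, ys⟩ := σ
  rcases fl with _ | _ | _ <;> rcases mv with _ | _ | _ | _ | _ | _ <;>
    simp only [step] at hs
  all_goals try (exfalso; simp at hs; done)
  · split at hs
    · simp only [Option.some.injEq] at hs
      subst hs; simp
    · simp at hs
  · simp only [Option.some.injEq] at hs
    subst hs; simp
  · rcases xs with _ | ⟨b, xs⟩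
    · simp at hs
    · simp only [Option.some.injEq] at hs
      subst hs; simp
  · simp only [Option.some.injEq] at hs
    subst hs; simp
  · simp only [Option.some.injEq] at hs
    subst hs; simp
  · rcases ys with _ | ⟨b, ys⟩
    · simp at hs
    · simp only at hs
      split at hs
      · simp only [Option.some.injEq] at hs
        subst hs; simp
      · simp at hs

theorem step_U {σ σ' : St} (hs : step σ .U = some σ') : σ'.y = σ.y + 1 := by
  obtain ⟨fl, y, lf, rm, xs, ys⟩ := σ
  rcases fl with _ | _ | _ <;> simp only [step] at hs
  all_goals try (exfalso; simp at hs; done)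
  simp only [Option.some.injEq] at hs
  subst hs; simp

theorem pat_max {l1 T : List ℕ} {c' a b c : ℕ} (h1 : ∀ t ∈ l1, t < c') (h2 : ∀ t ∈ T, t < c')
    (hinc : l1.Pairwise (· < ·))
    (hno : ∀ a b c : ℕ, List.Sublist [a, b, c] (l1 ++ T) → ¬ (b < a ∧ a < c))
    (hs : List.Sublist [a, b, c] (l1 ++ c' :: T)) : ¬ (b < a ∧ a < c) := by
  rintro ⟨hba, hac⟩
  have hc : c ≤ c' := by
    have : c ∈ l1 ++ c' :: T := hs.subset (by simp)
    rcases List.mem_append.1 this with h | h
    · exact (h1 c h).le
    · rcases List.mem_cons.1 h with h | h
      · exact h.le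
      · exact (h2 c h).le
  have ha : a < c' := lt_of_lt_of_le hac hc
  have hb : b < c' := hba.trans ha
  have hcT : c' ∉ T := fun h => absurd (h2 c' h) (lt_irrefl _)
  have hcl : c' ∉ l1 := fun h => absurd (h1 c' h) (lt_irrefl _)
  by_cases hcc : c = c'
  · subst hcc
    rw [List.sublist_append_iff] at hs
    obtain ⟨r1, r2, hr, hr1, hr2⟩ := hs
    rcases r1 with _ | ⟨p, _ | ⟨q, _ | ⟨r, r1⟩⟩⟩
    · simp only [List.nil_append] at hr
      subst hr
      have h3 : List.Sublist [a, b, c] T := by
        rcases List.sublist_cons_iff.1 hr2 with h | ⟨r, h, -⟩
        · exact h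
        · simp only [List.cons.injEq] at h
          omega
      exact hcT (h3.subset (by simp))
    · simp only [List.cons_append, List.nil_append, List.cons.injEq] at hr
      obtain ⟨rfl, hr⟩ := hr
      subst hr
      have h3 : List.Sublist [b, c] T := by
        rcases List.sublist_cons_iff.1 hr2 with h | ⟨r, h, -⟩
        · exact h
        · simp only [List.cons.injEq] at h
          omega
      exact hcT (h3.subset (by simp))
    · simp only [List.cons_append, List.nil_append, List.cons.injEq] at hr
      obtain ⟨rfl, rfl, hr⟩ := hr
      have h3 := hinc.sublist hr1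
      simp at h3
      omega
    · simp only [List.cons_append, List.cons.injEq] at hr
      obtain ⟨rfl, rfl, rfl, hr⟩ := hr
      exact hcl (hr1.subset (by simp))
  · have h3 := hs.filter (fun t => decide (t ≠ c'))
    have h4 : [a, b, c].filter (fun t => decide (t ≠ c')) = [a, b, c] := by
      rw [List.filter_eq_self]
      intro t ht
      simp only [List.mem_cons, List.not_mem_nil, or_false] at ht
      simp only [ne_eq, decide_eq_true_eq]
      omega
    have h5 : (l1 ++ c' :: T).filter (fun t => decide (t ≠ c')) = l1 ++ T := by
      rw [List.filter_append, List.filter_cons_of_neg (by simp)]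
      congr 1
      · rw [List.filter_eq_self]
        intro t ht
        have := h1 t ht
        simp only [ne_eq, decide_eq_true_eq]
        omega
      · rw [List.filter_eq_self]
        intro t ht
        have := h2 t ht
        simp only [ne_eq, decide_eq_true_eq]
        omega
    rw [h4, h5] at h3
    exact hno a b c h3 ⟨hba, hac⟩

end CT

open CT

theorem ct' (h_CB : CbStatement) : CtStatement := by
  intro N X' σ w hX hys hw
  induction w generalizing σ with
  | nil =>
    intro a b c hs
    simp [bld] at hs
  | cons mv w ih =>
    rcases hw with _ | ⟨h0, hs, hr⟩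
    rename_i σ'
    have hys' : σ'.ys.length ≤ N := (step_ys hs).trans hys
    have ih' := ih σ' hys' hr
    obtain ⟨c1, c2, c3, c4, c5, c6, c7, c8, c9⟩ := h_CB N X' σ' w hX hys' hr
    have hbld : bld N X' (mv :: w) = bstep mv (bld N X' w) := rfl
    rw [hbld]
    set b' := bld N X' w with hb'
    have hmem : ∀ t, (t ∈ b'.s.filter (fun t => decide (N ≤ t)) ∨ t ∈ b'.stk) →
        N ≤ t ∧ t < b'.c := by
      intro t ht
      have h1 : t ∈ List.range' N (b'.c - N) := by
        rw [← c9.mem_iff]
        simp only [List.mem_append]
        tauto
      rw [List.mem_range'_1] at h1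
      omega
    rcases mv with _ | _ | _ | _ | _ | _
    · -- D
      intro a b c hsub
      simp only [bstep, List.reverse_cons, List.append_assoc, List.cons_append,
        List.nil_append] at hsub
      refine pat_max (c' := b'.c) ?_ ?_ ?_ ih' hsub
      · intro t ht
        exact (hmem t (Or.inr (List.mem_reverse.1 ht))).2
      · intro t ht
        exact (hmem t (Or.inl ht)).2
      · rw [List.pairwise_reverse]
        exact c6
    · -- U
      have h1 := step_U hs
      have h2 : 0 < b'.stk.length := by omega
      rcases hst : b'.stk with _ | ⟨t, st⟩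
      · rw [hst] at h2; simp at h2
      · have ht : N ≤ t := (hmem t (Or.inr (by rw [hst]; simp))).1
        rw [hst] at ih'
        simp only [List.reverse_cons, List.append_assoc, List.cons_append,
          List.nil_append] at ih'
        simp only [bstep, hst]
        rw [List.filter_cons_of_pos (by simpa using ht)]
        exact ih'
    · -- L
      simp only [bstep]
      exact ih'
    · -- R
      rcases hst : b'.rem with _ | ⟨t, st⟩
      · simp only [bstep, hst]
        exact ih'
      · have ht : t < N := by
          have h1 : t ∈ b'.rem := by rw [hst]; simp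
          rw [c3] at h1
          have h2 := List.mem_of_mem_drop h1
          rw [List.mem_reverse, hX.mem_iff, List.mem_range] at h2
          exact h2
        simp only [bstep, hst]
        rw [List.filter_cons_of_neg (by simpa using ht)]
        exact ih'
    · exact ih'
    · exact ih'

end SL1324
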