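import Pool.Agent.Lib.MP_b8e197_co.SL.Iface

/-!
# Project SL, module CZ (4.7): the list of values avoids 1324
-/

set_option linter.all false

namespace SL1324

open H98Av (Av1324 Av132)

namespace CZ

theorem av132_sub {v w : List ℕ} (h : Av132 w) (hs : v.Sublist w) : Av132 v :=
  fun a b c h1 => h a b c (h1.trans hs)

/-- insertion of a new maximum -/
theorem ins_max {A B : List ℕ} {C : ℕ} (hB : ∀ t ∈ B, t < C)
    (h : Av1324 (A ++ B)) (h2 : Av132 A) : Av1324 (A ++ C :: B) := by
  intro p q r t hsub hpat
  obtain ⟨e1, e2, e3⟩ := hpat
  rw [List.sublist_append_iff] at hsub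
  obtain ⟨l1, l2, heq, hl1, hl2⟩ := hsub
  rw [List.sublist_cons_iff] at hl2
  rcases hl2 with hl2 | ⟨r', rfl, hr'⟩
  · exact h p q r t (by rw [heq]; exact hl1.append hl2) ⟨e1, e2, e3⟩
  · rcases l1 with _ | ⟨a1, _ | ⟨a2, _ | ⟨a3, _ | ⟨a4, l1⟩⟩⟩⟩
    · simp only [List.nil_append, List.cons.injEq] at heq
      obtain ⟨rfl, rfl⟩ := heq
      have := hB t (hr'.subset (by simp))
      omega
    · simp only [List.cons_append, List.nil_append, List.cons.injEq] at heq
      obtain ⟨rfl, rfl, rfl⟩ := heq
      have := hB t (hr'.subset (by simp))
      omega
    · simp only [List.cons_append, List.nil_append, List.cons.injEq] at heq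
      obtain ⟨rfl, rfl, rfl, rfl⟩ := heq
      have := hB t (hr'.subset (by simp))
      omega
    · simp only [List.cons_append, List.nil_append, List.cons.injEq] at heq
      obtain ⟨rfl, rfl, rfl, rfl, rfl⟩ := heq
      exact h2 _ _ _ hl1 ⟨e1, e2⟩
    · simp at heq

/-- insertion of a point that is lower than everything before it -/
theorem ins_low {P S : List ℕ} {a : ℕ} (hP : ∀ t ∈ P, a < t)
    (h : Av1324 (P ++ S))
    (h2 : ∀ q r t, List.Sublist [q, r, t] S → ¬ (a < r ∧ r < q ∧ q < t)) :
    Av1324 (P ++ a :: S) := by
  intro p q r t hsub hpat
  obtain ⟨e1, e2, e3⟩ := hpat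
  rw [List.sublist_append_iff] at hsub
  obtain ⟨l1, l2, heq, hl1, hl2⟩ := hsub
  rw [List.sublist_cons_iff] at hl2
  rcases hl2 with hl2 | ⟨r', rfl, hr'⟩
  · exact h p q r t (by rw [heq]; exact hl1.append hl2) ⟨e1, e2, e3⟩
  · rcases l1 with _ | ⟨a1, _ | ⟨a2, _ | ⟨a3, _ | ⟨a4, l1⟩⟩⟩⟩
    · simp only [List.nil_append, List.cons.injEq] at heq
      obtain ⟨rfl, rfl⟩ := heq
      exact h2 _ _ _ hr' ⟨e1, e2, e3⟩
    · simp only [List.cons_append, List.nil_append, List.cons.injEq] at heq
      obtain ⟨rfl, rfl, rfl⟩ := heq
      have := hP p (hl1.subset (by simp))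
      omega
    · simp only [List.cons_append, List.nil_append, List.cons.injEq] at heq
      obtain ⟨rfl, rfl, rfl, rfl⟩ := heq
      have := hP p (hl1.subset (by simp))
      omega
    · simp only [List.cons_append, List.nil_append, List.cons.injEq] at heq
      obtain ⟨rfl, rfl, rfl, rfl, rfl⟩ := heq
      have := hP p (hl1.subset (by simp))
      omega
    · simp at heq

/-- the part of the left cell read so far -/
def Xp (X lv : List ℕ) : List ℕ :=
  (X.filter (fun a => decide (a < lv.length))).map (fun a => lv.getD a 0)

theorem Xp_mem {X lv : List ℕ} {t : ℕ} (h : t ∈ Xp X lv) : t ∈ lv := by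
  unfold Xp at h
  rw [List.mem_map] at h
  obtain ⟨a, ha, rfl⟩ := h
  rw [List.mem_filter] at ha
  have ha2 : a < lv.length := by simpa using ha.2
  rw [List.getD_eq_getElem _ _ ha2]
  exact List.getElem_mem ha2

theorem Xp_snoc (X lv : List ℕ) (c : ℕ) (hnd : X.Nodup) (hv : lv.length ∈ X) :
    ∃ A B, Xp X lv = A ++ B ∧ Xp X (lv ++ [c]) = A ++ c :: B := by
  obtain ⟨Y1, Y2, hY⟩ := List.append_of_mem hv
  have hnd' := hnd
  rw [hY, List.nodup_append] at hnd'
  obtain ⟨-, hn2, hdis⟩ := hnd'
  have hv1 : lv.length ∉ Y1 := fun h => hdis _ h _ (by simp) rfl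
  have hv2 : lv.length ∉ Y2 := (List.nodup_cons.1 hn2).1
  have hf : ∀ Y : List ℕ, lv.length ∉ Y →
      (Y.filter (fun a => decide (a < (lv ++ [c]).length))).map
        (fun a => (lv ++ [c]).getD a 0) =
      (Y.filter (fun a => decide (a < lv.length))).map (fun a => lv.getD a 0) := by
    intro Y hY1
    have h1 : Y.filter (fun a => decide (a < (lv ++ [c]).length)) =
        Y.filter (fun a => decide (a < lv.length)) := by
      apply List.filter_congr
      intro a ha
      have : a ≠ lv.length := fun h => hY1 (h ▸ ha)
      rw [decide_eq_decide, List.length_append, List.length_singleton]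
      omega
    rw [h1]
    apply List.map_congr_left
    intro a ha
    have ha2 : a < lv.length := by simpa using (List.mem_filter.1 ha).2
    rw [List.getD_append _ _ _ _ ha2]
  refine ⟨(Y1.filter (fun a => decide (a < lv.length))).map (fun a => lv.getD a 0),
    (Y2.filter (fun a => decide (a < lv.length))).map (fun a => lv.getD a 0), ?_, ?_⟩
  · unfold Xp
    rw [hY, List.filter_append, List.filter_cons, List.map_append]
    simp
  · unfold Xp
    rw [hY, List.filter_append, List.filter_cons, List.map_append, hf Y1 hv1]
    have h3 : decide (lv.length < (lv ++ [c]).length) = true := by simp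
    rw [if_pos h3, List.map_cons, hf Y2 hv2]
    congr 2
    rw [List.getD_append_right _ _ _ _ le_rfl]
    simp

theorem Zl_eq (X : List ℕ) (b : Bk) : Zl X b = Xp X b.lv ++ b.stk.reverse ++ b.s := rfl

/-- sizes of the values -/
theorem bnd (h_CB : CbStatement) {N : ℕ} {X' : List ℕ} {σ : St} {w : List Mv}
    (hX' : X'.Perm (List.range N)) (hys : σ.ys.length ≤ N) (hn : NN σ w fin0) :
    (∀ t ∈ (bld N X' w).stk, N ≤ t ∧ t < (bld N X' w).c) ∧
    (∀ t ∈ (bld N X' w).lv, N ≤ t ∧ t < (bld N X' w).c) ∧
    (∀ t ∈ (bld N X' w).s, t < (bld N X' w).c) := by
  obtain ⟨-, -, -, -, -, -, -, hc, hp⟩ := h_CB N X' σ w hX' hys hn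
  have hr : ∀ t, t ∈ ((bld N X' w).s.filter (fun t => decide (N ≤ t)) ++ (bld N X' w).stk ++
      (bld N X' w).lv) → N ≤ t ∧ t < (bld N X' w).c := by
    intro t ht
    have := hp.subset ht
    rw [List.mem_range'_1] at this
    omega
  refine ⟨fun t ht => hr t (by simp [ht]), fun t ht => hr t (by simp [ht]), fun t ht => ?_⟩
  by_cases h : N ≤ t
  · exact (hr t (by simp [ht, h])).2
  · omega

/-- data of one step -/
theorem step_R {σ σ' : St} (h : step σ .R = some σ') :
    ∃ b, σ.ys = b :: σ'.ys ∧ σ'.xs = σ.xs ∧ σ'.rm = nxt b σ.y ∧ σ'.y = σ.y := by
  obtain ⟨fl, y, lf, rm, xs, ys⟩ := σ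
  cases fl <;> cases ys <;> simp [step] at h
  rename_i b ys
  obtain ⟨-, rfl⟩ := h
  exact ⟨b, rfl, rfl, rfl, rfl⟩

theorem step_L {σ σ' : St} (h : step σ .L = some σ') :
    ∃ b, σ.xs = b :: σ'.xs ∧ σ'.ys = σ.ys := by
  obtain ⟨fl, y, lf, rm, xs, ys⟩ := σ
  cases fl <;> cases xs <;> simp [step] at h
  rename_i b xs
  subst h
  exact ⟨b, rfl, rfl⟩

theorem step_other {σ σ' : St} {mv : Mv} (h : step σ mv = some σ') (h1 : mv ≠ .L)
    (h2 : mv ≠ .R) : σ'.xs = σ.xs ∧ σ'.ys = σ.ys := by
  obtain ⟨fl, y, lf, rm, xs, ys⟩ := σ
  cases mv
  · cases fl <;> simp [step] at h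
    obtain ⟨-, rfl⟩ := h
    exact ⟨rfl, rfl⟩
  · cases fl <;> simp [step] at h
    subst h
    exact ⟨rfl, rfl⟩
  · exact absurd rfl h1
  · exact absurd rfl h2
  · cases fl <;> simp [step] at h
    subst h
    exact ⟨rfl, rfl⟩
  · cases fl <;> simp [step] at h
    subst h
    exact ⟨rfl, rfl⟩

/-- splitting at the middle entry of a sublist of three -/
theorem split3 {q r t : ℕ} {S : List ℕ} (h : List.Sublist [q, r, t] S) :
    ∃ p q', S = p ++ r :: q' ∧ q ∈ p ∧ t ∈ q' := by
  rw [List.cons_sublist_iff] at h
  obtain ⟨r1, r2, rfl, hq, h2⟩ := h
  rw [List.cons_sublist_iff] at h2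
  obtain ⟨s1, s2, rfl, hr, h3⟩ := h2
  obtain ⟨u1, u2, rfl⟩ := List.append_of_mem hr
  refine ⟨r1 ++ u1, u2 ++ s2, by simp, by simp [hq], ?_⟩
  have : t ∈ s2 := h3.subset (by simp)
  simp [this]

end CZ

open CZ in
theorem cz (h_CB : CbStatement) (h_CL : ClStatement) (h_CT : CtStatement) (h_CR : CrStatement)
    (h_SHU : ShuStatement) (h_STI : StiStatement) : CzStatement := by
  intro N x x' X X' σ w hX hX' hx hx' hxs hys hinv hnn
  have hXp : X.Perm (List.range N) := by rw [← hx]; exact hX.1
  have hXp' : X'.Perm (List.range N) := by rw [← hx']; exact hX'.1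
  have hXl' : X'.length = N := by rw [hXp'.length_eq, List.length_range]
  have key : ∀ (σ τ : St) (w : List Mv), NN σ w τ → τ = fin0 → σ.xs <:+ x → σ.ys <:+ x' →
      Inv σ → Av1324 (Zl X (bld N X' w)) := by
    intro σ τ w hnn
    induction hnn with
    | nil σ h =>
      intro _ _ _ _ p q r t hsub
      exfalso
      have hz : Zl X (bld N X' []) = [] := by
        simp [Zl, bld]
      rw [hz] at hsub
      simp at hsub
    | @cons σ σ' τ mv w h hs hr ih =>
      intro hτ hxs hys hinv
      subst hτ
      have hinv' : Inv σ' := h_STI σ σ' mv hinv hs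
      have hb : bld N X' (mv :: w) = bstep mv (bld N X' w) := rfl
      set b' := bld N X' w with hb'
      rw [hb]
      by_cases hR : mv = .R
      · subst hR
        obtain ⟨β, hys1, hxs1, hrm1, hy1⟩ := step_R hs
        have hxs' : σ'.xs <:+ x := by rw [hxs1]; exact hxs
        have hys' : σ'.ys <:+ x' := by
          refine List.IsSuffix.trans ?_ hys
          rw [hys1]; exact List.suffix_cons _ _
        have ih' := ih rfl hxs' hys' hinv'
        have hysN : σ.ys.length ≤ N := by rw [← hx']; exact hys.length_le
        have hlen : σ.ys.length = σ'.ys.length + 1 := by rw [hys1]; simp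
        have hysN' : σ'.ys.length ≤ N := by omega
        obtain ⟨cb1, cb2, cb3, cb4, cb5, cb6, cb7, cb8, cb9⟩ := h_CB N X' σ' w hXp' hysN' hr
        obtain ⟨bn1, bn2, bn3⟩ := bnd h_CB hXp' hysN' hr
        rw [← hb'] at cb1 cb2 cb3 cb4 cb5 cb6 cb7 cb8 cb9 bn1 bn2 bn3
        -- the head of the remaining bottom points
        have hp0 : N - σ.ys.length < X'.length := by omega
        have hrem : b'.rem = X'.getD (N - σ.ys.length) 0 :: X'.reverse.drop (σ'.ys.length + 1) := by
          rw [cb3]
          have h1 : σ'.ys.length < X'.reverse.length := by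
            rw [List.length_reverse]; omega
          rw [List.drop_eq_getElem_cons h1]
          congr 1
          rw [List.getElem_reverse, List.getD_eq_getElem _ _ hp0]
          congr 1
          omega
        have hdrop : X'.drop (N - σ.ys.length) = X'.getD (N - σ.ys.length) 0 ::
            X'.drop (N - σ'.ys.length) := by
          rw [List.drop_eq_getElem_cons hp0, List.getD_eq_getElem _ _ hp0]
          congr 2
          omega
        set a := X'.getD (N - σ.ys.length) 0 with ha
        have haX : a ∈ X' := by
          rw [ha, List.getD_eq_getElem _ _ hp0]; exact List.getElem_mem hp0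
        have haN : a < N := by
          have := hXp'.subset haX
          simpa using this
        have hbs : bstep .R b' = { b' with s := a :: b'.s, rem := X'.reverse.drop (σ'.ys.length + 1) } := by
          simp only [bstep, hrem]
        rw [hbs, Zl_eq]
        rw [Zl_eq] at ih'
        simp only
        apply ins_low _ ih'
        · -- patterns that start with the new point
          intro q r t hsub hpat
          obtain ⟨e1, e2, e3⟩ := hpat
          by_cases hrN : N ≤ r
          · -- all top
            have hct := h_CT N X' σ' w hXp' hysN' hr q r t (by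
              apply List.Sublist.trans _ (List.sublist_append_right _ _)
              have h1 := hsub.filter (fun t => decide (N ≤ t))
              have hf : List.filter (fun t => decide (N ≤ t)) [q, r, t] = [q, r, t] := by
                apply List.filter_eq_self.2
                intro z hz
                simp only [List.mem_cons, List.not_mem_nil, or_false] at hz
                simp only [decide_eq_true_eq]
                omega
              rwa [hf] at h1)
            exact hct ⟨e2, e3⟩
          · have hbot : ∀ z ∈ b'.s, z < N → z ∈ X'.drop (N - σ'.ys.length) := by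
              intro z hz hzN
              rw [← cb5, List.mem_filter]
              exact ⟨hz, by simpa using hzN⟩
            by_cases hqN : q < N
            · -- `a, q, r` is a 132 in `X'`
              have hsub2 : List.Sublist [q, r] (X'.drop (N - σ'.ys.length)) := by
                rw [← cb5]
                have h0 : List.Sublist [q, r] b'.s :=
                  List.Sublist.trans (by simp) hsub
                have h1 := h0.filter (fun t => decide (t < N))
                have hf : List.filter (fun t => decide (t < N)) [q, r] = [q, r] := by
                  apply List.filter_eq_self.2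
                  intro z hz
                  simp only [List.mem_cons, List.not_mem_nil, or_false] at hz
                  simp only [decide_eq_true_eq]
                  omega
                rwa [hf] at h1
              have h3 : List.Sublist [a, q, r] X' := by
                refine List.Sublist.trans ?_ (List.drop_sublist (N - σ.ys.length) X')
                rw [hdrop]
                exact hsub2.cons_cons a
              exact hX'.2.1 a q r h3 ⟨e1, e2⟩
            · -- `q, t` top
              obtain ⟨p', q', hsp, hqp, htq⟩ := split3 hsub
              have hrm' : r ∈ b'.s := by rw [hsp]; simp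
              have hrX := hbot r hrm' (by omega)
              obtain ⟨t0, ht0, hrt⟩ := List.getElem_of_mem hrX
              rw [List.length_drop, hXl'] at ht0
              have ht0' : t0 < σ'.ys.length := by omega
              rw [List.getElem_drop] at hrt
              have hidx : N - σ'.ys.length + t0 < X'.length := by omega
              have hgetr : X'.getD (N - σ'.ys.length + t0) 0 = r := by
                rw [List.getD_eq_getElem _ _ hidx]; exact hrt
              obtain ⟨shu1, -⟩ := h_SHU.2.2 x' X' hX' (N - σ.ys.length) (N - σ'.ys.length + t0)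
                (by omega) hidx (by rw [hgetr]; exact e1)
              -- bits of `σ.ys`
              obtain ⟨pre, hpre⟩ := hys
              have hprel : pre.length = N - σ.ys.length := by
                have := congrArg List.length hpre
                rw [List.length_append, hx'] at this
                omega
              have hbit : ∀ i, σ.ys.getD i false = x'.getD (N - σ.ys.length + i) false := by
                intro i
                rw [← hpre, List.getD_append_right _ _ _ _ (by omega)]
                congr 1
                omega
              have hβ : β = true := by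
                have h1 := hbit 0
                rw [hys1, List.getD_cons_zero] at h1
                rw [h1]
                exact shu1 _ (by simp only [List.length_cons]; omega)
                  (by simp only [List.length_cons]; omega)
              have hys2 : ∀ i, i < t0 → σ'.ys.getD i false = true := by
                intro i hi
                have h1 := hbit (i + 1)
                rw [hys1, List.getD_cons_succ] at h1
                rw [h1]
                exact shu1 _ (by simp only [List.length_cons]; omega)
                  (by simp only [List.length_cons]; omega)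
              have hrm2 : σ'.rm = some σ.y := by rw [hrm1, hβ]; rfl
              obtain ⟨cr1, -⟩ := h_CR N X' σ' w hXp' hysN' hinv' hr σ.y hrm2
              have := cr1 t0 ht0' hys2 p' q' (by rw [hgetr]; exact hsp) q hqp t htq (by omega)
                (by omega)
              omega
        · intro z hz
          rw [List.mem_append] at hz
          rcases hz with hz | hz
          · have := bn2 z (Xp_mem hz)
            omega
          · have := bn1 z (List.mem_reverse.1 hz)
            omega
      · by_cases hL : mv = .L
        · subst hL
          obtain ⟨β, hxs1, hys1⟩ := step_L hs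
          have hxs' : σ'.xs <:+ x := by
            refine List.IsSuffix.trans ?_ hxs
            rw [hxs1]; exact List.suffix_cons _ _
          have hys' : σ'.ys <:+ x' := by rw [hys1]; exact hys
          have ih' := ih rfl hxs' hys' hinv'
          have hysN' : σ'.ys.length ≤ N := by rw [← hx']; exact hys'.length_le
          obtain ⟨cb1, cb2, -⟩ := h_CB N X' σ' w hXp' hysN' hr
          obtain ⟨bn1, bn2, bn3⟩ := bnd h_CB hXp' hysN' hr
          rw [← hb'] at cb1 cb2 bn1 bn2 bn3
          have hlv : b'.lv.length < N := by
            have h1 := hxs.length_le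
            rw [hxs1, List.length_cons, hx] at h1
            omega
          have hmem : b'.lv.length ∈ X := hXp.symm.subset (by simpa using hlv)
          have hnd : X.Nodup := hXp.symm.nodup List.nodup_range
          obtain ⟨A, B, hAB, hABc⟩ := Xp_snoc X b'.lv b'.c hnd hmem
          have hbs : bstep .L b' = { b' with lv := b'.lv ++ [b'.c], c := b'.c + 1 } := rfl
          rw [hbs, Zl_eq]
          simp only
          rw [hABc]
          rw [Zl_eq, hAB] at ih'
          have e1 : A ++ b'.c :: B ++ b'.stk.reverse ++ b'.s =
              A ++ b'.c :: (B ++ b'.stk.reverse ++ b'.s) := by simp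
          rw [e1]
          apply ins_max
          · intro t ht
            rw [List.mem_append, List.mem_append] at ht
            rcases ht with (ht | ht) | ht
            · exact (bn2 t (Xp_mem (X := X) (by rw [hAB]; simp [ht]))).2
            · exact (bn1 t (List.mem_reverse.1 ht)).2
            · exact bn3 t ht
          · have e2 : A ++ (B ++ b'.stk.reverse ++ b'.s) = A ++ B ++ b'.stk.reverse ++ b'.s := by
              simp
            rw [e2]; exact ih'
          · obtain ⟨-, hcl⟩ := h_CL N x X X' σ' w hX hx hXp' hxs' hysN' hinv' hr
            apply av132_sub hcl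
            change List.Sublist A (Xp X b'.lv ++ b'.stk.reverse)
            rw [hAB]
            simp
        · obtain ⟨hxs1, hys1⟩ := step_other hs hL hR
          have hxs' : σ'.xs <:+ x := by rw [hxs1]; exact hxs
          have hys' : σ'.ys <:+ x' := by rw [hys1]; exact hys
          have ih' := ih rfl hxs' hys' hinv'
          have hysN' : σ'.ys.length ≤ N := by rw [← hx']; exact hys'.length_le
          cases mv
          · -- D
            obtain ⟨bn1, bn2, bn3⟩ := bnd h_CB hXp' hysN' hr
            rw [← hb'] at bn1 bn2 bn3
            have hbs : bstep .D b' = { b' with stk := b'.c :: b'.stk, c := b'.c + 1 } := rfl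
            rw [hbs, Zl_eq]
            simp only
            rw [List.reverse_cons]
            rw [Zl_eq] at ih'
            have e1 : Xp X b'.lv ++ (b'.stk.reverse ++ [b'.c]) ++ b'.s =
                (Xp X b'.lv ++ b'.stk.reverse) ++ b'.c :: b'.s := by simp
            rw [e1]
            apply ins_max bn3 ih'
            exact (h_CL N x X X' σ' w hX hx hXp' hxs' hysN' hinv' hr).2
          · -- U
            rcases hstk : b'.stk with _ | ⟨t, st⟩
            · have hbs : bstep .U b' = b' := by simp only [bstep, hstk]
              rw [hbs]; exact ih'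
            · have hbs : bstep .U b' = { b' with s := t :: b'.s, stk := st } := by
                simp only [bstep, hstk]
              rw [hbs, Zl_eq]
              rw [Zl_eq, hstk] at ih'
              simpa using ih'
          · exact absurd rfl hL
          · exact absurd rfl hR
          · exact ih'
          · exact ih'
  exact key σ fin0 w hnn rfl hxs hys hinv

end SL1324
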