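import Mathlib
import Pool.Agent.Lib.MP_b8e197_co.H98.Defs

/-!
# Project SL: a lower bound for the growth rate of 1324-avoiders

Definitions.  The mathematics is in `Paper.md` of this directory.
-/

set_option linter.all false

namespace SL1324

open H98Av (Av1324 Av132)

noncomputable section

/-! ## 1. Lists and columns -/

/-- number of 1324-avoiding permutations of `range n`, as lists -/
def cntAv (n : ℕ) : ℕ := Nat.card {v : List ℕ // v.Perm (List.range n) ∧ Av1324 v}

/-- the `a`-th natural number (from 0) that is not in `s` -/
def enumC (s : List ℕ) (a : ℕ) : ℕ := Nat.nth (fun t => t ∉ s) a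

/-- `s` is a column for the left neighbour cell `X` and with bottom cell `X'`. -/
structure Colm (N m : ℕ) (X X' s : List ℕ) : Prop where
  nodup : s.Nodup
  len : s.length = N + m
  lt : ∀ t ∈ s, t < 2 * N + m
  low : s.filter (fun t => decide (t < N)) = X'
  av : Av1324 (X.map (enumC s) ++ s)

/-- number of columns -/
def nCol (N m : ℕ) (X X' : List ℕ) : ℕ := Nat.card {s : List ℕ // Colm N m X X' s}

/-- number of codes with column sizes `ms` (last column first) ending in `X'` -/
def chainN (N : ℕ) (S : Finset (List ℕ)) : List ℕ → List ℕ → ℕ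
  | [], _ => 1
  | m :: ms, X' => ∑ X ∈ S, chainN N S ms X * nCol N m X X'

/-- the same with all column sizes `≤ mm` and weight `ζ` per top point -/
def chainR (ζ : ℝ) (N mm : ℕ) (S : Finset (List ℕ)) : ℕ → List ℕ → ℝ
  | 0, _ => 1
  | k + 1, X' => ∑ X ∈ S, chainR ζ N mm S k X *
      ∑ m ∈ Finset.range (mm + 1), ζ ^ m * (nCol N m X X' : ℝ)

/-! ## 2. Bits and shapes -/

/-- position `i` of `X` is a cut: everything up to `i` is larger than everything after `i` -/
def CutAt (X : List ℕ) (i : ℕ) : Prop :=
  ∀ p q, p ≤ i → i < q → q < X.length → X.getD q 0 < X.getD p 0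

/-- `x` lists the positions of `X`: `false` at the cuts, `true` elsewhere -/
def IsCuts (x : List Bool) (X : List ℕ) : Prop :=
  x.length = X.length ∧ ∀ i, i < X.length → (x.getD i false = false ↔ CutAt X i)

/-- a cell with bits `x` -/
def Sh (x : List Bool) (X : List ℕ) : Prop :=
  X.Perm (List.range x.length) ∧ Av132 X ∧ IsCuts x X

/-- bit lists of length `n`; the last bit is `false` -/
def bitsF : ℕ → Finset (List Bool)
  | 0 => {[]}
  | 1 => {[false]}
  | n + 2 => (bitsF (n + 1)).image (List.cons false) ∪ (bitsF (n + 1)).image (List.cons true)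

/-- product of Catalan numbers; `k` letters of the present component have been read -/
def catp : ℕ → List Bool → ℕ
  | _, [] => 1
  | k, false :: x => catalan k * catp 0 x
  | k, true :: x => catp (k + 1) x

/-- lower bounds for the quotients `catalan j / catalan (j-1)` -/
def mmv : ℕ → ℝ
  | 0 => 1
  | 1 => 1
  | 2 => 2
  | 3 => 5 / 2
  | 4 => 14 / 5
  | 5 => 3
  | 6 => 22 / 7
  | 7 => 13 / 4
  | 8 => 10 / 3
  | _ => 17 / 5

/-- weight of a bit list; `k` letters of the present component have been read -/
def wt : ℕ → List Bool → ℝ
  | _, [] => 1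
  | _, false :: x => wt 0 x
  | k, true :: x => mmv (k + 1) * wt (k + 1) x

/-! ## 3. The machine -/

/-- Moves: up, down, left letter, right letter, and the silent moves `l` (left phase to free),
`r` (free to right phase). -/
inductive Mv where
  | D | U | L | R | l | r
  deriving DecidableEq

inductive Fl where
  | F | L | R
  deriving DecidableEq

/-- State: phase, height, floor of the left component in progress, minimum since the last letter
of the right component in progress, remaining left bits, remaining right bits. -/
structure St where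
  fl : Fl
  y : ℤ
  lf : Option ℤ
  rm : Option ℤ
  xs : List Bool
  ys : List Bool

/-- the height `y` is not below the floor -/
def floorOK : Option ℤ → ℤ → Bool
  | none, _ => true
  | some f, y => decide (f ≤ y)

/-- the height `y` is at most the minimum -/
def minOK : Option ℤ → ℤ → Bool
  | none, _ => true
  | some m, y => decide (y ≤ m)

/-- update of the minimum -/
def minUp : Option ℤ → ℤ → Option ℤ
  | none, _ => none
  | some m, y => some (min m y)

/-- after a letter with bit `b` at height `y` -/
def nxt (b : Bool) (y : ℤ) : Option ℤ := if b = true then some y else none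

def step : St → Mv → Option St
  | ⟨.F, y, lf, rm, xs, ys⟩, .r => some ⟨.R, y, lf, rm, xs, ys⟩
  | ⟨.F, y, lf, rm, xs, ys⟩, .D =>
      if floorOK lf (y - 1) = true then some ⟨.L, y - 1, lf, minUp rm (y - 1), xs, ys⟩ else none
  | ⟨.L, y, lf, rm, xs, ys⟩, .l => some ⟨.F, y, lf, rm, xs, ys⟩
  | ⟨.L, y, _, rm, b :: xs, ys⟩, .L => some ⟨.L, y, nxt b y, rm, xs, ys⟩
  | ⟨.R, y, lf, rm, xs, ys⟩, .U => some ⟨.F, y + 1, lf, rm, xs, ys⟩
  | ⟨.R, y, lf, rm, xs, b :: ys⟩, .R =>
      if minOK rm y = true then some ⟨.R, y, lf, nxt b y, xs, ys⟩ else none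
  | _, _ => none

/-- run of a word of moves -/
def run : St → List Mv → Option St
  | σ, [] => some σ
  | σ, mv :: w => match step σ mv with
    | none => none
    | some σ' => run σ' w

/-- run with all heights nonnegative -/
inductive NN : St → List Mv → St → Prop
  | nil (σ : St) (h : 0 ≤ σ.y) : NN σ [] σ
  | cons {σ σ' τ : St} {mv : Mv} {w : List Mv} (h : 0 ≤ σ.y) (hs : step σ mv = some σ')
      (hr : NN σ' w τ) : NN σ (mv :: w) τ

def init (x x' : List Bool) : St := ⟨.F, 0, none, none, x, x'⟩

def fin0 : St := init [] []

/-- words of moves for a column, with `m` ups -/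
def nWord (m : ℕ) (x x' : List Bool) : ℕ :=
  Nat.card {w : List Mv // NN (init x x') w fin0 ∧ w.count .U = m}

/-! ## 4. From words to columns (backward scan) -/

/-- `s` column read so far, `stk` values of the open arcs (top first), `lv` values of the left
letters (increasing), `c` the next value, `rem` the remaining bottom points (last first). -/
structure Bk where
  s : List ℕ
  stk : List ℕ
  lv : List ℕ
  c : ℕ
  rem : List ℕ

def bstep (mv : Mv) (b : Bk) : Bk :=
  match mv with
  | .D => { b with stk := b.c :: b.stk, c := b.c + 1 }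
  | .L => { b with lv := b.lv ++ [b.c], c := b.c + 1 }
  | .U => match b.stk with
    | [] => b
    | t :: st => { b with s := t :: b.s, stk := st }
  | .R => match b.rem with
    | [] => b
    | a :: r => { b with s := a :: b.s, rem := r }
  | .l => b
  | .r => b

def bld (N : ℕ) (X' : List ℕ) (w : List Mv) : Bk :=
  w.foldr bstep ⟨[], [], [], N, X'.reverse⟩

/-- left cell points read so far, then open arcs, then the column -/
def Zl (X : List ℕ) (b : Bk) : List ℕ :=
  (X.filter (fun a => decide (a < b.lv.length))).map (fun a => b.lv.getD a 0) ++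
    b.stk.reverse ++ b.s

/-- general invariants of states on valid paths -/
structure Inv (σ : St) : Prop where
  lf : ∀ f, σ.lf = some f → f ≤ σ.y ∧ σ.xs ≠ []
  rm : ∀ m, σ.rm = some m → m ≤ σ.y ∧ σ.ys ≠ []
  xs : σ.xs ∈ bitsF σ.xs.length
  ys : σ.ys ∈ bitsF σ.ys.length

/-! ## 5. Block words -/

/-- `(D l)^t` -/
def dl (t : ℕ) : List Mv := (List.replicate t [Mv.D, Mv.l]).flatten
/-- `(r U)^t` -/
def ru (t : ℕ) : List Mv := (List.replicate t [Mv.r, Mv.U]).flatten

/-- height after the normalisation of the phase -/
def fbY (σ : St) : ℤ := match σ.fl with | .R => σ.y + 1 | _ => σ.y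
def fbT (σ : St) : ℕ := match σ.rm with | none => 0 | some m => (fbY σ - m).toNat
def fbZ (σ : St) : ℤ := fbY σ - (fbT σ : ℤ) + 1

/-- the fallback word: place all remaining letters and return to height 0 -/
def fb (σ : St) : List Mv :=
  (match σ.fl with | .F => [] | .L => [Mv.l] | .R => [Mv.U]) ++ [Mv.r, Mv.U, Mv.D] ++
    List.replicate σ.xs.length Mv.L ++ [Mv.l] ++ dl (fbT σ) ++ [Mv.r] ++
    List.replicate σ.ys.length Mv.R ++ [Mv.U] ++
    (if 0 ≤ fbZ σ then dl (fbZ σ).toNat else ru (-fbZ σ).toNat)

/-- stop when at most one letter is left on one side -/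
def stopd (σ : St) : Prop := σ.xs.length ≤ 1 ∨ σ.ys.length ≤ 1

instance (σ : St) : Decidable (stopd σ) := by unfold stopd; infer_instance

/-- the moves available in a phase -/
def mvs : Fl → List Mv
  | .F => [.r, .D]
  | .L => [.l, .L]
  | .R => [.U, .R]

/-- continue with the words of the next state, if there is one -/
def ext (o : Option St) (mv : Mv) (rec : St → List (List Mv)) : List (List Mv) :=
  match o with
  | none => []
  | some σ' => (rec σ').map (List.cons mv)

/-- words with at most `n` moves until the stop, then the fallback word -/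
def words : ℕ → St → List (List Mv)
  | 0, σ => if stopd σ then [fb σ] else []
  | n + 1, σ => if stopd σ then [fb σ] else
      (mvs σ.fl).flatMap (fun mv => ext (step σ mv) mv (words n))

/-- weights of up and down moves -/
def uw : ℝ := 3115 / 10000
def dw : ℝ := 3057 / 10000
/-- the weight of a top point -/
def zt : ℝ := uw * dw

def wm : Mv → ℝ
  | .U => uw
  | .D => dw
  | _ => 1

/-- total weight of `words n σ` -/
def Wt : ℕ → St → ℝ
  | 0, σ => if stopd σ then ((fb σ).map wm).prod else 0
  | n + 1, σ => if stopd σ then ((fb σ).map wm).prod else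
      ((mvs σ.fl).map (fun mv => match step σ mv with
        | none => 0
        | some σ' => wm mv * Wt n σ')).sum

/-! ## 6. Averages over bits -/

/-- probability that the next bit is `true`, outside / inside a component -/
def th : Bool → ℝ
  | false => 1 / 3
  | true => 2 / 3

/-- expectation over bit lists of length `n`, starting outside (`false`) or inside (`true`) a
component -/
def EE : Bool → ℕ → (List Bool → ℝ) → ℝ
  | _, 0, f => f []
  | _, 1, f => f [false]
  | s, n + 2, f => (1 - th s) * EE false (n + 1) (fun x => f (false :: x)) +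
      th s * EE true (n + 1) (fun x => f (true :: x))

/-- entropy constant -/
def Hh : ℝ := 103 / 40
def muL : ℝ := 4948 / 10000
def muR : ℝ := 4955 / 10000

/-- block recursion -/
def beta (n N0 : ℕ) : ℕ → List Bool → ℝ
  | 0, _ => 1
  | k + 1, z' => ∑ z ∈ bitsF N0, wt 0 z * beta n N0 k z * Wt n (init z z')

/-- flattening of `R` blocks -/
def flat {R : ℕ} (z : Fin R → List Bool) : List Bool := (List.ofFn z).flatten

end

end SL1324
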