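import Pool.Agent.Lib.MP_b8e197_co.SL.Iface

/-!
# Project SL, module ENT (6.1): the entropy inequality
-/

set_option linter.all false

namespace SL1324

namespace ENT

noncomputable def G : ℕ → ℝ
  | 0 => 1
  | 1 => 2537 / 1000
  | 2 => 3214 / 1000
  | 3 => 3667 / 1000
  | 4 => 3989 / 1000
  | 5 => 4225 / 1000
  | 6 => 4395 / 1000
  | 7 => 451 / 100
  | _ => 457 / 100

theorem G_pos (k : ℕ) : 0 < G k := by
  unfold G
  split <;> norm_num

theorem G_le (k : ℕ) : G k ≤ 457 / 100 := by
  unfold G
  split <;> norm_num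

theorem mmv_pos (k : ℕ) : 0 < mmv k := by
  unfold mmv
  split <;> norm_num

theorem wt_pos : ∀ (x : List Bool) (k : ℕ), 0 < wt k x
  | [], k => by simp [wt]
  | false :: x, k => by
    have := wt_pos x 0
    simpa [wt] using this
  | true :: x, k => by
    have := wt_pos x (k + 1)
    have h2 := mmv_pos (k + 1)
    simp only [wt]
    positivity

theorem num0 : Hh ^ 3 ≤ 27 / 4 * G 1 := by
  norm_num [Hh, G]

theorem num1 : ∀ k : ℕ, 1 ≤ k → (G k) ^ 3 * Hh ^ 3 ≤ 27 / 4 * (mmv (k + 1)) ^ 2 * (G (k + 1)) ^ 2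
  | 0, h => by omega
  | 1, h => by norm_num [Hh, G, mmv]
  | 2, h => by norm_num [Hh, G, mmv]
  | 3, h => by norm_num [Hh, G, mmv]
  | 4, h => by norm_num [Hh, G, mmv]
  | 5, h => by norm_num [Hh, G, mmv]
  | 6, h => by norm_num [Hh, G, mmv]
  | 7, h => by norm_num [Hh, G, mmv]
  | k + 8, h => by
    have h1 : G (k + 8) = 457 / 100 := rfl
    have h2 : G (k + 8 + 1) = 457 / 100 := rfl
    have h3 : mmv (k + 8 + 1) = 17 / 5 := rfl
    rw [h1, h2, h3]
    norm_num [Hh]

theorem Hh_pos : 0 < Hh := by norm_num [Hh]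

/-- the one-step inequality in logarithmic form -/
theorem stepk (k : ℕ) : Real.log (G k) + Real.log Hh ≤
    (1 - th (decide (0 < k))) * (Real.log (G 0) - Real.log (1 - th (decide (0 < k)))) +
      th (decide (0 < k)) * (Real.log (mmv (k + 1)) + Real.log (G (k + 1)) -
        Real.log (th (decide (0 < k)))) := by
  have l3 : Real.log (3 : ℝ) + Real.log (1 / 3 : ℝ) = 0 := by
    rw [← Real.log_mul (by norm_num) (by norm_num)]; norm_num
  have l23 : Real.log (2 / 3 : ℝ) = Real.log 2 + Real.log (1 / 3 : ℝ) := by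
    rw [← Real.log_mul (by norm_num) (by norm_num)]; norm_num
  have lc : Real.log (27 / 4 : ℝ) = 3 * Real.log 3 - 2 * Real.log 2 := by
    rw [Real.log_div (by norm_num) (by norm_num)]
    rw [show (27 : ℝ) = 3 ^ 3 by norm_num, show (4 : ℝ) = 2 ^ 2 by norm_num, Real.log_pow,
      Real.log_pow]
    norm_num
  rcases Nat.eq_zero_or_pos k with rfl | hk
  · have h := num0
    have h2 := Real.log_le_log (by have := Hh_pos; positivity) h
    rw [Real.log_pow, Real.log_mul (by norm_num) (G_pos 1).ne'] at h2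
    have hG0 : Real.log (G 0) = 0 := by simp [G]
    have hm : Real.log (mmv (0 + 1)) = 0 := by simp [mmv]
    have ht : th (decide (0 < 0)) = 1 / 3 := by simp [th]
    have h13 : (1 - 1 / 3 : ℝ) = 2 / 3 := by norm_num
    rw [ht, hG0, hm, h13, l23]
    rw [lc] at h2
    push_cast at h2
    simp only [zero_add] at *
    linarith
  · have h := num1 k hk
    have h2 := Real.log_le_log (by have := Hh_pos; have := G_pos k; positivity) h
    rw [Real.log_mul (by have := G_pos k; positivity) (by have := Hh_pos; positivity), Real.log_pow,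
      Real.log_pow, Real.log_mul (by have := mmv_pos (k + 1); positivity)
        (by have := G_pos (k + 1); positivity), Real.log_mul (by norm_num)
        (by have := mmv_pos (k + 1); positivity), Real.log_pow, Real.log_pow] at h2
    have hG0 : Real.log (G 0) = 0 := by simp [G]
    have ht : th (decide (0 < k)) = 2 / 3 := by simp [th, hk]
    have h13 : (1 - 2 / 3 : ℝ) = 1 / 3 := by norm_num
    rw [ht, hG0, h13, l23]
    rw [lc] at h2
    push_cast at h2
    linarith

theorem gm (θ A B : ℝ) (h0 : 0 < θ) (h1 : θ < 1) (hA : 0 < A) (hB : 0 < B) :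
    (1 - θ) * (Real.log A - Real.log (1 - θ)) + θ * (Real.log B - Real.log θ) ≤
      Real.log (A + B) := by
  have h := Real.geom_mean_le_arith_mean2_weighted (w₁ := 1 - θ) (w₂ := θ) (p₁ := A / (1 - θ))
    (p₂ := B / θ) (by linarith) h0.le (by have : 0 < 1 - θ := by linarith
                                          positivity) (by positivity) (by ring)
  have e : (1 - θ) * (A / (1 - θ)) + θ * (B / θ) = A + B := by
    have : (1 - θ) ≠ 0 := by linarith
    field_simp
  rw [e] at h
  have hp1 : 0 < A / (1 - θ) := div_pos hA (by linarith)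
  have hp2 : 0 < B / θ := div_pos hB h0
  have h2 := Real.log_le_log (by positivity) h
  rw [Real.log_mul (by positivity) (by positivity), Real.log_rpow hp1, Real.log_rpow hp2,
    Real.log_div hA.ne' (by linarith), Real.log_div hB.ne' h0.ne'] at h2
  exact h2

theorem main : ∀ (n k : ℕ) (F : List Bool → ℝ), (∀ x ∈ bitsF (n + 1), 0 < F x) →
    Real.log (G k) + ((n : ℝ) + 1) * Real.log Hh - (Real.log Hh + Real.log (457 / 100)) +
      EE (decide (0 < k)) (n + 1) (fun x => Real.log (F x)) ≤
      Real.log (∑ x ∈ bitsF (n + 1), wt k x * F x)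
  | 0, k, F, hF => by
    have h1 : ∑ x ∈ bitsF (0 + 1), wt k x * F x = F [false] := by
      simp [bitsF, wt]
    rw [h1]
    have h2 := Real.log_le_log (G_pos k) (G_le k)
    have h3 : EE (decide (0 < k)) (0 + 1) (fun x => Real.log (F x)) = Real.log (F [false]) := by
      simp
    rw [h3]
    push_cast
    linarith
  | n + 1, k, F, hF => by
    have hF0 : ∀ x ∈ bitsF (n + 1), 0 < F (false :: x) := fun x hx => hF _ (mem_bits_cons.2 hx)
    have hF1 : ∀ x ∈ bitsF (n + 1), 0 < F (true :: x) := fun x hx => hF _ (mem_bits_cons.2 hx)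
    have i0 := main n 0 (fun x => F (false :: x)) hF0
    have i1 := main n (k + 1) (fun x => F (true :: x)) hF1
    have s1 := sum_bits n (fun x => wt k x * F x)
    have e0 : ∀ x : List Bool, wt k (false :: x) * F (false :: x) = wt 0 x * F (false :: x) := by
      intro x; simp [wt]
    have e1 : ∀ x : List Bool, wt k (true :: x) * F (true :: x) =
        mmv (k + 1) * (wt (k + 1) x * F (true :: x)) := by
      intro x; simp only [wt]; ring
    rw [Finset.sum_congr rfl (fun x _ => e0 x), Finset.sum_congr rfl (fun x _ => e1 x),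
      ← Finset.mul_sum] at s1
    rw [show n + 1 + 1 = n + 2 from rfl, s1, EE_succ]
    set A := ∑ x ∈ bitsF (n + 1), wt 0 x * F (false :: x) with hA
    set B := ∑ x ∈ bitsF (n + 1), wt (k + 1) x * F (true :: x) with hB
    have pA : 0 < A := Finset.sum_pos (fun x hx => mul_pos (wt_pos x 0) (hF0 x hx))
      (bits_nonempty _)
    have pB : 0 < B := Finset.sum_pos (fun x hx => mul_pos (wt_pos x (k + 1)) (hF1 x hx))
      (bits_nonempty _)
    have g := gm (th (decide (0 < k))) A (mmv (k + 1) * B) (th_mem _).1 (th_mem _).2 pA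
      (mul_pos (mmv_pos _) pB)
    rw [Real.log_mul (mmv_pos _).ne' pB.ne'] at g
    have st := stepk k
    have d0 : decide (0 < 0) = false := by simp
    have d1 : decide (0 < k + 1) = true := by simp
    rw [d0] at i0
    rw [d1] at i1
    have t := th_mem (decide (0 < k))
    have j0 := mul_le_mul_of_nonneg_left i0 (by linarith [t.2] : 0 ≤ 1 - th (decide (0 < k)))
    have j1 := mul_le_mul_of_nonneg_left i1 t.1.le
    push_cast
    nlinarith [g, st, j0, j1]

end ENT

theorem ent : EntStatement := by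
  refine ⟨(Hh * (457 / 100))⁻¹, by have := ENT.Hh_pos; positivity, ?_⟩
  intro n hn F hF
  obtain ⟨m, rfl⟩ : ∃ m, n = m + 1 := ⟨n - 1, by omega⟩
  have h := ENT.main m 0 F hF
  have hS : 0 < ∑ x ∈ bitsF (m + 1), wt 0 x * F x :=
    Finset.sum_pos (fun x hx => mul_pos (ENT.wt_pos x 0) (hF x hx)) (bits_nonempty _)
  have hG0 : Real.log (ENT.G 0) = 0 := by simp [ENT.G]
  rw [hG0, show decide (0 < 0) = false from rfl] at h
  have h2 := (Real.le_log_iff_exp_le hS).1 h
  have hH := ENT.Hh_pos
  refine le_trans (le_of_eq ?_) h2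
  rw [Real.exp_add, Real.exp_sub, Real.exp_add, Real.exp_add, Real.exp_log hH,
    Real.exp_log (by norm_num : (0 : ℝ) < 457 / 100), Real.exp_zero,
    show ((m : ℝ) + 1) * Real.log Hh = Real.log (Hh ^ (m + 1)) by
      rw [Real.log_pow]; push_cast; ring, Real.exp_log (by positivity)]
  field_simp

end SL1324
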