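import Pool.Agent.Lib.MP_b8e197_co.SL.Iface

/-!
# Project SL: module FBR (5.1)
-/

set_option linter.all false

namespace SL1324

namespace FBR

theorem run_app : ∀ (w : List Mv) (σ τ : St) (w' : List Mv), run σ w = some τ →
    run σ (w ++ w') = run τ w'
  | [], σ, τ, w', h => by
    simp only [run, Option.some.injEq] at h
    subst h
    rfl
  | mv :: w, σ, τ, w', h => by
    rw [List.cons_append]
    cases hs : step σ mv with
    | none => simp [run, hs] at h
    | some σ' =>
      have h' : run σ' w = some τ := by simpa [run, hs] using h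
      have e : run σ (mv :: (w ++ w')) = run σ' (w ++ w') := by rw [run, hs]
      rw [e]
      exact run_app w σ' τ w' h'

theorem run_cons {σ τ : St} {mv : Mv} {w : List Mv} (h : step σ mv = some τ) :
    run σ (mv :: w) = run τ w := by
  rw [run, h]

theorem bits_tail {b : Bool} {x : List Bool} (h : b :: x ∈ bitsF (b :: x).length) :
    x ∈ bitsF x.length ∧ (x = [] → b = false) := by
  cases x with
  | nil =>
    simp only [List.length_cons, List.length_nil, bitsF, Finset.mem_singleton] at h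
    refine ⟨by simp [bitsF], fun _ => ?_⟩
    simpa using h
  | cons c x =>
    refine ⟨mem_bits_cons.1 (by simpa using h), fun h2 => by simp at h2⟩

theorem run_L (y : ℤ) (rm : Option ℤ) (ys : List Bool) : ∀ (xs : List Bool) (lf : Option ℤ),
    xs ∈ bitsF xs.length → (xs = [] → lf = none) →
    run ⟨.L, y, lf, rm, xs, ys⟩ (List.replicate xs.length Mv.L) =
      some ⟨.L, y, none, rm, [], ys⟩
  | [], lf, _, h => by simp [run, h rfl]
  | b :: xs, lf, hb, _ => by
    rw [List.length_cons, List.replicate_succ]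
    have hst : step ⟨.L, y, lf, rm, b :: xs, ys⟩ Mv.L = some ⟨.L, y, nxt b y, rm, xs, ys⟩ := rfl
    rw [run_cons hst]
    obtain ⟨h1, h2⟩ := bits_tail hb
    exact run_L y rm ys xs (nxt b y) h1 (fun h => by rw [h2 h]; simp [nxt])

theorem run_R (y : ℤ) (lf : Option ℤ) (xs : List Bool) : ∀ (ys : List Bool) (rm : Option ℤ),
    ys ∈ bitsF ys.length → (ys = [] → rm = none) → minOK rm y = true →
    run ⟨.R, y, lf, rm, xs, ys⟩ (List.replicate ys.length Mv.R) =
      some ⟨.R, y, lf, none, xs, []⟩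
  | [], rm, _, h, _ => by simp [run, h rfl]
  | b :: ys, rm, hb, _, hm => by
    rw [List.length_cons, List.replicate_succ]
    have hst : step ⟨.R, y, lf, rm, xs, b :: ys⟩ Mv.R = some ⟨.R, y, lf, nxt b y, xs, ys⟩ := by
      simp [step, hm]
    rw [run_cons hst]
    obtain ⟨h1, h2⟩ := bits_tail hb
    refine run_R y lf xs ys (nxt b y) h1 (fun h => by rw [h2 h]; simp [nxt]) ?_
    cases b <;> simp [nxt, minOK]

theorem run_dl (rm : Option ℤ) (xs ys : List Bool) : ∀ (t : ℕ) (y : ℤ),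
    (∀ m, rm = some m → m ≤ y - t) →
    run ⟨.F, y, none, rm, xs, ys⟩ (dl t) = some ⟨.F, y - t, none, rm, xs, ys⟩
  | 0, y, _ => by simp [dl, run]
  | t + 1, y, h => by
    have hdl : dl (t + 1) = Mv.D :: Mv.l :: dl t := by
      simp [dl, List.replicate_succ]
    have hm : minUp rm (y - 1) = rm := by
      cases rm with
      | none => rfl
      | some m =>
        have := h m rfl
        push_cast at this
        simp only [minUp, Option.some.injEq]
        exact min_eq_left (by omega)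
    have hst : step ⟨.F, y, none, rm, xs, ys⟩ Mv.D = some ⟨.L, y - 1, none, rm, xs, ys⟩ := by
      simp [step, floorOK, hm]
    have hst2 : step ⟨.L, y - 1, none, rm, xs, ys⟩ Mv.l = some ⟨.F, y - 1, none, rm, xs, ys⟩ := by
      simp [step]
    rw [hdl, run_cons hst, run_cons hst2, run_dl rm xs ys t (y - 1)]
    · push_cast
      congr 2
      ring
    · intro m hm'
      have := h m hm'
      push_cast at this
      omega

theorem run_ru (lf rm : Option ℤ) (xs ys : List Bool) : ∀ (t : ℕ) (y : ℤ),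
    run ⟨.F, y, lf, rm, xs, ys⟩ (ru t) = some ⟨.F, y + t, lf, rm, xs, ys⟩
  | 0, y => by simp [ru, run]
  | t + 1, y => by
    have hru : ru (t + 1) = Mv.r :: Mv.U :: ru t := by
      simp [ru, List.replicate_succ]
    have hst : step ⟨.F, y, lf, rm, xs, ys⟩ Mv.r = some ⟨.R, y, lf, rm, xs, ys⟩ := by
      simp [step]
    have hst2 : step ⟨.R, y, lf, rm, xs, ys⟩ Mv.U = some ⟨.F, y + 1, lf, rm, xs, ys⟩ := by
      simp [step]
    rw [hru, run_cons hst, run_cons hst2, run_ru lf rm xs ys t (y + 1)]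
    push_cast
    congr 2
    ring

end FBR

open FBR in
theorem fbr : FbrStatement := by
  intro σ hI
  -- phase normalisation
  have h1 : ∃ a : List Mv, run σ a = some ⟨.F, fbY σ, σ.lf, σ.rm, σ.xs, σ.ys⟩ ∧
      fb σ = a ++ ([Mv.r, Mv.U, Mv.D] ++ (List.replicate σ.xs.length Mv.L ++ ([Mv.l] ++
        (dl (fbT σ) ++ ([Mv.r] ++ (List.replicate σ.ys.length Mv.R ++ ([Mv.U] ++
        (if 0 ≤ fbZ σ then dl (fbZ σ).toNat else ru (-fbZ σ).toNat)))))))) := by
    obtain ⟨fl, y, lf, rm, xs, ys⟩ := σ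
    cases fl
    · exact ⟨[], by simp [run, fbY], by simp [fb]⟩
    · exact ⟨[Mv.l], by simp [run, step, fbY], by simp [fb]⟩
    · exact ⟨[Mv.U], by simp [run, step, fbY], by simp [fb]⟩
  obtain ⟨a, h1, hfb⟩ := h1
  have hyY : σ.y ≤ fbY σ := by
    obtain ⟨fl, y, lf, rm, xs, ys⟩ := σ
    cases fl <;> simp [fbY]
  have hlf : ∀ f, σ.lf = some f → f ≤ fbY σ := fun f hf => (hI.lf f hf).1.trans hyY
  have hrm : ∀ m, σ.rm = some m → m ≤ fbY σ := fun m hm => (hI.rm m hm).1.trans hyY
  have h2 : run ⟨.F, fbY σ, σ.lf, σ.rm, σ.xs, σ.ys⟩ [Mv.r, Mv.U, Mv.D] =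
      some ⟨.L, fbY σ, σ.lf, σ.rm, σ.xs, σ.ys⟩ := by
    have e1 : floorOK σ.lf (fbY σ + 1 - 1) = true := by
      cases h : σ.lf with
      | none => rfl
      | some f => simpa [floorOK] using hlf f h
    have e2 : minUp σ.rm (fbY σ + 1 - 1) = σ.rm := by
      cases h : σ.rm with
      | none => rfl
      | some m =>
        simp only [minUp, Option.some.injEq]
        exact min_eq_left (by have := hrm m h; omega)
    have s1 : step ⟨.F, fbY σ, σ.lf, σ.rm, σ.xs, σ.ys⟩ Mv.r =
      some ⟨.R, fbY σ, σ.lf, σ.rm, σ.xs, σ.ys⟩ := by simp [step]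
    have s2 : step ⟨.R, fbY σ, σ.lf, σ.rm, σ.xs, σ.ys⟩ Mv.U =
      some ⟨.F, fbY σ + 1, σ.lf, σ.rm, σ.xs, σ.ys⟩ := by simp [step]
    have s3 : step ⟨.F, fbY σ + 1, σ.lf, σ.rm, σ.xs, σ.ys⟩ Mv.D =
      some ⟨.L, fbY σ + 1 - 1, σ.lf, minUp σ.rm (fbY σ + 1 - 1), σ.xs, σ.ys⟩ := by
      simp only [step]
      rw [if_pos e1]
    rw [run_cons s1, run_cons s2, run_cons s3, e2, run]
    congr 2
    ring
  have h3 : run ⟨.L, fbY σ, σ.lf, σ.rm, σ.xs, σ.ys⟩ (List.replicate σ.xs.length Mv.L) =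
      some ⟨.L, fbY σ, none, σ.rm, [], σ.ys⟩ := by
    refine run_L _ _ _ _ _ hI.xs ?_
    intro h
    cases hl : σ.lf with
    | none => rfl
    | some f => exact absurd h (hI.lf f hl).2
  have h4 : run ⟨.L, fbY σ, none, σ.rm, [], σ.ys⟩ [Mv.l] =
      some ⟨.F, fbY σ, none, σ.rm, [], σ.ys⟩ := by simp [run, step]
  have h5 : run ⟨.F, fbY σ, none, σ.rm, [], σ.ys⟩ (dl (fbT σ)) =
      some ⟨.F, fbY σ - (fbT σ : ℤ), none, σ.rm, [], σ.ys⟩ := by
    refine run_dl _ _ _ _ _ ?_
    intro m hm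
    have := hrm m hm
    have hT : fbT σ = (fbY σ - m).toNat := by rw [fbT, hm]
    rw [hT]
    omega
  have h6 : run ⟨.F, fbY σ - (fbT σ : ℤ), none, σ.rm, [], σ.ys⟩ [Mv.r] =
      some ⟨.R, fbY σ - (fbT σ : ℤ), none, σ.rm, [], σ.ys⟩ := by simp [run, step]
  have h7 : run ⟨.R, fbY σ - (fbT σ : ℤ), none, σ.rm, [], σ.ys⟩
      (List.replicate σ.ys.length Mv.R) =
      some ⟨.R, fbY σ - (fbT σ : ℤ), none, none, [], []⟩ := by
    refine run_R _ _ _ _ _ hI.ys ?_ ?_
    · intro h
      cases hl : σ.rm with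
      | none => rfl
      | some f => exact absurd h (hI.rm f hl).2
    · cases hl : σ.rm with
      | none => rfl
      | some m =>
        have := hrm m hl
        have hT : fbT σ = (fbY σ - m).toNat := by rw [fbT, hl]
        simp only [minOK, decide_eq_true_eq]
        rw [hT]
        omega
  have h8 : run ⟨.R, fbY σ - (fbT σ : ℤ), none, none, [], []⟩ [Mv.U] =
      some ⟨.F, fbZ σ, none, none, [], []⟩ := by simp [run, step, fbZ]
  have h9 : run ⟨.F, fbZ σ, none, none, [], []⟩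
      (if 0 ≤ fbZ σ then dl (fbZ σ).toNat else ru (-fbZ σ).toNat) = some fin0 := by
    split_ifs with h
    · rw [run_dl _ _ _ _ _ (fun m hm => by simp at hm)]
      simp only [fin0, init, Option.some.injEq, St.mk.injEq, and_true, true_and]
      omega
    · rw [run_ru]
      simp only [fin0, init, Option.some.injEq, St.mk.injEq, and_true, true_and]
      omega
  rw [hfb]
  rw [run_app _ _ _ _ h1, run_app _ _ _ _ h2, run_app _ _ _ _ h3, run_app _ _ _ _ h4,
    run_app _ _ _ _ h5, run_app _ _ _ _ h6, run_app _ _ _ _ h7, run_app _ _ _ _ h8, h9]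

end SL1324
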