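import Pool.Agent.Lib.MP_b8e197_co.SL.Iface

/-!
# Project SL: module FBW (5.2), the weight of the fallback word
-/

set_option linter.all false

namespace SL1324

namespace FBW

theorem wm_pos (mv : Mv) : 0 < wm mv := by
  cases mv <;> norm_num [wm, uw, dw]

theorem dw_pos : 0 < dw := by norm_num [dw]
theorem dw_le : dw ≤ 1 := by norm_num [dw]

theorem prod_pos : ∀ w : List Mv, 0 < (w.map wm).prod
  | [] => by simp
  | mv :: w => by
    rw [List.map_cons, List.prod_cons]
    exact mul_pos (wm_pos mv) (prod_pos w)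

theorem pow_le : ∀ w : List Mv, dw ^ (w.count Mv.U + w.count Mv.D) ≤ (w.map wm).prod
  | [] => by simp
  | mv :: w => by
    have ih := pow_le w
    have hp := prod_pos w
    rw [List.map_cons, List.prod_cons]
    have key : ∀ c : ℝ, 0 < c → c ≤ wm mv → ∀ k : ℕ, dw ^ k = c * dw ^ (w.count Mv.U +
        w.count Mv.D) → dw ^ k ≤ wm mv * (w.map wm).prod := by
      intro c hc1 hc2 k hk
      rw [hk]
      exact mul_le_mul hc2 ih (pow_nonneg dw_pos.le _) (wm_pos mv).le
    cases mv
    · -- D
      refine key dw dw_pos (by simp [wm]) _ ?_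
      simp [List.count_cons]
      ring
    · refine key dw dw_pos (by norm_num [wm, uw, dw]) _ ?_
      simp [List.count_cons]
      ring
    · refine key 1 one_pos (by simp [wm]) _ ?_
      simp [List.count_cons]
    · refine key 1 one_pos (by simp [wm]) _ ?_
      simp [List.count_cons]
    · refine key 1 one_pos (by simp [wm]) _ ?_
      simp [List.count_cons]
    · refine key 1 one_pos (by simp [wm]) _ ?_
      simp [List.count_cons]

theorem count_dl_U (t : ℕ) : (dl t).count Mv.U = 0 := by
  induction t with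
  | zero => simp [dl]
  | succ t ih =>
    have : dl (t + 1) = [Mv.D, Mv.l] ++ dl t := by simp [dl, List.replicate_succ]
    rw [this, List.count_append, ih]; decide

theorem count_dl_D (t : ℕ) : (dl t).count Mv.D = t := by
  induction t with
  | zero => simp [dl]
  | succ t ih =>
    have : dl (t + 1) = [Mv.D, Mv.l] ++ dl t := by simp [dl, List.replicate_succ]
    rw [this, List.count_append, ih]
    have : List.count Mv.D [Mv.D, Mv.l] = 1 := by decide
    omega

theorem count_ru_D (t : ℕ) : (ru t).count Mv.D = 0 := by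
  induction t with
  | zero => simp [ru]
  | succ t ih =>
    have : ru (t + 1) = [Mv.r, Mv.U] ++ ru t := by simp [ru, List.replicate_succ]
    rw [this, List.count_append, ih]; decide

theorem count_ru_U (t : ℕ) : (ru t).count Mv.U = t := by
  induction t with
  | zero => simp [ru]
  | succ t ih =>
    have : ru (t + 1) = [Mv.r, Mv.U] ++ ru t := by simp [ru, List.replicate_succ]
    rw [this, List.count_append, ih]
    have : List.count Mv.U [Mv.r, Mv.U] = 1 := by decide
    omega

end FBW

open FBW in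
theorem fbw : FbwStatement := by
  intro σ hB hr
  refine le_trans ?_ (pow_le (fb σ))
  apply pow_le_pow_of_le_one dw_pos.le dw_le
  obtain ⟨fl, y, lf, rm, xs, ys⟩ := σ
  -- the bound for T
  have hY : fbY ⟨fl, y, lf, rm, xs, ys⟩ = y ∨ fbY ⟨fl, y, lf, rm, xs, ys⟩ = y + 1 := by
    cases fl <;> simp [fbY]
  have hT : fbT ⟨fl, y, lf, rm, xs, ys⟩ ≤ 9 := by
    cases rm with
    | none => simp [fbT]
    | some m =>
      simp only [relC] at hr
      simp only [fbT]
      omega
  have hZ : (fbZ ⟨fl, y, lf, rm, xs, ys⟩).natAbs ≤ y.natAbs + 11 := by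
    simp only [fbZ]
    omega
  have h1 : ∀ b : Mv, b = Mv.U ∨ b = Mv.D →
      (List.replicate xs.length Mv.L).count b = 0 ∧ (List.replicate ys.length Mv.R).count b = 0 := by
    intro b hb
    rcases hb with rfl | rfl <;> simp [List.count_replicate]
  have hz : ((if 0 ≤ fbZ ⟨fl, y, lf, rm, xs, ys⟩ then dl (fbZ ⟨fl, y, lf, rm, xs, ys⟩).toNat
      else ru (-fbZ ⟨fl, y, lf, rm, xs, ys⟩).toNat).count Mv.U +
      (if 0 ≤ fbZ ⟨fl, y, lf, rm, xs, ys⟩ then dl (fbZ ⟨fl, y, lf, rm, xs, ys⟩).toNat
      else ru (-fbZ ⟨fl, y, lf, rm, xs, ys⟩).toNat).count Mv.D) ≤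
      (fbZ ⟨fl, y, lf, rm, xs, ys⟩).natAbs := by
    split_ifs with h
    · rw [count_dl_U, count_dl_D]; omega
    · rw [count_ru_U, count_ru_D]; omega
  obtain ⟨u1, u2⟩ := h1 Mv.U (Or.inl rfl)
  obtain ⟨u3, u4⟩ := h1 Mv.D (Or.inr rfl)
  have c1 : List.count Mv.U [Mv.r, Mv.U, Mv.D] = 1 := by decide
  have c2 : List.count Mv.D [Mv.r, Mv.U, Mv.D] = 1 := by decide
  have c3 : List.count Mv.U [Mv.l] = 0 := by decide
  have c4 : List.count Mv.D [Mv.l] = 0 := by decide
  have c5 : List.count Mv.U [Mv.r] = 0 := by decide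
  have c6 : List.count Mv.D [Mv.r] = 0 := by decide
  have c7 : List.count Mv.U [Mv.U] = 1 := by decide
  have c8 : List.count Mv.D [Mv.U] = 0 := by decide
  simp only [fb, List.count_append]
  rw [u1, u2, u3, u4, c1, c2, c3, c4, c5, c6, c7, c8, count_dl_U (fbT _), count_dl_D (fbT _)]
  have c9 : List.count Mv.U ([] : List Mv) = 0 := by decide
  have c10 : List.count Mv.D ([] : List Mv) = 0 := by decide
  cases fl
  · simp only [c9, c10]; omega
  · simp only [c3, c4]; omega
  · simp only [c7, c8]; omega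

end SL1324
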