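import Pool.Agent.Lib.MP_b8e197_co.SL.Iface

namespace SL1324

open H98Av (Av1324)
open Filter

theorem FINI.exR (H0 k N1 : ℕ) (C : ℝ) : ∃ R : ℕ, N1 ≤ R ∧ 1 ≤ R ∧
    (((H0 * (R + 1) : ℕ) : ℝ) + 1) ^ k * C ≤ Real.exp 1 ^ R := by
  have he : (1 : ℝ) < Real.exp 1 := by
    have := Real.add_one_lt_exp (one_ne_zero : (1 : ℝ) ≠ 0)
    linarith
  have ht := tendsto_pow_const_div_const_pow_of_one_lt k he
  set C' : ℝ := ((2 * (H0 : ℝ) + 1) ^ k) * (|C| + 1) with hC'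
  have hC0 : 0 < C' := by positivity
  have hev := ht.eventually_le_const (show (0 : ℝ) < 1 / C' by positivity)
  obtain ⟨R, hR⟩ := (hev.and (eventually_ge_atTop (N1 + 1))).exists
  obtain ⟨h1, h2⟩ := hR
  refine ⟨R, by omega, by omega, ?_⟩
  have hR1 : (1 : ℝ) ≤ R := by exact_mod_cast (by omega : 1 ≤ R)
  have hexp : 0 < Real.exp 1 ^ R := by positivity
  have h3 : (R : ℝ) ^ k * C' ≤ Real.exp 1 ^ R := by
    rw [div_le_div_iff₀ hexp hC0] at h1
    linarith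
  have h4 : (((H0 * (R + 1) : ℕ) : ℝ) + 1) ≤ (2 * (H0 : ℝ) + 1) * R := by
    push_cast
    have : (0 : ℝ) ≤ H0 := by positivity
    nlinarith
  calc (((H0 * (R + 1) : ℕ) : ℝ) + 1) ^ k * C
      ≤ (((H0 * (R + 1) : ℕ) : ℝ) + 1) ^ k * (|C| + 1) := by
        apply mul_le_mul_of_nonneg_left _ (by positivity)
        have := le_abs_self C
        linarith
    _ ≤ ((2 * (H0 : ℝ) + 1) * R) ^ k * (|C| + 1) := by
        apply mul_le_mul_of_nonneg_right _ (by positivity)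
        apply pow_le_pow_left₀ (by positivity) h4
    _ = (R : ℝ) ^ k * C' := by rw [hC', mul_pow]; ring
    _ ≤ _ := h3

theorem fini (h_ENT : EntStatement) (h_POT : PotStatement) (h_BLK : BlkStatement)
    (h_BETA : BetaStatement) (h_TOT : TotStatement) (h_CHR : ChrStatement)
    (h_NUM : NumStatement) (h_SHU : ShuStatement) : FiniStatement := by
  intro N1
  obtain ⟨c0, hc0, hent⟩ := h_ENT
  obtain ⟨C1, hpot⟩ := h_POT
  have hzt : 0 < zt := by norm_num [zt, uw, dw]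
  have hHh : 0 < Hh := by norm_num [Hh]
  obtain ⟨δ, hδ⟩ : ∃ δ : ℝ, δ = Real.log (Hh * zt) + aL + aR := ⟨_, rfl⟩
  have hδ0 : 0 < δ := by rw [hδ]; exact h_NUM.1
  obtain ⟨N0, hN0⟩ := exists_nat_ge ((1 + C1 - Real.log c0) / δ + 1)
  obtain ⟨N0', hN0'⟩ : ∃ N : ℕ, N = N0 + 1 := ⟨_, rfl⟩
  have hN01 : 1 ≤ N0' := by omega
  have hNδ : 1 ≤ (N0' : ℝ) * δ + Real.log c0 - C1 := by
    have h1 : (1 + C1 - Real.log c0) / δ ≤ (N0' : ℝ) := by
      rw [hN0']; push_cast; linarith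
    rw [div_le_iff₀ hδ0] at h1
    linarith
  obtain ⟨n, hn⟩ := hpot N0' hN01
  obtain ⟨k, hk⟩ := exists_nat_ge (1 - Real.log c0 - (N0' : ℝ) * Real.log (Hh * zt))
  obtain ⟨H0, hblk⟩ := h_BLK n N0' hN01
  obtain ⟨R, hRN, hR1, hR⟩ := FINI.exR H0 k N1 ((1 / zt) ^ (k * H0))
  obtain ⟨B, hB⟩ : ∃ B : ℝ, B = ∑ z ∈ bitsF N0', wt 0 z * beta n N0' k z := ⟨_, rfl⟩
  have hbeta := h_BETA c0 C1 n N0' hc0 hN01 (hent N0' hN01) hn k
  rw [← hB] at hbeta
  have hB1 : Real.exp 1 ≤ zt ^ ((k + 1) * N0') * B := by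
    calc Real.exp 1 ≤ Real.exp (((k + 1 : ℕ) : ℝ) * Real.log c0 +
          (((k + 1) * N0' : ℕ) : ℝ) * Real.log (Hh * zt) +
          k * ((N0' : ℝ) * (aL + aR) - C1)) := by
          apply Real.exp_le_exp.2
          have h5 : (k : ℝ) * 1 ≤ (k : ℝ) * ((N0' : ℝ) * δ + Real.log c0 - C1) :=
            mul_le_mul_of_nonneg_left hNδ (by positivity)
          rw [hδ] at h5
          push_cast
          nlinarith
      _ = c0 ^ (k + 1) * (Hh * zt) ^ ((k + 1) * N0') *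
          Real.exp (k * ((N0' : ℝ) * (aL + aR) - C1)) := by
          rw [Real.exp_add, Real.exp_add, Real.exp_nat_mul, Real.exp_nat_mul, Real.exp_log hc0,
            Real.exp_log (by positivity)]
      _ = zt ^ ((k + 1) * N0') * (c0 ^ (k + 1) * Hh ^ ((k + 1) * N0') *
          Real.exp (k * ((N0' : ℝ) * (aL + aR) - C1))) := by
          rw [mul_pow]; ring
      _ ≤ zt ^ ((k + 1) * N0') * B := mul_le_mul_of_nonneg_left hbeta (by positivity)
  have htot := h_TOT n N0' H0 R k hN01 hR1 (hblk R) hn.1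
  rw [← hB] at htot
  obtain ⟨n', hn', hchr⟩ := h_CHR zt hzt (R * N0') (H0 * (R + 1)) (SS N0' R) (by
    intro X hX
    simp only [SS, Finset.mem_filter, List.mem_toFinset, List.mem_permutations] at hX
    obtain ⟨h1, z, _, h2⟩ := hX
    exact ⟨h1, h_SHU.2.1 _ _ h2⟩) k
  refine ⟨n', ?_, ?_⟩
  · calc N1 ≤ R := hRN
      _ ≤ (k + 1) * (R * N0') := by
        have : R ≤ R * N0' := Nat.le_mul_of_pos_right _ (by omega)
        have h2 : R * N0' ≤ (k + 1) * (R * N0') := Nat.le_mul_of_pos_left _ (by omega)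
        omega
      _ ≤ n' := hn'
  · have hM : 0 < (((H0 * (R + 1) : ℕ) : ℝ) + 1) ^ k := by positivity
    have h6 : Real.exp 1 ^ R ≤ (zt ^ ((k + 1) * N0') * B) ^ R :=
      pow_le_pow_left₀ (by positivity) hB1 _
    have h7 : (((H0 * (R + 1) : ℕ) : ℝ) + 1) ^ k * 1 ≤
        (((H0 * (R + 1) : ℕ) : ℝ) + 1) ^ k * (zt ^ n' * (cntAv n' : ℝ)) := by
      calc (((H0 * (R + 1) : ℕ) : ℝ) + 1) ^ k * 1
          = zt ^ (k * H0) * ((((H0 * (R + 1) : ℕ) : ℝ) + 1) ^ k * (1 / zt) ^ (k * H0)) := by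
            rw [one_div, inv_pow]; field_simp
        _ ≤ zt ^ (k * H0) * Real.exp 1 ^ R := mul_le_mul_of_nonneg_left hR (by positivity)
        _ ≤ zt ^ (k * H0) * (zt ^ ((k + 1) * N0') * B) ^ R :=
            mul_le_mul_of_nonneg_left h6 (by positivity)
        _ = zt ^ ((k + 1) * (R * N0')) * (zt ^ (k * H0) * B ^ R) := by
            rw [mul_pow, ← pow_mul]; ring_nf
        _ ≤ zt ^ ((k + 1) * (R * N0')) * _ := mul_le_mul_of_nonneg_left htot (by positivity)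
        _ ≤ _ := hchr
    have h8 : 1 ≤ zt ^ n' * (cntAv n' : ℝ) := le_of_mul_le_mul_left h7 hM
    rw [one_div, inv_pow, inv_le_iff_one_le_mul₀ (by positivity)]
    linarith [mul_comm (zt ^ n') (cntAv n' : ℝ)]

end SL1324
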