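import Pool.Agent.Lib.MP_b8e197_co.SL.Iface

set_option linter.all false

namespace SL1324

namespace FLAT

theorem app_mem : ∀ (a : ℕ) (b : ℕ) (x y : List Bool), x ∈ bitsF a → y ∈ bitsF (b + 1) →
    x ++ y ∈ bitsF (a + (b + 1))
  | 0, b, x, y, hx, hy => by
    simp only [bitsF, Finset.mem_singleton] at hx
    subst hx
    simpa using hy
  | 1, b, x, y, hx, hy => by
    simp only [bitsF, Finset.mem_singleton] at hx
    subst hx
    have h : 1 + (b + 1) = b + 2 := by omega
    rw [h]
    exact mem_bits_cons.2 hy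
  | a + 2, b, [], y, hx, hy => by
    have := mem_bits_length hx
    simp at this
  | a + 2, b, c :: x, y, hx, hy => by
    have h1 := mem_bits_cons.1 hx
    have h2 := app_mem (a + 1) b x y h1 hy
    have h : a + 2 + (b + 1) = (a + b + 1) + 2 := by omega
    have h' : a + 1 + (b + 1) = (a + b + 1) + 1 := by omega
    rw [h]
    rw [h'] at h2
    exact mem_bits_cons.2 h2

theorem app_mem' (a b : ℕ) (x y : List Bool) (hx : x ∈ bitsF a) (hy : y ∈ bitsF b) :
    x ++ y ∈ bitsF (a + b) := by
  cases b with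
  | zero =>
    simp only [bitsF, Finset.mem_singleton] at hy
    subst hy
    simpa using hx
  | succ b => exact app_mem a b x y hx hy

theorem wt_app : ∀ (a : ℕ) (k : ℕ) (x y : List Bool), x ∈ bitsF (a + 1) →
    wt k (x ++ y) = wt k x * wt 0 y
  | 0, k, x, y, hx => by
    simp only [bitsF, Finset.mem_singleton] at hx
    subst hx
    simp [wt]
  | a + 1, k, [], y, hx => by
    have := mem_bits_length hx
    simp at this
  | a + 1, k, false :: x, y, hx => by
    have h1 := mem_bits_cons.1 hx
    have h2 := wt_app a 0 x y h1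
    simp only [List.cons_append, wt]
    exact h2
  | a + 1, k, true :: x, y, hx => by
    have h1 := mem_bits_cons.1 hx
    have h2 := wt_app a (k + 1) x y h1
    simp only [List.cons_append, wt]
    rw [h2]
    ring

theorem flat_succ {R : ℕ} (z : Fin (R + 1) → List Bool) :
    flat z = z 0 ++ flat (fun i : Fin R => z i.succ) := by
  unfold flat
  rw [List.ofFn_succ, List.flatten_cons]

theorem main (N0 : ℕ) (hN : 1 ≤ N0) : ∀ (R : ℕ) (z : Fin R → List Bool),
    (∀ i, z i ∈ bitsF N0) →
      flat z ∈ bitsF (R * N0) ∧ wt 0 (flat z) = ∏ i, wt 0 (z i)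
  | 0, z, hz => by
    simp [flat, bitsF, wt]
  | R + 1, z, hz => by
    obtain ⟨h1, h2⟩ := main N0 hN R (fun i : Fin R => z i.succ) (fun i => hz _)
    obtain ⟨a, rfl⟩ : ∃ a, N0 = a + 1 := ⟨N0 - 1, by omega⟩
    rw [flat_succ]
    refine ⟨?_, ?_⟩
    · have h3 : (R + 1) * (a + 1) = (a + 1) + R * (a + 1) := by ring
      rw [h3]
      exact app_mem' _ _ _ _ (hz 0) h1
    · rw [wt_app a 0 _ _ (hz 0), h2, Fin.prod_univ_succ]

theorem inj (N0 : ℕ) : ∀ (R : ℕ) (z z' : Fin R → List Bool),
    (∀ i, z i ∈ bitsF N0) → (∀ i, z' i ∈ bitsF N0) → flat z = flat z' → z = z'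
  | 0, z, z', hz, hz', h => by
    funext i
    exact i.elim0
  | R + 1, z, z', hz, hz', h => by
    rw [flat_succ, flat_succ] at h
    have hl : (z 0).length = (z' 0).length := by
      rw [mem_bits_length (hz 0), mem_bits_length (hz' 0)]
    obtain ⟨h1, h2⟩ := List.append_inj h hl
    have h3 := inj N0 R (fun i : Fin R => z i.succ) (fun i : Fin R => z' i.succ)
      (fun i => hz _) (fun i => hz' _) h2
    funext i
    refine Fin.cases h1 (fun j => ?_) i
    exact congrFun h3 j

end FLAT

theorem flat' : FlatStatement := fun N0 R hN _ =>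
  ⟨fun z hz => FLAT.main N0 hN R z hz, fun z z' hz hz' h => FLAT.inj N0 R z z' hz hz' h⟩

end SL1324
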