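import Pool.Agent.Lib.MP_b8e197_co.SL.Iface

namespace SL1324

open H98Av (Av1324 Av132)

theorem GLUE.inf (s : List ℕ) : {t | t ∉ s}.Infinite := by
  have h : {t | t ∉ s} = (↑(s.toFinset) : Set ℕ)ᶜ := by
    ext t; simp
  rw [h]
  exact (s.toFinset.finite_toSet).infinite_compl

theorem GLUE.count {N m : ℕ} {s : List ℕ} (hnd : s.Nodup) (hlen : s.length = N + m)
    (hlt : ∀ t ∈ s, t < 2 * N + m) {K : ℕ} (hK : 2 * N + m ≤ K) :
    Nat.count (fun t => t ∉ s) K = K - (N + m) := by
  rw [Nat.count_eq_card_filter_range]
  have h : (Finset.range K).filter (fun t => t ∉ s) = Finset.range K \ s.toFinset := by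
    ext t; simp
  rw [h, Finset.card_sdiff_of_subset, Finset.card_range, List.toFinset_card_of_nodup hnd, hlen]
  intro t ht
  rw [List.mem_toFinset] at ht
  have := hlt t ht
  simp; omega

theorem GLUE.lt_iff {N m : ℕ} {s : List ℕ} (hnd : s.Nodup) (hlen : s.length = N + m)
    (hlt : ∀ t ∈ s, t < 2 * N + m) {K : ℕ} (hK : 2 * N + m ≤ K) (t : ℕ) :
    enumC s t < K ↔ t < K - (N + m) := by
  have h := Nat.count_le_iff_le_nth (GLUE.inf s) (a := K) (b := t)
  rw [GLUE.count hnd hlen hlt hK] at h
  unfold enumC
  omega

theorem glue : GlueStatement := by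
  intro n N m v s X' hNn hv hav hX' hC
  have hinf := GLUE.inf s
  have hmono : StrictMono (enumC s) := Nat.nth_strictMono hinf
  have hnot : ∀ t, enumC s t ∉ s := fun t => Nat.nth_mem_of_infinite hinf t
  have hlt := fun {K : ℕ} (hK : 2 * N + m ≤ K) => GLUE.lt_iff hC.nodup hC.len hC.lt hK
  have hvmem : ∀ t, t ∈ v ↔ t < n := fun t => by rw [hv.mem_iff]; simp
  have hlow : ∀ t, t < N → t ∈ s := by
    intro t ht
    have h1 : t ∈ X' := by rw [hX'.mem_iff]; simpa using ht
    rw [← hC.low] at h1
    exact List.mem_of_mem_filter h1
  have hge : ∀ t, N ≤ enumC s t := by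
    intro t
    by_contra hh
    exact hnot t (hlow _ (by omega))
  refine ⟨?_, ?_, ?_⟩
  · rw [List.perm_ext_iff_of_nodup]
    · intro a
      simp only [List.mem_append, List.mem_map, List.mem_range]
      constructor
      · rintro (⟨t, ht, rfl⟩ | ha)
        · rw [hvmem] at ht
          rw [hlt (by omega)]
          omega
        · have := hC.lt a ha
          omega
      · intro ha
        by_cases has : a ∈ s
        · exact Or.inr has
        · left
          have h1 : enumC s (Nat.count (fun t => t ∉ s) a) = a := Nat.nth_count has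
          refine ⟨_, ?_, h1⟩
          rw [hvmem]
          have h2 : enumC s (Nat.count (fun t => t ∉ s) a) < n + N + m := by rw [h1]; exact ha
          rw [hlt (by omega)] at h2
          omega
    · rw [List.nodup_append]
      refine ⟨(List.nodup_map_iff hmono.injective).2 (hv.nodup_iff.2 List.nodup_range), hC.nodup, ?_⟩
      intro a ha b hb hab
      subst hab
      rw [List.mem_map] at ha
      obtain ⟨t, _, rfl⟩ := ha
      exact hnot t hb
    · exact List.nodup_range
  · intro a b c d hsub hh
    rw [List.sublist_append_iff] at hsub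
    obtain ⟨l1, l2, hl, h1, h2⟩ := hsub
    rw [List.sublist_map_iff] at h1
    obtain ⟨u, hu, rfl⟩ := h1
    rcases List.eq_nil_or_concat l2 with rfl | ⟨l2', d', rfl⟩
    · simp only [List.append_nil] at hl
      match u, hl with
      | [a', b', c', d'], hl =>
        simp only [List.map_cons, List.map_nil, List.cons.injEq, and_true] at hl
        obtain ⟨rfl, rfl, rfl, rfl⟩ := hl
        rw [hmono.lt_iff_lt, hmono.lt_iff_lt, hmono.lt_iff_lt] at hh
        exact hav a' b' c' d' hu hh
    · have hd : d = d' := by
        have := congrArg List.getLast? hl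
        simpa using this
      have hds : d ∈ s := h2.subset (by simp [hd])
      have hdlt := hC.lt d hds
      have hall : ∀ t ∈ u, t < N := by
        intro t ht
        have h3 : enumC s t ∈ [a, b, c, d] := by
          rw [hl]; simp; left; exact ⟨t, ht, rfl⟩
        have h4 : enumC s t < 2 * N + m := by
          simp only [List.mem_cons, List.not_mem_nil, or_false] at h3
          omega
        rw [hlt (le_refl _)] at h4
        omega
      have hu' : u.Sublist (v.filter (fun t => decide (t < N))) := by
        have h5 := hu.filter (fun t => decide (t < N))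
        rwa [List.filter_eq_self.2 (fun t ht => by simpa using hall t ht)] at h5
      refine hC.av a b c d ?_ hh
      rw [hl]
      exact (hu'.map _).append h2
  · rw [List.filter_append, hC.low, List.filter_eq_nil_iff.2]
    · simp
    · intro a ha
      rw [List.mem_map] at ha
      obtain ⟨t, _, rfl⟩ := ha
      have := hge t
      simp; omega

end SL1324
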