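import Pool.Agent.Lib.MP_b8e197_co.SL.Iface

/-!
# Project SL: module GLUI (2.4)
-/

set_option linter.all false

namespace SL1324

namespace GLUI

theorem compl_infinite (s : List ℕ) : (setOf (fun t => t ∉ s)).Infinite := by
  have h : (setOf (fun t => t ∉ s)) = ((s.toFinset : Set ℕ))ᶜ := by
    ext t
    change t ∉ s ↔ _
    simp
  rw [h]
  exact s.toFinset.finite_toSet.infinite_compl

theorem enumC_inj (s : List ℕ) : Function.Injective (enumC s) :=
  Nat.nth_injective (compl_infinite s)

end GLUI

theorem glui : GluiStatement := by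
  intro v s v' s' h hlen
  obtain ⟨h1, h2⟩ := List.append_inj' h hlen
  subst h2
  exact ⟨rfl, (List.map_injective_iff.2 (GLUI.enumC_inj s)) h1⟩

end SL1324
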