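import Pool.Agent.Lib.MP_b8e197_co.SL.Base

/-!
# Project SL: statements of all modules

Proofs: `Paper.md` of this directory (section numbers in the comments).
-/

set_option linter.all false

namespace SL1324

open H98Av (Av1324 Av132)

noncomputable section

/-! ## A. Lists and permutations -/

/-- avoidance for permutations -/
def AvP {n : ℕ} (π : Equiv.Perm (Fin n)) : Prop :=
  ∀ i j k l : Fin n, i < j → j < k → k < l → ¬ (π i < π k ∧ π k < π j ∧ π j < π l)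

/-- PERM (2.1): lists are permutations -/
def PermStatement : Prop :=
  ∀ n : ℕ, cntAv n ≤ Nat.card {π : Equiv.Perm (Fin n) // AvP π}

/-- SUPER (2.2) -/
def SuperStatement : Prop := ∀ a b : ℕ, cntAv a * cntAv b ≤ cntAv (a + b)

/-- GLUE (2.3): adding a column -/
def GlueStatement : Prop :=
  ∀ (n N m : ℕ) (v s X' : List ℕ), N ≤ n → v.Perm (List.range n) → Av1324 v →
    X'.Perm (List.range N) → Colm N m (v.filter (fun t => decide (t < N))) X' s →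
    (v.map (enumC s) ++ s).Perm (List.range (n + N + m)) ∧ Av1324 (v.map (enumC s) ++ s) ∧
      (v.map (enumC s) ++ s).filter (fun t => decide (t < N)) = X'

/-- GLUI (2.4): the column can be recovered -/
def GluiStatement : Prop :=
  ∀ v s v' s' : List ℕ, v.map (enumC s) ++ s = v'.map (enumC s') ++ s' →
    s.length = s'.length → s = s' ∧ v = v'

/-- CHN (2.5) -/
def ChnStatement : Prop :=
  ∀ (N : ℕ) (S : Finset (List ℕ)), (∀ X ∈ S, X.Perm (List.range N) ∧ Av1324 X) →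
    ∀ (ms : List ℕ), ∀ X ∈ S, chainN N S ms X ≤
      Nat.card {v : List ℕ // v.Perm (List.range ((ms.length + 1) * N + ms.sum)) ∧ Av1324 v ∧
        v.filter (fun t => decide (t < N)) = X}

/-- CHR (2.6): weights and pigeonhole -/
def ChrStatement : Prop :=
  ∀ (ζ : ℝ), 0 < ζ → ∀ (N mm : ℕ) (S : Finset (List ℕ)),
    (∀ X ∈ S, X.Perm (List.range N) ∧ Av1324 X) → ∀ k : ℕ, ∃ n : ℕ, (k + 1) * N ≤ n ∧
      ζ ^ ((k + 1) * N) * ∑ X ∈ S, chainR ζ N mm S k X ≤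
        ((mm : ℝ) + 1) ^ k * (ζ ^ n * (cntAv n : ℝ))

/-! ## B. Shapes of the bottom cells -/

/-- CAT (3.1) -/
def CatStatement : Prop :=
  ∀ n : ℕ, catalan n ≤ Nat.card {v : List ℕ // v.Perm (List.range n) ∧ Av132 v}

/-- SHC (3.2) -/
def ShcStatement : Prop :=
  ∀ n : ℕ, ∀ x ∈ bitsF n, catp 0 x ≤ Nat.card {X : List ℕ // Sh x X}

/-- WTC (3.3) -/
def WtcStatement : Prop :=
  ∀ n : ℕ, ∀ x ∈ bitsF n, 0 < wt 0 x ∧ wt 0 x ≤ (catp 0 x : ℝ)

/-- SHU (3.4) -/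
def ShuStatement : Prop :=
  (∀ (x x' : List Bool) (X : List ℕ), Sh x X → Sh x' X → x = x') ∧
  (∀ (x : List Bool) (X : List ℕ), Sh x X → Av1324 X) ∧
  (∀ (x : List Bool) (X : List ℕ), Sh x X → ∀ p q, p < q → q < X.length →
    X.getD p 0 < X.getD q 0 →
      (∀ i, p ≤ i → i < q → x.getD i false = true) ∧
      (∀ i, X.length - 1 - X.getD q 0 ≤ i → i < X.length - 1 - X.getD p 0 →
        x.getD i false = true))

/-- FLAT (3.5): concatenation of blocks -/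
def FlatStatement : Prop :=
  ∀ (N0 R : ℕ), 1 ≤ N0 → 1 ≤ R →
    (∀ z : Fin R → List Bool, (∀ i, z i ∈ bitsF N0) →
      flat z ∈ bitsF (R * N0) ∧ wt 0 (flat z) = ∏ i, wt 0 (z i)) ∧
    (∀ z z' : Fin R → List Bool, (∀ i, z i ∈ bitsF N0) → (∀ i, z' i ∈ bitsF N0) →
      flat z = flat z' → z = z')

/-! ## C. From words to columns -/

/-- STI (4.1): invariants are preserved -/
def StiStatement : Prop :=
  ∀ (σ σ' : St) (mv : Mv), Inv σ → step σ mv = some σ' → Inv σ'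

/-- CB (4.2): basic invariants of the backward scan -/
def CbStatement : Prop :=
  ∀ (N : ℕ) (X' : List ℕ) (σ : St) (w : List Mv), X'.Perm (List.range N) →
    σ.ys.length ≤ N → NN σ w fin0 →
    ((bld N X' w).stk.length : ℤ) = σ.y ∧
    (bld N X' w).lv.length = σ.xs.length ∧
    (bld N X' w).rem = X'.reverse.drop σ.ys.length ∧
    (bld N X' w).s.length = w.count Mv.U + σ.ys.length ∧
    (bld N X' w).s.filter (fun t => decide (t < N)) = X'.drop (N - σ.ys.length) ∧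
    (bld N X' w).stk.Pairwise (· > ·) ∧
    (bld N X' w).lv.Pairwise (· < ·) ∧
    N ≤ (bld N X' w).c ∧
    ((bld N X' w).s.filter (fun t => decide (N ≤ t)) ++ (bld N X' w).stk ++
      (bld N X' w).lv).Perm (List.range' N ((bld N X' w).c - N))

/-- CF (4.3): the enumeration of the complement of a column -/
def CfStatement : Prop :=
  ∀ (N m : ℕ) (s lv : List ℕ), lv.Pairwise (· < ·) → lv.length = N →
    (s.filter (fun t => decide (t < N))).Perm (List.range N) →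
    (s.filter (fun t => decide (N ≤ t)) ++ lv).Perm (List.range' N (N + m)) →
    ∀ a, a < N → enumC s a = lv.getD a 0

/-- CL (4.4): left invariants -/
def ClStatement : Prop :=
  ∀ (N : ℕ) (x : List Bool) (X X' : List ℕ) (σ : St) (w : List Mv), Sh x X → x.length = N →
    X'.Perm (List.range N) → σ.xs <:+ x → σ.ys.length ≤ N → Inv σ → NN σ w fin0 →
    (∀ f : ℤ, σ.lf = some f → ∀ k : ℕ, (k : ℤ) < f → ∀ a, a < σ.xs.length →
      (∀ i, i < σ.xs.length - 1 - a → σ.xs.getD i false = true) →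
        (bld N X' w).stk.reverse.getD k 0 < (bld N X' w).lv.getD a 0) ∧
    Av132 ((X.filter (fun a => decide (a < (bld N X' w).lv.length))).map
      (fun a => (bld N X' w).lv.getD a 0) ++ (bld N X' w).stk.reverse)

/-- CT (4.5): the top points avoid 213 -/
def CtStatement : Prop :=
  ∀ (N : ℕ) (X' : List ℕ) (σ : St) (w : List Mv), X'.Perm (List.range N) →
    σ.ys.length ≤ N → NN σ w fin0 →
    ∀ a b c : ℕ, List.Sublist [a, b, c] ((bld N X' w).stk.reverse ++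
      (bld N X' w).s.filter (fun t => decide (N ≤ t))) → ¬ (b < a ∧ a < c)

/-- CR (4.6): right invariants -/
def CrStatement : Prop :=
  ∀ (N : ℕ) (X' : List ℕ) (σ : St) (w : List Mv), X'.Perm (List.range N) →
    σ.ys.length ≤ N → Inv σ → NN σ w fin0 → ∀ m : ℤ, σ.rm = some m →
    (∀ t, t < σ.ys.length → (∀ i, i < t → σ.ys.getD i false = true) → ∀ p q : List ℕ,
      (bld N X' w).s = p ++ (X'.getD (N - σ.ys.length + t) 0) :: q →
        ∀ u ∈ p, ∀ u' ∈ q, N ≤ u → N ≤ u' → u' < u) ∧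
    (∀ p q : List ℕ, (bld N X' w).s = p ++ (X'.getD (N - σ.ys.length) 0) :: q →
      ∀ i : ℕ, (i : ℤ) < σ.y - m → ∀ t ∈ q, N ≤ t → t < (bld N X' w).stk.getD i 0)

/-- CZ (4.7) -/
def CzStatement : Prop :=
  ∀ (N : ℕ) (x x' : List Bool) (X X' : List ℕ) (σ : St) (w : List Mv), Sh x X → Sh x' X' →
    x.length = N → x'.length = N → σ.xs <:+ x → σ.ys <:+ x' → Inv σ → NN σ w fin0 →
    Av1324 (Zl X (bld N X' w))

/-- CI (4.8): injectivity -/
def CiStatement : Prop :=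
  ∀ (N : ℕ) (X' : List ℕ) (σ : St) (w w' : List Mv), X'.Perm (List.range N) →
    σ.ys.length ≤ N → NN σ w fin0 → NN σ w' fin0 →
    (bld N X' w).s = (bld N X' w').s → (bld N X' w).stk = (bld N X' w').stk → w = w'

/-- CN (4.9): finiteness -/
def CnStatement : Prop :=
  ∀ (m : ℕ) (x x' : List Bool), {w : List Mv | NN (init x x') w fin0 ∧ w.count .U = m}.Finite

/-- COL (4.10) -/
def ColStatement : Prop :=
  ∀ (m n : ℕ) (x x' : List Bool) (X X' : List ℕ), x ∈ bitsF n → x' ∈ bitsF n → Sh x X →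
    Sh x' X' → nWord m x x' ≤ nCol n m X X'

/-! ## D. Block words -/

/-- FBR (5.1): the fallback word works -/
def FbrStatement : Prop := ∀ σ : St, Inv σ → run σ (fb σ) = some fin0

/-- FBW (5.2): its weight -/
def FbwStatement : Prop :=
  ∀ σ : St, Bel σ.y σ.lf σ.rm → relC σ.rm σ.y ≤ 9 →
    dw ^ (σ.y.natAbs + 40) ≤ ((fb σ).map wm).prod

/-- WRUN (5.3) -/
def WrunStatement : Prop :=
  ∀ (n N0 : ℕ) (z z' : List Bool), z ∈ bitsF N0 → z' ∈ bitsF N0 →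
    ∀ w ∈ words n (init z z'), run (init z z') w = some fin0 ∧
      w.length ≤ 10 * n + 2 * N0 + 40

/-- WSUM (5.4) -/
def WsumStatement : Prop :=
  ∀ (n : ℕ) (σ : St), Wt n σ = ((words n σ).map (fun w => (w.map wm).prod)).sum

/-- WPRE (5.5): no word extends another one -/
def WpreStatement : Prop :=
  ∀ (n : ℕ) (σ : St), (words n σ).Nodup ∧ ∀ w ∈ words n σ, ∀ w' ∈ words n σ,
    ∀ r r' : List Mv, w ++ r = w' ++ r' → w = w'

/-- WBAL (5.6): weights of complete words -/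
def WbalStatement : Prop :=
  ∀ (z z' : List Bool) (w : List Mv), run (init z z') w = some fin0 →
    (w.map wm).prod = zt ^ (w.count Mv.U)

/-- LIFT (5.7) -/
def LiftStatement : Prop :=
  (∀ (σ τ : St) (w : List Mv) (h : ℤ) (x2 y2 : List Bool), run σ w = some τ →
    run (σ.shift h x2 y2) w = some (τ.shift h x2 y2)) ∧
  (∀ (σ τ : St) (w : List Mv), run σ w = some τ → (w.length : ℤ) ≤ σ.y → NN σ w τ) ∧
  (∀ (σ τ ρ : St) (w w' : List Mv), NN σ w τ → NN τ w' ρ → NN σ (w ++ w') ρ)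

/-- the inequality of BLK -/
def BlkIneq (n N0 H0 R : ℕ) : Prop :=
  ∀ z z' : Fin R → List Bool, (∀ i, z i ∈ bitsF N0) → (∀ i, z' i ∈ bitsF N0) →
    zt ^ H0 * ∏ i, Wt n (init (z i) (z' i)) ≤
      ∑ m ∈ Finset.range (H0 * (R + 1) + 1), zt ^ m * (nWord m (flat z) (flat z') : ℝ)

/-- BLK (5.8) -/
def BlkStatement : Prop := ∀ n N0 : ℕ, 1 ≤ N0 → ∃ H0 : ℕ, ∀ R : ℕ, BlkIneq n N0 H0 R

/-! ## E. Entropy and potential -/

/-- the inequality of ENT -/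
def EntIneq (c0 : ℝ) (n : ℕ) : Prop :=
  ∀ F : List Bool → ℝ, (∀ x ∈ bitsF n, 0 < F x) →
    c0 * Hh ^ n * Real.exp (EE false n (fun x => Real.log (F x))) ≤ ∑ x ∈ bitsF n, wt 0 x * F x

/-- ENT (6.1) -/
def EntStatement : Prop := ∃ c0 : ℝ, 0 < c0 ∧ ∀ n, 1 ≤ n → EntIneq c0 n

/-- CERT (6.2) -/
def CertStatement : Prop :=
  (∀ (f : Fl) (l r : ℕ), l ≤ 9 → r ≤ 9 → chk1 f l r = true) ∧
    cv .F 0 0 = 10 ^ 10 ∧ cc1 .F 0 0 = 0 ∧ cc2 .F 0 0 = 0

/-- PHI (6.3): the penalty function -/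
def PhiStatement : Prop :=
  (∀ z : ℝ, 0 < Ph z ∧ KK ≤ Ph z ∧ |z| ≤ Ph z ∧ Ph z ≤ |z| + KK) ∧
  (∀ z : ℝ, ∃ s : ℝ, |s| ≤ 1 ∧ ∀ δ : ℝ, Ph (z + δ) ≤ Ph z + s * δ + δ ^ 2 / (2 * KK))

/-- STPF (6.4): the one-step inequality in the free phase -/
def StpfStatement : Prop :=
  ∀ (y : ℤ) (lf rm : Option ℤ) (i j : ℕ), Alive .F y lf rm → Bel y lf rm →
    ∃ q1 q2 : ℝ, 0 ≤ q1 ∧ 0 ≤ q2 ∧ q1 + q2 = 1 ∧
      (0 < q1 → Alive .R y lf rm) ∧
      (0 < q2 → floorOK lf (y - 1) = true ∧ Alive .L (y - 1) lf (minUp rm (y - 1))) ∧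
      phi .F y lf rm i j ≤ q1 * (Real.log (1 / q1) + phi .R y lf rm i j) +
        q2 * (Real.log (dw / q2) + phi .L (y - 1) lf (minUp rm (y - 1)) i j)

/-- STPL (6.5): left phase -/
def StplStatement : Prop :=
  ∀ (y : ℤ) (lf rm : Option ℤ) (i j : ℕ), Alive .L y lf rm → Bel y lf rm →
    ∃ q1 q2 : ℝ, 0 ≤ q1 ∧ 0 ≤ q2 ∧ q1 + q2 = 1 ∧
      (0 < q1 → Alive .F y lf rm) ∧
      (0 < q2 → Alive .L y none rm ∧ Alive .L y (some y) rm) ∧
      phi .L y lf rm (i + 1) j ≤ q1 * (Real.log (1 / q1) + phi .F y lf rm (i + 1) j) +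
        q2 * (Real.log (1 / q2) + ((1 - th lf.isSome) * phi .L y none rm i j +
          th lf.isSome * phi .L y (some y) rm i j))

/-- STPR (6.6): right phase -/
def StprStatement : Prop :=
  ∀ (y : ℤ) (lf rm : Option ℤ) (i j : ℕ), Alive .R y lf rm → Bel y lf rm →
    ∃ q1 q2 : ℝ, 0 ≤ q1 ∧ 0 ≤ q2 ∧ q1 + q2 = 1 ∧
      (0 < q1 → Alive .F (y + 1) lf rm) ∧
      (0 < q2 → minOK rm y = true ∧ Alive .R y lf none ∧ Alive .R y lf (some y)) ∧
      phi .R y lf rm i (j + 1) ≤ q1 * (Real.log (uw / q1) + phi .F (y + 1) lf rm i (j + 1)) +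
        q2 * (Real.log (1 / q2) + ((1 - th rm.isSome) * phi .R y lf none i j +
          th rm.isSome * phi .R y lf (some y) i j))

/-- VREC (6.7) -/
def VrecStatement : Prop :=
  (∀ (n : ℕ) (σ : St), 0 < VV n σ) ∧
  (∀ (n : ℕ) (σ : St), stopd σ → ((fb σ).map wm).prod ≤ VV n σ) ∧
  (∀ (σ : St), gg σ ≤ VV 0 σ) ∧
  (∀ (n : ℕ) (σ : St), ¬ stopd σ → ((mvs σ.fl).map (fun mv => match step σ mv with
    | none => 0
    | some σ' => wm mv * VV n σ')).sum ≤ VV (n + 1) σ)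

/-- BND (6.8): boundary values -/
def BndStatement : Prop :=
  ∃ C : ℝ, ∀ (fl : Fl) (y : ℤ) (lf rm : Option ℤ) (xs ys : List Bool), Alive fl y lf rm →
    Bel y lf rm → 1 ≤ xs.length → 1 ≤ ys.length → (xs.length ≤ 1 ∨ ys.length ≤ 1) →
    phi fl y lf rm xs.length ys.length - C ≤
      Real.log ((fb ⟨fl, y, lf, rm, xs, ys⟩).map wm).prod

/-- UPB (6.9) -/
def UpbStatement : Prop :=
  ∃ C : ℝ, ∀ (fl : Fl) (y : ℤ) (lf rm : Option ℤ) (xs ys : List Bool), Alive fl y lf rm →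
    phi fl y lf rm xs.length ys.length - C ≤ Real.log (gg ⟨fl, y, lf, rm, xs, ys⟩)

/-- POTI (6.10): the induction -/
def PotiStatement : Prop :=
  ∃ C : ℝ, ∀ (n : ℕ) (fl : Fl) (y : ℤ) (lf rm : Option ℤ) (i j : ℕ), Alive fl y lf rm →
    Bel y lf rm → 1 ≤ i → 1 ≤ j →
    phi fl y lf rm i j - C ≤ EE lf.isSome i (fun xs => EE rm.isSome j (fun ys =>
      Real.log (VV n ⟨fl, y, lf, rm, xs, ys⟩)))

/-- WPOS (6.11) -/
def WposStatement : Prop :=
  ∀ N0 : ℕ, 1 ≤ N0 → ∃ w0 : ℝ, 0 < w0 ∧ ∃ n1 : ℕ, ∀ n, n1 ≤ n → ∀ z ∈ bitsF N0,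
    ∀ z' ∈ bitsF N0, w0 ≤ Wt n (init z z')

/-- the inequality of POT -/
def PotIneq (C1 : ℝ) (n N0 : ℕ) : Prop :=
  (∀ z ∈ bitsF N0, ∀ z' ∈ bitsF N0, 0 < Wt n (init z z')) ∧
    (N0 : ℝ) * (aL + aR) - C1 ≤ EE false N0 (fun z => EE false N0 (fun z' =>
      Real.log (Wt n (init z z'))))

/-- POT (6.12) -/
def PotStatement : Prop := ∃ C1 : ℝ, ∀ N0 : ℕ, 1 ≤ N0 → ∃ n : ℕ, PotIneq C1 n N0

/-! ## F. Assembly -/

/-- BETA (7.1) -/
def BetaStatement : Prop :=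
  ∀ (c0 C1 : ℝ) (n N0 : ℕ), 0 < c0 → 1 ≤ N0 → EntIneq c0 N0 → PotIneq C1 n N0 → ∀ k : ℕ,
    c0 ^ (k + 1) * Hh ^ ((k + 1) * N0) * Real.exp (k * ((N0 : ℝ) * (aL + aR) - C1)) ≤
      ∑ z ∈ bitsF N0, wt 0 z * beta n N0 k z

/-- the bottom cells of `R` blocks -/
def SS (N0 R : ℕ) : Finset (List ℕ) :=
  haveI := Classical.decPred (fun X : List ℕ => ∃ z : Fin R → List Bool,
    (∀ i, z i ∈ bitsF N0) ∧ Sh (flat z) X)
  (List.range (R * N0)).permutations.toFinset.filter (fun X => ∃ z : Fin R → List Bool,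
    (∀ i, z i ∈ bitsF N0) ∧ Sh (flat z) X)

/-- TOT (7.2) -/
def TotStatement : Prop :=
  ∀ (n N0 H0 R k : ℕ), 1 ≤ N0 → 1 ≤ R → BlkIneq n N0 H0 R →
    (∀ z ∈ bitsF N0, ∀ z' ∈ bitsF N0, 0 < Wt n (init z z')) →
    zt ^ (k * H0) * (∑ z ∈ bitsF N0, wt 0 z * beta n N0 k z) ^ R ≤
      ∑ X ∈ SS N0 R, chainR zt (R * N0) (H0 * (R + 1)) (SS N0 R) k X

/-- NUM (7.3) -/
def NumStatement : Prop :=
  0 < Real.log (Hh * zt) + aL + aR ∧ (21 : ℝ) / 2 < 1 / zt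

/-- FINI (7.4) -/
def FiniStatement : Prop := ∀ N1 : ℕ, ∃ n, N1 ≤ n ∧ (1 / zt) ^ n ≤ (cntAv n : ℝ)

/-- LAST (7.5) -/
def LastStatement : Prop := ∀ᶠ n : ℕ in Filter.atTop, ((21 : ℝ) / 2) ^ n ≤ (cntAv n : ℝ)

end

end SL1324
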