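import Pool.Agent.Lib.MP_b8e197_co.SL.Iface

namespace SL1324

open H98Av (Av1324)
open Filter

theorem LAST.fin (n : ℕ) : Finite {v : List ℕ // v.Perm (List.range n) ∧ Av1324 v} := by
  apply Set.Finite.to_subtype
  apply ((List.range n).permutations.toFinset.finite_toSet).subset
  intro v hv
  simp only [Finset.mem_coe, List.mem_toFinset, List.mem_permutations]
  exact hv.1

theorem LAST.one_le (n : ℕ) : 1 ≤ cntAv n := by
  have := LAST.fin n
  have : Nonempty {v : List ℕ // v.Perm (List.range n) ∧ Av1324 v} := by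
    refine ⟨⟨List.range n, List.Perm.refl _, ?_⟩⟩
    intro a b c d h hh
    have h2 : List.Pairwise (· < ·) [a, b, c, d] := List.Pairwise.sublist h List.pairwise_lt_range
    simp only [List.pairwise_cons, List.mem_cons, List.not_mem_nil, or_false,
      forall_eq_or_imp, forall_eq] at h2
    omega
  exact Nat.card_pos

theorem LAST.pow_le (h : SuperStatement) (n0 : ℕ) : ∀ q r, cntAv n0 ^ q ≤ cntAv (q * n0 + r) := by
  intro q r
  induction q with
  | zero => simpa using LAST.one_le r
  | succ q ih =>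
    calc cntAv n0 ^ (q + 1) = cntAv n0 * cntAv n0 ^ q := by ring
      _ ≤ cntAv n0 * cntAv (q * n0 + r) := Nat.mul_le_mul_left _ ih
      _ ≤ cntAv (n0 + (q * n0 + r)) := h _ _
      _ = cntAv ((q + 1) * n0 + r) := by congr 1; ring

theorem last (h_FINI : FiniStatement) (h_SUPER : SuperStatement) (h_NUM : NumStatement) :
    LastStatement := by
  obtain ⟨n0, hn0, hc⟩ := h_FINI 1
  have hα : (21 : ℝ) / 2 < 1 / zt := h_NUM.2
  obtain ⟨α, hαd⟩ : ∃ α : ℝ, α = 1 / zt := ⟨_, rfl⟩
  rw [← hαd] at hα hc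
  have hα1 : 1 ≤ α := by linarith
  have hα0 : 0 < α := by linarith
  have key : ∀ n, α ^ n ≤ (cntAv n : ℝ) * α ^ n0 := by
    intro n
    have hn : n = n / n0 * n0 + n % n0 := by
      have := Nat.div_add_mod n n0
      rw [mul_comm] at this
      exact this.symm
    have hmod : n % n0 < n0 := Nat.mod_lt _ (by omega)
    have h1 : (cntAv n0 : ℝ) ^ (n / n0) ≤ (cntAv n : ℝ) := by
      have := LAST.pow_le h_SUPER n0 (n / n0) (n % n0)
      rw [← hn] at this
      exact_mod_cast this
    have h2 : α ^ (n0 * (n / n0)) ≤ (cntAv n0 : ℝ) ^ (n / n0) := by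
      rw [pow_mul]
      exact pow_le_pow_left₀ (by positivity) hc _
    calc α ^ n ≤ α ^ (n0 * (n / n0) + n0) := by
          apply pow_le_pow_right₀ hα1
          have := Nat.div_add_mod n n0
          omega
      _ = α ^ (n0 * (n / n0)) * α ^ n0 := pow_add _ _ _
      _ ≤ (cntAv n : ℝ) * α ^ n0 := by
          apply mul_le_mul_of_nonneg_right (h2.trans h1) (by positivity)
  have hr : 1 < α / (21 / 2) := by
    rw [lt_div_iff₀ (by norm_num)]; linarith
  have hev := (tendsto_pow_atTop_atTop_of_one_lt hr).eventually_ge_atTop (α ^ n0)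
  filter_upwards [hev] with n hn
  have h3 : α ^ n0 * (21 / 2 : ℝ) ^ n ≤ α ^ n := by
    rw [div_pow α, le_div_iff₀ (by positivity)] at hn
    exact hn
  have h4 := h3.trans (key n)
  rw [mul_comm (cntAv n : ℝ)] at h4
  exact le_of_mul_le_mul_left h4 (by positivity)

end SL1324
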