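import Pool.Agent.Lib.MP_b8e197_co.SL.Iface

set_option linter.all false

namespace SL1324

namespace LIFT

theorem floorOK_shift (lf : Option ℤ) (y h : ℤ) :
    floorOK (lf.map (· + h)) (y + h) = floorOK lf y := by
  cases lf with
  | none => rfl
  | some f => simp [floorOK]

theorem minOK_shift (rm : Option ℤ) (y h : ℤ) :
    minOK (rm.map (· + h)) (y + h) = minOK rm y := by
  cases rm with
  | none => rfl
  | some f => simp [minOK]

theorem minUp_shift (rm : Option ℤ) (y h : ℤ) :
    minUp (rm.map (· + h)) (y + h) = (minUp rm y).map (· + h) := by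
  cases rm with
  | none => rfl
  | some f => simp [minUp, min_add_add_right]

theorem nxt_shift (b : Bool) (y h : ℤ) : nxt b (y + h) = (nxt b y).map (· + h) := by
  cases b <;> simp [nxt]

theorem step_shift (σ σ' : St) (mv : Mv) (h : ℤ) (x2 y2 : List Bool)
    (hs : step σ mv = some σ') : step (σ.shift h x2 y2) mv = some (σ'.shift h x2 y2) := by
  obtain ⟨fl, y, lf, rm, xs, ys⟩ := σ
  have e1 : y + h - 1 = y - 1 + h := by ring
  have e2 : y + h + 1 = y + 1 + h := by ring
  cases fl <;> cases mv <;> cases xs <;> cases ys <;>
    simp only [step, St.shift, List.nil_append, List.cons_append, reduceCtorEq,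
      Option.some.injEq] at hs ⊢ <;>
    first
    | exact hs.elim
    | (subst hs; simp [e1, e2, nxt_shift]; done)
    | (split_ifs at hs with hc
       · simp only [Option.some.injEq] at hs
         subst hs
         simp [e1, floorOK_shift, minOK_shift, minUp_shift, nxt_shift, hc]
       )
    | skip

theorem run_shift : ∀ (w : List Mv) (σ τ : St) (h : ℤ) (x2 y2 : List Bool), run σ w = some τ →
    run (σ.shift h x2 y2) w = some (τ.shift h x2 y2) := by
  intro w
  induction w with
  | nil =>
    intro σ τ h x2 y2 hr
    simp only [run, Option.some.injEq] at hr ⊢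
    rw [hr]
  | cons mv w ih =>
    intro σ τ h x2 y2 hr
    simp only [run] at hr ⊢
    cases hs : step σ mv with
    | none => rw [hs] at hr; simp at hr
    | some σ' =>
      rw [hs] at hr
      rw [step_shift σ σ' mv h x2 y2 hs]
      exact ih σ' τ h x2 y2 hr

theorem step_height (σ σ' : St) (mv : Mv) (hs : step σ mv = some σ') : σ.y - 1 ≤ σ'.y := by
  obtain ⟨fl, y, lf, rm, xs, ys⟩ := σ
  cases fl <;> cases mv <;> cases xs <;> cases ys <;>
    simp only [step, reduceCtorEq, Option.some.injEq] at hs ⊢ <;>
    first
    | exact hs.elim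
    | (subst hs; simp; done)
    | (subst hs; simp; linarith)
    | (split_ifs at hs with hc
       · simp only [Option.some.injEq] at hs
         subst hs
         simp
       )
    | skip

theorem run_NN : ∀ (w : List Mv) (σ τ : St), run σ w = some τ → (w.length : ℤ) ≤ σ.y →
    NN σ w τ := by
  intro w
  induction w with
  | nil =>
    intro σ τ hr hy
    simp only [run, Option.some.injEq] at hr
    subst hr
    exact NN.nil σ (by simpa using hy)
  | cons mv w ih =>
    intro σ τ hr hy
    simp only [run] at hr
    cases hs : step σ mv with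
    | none => rw [hs] at hr; simp at hr
    | some σ' =>
      rw [hs] at hr
      have h1 := step_height σ σ' mv hs
      rw [List.length_cons] at hy
      push_cast at hy
      exact NN.cons (by linarith [Int.natCast_nonneg w.length]) hs
        (ih σ' τ hr (by linarith))

theorem NN_append {σ τ ρ : St} {w w' : List Mv} (h : NN σ w τ) (h' : NN τ w' ρ) :
    NN σ (w ++ w') ρ := by
  induction h with
  | nil σ _ => exact h'
  | cons hy hs _ ih => exact NN.cons hy hs (ih h')

end LIFT

theorem lift : LiftStatement :=
  ⟨fun σ τ w h x2 y2 => LIFT.run_shift w σ τ h x2 y2, fun σ τ w => LIFT.run_NN w σ τ,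
    fun _ _ _ _ _ h h' => LIFT.NN_append h h'⟩

end SL1324
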