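import Pool.Agent.Lib.MP_b8e197_co.SL.Iface

namespace SL1324

theorem num : NumStatement := by
  have hz : (0 : ℝ) < zt := by norm_num [zt, uw, dw]
  have hH : (0 : ℝ) < Hh := by norm_num [Hh]
  refine ⟨?_, ?_⟩
  · have hL : (0 : ℝ) < muL := by norm_num [muL]
    have hR : (0 : ℝ) < muR := by norm_num [muR]
    have h1 : Real.log (Hh * zt) + aL + aR = Real.log (Hh * zt / (muL * muR)) := by
      rw [Real.log_div (by positivity) (by positivity), Real.log_mul hL.ne' hR.ne', aL, aR]
      ring
    rw [h1]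
    apply Real.log_pos
    rw [lt_div_iff₀ (by positivity)]
    norm_num [Hh, zt, uw, dw, muL, muR]
  · rw [lt_div_iff₀ hz]
    norm_num [zt, uw, dw]

end SL1324
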