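import Pool.Agent.Lib.MP_b8e197_co.SL.Iface

set_option linter.all false

namespace SL1324

namespace PHI

theorem KK_pos : 0 < KK := by norm_num [KK]

theorem Ph_sq (z : ℝ) : Ph z ^ 2 = z ^ 2 + KK ^ 2 := by
  unfold Ph
  exact Real.sq_sqrt (by positivity)

theorem KK_le (z : ℝ) : KK ≤ Ph z := by
  unfold Ph
  apply Real.le_sqrt_of_sq_le
  nlinarith [sq_nonneg z]

theorem Ph_pos (z : ℝ) : 0 < Ph z := lt_of_lt_of_le KK_pos (KK_le z)

theorem abs_le (z : ℝ) : |z| ≤ Ph z := by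
  unfold Ph
  apply Real.le_sqrt_of_sq_le
  rw [sq_abs]
  nlinarith [sq_nonneg KK]

theorem le_abs (z : ℝ) : Ph z ≤ |z| + KK := by
  unfold Ph
  rw [Real.sqrt_le_left (by have := KK_pos; positivity)]
  have h1 : |z| ^ 2 = z ^ 2 := sq_abs z
  have h2 : 0 ≤ |z| * KK := mul_nonneg (abs_nonneg z) KK_pos.le
  nlinarith

end PHI

open PHI in
theorem phi' : PhiStatement := by
  refine ⟨fun z => ⟨Ph_pos z, KK_le z, abs_le z, le_abs z⟩, fun z => ⟨z / Ph z, ?_, fun δ => ?_⟩⟩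
  · rw [abs_div, abs_of_pos (Ph_pos z), div_le_one (Ph_pos z)]
    exact abs_le z
  · have hP := Ph_pos z
    have hK := KK_pos
    have hsq := Ph_sq z
    have h1 : z / Ph z * δ + δ ^ 2 / (2 * Ph z) = (2 * z * δ + δ ^ 2) / (2 * Ph z) := by
      field_simp
    have h2 : δ ^ 2 / (2 * Ph z) ≤ δ ^ 2 / (2 * KK) := by
      apply div_le_div_of_nonneg_left (sq_nonneg δ) (by positivity)
      have := KK_le z
      linarith
    have h3 : Ph (z + δ) ≤ Ph z + (2 * z * δ + δ ^ 2) / (2 * Ph z) := by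
      have h4 : Ph z + (2 * z * δ + δ ^ 2) / (2 * Ph z) =
          (Ph z ^ 2 + ((z + δ) ^ 2 + KK ^ 2)) / (2 * Ph z) := by
        rw [hsq]
        field_simp
        rw [hsq]
        ring
      have h5 : 0 ≤ Ph z + (2 * z * δ + δ ^ 2) / (2 * Ph z) := by
        rw [h4]; positivity
      have h6 : Ph (z + δ) ^ 2 ≤ (Ph z + (2 * z * δ + δ ^ 2) / (2 * Ph z)) ^ 2 := by
        rw [Ph_sq]
        have h7 : (Ph z + (2 * z * δ + δ ^ 2) / (2 * Ph z)) ^ 2 =
            (z + δ) ^ 2 + KK ^ 2 + ((2 * z * δ + δ ^ 2) / (2 * Ph z)) ^ 2 := by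
          have h8 : 2 * Ph z * ((2 * z * δ + δ ^ 2) / (2 * Ph z)) = 2 * z * δ + δ ^ 2 := by
            field_simp
          calc (Ph z + (2 * z * δ + δ ^ 2) / (2 * Ph z)) ^ 2
              = Ph z ^ 2 + 2 * Ph z * ((2 * z * δ + δ ^ 2) / (2 * Ph z)) +
                  ((2 * z * δ + δ ^ 2) / (2 * Ph z)) ^ 2 := by ring
            _ = _ := by rw [h8, hsq]; ring
        rw [h7]
        have := sq_nonneg ((2 * z * δ + δ ^ 2) / (2 * Ph z))
        linarith
      exact (sq_le_sq₀ (Ph_pos _).le h5).1 h6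
    linarith

end SL1324
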