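import Pool.Agent.Lib.MP_b8e197_co.SL.Iface

/-! Module POT: the potential bound for the block weights. -/

set_option linter.all false

namespace SL1324

noncomputable section

theorem pot (h_POTI : PotiStatement) (h_WPOS : WposStatement) (h_CERT : CertStatement) :
    PotStatement := by
  obtain ⟨C, hC⟩ := h_POTI
  obtain ⟨-, hcv, hc1, hc2⟩ := h_CERT
  refine ⟨-Real.log ((10 : ℝ) ^ 10) + (S1 + S2) * Ph 0 + C + Real.log 2, ?_⟩
  intro N0 hN
  obtain ⟨w0, hw0, n1, hn1⟩ := h_WPOS N0 hN
  have ht : Filter.Tendsto (fun n : ℕ => (19 / 20 : ℝ) ^ n * 4 ^ (N0 + N0)) Filter.atTop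
      (nhds (0 * 4 ^ (N0 + N0))) :=
    (tendsto_pow_atTop_nhds_zero_of_lt_one (by norm_num) (by norm_num)).mul_const _
  rw [zero_mul] at ht
  obtain ⟨n2, hn2⟩ := Filter.eventually_atTop.1 (ht.eventually (gt_mem_nhds hw0))
  refine ⟨max n1 n2, ?_, ?_⟩
  · intro z hz z' hz'
    exact lt_of_lt_of_le hw0 (hn1 _ (le_max_left _ _) z hz z' hz')
  · have halive : Alive .F 0 none none := by
      refine ⟨by simp [relC], by simp [relC], ?_⟩
      simp only [relC]
      rw [hcv]
      norm_num
    have hbel : Bel 0 none none := by
      constructor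
      · intro f hf; exact absurd hf (by simp)
      · intro f hf; exact absurd hf (by simp)
    have h1 := hC (max n1 n2) .F 0 none none N0 N0 halive hbel hN hN
    have hphi : phi .F 0 none none N0 N0 =
        Real.log ((10 : ℝ) ^ 10) + (N0 : ℝ) * (aL + aR) - (S1 + S2) * Ph 0 := by
      unfold phi
      simp only [relC]
      rw [hcv, hc1, hc2]
      simp only [Nat.cast_pow, Nat.cast_ofNat, sub_self, Int.cast_zero, zero_div, add_zero]
      ring
    rw [hphi] at h1
    have h2 : EE false N0 (fun xs => EE false N0 (fun ys =>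
        Real.log (VV (max n1 n2) ⟨.F, 0, none, none, xs, ys⟩))) ≤
        EE false N0 (fun z => EE false N0 (fun z' =>
          Real.log 2 + Real.log (Wt (max n1 n2) (init z z')))) := by
      apply EE_mono
      intro z hz
      apply EE_mono
      intro z' hz'
      have h3 : w0 ≤ Wt (max n1 n2) (init z z') := hn1 _ (le_max_left _ _) z hz z' hz'
      have h4 : (19 / 20 : ℝ) ^ (max n1 n2) * 4 ^ (N0 + N0) < w0 := hn2 _ (le_max_right _ _)
      have h5 : VV (max n1 n2) ⟨.F, 0, none, none, z, z'⟩ ≤ 2 * Wt (max n1 n2) (init z z') := by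
        unfold VV gg
        simp only [mem_bits_length hz, mem_bits_length hz', gam, one_mul]
        have h6 : Wt (max n1 n2) ⟨.F, 0, none, none, z, z'⟩ = Wt (max n1 n2) (init z z') := rfl
        rw [h6]
        linarith
      have h7 : 0 < Wt (max n1 n2) (init z z') := lt_of_lt_of_le hw0 h3
      have h8 : 0 < VV (max n1 n2) ⟨.F, 0, none, none, z, z'⟩ := by
        unfold VV gg
        simp only [gam, one_mul]
        have h6 : Wt (max n1 n2) ⟨.F, 0, none, none, z, z'⟩ = Wt (max n1 n2) (init z z') := rfl
        rw [h6]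
        positivity
      rw [← Real.log_mul (by norm_num) h7.ne']
      exact Real.log_le_log h8 h5
    have h9 : EE false N0 (fun z => EE false N0 (fun z' =>
          Real.log 2 + Real.log (Wt (max n1 n2) (init z z')))) =
        Real.log 2 + EE false N0 (fun z => EE false N0 (fun z' =>
          Real.log (Wt (max n1 n2) (init z z')))) := by
      have h10 : ∀ z : List Bool, EE false N0 (fun z' =>
          Real.log 2 + Real.log (Wt (max n1 n2) (init z z'))) = Real.log 2 +
          EE false N0 (fun z' => Real.log (Wt (max n1 n2) (init z z'))) := by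
        intro z
        rw [EE_add (fun _ => Real.log 2), EE_const]
      simp only [h10]
      rw [EE_add (fun _ => Real.log 2), EE_const]
    rw [h9] at h2
    simp only [Option.isSome_none] at h1
    linarith

end

end SL1324
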