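import Pool.Agent.Lib.MP_b8e197_co.SL.Iface

/-!
# Project SL, module POTI (6.10): the induction for the potential
-/

set_option linter.all false

namespace SL1324

namespace POTI

theorem wm_pos (mv : Mv) : 0 < wm mv := by
  cases mv <;> norm_num [wm, uw, dw]

theorem prod_pos (w : List Mv) : 0 < (w.map wm).prod := by
  induction w with
  | nil => simp
  | cons mv w ih => simp only [List.map_cons, List.prod_cons]; exact mul_pos (wm_pos mv) ih

theorem gg_pos (σ : St) : 0 < gg σ := by
  unfold gg
  have : 0 < gam σ.fl := by cases σ.fl <;> norm_num [gam]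
  positivity

/-- concavity of the logarithm -/
theorem logsum {w1 v1 w2 v2 q1 q2 t : ℝ} (hw1 : 0 < w1) (hv1 : 0 < v1) (hw2 : 0 < w2)
    (hv2 : 0 < v2) (hq1 : 0 ≤ q1) (hq2 : 0 ≤ q2) (hq : q1 + q2 = 1)
    (ht1 : w1 * v1 ≤ t) (ht2 : 0 < q2 → w1 * v1 + w2 * v2 ≤ t) :
    q1 * (Real.log (w1 / q1) + Real.log v1) + q2 * (Real.log (w2 / q2) + Real.log v2) ≤
      Real.log t := by
  have h1 : 0 < w1 * v1 := mul_pos hw1 hv1
  have h2 : 0 < w2 * v2 := mul_pos hw2 hv2
  rcases hq2.eq_or_lt with h | h
  · have hq1' : q1 = 1 := by linarith
    rw [← h, hq1', div_one, one_mul, zero_mul, add_zero, ← Real.log_mul hw1.ne' hv1.ne']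
    exact Real.log_le_log h1 ht1
  · have ht := ht2 h
    rcases hq1.eq_or_lt with h' | h'
    · have hq2' : q2 = 1 := by linarith
      rw [← h', hq2', div_one, one_mul, zero_mul, zero_add, ← Real.log_mul hw2.ne' hv2.ne']
      exact Real.log_le_log h2 (by linarith)
    · have hc := (strictConcaveOn_log_Ioi.concaveOn).2
        (show w1 * v1 / q1 ∈ Set.Ioi (0 : ℝ) from div_pos h1 h')
        (show w2 * v2 / q2 ∈ Set.Ioi (0 : ℝ) from div_pos h2 h) hq1 hq2 hq
      simp only [smul_eq_mul] at hc
      rw [mul_div_cancel₀ _ h'.ne', mul_div_cancel₀ _ h.ne'] at hc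
      have e1 : Real.log (w1 / q1) + Real.log v1 = Real.log (w1 * v1 / q1) := by
        rw [← Real.log_mul (div_pos hw1 h').ne' hv1.ne']
        congr 1; ring
      have e2 : Real.log (w2 / q2) + Real.log v2 = Real.log (w2 * v2 / q2) := by
        rw [← Real.log_mul (div_pos hw2 h).ne' hv2.ne']
        congr 1; ring
      rw [e1, e2]
      exact hc.trans (Real.log_le_log (by linarith) ht)

/-- linearity of the double average -/
theorem EE2_lin (s t : Bool) (i j : ℕ) (q1 q2 a b : ℝ) (f g : List Bool → List Bool → ℝ) :
    EE s i (fun xs => EE t j (fun ys => q1 * (a + f xs ys) + q2 * (b + g xs ys))) =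
      q1 * (a + EE s i (fun xs => EE t j (fun ys => f xs ys))) +
        q2 * (b + EE s i (fun xs => EE t j (fun ys => g xs ys))) := by
  have h1 : ∀ xs, EE t j (fun ys => q1 * (a + f xs ys) + q2 * (b + g xs ys)) =
      q1 * (a + EE t j (fun ys => f xs ys)) + q2 * (b + EE t j (fun ys => g xs ys)) := by
    intro xs
    rw [EE_add (fun ys => q1 * (a + f xs ys)) (fun ys => q2 * (b + g xs ys)),
      EE_smul q1 (fun ys => a + f xs ys), EE_smul q2 (fun ys => b + g xs ys),
      EE_add (fun _ => a) (fun ys => f xs ys), EE_add (fun _ => b) (fun ys => g xs ys),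
      EE_const, EE_const]
  simp only [h1]
  rw [EE_add (fun xs => q1 * (a + EE t j (fun ys => f xs ys)))
      (fun xs => q2 * (b + EE t j (fun ys => g xs ys))),
    EE_smul q1 (fun xs => a + EE t j (fun ys => f xs ys)),
    EE_smul q2 (fun xs => b + EE t j (fun ys => g xs ys)),
    EE_add (fun _ => a) (fun xs => EE t j (fun ys => f xs ys)),
    EE_add (fun _ => b) (fun xs => EE t j (fun ys => g xs ys)),
    EE_const, EE_const]

theorem EE2_const (s t : Bool) (i j : ℕ) (a : ℝ) :
    EE s i (fun _ => EE t j (fun _ => a)) = a := by
  simp only [EE_const]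

theorem EE2_mono {s t : Bool} {i j : ℕ} {f g : List Bool → List Bool → ℝ}
    (h : ∀ xs ∈ bitsF i, ∀ ys ∈ bitsF j, f xs ys ≤ g xs ys) :
    EE s i (fun xs => EE t j (fun ys => f xs ys)) ≤
      EE s i (fun xs => EE t j (fun ys => g xs ys)) :=
  EE_mono (fun xs hx => EE_mono (fun ys hy => h xs hx ys hy))

theorem isSome_minUp (rm : Option ℤ) (y : ℤ) : (minUp rm y).isSome = rm.isSome := by
  cases rm <;> rfl

theorem mul_step {q a b : ℝ} (hq : 0 ≤ q) (h : 0 < q → a ≤ b) : q * a ≤ q * b := by
  rcases hq.eq_or_lt with h' | h'
  · rw [← h', zero_mul, zero_mul]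
  · exact mul_le_mul_of_nonneg_left (h h') hq

end POTI

open POTI in
theorem poti (h_STPF : StpfStatement) (h_STPL : StplStatement) (h_STPR : StprStatement)
    (h_VREC : VrecStatement) (h_BND : BndStatement) (h_UPB : UpbStatement) :
    PotiStatement := by
  obtain ⟨C1, hC1⟩ := h_BND
  obtain ⟨C2, hC2⟩ := h_UPB
  obtain ⟨v1, v2, v3, v4⟩ := h_VREC
  refine ⟨max C1 C2, ?_⟩
  set C := max C1 C2 with hC
  have hCC1 : C1 ≤ C := le_max_left _ _
  have hCC2 : C2 ≤ C := le_max_right _ _
  intro n
  induction n with
  | zero =>
    intro fl y lf rm i j hal hbel hi hj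
    rw [← EE2_const lf.isSome rm.isSome i j (phi fl y lf rm i j - C)]
    apply EE2_mono
    intro xs hxs ys hys
    have h1 := hC2 fl y lf rm xs ys hal
    rw [mem_bits_length hxs, mem_bits_length hys] at h1
    have h2 := Real.log_le_log (gg_pos _) (v3 ⟨fl, y, lf, rm, xs, ys⟩)
    linarith
  | succ n ih =>
    intro fl y lf rm i j hal hbel hi hj
    by_cases hst : i ≤ 1 ∨ j ≤ 1
    · rw [← EE2_const lf.isSome rm.isSome i j (phi fl y lf rm i j - C)]
      apply EE2_mono
      intro xs hxs ys hys
      have lx := mem_bits_length hxs
      have ly := mem_bits_length hys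
      have h1 := hC1 fl y lf rm xs ys hal hbel (by omega) (by omega) (by rw [lx, ly]; exact hst)
      rw [lx, ly] at h1
      have h2 := Real.log_le_log (prod_pos _)
        (v2 (n + 1) ⟨fl, y, lf, rm, xs, ys⟩ (show xs.length ≤ 1 ∨ ys.length ≤ 1 by
          rw [lx, ly]; exact hst))
      linarith
    · push Not at hst
      obtain ⟨i, rfl⟩ : ∃ i', i = i' + 2 := ⟨i - 2, by omega⟩
      obtain ⟨j, rfl⟩ : ∃ j', j = j' + 2 := ⟨j - 2, by omega⟩
      have hns : ∀ xs ∈ bitsF (i + 2), ∀ ys ∈ bitsF (j + 2),
          ¬ stopd ⟨fl, y, lf, rm, xs, ys⟩ := by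
        intro xs hxs ys hys h
        have lx := mem_bits_length hxs
        have ly := mem_bits_length hys
        have h' : xs.length ≤ 1 ∨ ys.length ≤ 1 := h
        omega
      cases fl
      · -- free phase
        obtain ⟨q1, q2, hq1, hq2, hq, ha1, ha2, hphi⟩ := h_STPF y lf rm (i + 2) (j + 2) hal hbel
        have hpt : ∀ xs ∈ bitsF (i + 2), ∀ ys ∈ bitsF (j + 2),
            q1 * (Real.log (1 / q1) + Real.log (VV n ⟨.R, y, lf, rm, xs, ys⟩)) +
            q2 * (Real.log (dw / q2) +
              Real.log (VV n ⟨.L, y - 1, lf, minUp rm (y - 1), xs, ys⟩)) ≤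
            Real.log (VV (n + 1) ⟨.F, y, lf, rm, xs, ys⟩) := by
          intro xs hxs ys hys
          have h4 := v4 n _ (hns xs hxs ys hys)
          have hd : (0 : ℝ) < dw := by norm_num [dw]
          have hp2 := v1 n ⟨.L, y - 1, lf, minUp rm (y - 1), xs, ys⟩
          apply logsum one_pos (v1 n _) hd hp2 hq1 hq2 hq
          · simp only [mvs, List.map_cons, List.map_nil, List.sum_cons, List.sum_nil, step, wm,
              add_zero] at h4
            refine le_trans ?_ h4
            split_ifs
            · simp only
              have := mul_pos hd hp2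
              linarith
            · simp
          · intro hq2'
            simp only [mvs, List.map_cons, List.map_nil, List.sum_cons, List.sum_nil, step, wm,
              add_zero, (ha2 hq2').1, if_true] at h4
            exact h4
        refine le_trans ?_ (EE2_mono hpt)
        rw [EE2_lin]
        have t1 := mul_step (a := Real.log (1 / q1) + (phi .R y lf rm (i + 2) (j + 2) - C))
          (b := Real.log (1 / q1) + EE lf.isSome (i + 2) (fun xs => EE rm.isSome (j + 2)
            (fun ys => Real.log (VV n ⟨.R, y, lf, rm, xs, ys⟩)))) hq1 (fun h => by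
            have := ih .R y lf rm (i + 2) (j + 2) (ha1 h) hbel (by omega) (by omega)
            linarith)
        have t2 := mul_step
          (a := Real.log (dw / q2) + (phi .L (y - 1) lf (minUp rm (y - 1)) (i + 2) (j + 2) - C))
          (b := Real.log (dw / q2) + EE lf.isSome (i + 2) (fun xs => EE rm.isSome (j + 2)
            (fun ys => Real.log (VV n ⟨.L, y - 1, lf, minUp rm (y - 1), xs, ys⟩)))) hq2
          (fun h => by
            have hb : Bel (y - 1) lf (minUp rm (y - 1)) := by
              constructor
              · intro f hf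
                have h5 := (ha2 h).1
                rw [hf] at h5
                simpa [floorOK] using h5
              · intro m hm
                cases rm with
                | none => simp [minUp] at hm
                | some m' =>
                  simp only [minUp, Option.some.injEq] at hm
                  rw [← hm]; exact min_le_right _ _
            have := ih .L (y - 1) lf (minUp rm (y - 1)) (i + 2) (j + 2) (ha2 h).2 hb
              (by omega) (by omega)
            rw [isSome_minUp] at this
            linarith)
        have e1 : phi .F y lf rm (i + 2) (j + 2) - C ≤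
            q1 * (Real.log (1 / q1) + (phi .R y lf rm (i + 2) (j + 2) - C)) +
            q2 * (Real.log (dw / q2) +
              (phi .L (y - 1) lf (minUp rm (y - 1)) (i + 2) (j + 2) - C)) := by
          have e2 : C = q1 * C + q2 * C := by rw [← add_mul, hq, one_mul]
          nlinarith [hphi, e2]
        linarith
      · -- left phase
        obtain ⟨q1, q2, hq1, hq2, hq, ha1, ha2, hphi⟩ := h_STPL y lf rm (i + 1) (j + 2) hal hbel
        have hpt : ∀ xs ∈ bitsF (i + 2), ∀ ys ∈ bitsF (j + 2),
            q1 * (Real.log (1 / q1) + Real.log (VV n ⟨.F, y, lf, rm, xs, ys⟩)) +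
            q2 * (Real.log (1 / q2) +
              Real.log (VV n ⟨.L, y, nxt (xs.headD false) y, rm, xs.tail, ys⟩)) ≤
            Real.log (VV (n + 1) ⟨.L, y, lf, rm, xs, ys⟩) := by
          intro xs hxs ys hys
          have h4 := v4 n _ (hns xs hxs ys hys)
          have lx := mem_bits_length hxs
          rcases xs with _ | ⟨b, xs⟩
          · simp at lx
          · have hp2 := v1 n ⟨.L, y, nxt b y, rm, xs, ys⟩
            simp only [mvs, List.map_cons, List.map_nil, List.sum_cons, List.sum_nil, step, wm,
              add_zero] at h4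
            simp only [List.headD_cons, List.tail_cons]
            apply logsum one_pos (v1 n _) one_pos hp2 hq1 hq2 hq
            · linarith
            · intro _
              exact h4
        refine le_trans ?_ (EE2_mono hpt)
        rw [EE2_lin]
        have e3 : EE lf.isSome (i + 2) (fun xs => EE rm.isSome (j + 2) (fun ys =>
            Real.log (VV n ⟨.L, y, nxt (xs.headD false) y, rm, xs.tail, ys⟩))) =
            (1 - th lf.isSome) * EE false (i + 1) (fun xs => EE rm.isSome (j + 2) (fun ys =>
              Real.log (VV n ⟨.L, y, none, rm, xs, ys⟩))) +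
            th lf.isSome * EE true (i + 1) (fun xs => EE rm.isSome (j + 2) (fun ys =>
              Real.log (VV n ⟨.L, y, some y, rm, xs, ys⟩))) := by
          rw [EE_succ]
          rfl
        rw [e3]
        have t1 := mul_step (a := Real.log (1 / q1) + (phi .F y lf rm (i + 2) (j + 2) - C))
          (b := Real.log (1 / q1) + EE lf.isSome (i + 2) (fun xs => EE rm.isSome (j + 2)
            (fun ys => Real.log (VV n ⟨.F, y, lf, rm, xs, ys⟩)))) hq1 (fun h => by
            have := ih .F y lf rm (i + 2) (j + 2) (ha1 h) hbel (by omega) (by omega)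
            linarith)
        have t2 := mul_step
          (a := Real.log (1 / q2) + (((1 - th lf.isSome) * phi .L y none rm (i + 1) (j + 2) +
            th lf.isSome * phi .L y (some y) rm (i + 1) (j + 2)) - C))
          (b := Real.log (1 / q2) + ((1 - th lf.isSome) * EE false (i + 1) (fun xs =>
              EE rm.isSome (j + 2) (fun ys => Real.log (VV n ⟨.L, y, none, rm, xs, ys⟩))) +
            th lf.isSome * EE true (i + 1) (fun xs => EE rm.isSome (j + 2) (fun ys =>
              Real.log (VV n ⟨.L, y, some y, rm, xs, ys⟩))))) hq2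
          (fun h => by
            have hb0 : Bel y none rm := ⟨fun f hf => by simp at hf, hbel.2⟩
            have hb1 : Bel y (some y) rm :=
              ⟨fun f hf => by rw [Option.some.injEq] at hf; omega, hbel.2⟩
            have i0 := ih .L y none rm (i + 1) (j + 2) (ha2 h).1 hb0 (by omega) (by omega)
            have i1 := ih .L y (some y) rm (i + 1) (j + 2) (ha2 h).2 hb1 (by omega) (by omega)
            have ht := th_mem lf.isSome
            have j0 := mul_le_mul_of_nonneg_left i0 (by linarith : 0 ≤ 1 - th lf.isSome)
            have j1 := mul_le_mul_of_nonneg_left i1 ht.1.le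
            simp only [Option.isSome_none, Option.isSome_some] at j0 j1
            linarith)
        have e1 : phi .L y lf rm (i + 2) (j + 2) - C ≤
            q1 * (Real.log (1 / q1) + (phi .F y lf rm (i + 2) (j + 2) - C)) +
            q2 * (Real.log (1 / q2) +
              (((1 - th lf.isSome) * phi .L y none rm (i + 1) (j + 2) +
            th lf.isSome * phi .L y (some y) rm (i + 1) (j + 2)) - C)) := by
          have e2 : C = q1 * C + q2 * C := by rw [← add_mul, hq, one_mul]
          have hphi' : phi .L y lf rm (i + 2) (j + 2) ≤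
              q1 * (Real.log (1 / q1) + phi .F y lf rm (i + 2) (j + 2)) +
              q2 * (Real.log (1 / q2) + ((1 - th lf.isSome) * phi .L y none rm (i + 1) (j + 2) +
                th lf.isSome * phi .L y (some y) rm (i + 1) (j + 2))) := hphi
          nlinarith [hphi', e2]
        linarith
      · -- right phase
        obtain ⟨q1, q2, hq1, hq2, hq, ha1, ha2, hphi⟩ := h_STPR y lf rm (i + 2) (j + 1) hal hbel
        have hpt : ∀ xs ∈ bitsF (i + 2), ∀ ys ∈ bitsF (j + 2),
            q1 * (Real.log (uw / q1) + Real.log (VV n ⟨.F, y + 1, lf, rm, xs, ys⟩)) +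
            q2 * (Real.log (1 / q2) +
              Real.log (VV n ⟨.R, y, lf, nxt (ys.headD false) y, xs, ys.tail⟩)) ≤
            Real.log (VV (n + 1) ⟨.R, y, lf, rm, xs, ys⟩) := by
          intro xs hxs ys hys
          have h4 := v4 n _ (hns xs hxs ys hys)
          have ly := mem_bits_length hys
          rcases ys with _ | ⟨b, ys⟩
          · simp at ly
          · have hp1 := v1 n ⟨.F, y + 1, lf, rm, xs, b :: ys⟩
            have hp2 := v1 n ⟨.R, y, lf, nxt b y, xs, ys⟩
            have hu : (0 : ℝ) < uw := by norm_num [uw]
            simp only [List.headD_cons, List.tail_cons]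
            apply logsum hu hp1 one_pos hp2 hq1 hq2 hq
            · simp only [mvs, List.map_cons, List.map_nil, List.sum_cons, List.sum_nil, step, wm,
                add_zero] at h4
              refine le_trans ?_ h4
              split_ifs
              · simp only
                linarith
              · simp
            · intro hq2'
              simp only [mvs, List.map_cons, List.map_nil, List.sum_cons, List.sum_nil, step, wm,
                add_zero, (ha2 hq2').1, if_true] at h4
              exact h4
        refine le_trans ?_ (EE2_mono hpt)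
        rw [EE2_lin]
        have e3 : EE lf.isSome (i + 2) (fun xs => EE rm.isSome (j + 2) (fun ys =>
            Real.log (VV n ⟨.R, y, lf, nxt (ys.headD false) y, xs, ys.tail⟩))) =
            (1 - th rm.isSome) * EE lf.isSome (i + 2) (fun xs => EE false (j + 1) (fun ys =>
              Real.log (VV n ⟨.R, y, lf, none, xs, ys⟩))) +
            th rm.isSome * EE lf.isSome (i + 2) (fun xs => EE true (j + 1) (fun ys =>
              Real.log (VV n ⟨.R, y, lf, some y, xs, ys⟩))) := by
          rw [← EE_smul, ← EE_smul, ← EE_add]
          congr 1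
        rw [e3]
        have t1 := mul_step (a := Real.log (uw / q1) + (phi .F (y + 1) lf rm (i + 2) (j + 2) - C))
          (b := Real.log (uw / q1) + EE lf.isSome (i + 2) (fun xs => EE rm.isSome (j + 2)
            (fun ys => Real.log (VV n ⟨.F, y + 1, lf, rm, xs, ys⟩)))) hq1 (fun h => by
            have hb : Bel (y + 1) lf rm :=
              ⟨fun f hf => by have := hbel.1 f hf; omega, fun m hm => by
                have := hbel.2 m hm; omega⟩
            have := ih .F (y + 1) lf rm (i + 2) (j + 2) (ha1 h) hb (by omega) (by omega)
            linarith)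
        have t2 := mul_step
          (a := Real.log (1 / q2) + (((1 - th rm.isSome) * phi .R y lf none (i + 2) (j + 1) +
            th rm.isSome * phi .R y lf (some y) (i + 2) (j + 1)) - C))
          (b := Real.log (1 / q2) + ((1 - th rm.isSome) * EE lf.isSome (i + 2) (fun xs =>
              EE false (j + 1) (fun ys => Real.log (VV n ⟨.R, y, lf, none, xs, ys⟩))) +
            th rm.isSome * EE lf.isSome (i + 2) (fun xs => EE true (j + 1) (fun ys =>
              Real.log (VV n ⟨.R, y, lf, some y, xs, ys⟩))))) hq2
          (fun h => by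
            have hb0 : Bel y lf none := ⟨hbel.1, fun f hf => by simp at hf⟩
            have hb1 : Bel y lf (some y) :=
              ⟨hbel.1, fun f hf => by rw [Option.some.injEq] at hf; omega⟩
            have i0 := ih .R y lf none (i + 2) (j + 1) (ha2 h).2.1 hb0 (by omega) (by omega)
            have i1 := ih .R y lf (some y) (i + 2) (j + 1) (ha2 h).2.2 hb1 (by omega) (by omega)
            have ht := th_mem rm.isSome
            have j0 := mul_le_mul_of_nonneg_left i0 (by linarith : 0 ≤ 1 - th rm.isSome)
            have j1 := mul_le_mul_of_nonneg_left i1 ht.1.le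
            simp only [Option.isSome_none, Option.isSome_some] at j0 j1
            linarith)
        have e1 : phi .R y lf rm (i + 2) (j + 2) - C ≤
            q1 * (Real.log (uw / q1) + (phi .F (y + 1) lf rm (i + 2) (j + 2) - C)) +
            q2 * (Real.log (1 / q2) +
              (((1 - th rm.isSome) * phi .R y lf none (i + 2) (j + 1) +
            th rm.isSome * phi .R y lf (some y) (i + 2) (j + 1)) - C)) := by
          have e2 : C = q1 * C + q2 * C := by rw [← add_mul, hq, one_mul]
          have hphi' : phi .R y lf rm (i + 2) (j + 2) ≤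
              q1 * (Real.log (uw / q1) + phi .F (y + 1) lf rm (i + 2) (j + 2)) +
              q2 * (Real.log (1 / q2) + ((1 - th rm.isSome) * phi .R y lf none (i + 2) (j + 1) +
                th rm.isSome * phi .R y lf (some y) (i + 2) (j + 1))) := hphi
          nlinarith [hphi', e2]
        linarith

end SL1324
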