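import Pool.Agent.Lib.MP_b8e197_co.SL.Iface

/-!
# Project SL, module SHC (3.2): number of cells with given cuts
-/

set_option linter.all false

namespace SL1324

open H98Av (Av1324 Av132)

namespace SHC

theorem decomp : ∀ (n : ℕ), ∀ x ∈ bitsF (n + 1), ∃ (k n' : ℕ) (x' : List Bool),
    x = List.replicate k true ++ false :: x' ∧ x' ∈ bitsF n' ∧ n' ≤ n := by
  intro n
  induction n with
  | zero =>
    intro x hx
    simp only [bitsF, zero_add, Finset.mem_singleton] at hx
    exact ⟨0, 0, [], by simp [hx], by simp [bitsF], le_rfl⟩
  | succ n ih =>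
    intro x hx
    cases x with
    | nil => have := mem_bits_length hx; simp at this
    | cons b y =>
      have hy := mem_bits_cons.1 hx
      cases b with
      | false => exact ⟨0, n + 1, y, rfl, hy, le_rfl⟩
      | true =>
        obtain ⟨k, n', x', h1, h2, h3⟩ := ih y hy
        exact ⟨k + 1, n', x', by rw [h1]; rfl, h2, by omega⟩

theorem catp_rep (x' : List Bool) : ∀ (k k0 : ℕ),
    catp k0 (List.replicate k true ++ false :: x') = catalan (k0 + k) * catp 0 x' := by
  intro k
  induction k with
  | zero => intro k0; rfl
  | succ k ih =>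
    intro k0
    show catp (k0 + 1) (List.replicate k true ++ false :: x') = _
    rw [ih]
    congr 2
    ring

/-- the block cell -/
def cell (k m : ℕ) (L X : List ℕ) : List ℕ := (L ++ [k]).map (· + m) ++ X

theorem cell_perm {k m : ℕ} {L X : List ℕ} (hL : L.Perm (List.range k))
    (hX : X.Perm (List.range m)) : (cell k m L X).Perm (List.range (k + 1 + m)) := by
  have h1 : (L ++ [k]).Perm (List.range (k + 1)) := by
    rw [List.range_succ]
    exact hL.append_right _
  have h2 : (L ++ [k]).map (· + m) |>.Perm ((List.range (k + 1)).map (· + m)) := h1.map _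
  unfold cell
  refine (h2.append hX).trans (List.perm_append_comm.trans ?_)
  have : (List.range (k + 1)).map (· + m) = (List.range (k + 1)).map (fun x => m + x) := by
    congr 1
    funext x
    ring
  have e : List.range (m + (k + 1)) = List.range m ++ (List.range (k + 1)).map (fun x => m + x) :=
    List.range_add
  rw [show k + 1 + m = m + (k + 1) by ring, e, this]

theorem sub3 {L : List ℕ} {k a b c : ℕ} (h : List.Sublist [a, b, c] (L ++ [k])) (hc : c ≠ k) :
    List.Sublist [a, b, c] L := by
  rw [List.sublist_append_iff] at h
  obtain ⟨l1, l2, h1, h2, h3⟩ := h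
  cases l2 with
  | nil => rw [List.append_nil] at h1; rw [h1]; exact h2
  | cons d l2 =>
    exfalso
    have hl := h3.length_le
    simp only [List.length_cons, List.length_nil] at hl
    have hl2 : l2 = [] := List.eq_nil_of_length_eq_zero (by omega)
    subst hl2
    have hd : d = k := by simpa using h3.subset (by simp : d ∈ [d])
    subst hd
    have h4 := congrArg List.getLast? h1
    simp at h4
    exact hc h4

theorem cell_av {k m : ℕ} {L X : List ℕ} (hL : L.Perm (List.range k)) (hLa : Av132 L)
    (hX : X.Perm (List.range m)) (hXa : Av132 X) : Av132 (cell k m L X) := by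
  intro a b c hs hp
  unfold cell at hs
  rw [List.sublist_append_iff] at hs
  obtain ⟨l1, l2, h1, h2, h3⟩ := hs
  have hXm : ∀ t ∈ X, t < m := fun t ht => List.mem_range.1 (hX.mem_iff.1 ht)
  have hPm : ∀ t ∈ (L ++ [k]).map (· + m), m ≤ t := by
    intro t ht
    obtain ⟨u, -, rfl⟩ := List.mem_map.1 ht
    exact Nat.le_add_left _ _
  have hLk : ∀ t ∈ L, t < k := fun t ht => List.mem_range.1 (hL.mem_iff.1 ht)
  cases l1 with
  | nil => rw [List.nil_append] at h1; rw [← h1] at h3; exact hXa a b c h3 hp
  | cons a' l1 =>
    rw [List.cons_append] at h1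
    have e1 := (List.cons.inj h1).1
    have e2 := (List.cons.inj h1).2
    clear h1
    have ha : m ≤ a := by rw [e1]; exact hPm a' (h2.subset (by simp))
    cases l1 with
    | nil =>
      rw [List.nil_append] at e2
      have hc : c < m := hXm c (h3.subset (by rw [← e2]; simp))
      omega
    | cons b' l1 =>
      rw [List.cons_append] at e2
      have e3 := (List.cons.inj e2).1
      have e4 := (List.cons.inj e2).2
      clear e2
      cases l1 with
      | nil =>
        rw [List.nil_append] at e4
        have hc : c < m := hXm c (h3.subset (by rw [← e4]; simp))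
        omega
      | cons c' l1 =>
        rw [List.cons_append] at e4
        have e5 := (List.cons.inj e4).1
        have e6 := (List.cons.inj e4).2
        have hl1 : l1 = [] := (List.append_eq_nil_iff.1 e6.symm).1
        subst hl1
        rw [← e1, ← e3, ← e5] at h2
        -- the pattern is in the first part
        rw [List.sublist_map_iff] at h2
        obtain ⟨l', h4, h5⟩ := h2
        obtain ⟨a0, b0, c0, rfl⟩ : ∃ a0 b0 c0, l' = [a0, b0, c0] := by
          have := congrArg List.length h5
          simp only [List.length_cons, List.length_nil, List.length_map] at this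
          match l', this with
          | [x, y, z], _ => exact ⟨x, y, z, rfl⟩
        simp only [List.map_cons, List.map_nil, List.cons.injEq, and_true] at h5
        obtain ⟨rfl, rfl, rfl⟩ := h5
        have hb0 : b0 ≤ k := by
          have : b0 ∈ L ++ [k] := h4.subset (by simp)
          rcases List.mem_append.1 this with h | h
          · exact (hLk _ h).le
          · simp at h; omega
        exact hLa a0 b0 c0 (sub3 h4 (by omega)) (by omega)

theorem getD_range {n : ℕ} {X : List ℕ} (hX : X.Perm (List.range n)) (i : ℕ) (hi : i < n) :
    X.getD i 0 < n := by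
  have hl : X.length = n := by rw [hX.length_eq, List.length_range]
  have h1 : X.getD i 0 ∈ X := by
    rw [List.getD_eq_getElem _ _ (by omega)]; exact List.getElem_mem _
  exact List.mem_range.1 (hX.mem_iff.1 h1)

theorem cell_lo {k m : ℕ} {L X : List ℕ} (hL : L.Perm (List.range k)) (i : ℕ) (hi : i ≤ k) :
    m ≤ (cell k m L X).getD i 0 := by
  have hl : L.length = k := by rw [hL.length_eq, List.length_range]
  unfold cell
  have hi' : i < ((L ++ [k]).map (· + m)).length := by simp [hl]; omega
  rw [List.getD_append _ _ _ _ hi', List.getD_eq_getElem _ _ hi', List.getElem_map]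
  exact Nat.le_add_left _ _

theorem cell_k {k m : ℕ} {L X : List ℕ} (hL : L.Perm (List.range k)) :
    (cell k m L X).getD k 0 = k + m := by
  have hl : L.length = k := by rw [hL.length_eq, List.length_range]
  unfold cell
  have hi' : k < ((L ++ [k]).map (· + m)).length := by simp [hl]
  rw [List.getD_append _ _ _ _ hi', List.getD_eq_getElem _ _ hi', List.getElem_map]
  congr 1
  rw [List.getElem_append_right (by omega)]
  simp

theorem cell_hi {k m : ℕ} {L X : List ℕ} (hL : L.Perm (List.range k)) (j : ℕ) :
    (cell k m L X).getD (k + 1 + j) 0 = X.getD j 0 := by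
  have hl : L.length = k := by rw [hL.length_eq, List.length_range]
  unfold cell
  have h1 : ((L ++ [k]).map (· + m)).length = k + 1 := by simp [hl]
  rw [List.getD_append_right _ _ _ _ (by rw [h1]; omega), h1]
  congr 1
  omega

theorem bits_getD_lo (k : ℕ) (x' : List Bool) (i : ℕ) (hi : i < k) :
    (List.replicate k true ++ false :: x').getD i false = true := by
  rw [List.getD_append _ _ _ _ (by simpa using hi), List.getD_eq_getElem _ _ (by simpa using hi),
    List.getElem_replicate]

theorem bits_getD_k (k : ℕ) (x' : List Bool) :
    (List.replicate k true ++ false :: x').getD k false = false := by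
  rw [List.getD_append_right _ _ _ _ (by simp)]
  simp

theorem bits_getD_hi (k : ℕ) (x' : List Bool) (j : ℕ) :
    (List.replicate k true ++ false :: x').getD (k + 1 + j) false = x'.getD j false := by
  rw [List.getD_append_right _ _ _ _ (by simp; omega)]
  rw [List.length_replicate, show k + 1 + j - k = j + 1 by omega, List.getD_cons_succ]

theorem cell_sh {k : ℕ} {x' : List Bool} {L X : List ℕ} (hL : L.Perm (List.range k))
    (hLa : Av132 L) (hX : Sh x' X) :
    Sh (List.replicate k true ++ false :: x') (cell k x'.length L X) := by
  obtain ⟨hXp, hXa, hXc1, hXc2⟩ := hX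
  set m := x'.length with hm
  have hlen : (List.replicate k true ++ false :: x').length = k + 1 + m := by
    simp [← hm]; ring
  have hp := cell_perm hL hXp
  have hlc : (cell k m L X).length = k + 1 + m := by rw [hp.length_eq, List.length_range]
  have hlX : X.length = m := by rw [hXp.length_eq, List.length_range]
  refine ⟨by rw [hlen]; exact hp, cell_av hL hLa hXp hXa, by rw [hlen, hlc], fun i hi => ?_⟩
  rw [hlc] at hi
  unfold CutAt at *
  rw [hlc]
  rcases lt_trichotomy i k with h | h | h
  · rw [bits_getD_lo k x' i h]
    refine ⟨fun h' => by simp at h', fun h' => ?_⟩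
    exfalso
    have h1 := h' i k le_rfl h (by omega)
    rw [cell_k hL] at h1
    have h2 := getD_range hp i (by omega)
    omega
  · subst h
    rw [bits_getD_k]
    refine ⟨fun _ p q hp' hq hq2 => ?_, fun _ => rfl⟩
    have h1 := cell_lo (m := m) (X := X) hL p hp'
    obtain ⟨j, rfl⟩ : ∃ j, q = i + 1 + j := ⟨q - (i + 1), by omega⟩
    rw [cell_hi hL]
    have h2 := getD_range hXp j (by omega)
    omega
  · obtain ⟨j, rfl⟩ : ∃ j, i = k + 1 + j := ⟨i - (k + 1), by omega⟩
    rw [bits_getD_hi, hXc2 j (by omega)]
    constructor
    · intro hc p q hp' hq hq2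
      obtain ⟨q', rfl⟩ : ∃ q', q = k + 1 + q' := ⟨q - (k + 1), by omega⟩
      rw [cell_hi hL]
      rcases Nat.lt_or_ge k p with hpk | hpk
      · obtain ⟨p', rfl⟩ : ∃ p', p = k + 1 + p' := ⟨p - (k + 1), by omega⟩
        rw [cell_hi hL]
        exact hc p' q' (by omega) (by omega) (by omega)
      · have h1 := cell_lo (m := m) (X := X) hL p hpk
        have h2 := getD_range hXp q' (by omega)
        omega
    · intro hc p q hp' hq hq2
      have := hc (k + 1 + p) (k + 1 + q) (by omega) (by omega) (by omega)
      rwa [cell_hi hL, cell_hi hL] at this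

theorem fin_perm (n : ℕ) (P : List ℕ → Prop) (hP : ∀ X, P X → X.Perm (List.range n)) :
    Finite {X : List ℕ // P X} := by
  have h1 : Set.Finite {X : List ℕ | P X} := by
    refine Set.Finite.subset (List.finite_toSet (List.range n).permutations) fun X hX => ?_
    exact List.mem_permutations.2 (hP X hX)
  exact h1.to_subtype

theorem main (h_CAT : CatStatement) : ∀ n : ℕ, ∀ x ∈ bitsF n,
    catp 0 x ≤ Nat.card {X : List ℕ // Sh x X} := by
  intro n
  induction n using Nat.strong_induction_on with
  | _ n ih =>
    intro x hx
    haveI hfin : Finite {X : List ℕ // Sh x X} := fin_perm x.length _ fun X hX => hX.1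
    cases n with
    | zero =>
      simp only [bitsF, Finset.mem_singleton] at hx
      subst hx
      have h1 : Sh [] [] := by
        refine ⟨by simp, ?_, rfl, fun i hi => by simp at hi⟩
        intro a b c h
        have := h.length_le
        simp at this
      haveI : Nonempty {X : List ℕ // Sh [] X} := ⟨⟨[], h1⟩⟩
      exact Nat.card_pos
    | succ n =>
      obtain ⟨k, n', x', rfl, hx', hn⟩ := decomp n x hx
      rw [catp_rep, zero_add]
      haveI : Finite {v : List ℕ // v.Perm (List.range k) ∧ Av132 v} :=
        fin_perm k _ fun X hX => hX.1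
      haveI : Finite {X : List ℕ // Sh x' X} := fin_perm x'.length _ fun X hX => hX.1
      calc catalan k * catp 0 x' ≤ Nat.card {v : List ℕ // v.Perm (List.range k) ∧ Av132 v} *
            Nat.card {X : List ℕ // Sh x' X} :=
            Nat.mul_le_mul (h_CAT k) (ih n' (by omega) x' hx')
        _ = Nat.card ({v : List ℕ // v.Perm (List.range k) ∧ Av132 v} ×
            {X : List ℕ // Sh x' X}) := (Nat.card_prod _ _).symm
        _ ≤ _ := by
          refine Nat.card_le_card_of_injective
            (fun p => (⟨cell k x'.length p.1.1 p.2.1, cell_sh p.1.2.1 p.1.2.2 p.2.2⟩ :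
              {X : List ℕ // Sh (List.replicate k true ++ false :: x') X})) ?_
          rintro ⟨⟨L, hL⟩, ⟨X, hX⟩⟩ ⟨⟨L', hL'⟩, ⟨X', hX'⟩⟩ h
          have h1 : cell k x'.length L X = cell k x'.length L' X' := congrArg Subtype.val h
          unfold cell at h1
          have hl : L.length = L'.length := by rw [hL.1.length_eq, hL'.1.length_eq]
          obtain ⟨h2, h3⟩ := List.append_inj h1 (by simp [hl])
          have h4 : L ++ [k] = L' ++ [k] :=
            List.map_injective_iff.2 (fun a b (hab : a + x'.length = b + x'.length) => by omega) h2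
          have h5 := List.append_cancel_right h4
          subst h5
          subst h3
          rfl

end SHC

theorem shc (h_CAT : CatStatement) : ShcStatement := SHC.main h_CAT

end SL1324
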