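import Pool.Agent.Lib.MP_b8e197_co.SL.Iface

/-!
# Project SL, module SHU (3.4)
-/

set_option linter.all false

namespace SL1324

open H98Av (Av1324 Av132)

namespace SHU

theorem getD_inj {X : List ℕ} (hX : X.Nodup) {i j : ℕ} (hi : i < X.length) (hj : j < X.length)
    (h : X.getD i 0 = X.getD j 0) : i = j := by
  rw [List.getD_eq_getElem _ _ hi, List.getD_eq_getElem _ _ hj] at h
  exact (hX.getElem_inj_iff).1 h

theorem getD_mem {X : List ℕ} {i : ℕ} (hi : i < X.length) : X.getD i 0 ∈ X := by
  rw [List.getD_eq_getElem _ _ hi]
  exact List.getElem_mem hi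

/-- The values before a cut are large. -/
theorem before_cut {X : List ℕ} {n : ℕ} (hX : X.Perm (List.range n)) {i : ℕ} (hi : i < n)
    (hc : CutAt X i) {t : ℕ} (ht : t ≤ i) : n - 1 - i ≤ X.getD t 0 := by
  have hnd : X.Nodup := hX.nodup_iff.2 (List.nodup_range)
  have hlen : X.length = n := by simpa using hX.length_eq
  have h := Finset.card_le_card_of_injOn (s := Finset.Ico (i + 1) n)
    (t := Finset.range (X.getD t 0)) (fun j => X.getD j 0) ?_ ?_
  · simp only [Nat.card_Ico, Finset.card_range] at h
    omega
  · intro j hj
    simp only [Finset.coe_Ico, Set.mem_Ico] at hj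
    simp only [Finset.coe_range, Set.mem_Iio]
    exact hc t j ht (by omega) (by omega)
  · intro j hj j' hj' he
    simp only [Finset.coe_Ico, Set.mem_Ico] at hj hj'
    exact getD_inj hnd (by omega) (by omega) he

/-- The values after a cut are small. -/
theorem after_cut {X : List ℕ} {n : ℕ} (hX : X.Perm (List.range n)) {i : ℕ} (hi : i < n)
    (hc : CutAt X i) {t : ℕ} (ht : i < t) (htn : t < n) : X.getD t 0 < n - 1 - i := by
  have hnd : X.Nodup := hX.nodup_iff.2 (List.nodup_range)
  have hlen : X.length = n := by simpa using hX.length_eq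
  have h := Finset.card_le_card_of_injOn (s := Finset.range (i + 1))
    (t := Finset.Ioo (X.getD t 0) n) (fun j => X.getD j 0) ?_ ?_
  · simp only [Nat.card_Ioo, Finset.card_range] at h
    omega
  · intro j hj
    simp only [Finset.coe_range, Set.mem_Iio] at hj
    simp only [Finset.coe_Ioo, Set.mem_Ioo]
    refine ⟨hc j t (by omega) ht (by omega), ?_⟩
    have hm : X.getD j 0 ∈ X := getD_mem (by omega)
    have := hX.mem_iff.1 hm
    simpa using this
  · intro j hj j' hj' he
    simp only [Finset.coe_range, Set.mem_Iio] at hj hj'
    exact getD_inj hnd (by omega) (by omega) he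

end SHU

open SHU in
theorem shu : ShuStatement := by
  refine ⟨?_, ?_, ?_⟩
  · intro x x' X h h'
    obtain ⟨_, _, hl, hc⟩ := h
    obtain ⟨_, _, hl', hc'⟩ := h'
    apply List.ext_getElem (by rw [hl, hl'])
    intro i hi hi'
    have h1 := hc i (by omega)
    have h2 := hc' i (by omega)
    rw [List.getD_eq_getElem _ _ hi] at h1
    rw [List.getD_eq_getElem _ _ hi'] at h2
    have h3 := h1.trans h2.symm
    cases hx : x[i] <;> cases hx' : x'[i] <;> simp_all
  · intro x X h a b c d hs hh
    refine h.2.1 a b c (List.Sublist.trans ?_ hs) ⟨hh.1, hh.2.1⟩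
    exact List.Sublist.cons_cons a (List.Sublist.cons_cons b (List.Sublist.cons_cons c
      (List.nil_sublist _)))
  · intro x X h p q hpq hq hlt
    obtain ⟨hperm, _, hl, hc⟩ := h
    rw [hl] at hperm
    constructor
    · intro i hpi hiq
      by_contra hne
      have hf : x.getD i false = false := by simpa using hne
      have hcut := (hc i (by omega)).1 hf
      have := hcut p q hpi hiq hq
      omega
    · intro i hi1 hi2
      by_contra hne
      have hf : x.getD i false = false := by simpa using hne
      have hin : i < X.length := by omega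
      have hcut := (hc i hin).1 hf
      have hp : i < p := by
        by_contra hle
        have := before_cut hperm hin hcut (t := p) (by omega)
        omega
      have := after_cut hperm hin hcut (t := q) (by omega) hq
      omega

end SL1324
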