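import Pool.Agent.Lib.MP_b8e197_co.SL.StpAux

/-!
# Project SL: STPF, the one-step inequality in the free phase
-/

set_option linter.all false

namespace SL1324

open StpAux

theorem stpf (h_CERT : CertStatement) (h_PHI : PhiStatement) : StpfStatement := by
  intro y lf rm i j hAl hBel
  obtain ⟨hl, hr, hv⟩ := hAl
  obtain ⟨ck1, ckT, ckC1, ckC2, ckD⟩ := chk_unpack h_CERT hl hr hv
  set l := relC lf y with hldef
  set r := relC rm y with hrdef
  have c1 := chkC_real ckC1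
  have c2 := chkC_real ckC2
  have hV : (0 : ℝ) < (cv .F l r : ℝ) := by exact_mod_cast hv
  have hA : (cv .F l r : ℝ) * 10000 * 1000300 ≤
      1000000 * ((A1 .F l r : ℝ) + (A2 .F l r : ℝ)) := by exact_mod_cast ck1
  have eA1 : (A1 .F l r : ℝ) = 10000 * (cv .R l r : ℝ) := by
    unfold A1; push_cast; rfl
  -- second move
  have hA2pos : (0 : ℝ) < (A2 .F l r : ℝ) → l ≠ 1 ∧ 0 < cv .L (dnL l) (dnR r) ∧
      (A2 .F l r : ℝ) = 3057 * (cv .L (dnL l) (dnR r) : ℝ) := by
    intro h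
    have h' : 0 < A2 .F l r := by exact_mod_cast h
    unfold A2 at h' ⊢
    by_cases h1 : l = 1
    · simp [h1] at h'
    · simp only [if_neg h1] at h' ⊢
      refine ⟨h1, by omega, by push_cast; rfl⟩
  have hB := master h_PHI hV (a1 := (A1 .F l r : ℝ)) (a2 := (A2 .F l r : ℝ))
    (by positivity) (by positivity) hA (Real.log (cv .R l r : ℝ))
    (Real.log dw + Real.log (cv .L (dnL l) (dnR r) : ℝ))
    (by
      intro h
      rw [eA1]
      apply le_of_eq
      congr 1
      ring)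
    (by
      intro h
      obtain ⟨h1, h2, h3⟩ := hA2pos h
      rw [h3, ← Real.log_mul (by unfold dw; norm_num) (by positivity)]
      apply le_of_eq
      congr 1
      unfold dw
      ring)
    0 le_rfl zero_le_one
    ((i : ℝ) - j + (cc1 .F l r : ℝ) / 1000000) ((y : ℝ) + (cc2 .F l r : ℝ) / 1000000)
    (((cc1 .R l r : ℝ) - (cc1 .F l r : ℝ)) / 1000000)
    (((cc1 .L (dnL l) (dnR r) : ℝ) - (cc1 .F l r : ℝ)) / 1000000)
    (((cc1 .L (dnL l) (dnR r) : ℝ) - (cc1 .F l r : ℝ)) / 1000000)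
    (((cc2 .R l r : ℝ) - (cc2 .F l r : ℝ)) / 1000000)
    (((cc2 .L (dnL l) (dnR r) : ℝ) - (cc2 .F l r : ℝ)) / 1000000 - 1)
    (((cc2 .L (dnL l) (dnR r) : ℝ) - (cc2 .F l r : ℝ)) / 1000000 - 1)
    (by
      intro h
      unfold chkD at ckD
      simp only [Bool.and_eq_true, Bool.or_eq_true, beq_iff_eq] at ckD
      have h' : A1 .F l r ≠ 0 := by
        intro h0; rw [h0] at h; simp at h
      have h3 := ckD.1.resolve_left h'
      have h4 := absLe_real h3.1
      have h5 := absLe_real h3.2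
      push_cast at h4 h5
      rw [abs_div, abs_div, abs_of_pos (show (0 : ℝ) < 1000000 by norm_num),
        div_le_iff₀ (by norm_num), div_le_iff₀ (by norm_num)]
      constructor
      · linarith
      · linarith)
    (by
      intro h
      unfold chkD at ckD
      simp only [Bool.and_eq_true, Bool.or_eq_true, beq_iff_eq] at ckD
      have h' : A2 .F l r ≠ 0 := by
        intro h0; rw [h0] at h; simp at h
      have h3 := ckD.2.resolve_left h'
      have h4 := absLe_real h3.1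
      have h5 := absLe_real h3.2
      push_cast at h4 h5
      have e1 : |((cc1 .L (dnL l) (dnR r) : ℝ) - (cc1 .F l r : ℝ)) / 1000000| ≤ 5 := by
        rw [abs_div, abs_of_pos (show (0 : ℝ) < 1000000 by norm_num),
          div_le_iff₀ (by norm_num)]
        linarith
      have e2 : |((cc2 .L (dnL l) (dnR r) : ℝ) - (cc2 .F l r : ℝ)) / 1000000 - 1| ≤ 2 := by
        have : ((cc2 .L (dnL l) (dnR r) : ℝ) - (cc2 .F l r : ℝ)) / 1000000 - 1 =
          ((cc2 .L (dnL l) (dnR r) : ℝ) - 1000000 - (cc2 .F l r : ℝ)) / 1000000 := by ring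
        rw [this, abs_div, abs_of_pos (show (0 : ℝ) < 1000000 by norm_num),
          div_le_iff₀ (by norm_num)]
        linarith
      exact ⟨e1, e1, e2, e2⟩)
    (by
      have e1 : (A1 .F l r : ℝ) * (((cc1 .R l r : ℝ) - (cc1 .F l r : ℝ)) / 1000000) +
          (A2 .F l r : ℝ) * ((1 - 0) * (((cc1 .L (dnL l) (dnR r) : ℝ) - (cc1 .F l r : ℝ)) /
            1000000) + 0 * (((cc1 .L (dnL l) (dnR r) : ℝ) - (cc1 .F l r : ℝ)) / 1000000)) =
          ((A1 .F l r : ℝ) * (B1 1 cc1 .F l r : ℝ) + (A2 .F l r : ℝ) * (B2 1 cc1 .F l r : ℝ) -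
            3 * ((A1 .F l r : ℝ) + (A2 .F l r : ℝ)) * (cc1 .F l r : ℝ)) / 3000000 := by
        unfold B1 B2
        simp only [if_neg (show ¬ (1 : ℕ) = 2 by norm_num)]
        push_cast
        ring
      rw [e1, abs_div, abs_of_pos (show (0 : ℝ) < 3000000 by norm_num),
        div_le_iff₀ (by norm_num)]
      push_cast at c1
      linarith)
    (by
      have e1 : (A1 .F l r : ℝ) * (((cc2 .R l r : ℝ) - (cc2 .F l r : ℝ)) / 1000000) +
          (A2 .F l r : ℝ) * ((1 - 0) * (((cc2 .L (dnL l) (dnR r) : ℝ) - (cc2 .F l r : ℝ)) /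
            1000000 - 1) + 0 * (((cc2 .L (dnL l) (dnR r) : ℝ) - (cc2 .F l r : ℝ)) / 1000000 - 1)) =
          ((A1 .F l r : ℝ) * (B1 2 cc2 .F l r : ℝ) + (A2 .F l r : ℝ) * (B2 2 cc2 .F l r : ℝ) -
            3 * ((A1 .F l r : ℝ) + (A2 .F l r : ℝ)) * (cc2 .F l r : ℝ)) / 3000000 := by
        unfold B1 B2
        simp only [if_true]
        push_cast
        ring
      rw [e1, abs_div, abs_of_pos (show (0 : ℝ) < 3000000 by norm_num),
        div_le_iff₀ (by norm_num)]
      push_cast at c2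
      linarith)
  obtain ⟨q1n, q2n, qs, g1, g2, hm⟩ := hB
  refine ⟨_, _, q1n, q2n, qs, ?_, ?_, ?_⟩
  · intro h
    refine ⟨hl, hr, ?_⟩
    have h' := g1 h
    rw [eA1] at h'
    have h3 : (0 : ℝ) < (cv .R l r : ℝ) := by linarith
    exact_mod_cast h3
  · intro h
    obtain ⟨h1, h2, -⟩ := hA2pos (g2 h)
    obtain ⟨h3, h4⟩ := relC_down hBel.1 h1
    have h5 := relC_minUp hBel.2
    refine ⟨h3, ?_, ?_, ?_⟩
    · rw [h4]; unfold dnL; omega
    · rw [h5]; unfold dnR; split
      · omega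
      · split <;> omega
    · rw [h4, h5]; exact h2
  · -- the inequality
    have hnext : 0 < (A2 .F l r : ℝ) / ((A1 .F l r : ℝ) + (A2 .F l r : ℝ)) →
        relC lf (y - 1) = dnL l := by
      intro h
      exact (relC_down hBel.1 (hA2pos (g2 h)).1).2
    set Q1 := (A1 .F l r : ℝ) / ((A1 .F l r : ℝ) + (A2 .F l r : ℝ)) with hQ1
    set Q2 := (A2 .F l r : ℝ) / ((A1 .F l r : ℝ) + (A2 .F l r : ℝ)) with hQ2
    have hdw : (0 : ℝ) < dw := by unfold dw; norm_num
    have E1 : Q1 * (Real.log (1 / Q1) + phi .R y lf rm i j) =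
        Q1 * (-Real.log Q1 + Real.log (cv .R l r : ℝ) -
          S1 * Ph ((i : ℝ) - j + (cc1 .F l r : ℝ) / 1000000 +
            ((cc1 .R l r : ℝ) - (cc1 .F l r : ℝ)) / 1000000) -
          S2 * Ph ((y : ℝ) + (cc2 .F l r : ℝ) / 1000000 +
            ((cc2 .R l r : ℝ) - (cc2 .F l r : ℝ)) / 1000000)) + Q1 * (aL * i + aR * j) := by
      unfold phi
      rw [← hldef, ← hrdef, one_div, Real.log_inv]
      rw [show (i : ℝ) - j + (cc1 .F l r : ℝ) / 1000000 +
            ((cc1 .R l r : ℝ) - (cc1 .F l r : ℝ)) / 1000000 =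
            (i : ℝ) - j + (cc1 .R l r : ℝ) / 1000000 by ring,
          show (y : ℝ) + (cc2 .F l r : ℝ) / 1000000 +
            ((cc2 .R l r : ℝ) - (cc2 .F l r : ℝ)) / 1000000 =
            (y : ℝ) + (cc2 .R l r : ℝ) / 1000000 by ring]
      ring
    have E2 : Q2 * (Real.log (dw / Q2) + phi .L (y - 1) lf (minUp rm (y - 1)) i j) =
        Q2 * (-Real.log Q2 + (Real.log dw + Real.log (cv .L (dnL l) (dnR r) : ℝ)) -
          ((1 - 0) * (S1 * Ph ((i : ℝ) - j + (cc1 .F l r : ℝ) / 1000000 +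
            ((cc1 .L (dnL l) (dnR r) : ℝ) - (cc1 .F l r : ℝ)) / 1000000) +
          S2 * Ph ((y : ℝ) + (cc2 .F l r : ℝ) / 1000000 +
            (((cc2 .L (dnL l) (dnR r) : ℝ) - (cc2 .F l r : ℝ)) / 1000000 - 1))) +
          0 * (S1 * Ph ((i : ℝ) - j + (cc1 .F l r : ℝ) / 1000000 +
            ((cc1 .L (dnL l) (dnR r) : ℝ) - (cc1 .F l r : ℝ)) / 1000000) +
          S2 * Ph ((y : ℝ) + (cc2 .F l r : ℝ) / 1000000 +
            (((cc2 .L (dnL l) (dnR r) : ℝ) - (cc2 .F l r : ℝ)) / 1000000 - 1))))) +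
          Q2 * (aL * i + aR * j) := by
      rcases q2n.eq_or_lt with h0 | h0
      · rw [← h0]; ring
      · rw [Real.log_div hdw.ne' h0.ne']
        unfold phi
        rw [hnext h0, relC_minUp hBel.2, ← hrdef]
        rw [show (i : ℝ) - j + (cc1 .F l r : ℝ) / 1000000 +
            ((cc1 .L (dnL l) (dnR r) : ℝ) - (cc1 .F l r : ℝ)) / 1000000 =
            (i : ℝ) - j + (cc1 .L (dnL l) (dnR r) : ℝ) / 1000000 by ring,
          show (y : ℝ) + (cc2 .F l r : ℝ) / 1000000 +
            (((cc2 .L (dnL l) (dnR r) : ℝ) - (cc2 .F l r : ℝ)) / 1000000 - 1) =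
            ((y - 1 : ℤ) : ℝ) + (cc2 .L (dnL l) (dnR r) : ℝ) / 1000000 by push_cast; ring]
        ring
    rw [E1, E2]
    have E3 : phi .F y lf rm i j = Real.log (cv .F l r : ℝ) -
        S1 * Ph ((i : ℝ) - j + (cc1 .F l r : ℝ) / 1000000) -
        S2 * Ph ((y : ℝ) + (cc2 .F l r : ℝ) / 1000000) + (aL * i + aR * j) := by
      unfold phi
      rw [← hldef, ← hrdef]
      ring
    rw [E3]
    have E4 : Q1 * (aL * i + aR * j) + Q2 * (aL * i + aR * j) = aL * i + aR * j := by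
      rw [← add_mul, qs, one_mul]
    linarith

end SL1324
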