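import Pool.Agent.Lib.MP_b8e197_co.SL.StpAux

/-!
# Project SL: STPL, the one-step inequality in the left phase
-/

set_option linter.all false

namespace SL1324

open StpAux

namespace STPL

/-- the letter move: signs and the logarithmic bound -/
theorem letter {lf : Option ℤ} {y : ℤ} {r : ℕ} (hT : chkT .L (relC lf y) r = true)
    (h : 0 < ct .L (relC lf y) r) :
    0 < cv .L 0 r ∧ 0 < cv .L 1 r ∧
    Real.log ((ct .L (relC lf y) r : ℝ) / 10000) ≤ Real.log muL +
      ((1 - th lf.isSome) * Real.log (cv .L 0 r : ℝ) + th lf.isSome * Real.log (cv .L 1 r : ℝ)) := by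
  unfold chkT at hT
  simp only [Bool.or_eq_true, Bool.and_eq_true, decide_eq_true_eq, beq_iff_eq] at hT
  obtain ⟨⟨h1, h2⟩, h3⟩ := hT.resolve_left (by omega)
  refine ⟨h1, h2, ?_⟩
  have hmu : Real.log muL = Real.log ((4948 : ℕ) / 10000 : ℝ) := by unfold muL; norm_num
  rw [hmu]
  cases lf with
  | none =>
    have h4 : relC none y = 0 := rfl
    rw [if_pos h4, decide_eq_true_eq] at h3
    have h5 := cube_log h h1 h2 (by norm_num : 0 < 4948) h3
    simp only [Option.isSome_none, th]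
    linarith
  | some f =>
    have h4 : relC (some f) y ≠ 0 := by rw [relC_some]; omega
    rw [if_neg h4, decide_eq_true_eq] at h3
    have h5 := cube_log h h2 h1 (by norm_num : 0 < 4948) (by
      calc ct .L (relC (some f) y) r ^ 3 ≤ 4948 ^ 3 * cv .L 0 r * cv .L 1 r ^ 2 := h3
        _ = 4948 ^ 3 * cv .L 1 r ^ 2 * cv .L 0 r := by ring)
    simp only [Option.isSome_some, th]
    linarith

end STPL

theorem stpl (h_CERT : CertStatement) (h_PHI : PhiStatement) : StplStatement := by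
  intro y lf rm i j hAl hBel
  obtain ⟨hl, hr, hv⟩ := hAl
  obtain ⟨ck1, ckT, ckC1, ckC2, ckD⟩ := chk_unpack h_CERT hl hr hv
  have hlet := fun h => STPL.letter (lf := lf) (y := y) ckT h
  have hth : (if relC lf y = 0 then ((2 : ℝ) / 3) else 1 / 3) = 1 - th lf.isSome := by
    cases lf with
    | none => rw [relC_none, if_pos rfl]; simp only [Option.isSome_none, th]; norm_num
    | some f =>
      rw [if_neg (by rw [relC_some]; omega)]; simp only [Option.isSome_some, th]; norm_num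
  set θ := th lf.isSome with hθdef
  have hθ := th_mem lf.isSome
  rw [← hθdef] at hθ
  set l := relC lf y with hldef
  set r := relC rm y with hrdef
  have c1 := chkC_real ckC1
  have c2 := chkC_real ckC2
  have hV : (0 : ℝ) < (cv .L l r : ℝ) := by exact_mod_cast hv
  have hA : (cv .L l r : ℝ) * 10000 * 1000300 ≤
      1000000 * ((A1 .L l r : ℝ) + (A2 .L l r : ℝ)) := by exact_mod_cast ck1
  have eA1 : (A1 .L l r : ℝ) = 10000 * (cv .F l r : ℝ) := by
    unfold A1; push_cast; rfl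
  have eA2 : (A2 .L l r : ℝ) = (ct .L l r : ℝ) := rfl
  have hB := master h_PHI hV (a1 := (A1 .L l r : ℝ)) (a2 := (A2 .L l r : ℝ))
    (by positivity) (by positivity) hA (Real.log (cv .F l r : ℝ))
    (Real.log muL + ((1 - θ) * Real.log (cv .L 0 r : ℝ) + θ * Real.log (cv .L 1 r : ℝ)))
    (by
      intro h
      rw [eA1]
      apply le_of_eq
      congr 1
      ring)
    (by
      intro h
      rw [eA2] at h ⊢
      exact (hlet (by exact_mod_cast h)).2.2)
    θ hθ.1.le hθ.2.le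
    (((i + 1 : ℕ) : ℝ) - j + (cc1 .L l r : ℝ) / 1000000) ((y : ℝ) + (cc2 .L l r : ℝ) / 1000000)
    (((cc1 .F l r : ℝ) - (cc1 .L l r : ℝ)) / 1000000)
    (((cc1 .L 0 r : ℝ) - (cc1 .L l r : ℝ)) / 1000000 - 1)
    (((cc1 .L 1 r : ℝ) - (cc1 .L l r : ℝ)) / 1000000 - 1)
    (((cc2 .F l r : ℝ) - (cc2 .L l r : ℝ)) / 1000000)
    (((cc2 .L 0 r : ℝ) - (cc2 .L l r : ℝ)) / 1000000)
    (((cc2 .L 1 r : ℝ) - (cc2 .L l r : ℝ)) / 1000000)
    (by
      intro h
      unfold chkD at ckD
      simp only [Bool.and_eq_true, Bool.or_eq_true, beq_iff_eq] at ckD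
      have h' : A1 .L l r ≠ 0 := by
        intro h0; rw [h0] at h; simp at h
      have h3 := ckD.1.resolve_left h'
      have h4 := absLe_real h3.1
      have h5 := absLe_real h3.2
      push_cast at h4 h5
      rw [abs_div, abs_div, abs_of_pos (show (0 : ℝ) < 1000000 by norm_num),
        div_le_iff₀ (by norm_num), div_le_iff₀ (by norm_num)]
      constructor
      · linarith
      · linarith)
    (by
      intro h
      unfold chkD at ckD
      simp only [Bool.and_eq_true, Bool.or_eq_true, beq_iff_eq] at ckD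
      have h' : A2 .L l r ≠ 0 := by
        intro h0; rw [h0] at h; simp at h
      obtain ⟨⟨⟨h3, h4⟩, h5⟩, h6⟩ := ckD.2.resolve_left h'
      have h3 := absLe_real h3
      have h4 := absLe_real h4
      have h5 := absLe_real h5
      have h6 := absLe_real h6
      push_cast at h3 h4 h5 h6
      have e1 : |((cc1 .L 0 r : ℝ) - (cc1 .L l r : ℝ)) / 1000000 - 1| ≤ 5 := by
        have : ((cc1 .L 0 r : ℝ) - (cc1 .L l r : ℝ)) / 1000000 - 1 =
          ((cc1 .L 0 r : ℝ) - 1000000 - (cc1 .L l r : ℝ)) / 1000000 := by ring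
        rw [this, abs_div, abs_of_pos (show (0 : ℝ) < 1000000 by norm_num),
          div_le_iff₀ (by norm_num)]
        linarith
      have e2 : |((cc1 .L 1 r : ℝ) - (cc1 .L l r : ℝ)) / 1000000 - 1| ≤ 5 := by
        have : ((cc1 .L 1 r : ℝ) - (cc1 .L l r : ℝ)) / 1000000 - 1 =
          ((cc1 .L 1 r : ℝ) - 1000000 - (cc1 .L l r : ℝ)) / 1000000 := by ring
        rw [this, abs_div, abs_of_pos (show (0 : ℝ) < 1000000 by norm_num),
          div_le_iff₀ (by norm_num)]
        linarith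
      have e3 : |((cc2 .L 0 r : ℝ) - (cc2 .L l r : ℝ)) / 1000000| ≤ 2 := by
        rw [abs_div, abs_of_pos (show (0 : ℝ) < 1000000 by norm_num),
          div_le_iff₀ (by norm_num)]
        linarith
      have e4 : |((cc2 .L 1 r : ℝ) - (cc2 .L l r : ℝ)) / 1000000| ≤ 2 := by
        rw [abs_div, abs_of_pos (show (0 : ℝ) < 1000000 by norm_num),
          div_le_iff₀ (by norm_num)]
        linarith
      exact ⟨e1, e2, e3, e4⟩)
    (by
      have e1 : (A1 .L l r : ℝ) * (((cc1 .F l r : ℝ) - (cc1 .L l r : ℝ)) / 1000000) +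
          (A2 .L l r : ℝ) * ((1 - θ) * (((cc1 .L 0 r : ℝ) - (cc1 .L l r : ℝ)) / 1000000 - 1) +
            θ * (((cc1 .L 1 r : ℝ) - (cc1 .L l r : ℝ)) / 1000000 - 1)) =
          ((A1 .L l r : ℝ) * (B1 1 cc1 .L l r : ℝ) + (A2 .L l r : ℝ) * (B2 1 cc1 .L l r : ℝ) -
            3 * ((A1 .L l r : ℝ) + (A2 .L l r : ℝ)) * (cc1 .L l r : ℝ)) / 3000000 := by
        unfold B1 B2
        simp only [if_true]
        by_cases h0 : l = 0
        · rw [if_pos h0] at hth ⊢
          rw [show θ = 1 / 3 by linarith]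
          push_cast
          ring
        · rw [if_neg h0] at hth ⊢
          rw [show θ = 2 / 3 by linarith]
          push_cast
          ring
      rw [e1, abs_div, abs_of_pos (show (0 : ℝ) < 3000000 by norm_num),
        div_le_iff₀ (by norm_num)]
      push_cast at c1
      linarith)
    (by
      have e1 : (A1 .L l r : ℝ) * (((cc2 .F l r : ℝ) - (cc2 .L l r : ℝ)) / 1000000) +
          (A2 .L l r : ℝ) * ((1 - θ) * (((cc2 .L 0 r : ℝ) - (cc2 .L l r : ℝ)) / 1000000) +
            θ * (((cc2 .L 1 r : ℝ) - (cc2 .L l r : ℝ)) / 1000000)) =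
          ((A1 .L l r : ℝ) * (B1 2 cc2 .L l r : ℝ) + (A2 .L l r : ℝ) * (B2 2 cc2 .L l r : ℝ) -
            3 * ((A1 .L l r : ℝ) + (A2 .L l r : ℝ)) * (cc2 .L l r : ℝ)) / 3000000 := by
        unfold B1 B2
        simp only [if_neg (show ¬ (2 : ℕ) = 1 by norm_num)]
        by_cases h0 : l = 0
        · rw [if_pos h0] at hth ⊢
          rw [show θ = 1 / 3 by linarith]
          push_cast
          ring
        · rw [if_neg h0] at hth ⊢
          rw [show θ = 2 / 3 by linarith]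
          push_cast
          ring
      rw [e1, abs_div, abs_of_pos (show (0 : ℝ) < 3000000 by norm_num),
        div_le_iff₀ (by norm_num)]
      push_cast at c2
      linarith)
  obtain ⟨q1n, q2n, qs, g1, g2, hm⟩ := hB
  refine ⟨_, _, q1n, q2n, qs, ?_, ?_, ?_⟩
  · intro h
    refine ⟨hl, hr, ?_⟩
    have h' := g1 h
    rw [eA1] at h'
    have h3 : (0 : ℝ) < (cv .F l r : ℝ) := by linarith
    exact_mod_cast h3
  · intro h
    have h' := g2 h
    rw [eA2] at h'
    obtain ⟨h1, h2, -⟩ := hlet (by exact_mod_cast h')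
    refine ⟨⟨by rw [relC_none]; omega, hr, h1⟩, ⟨by rw [relC_self]; omega, hr, ?_⟩⟩
    rw [relC_self]; exact h2
  · -- the inequality
    set Q1 := (A1 .L l r : ℝ) / ((A1 .L l r : ℝ) + (A2 .L l r : ℝ)) with hQ1
    set Q2 := (A2 .L l r : ℝ) / ((A1 .L l r : ℝ) + (A2 .L l r : ℝ)) with hQ2
    have E1 : Q1 * (Real.log (1 / Q1) + phi .F y lf rm (i + 1) j) =
        Q1 * (-Real.log Q1 + Real.log (cv .F l r : ℝ) -
          S1 * Ph (((i + 1 : ℕ) : ℝ) - j + (cc1 .L l r : ℝ) / 1000000 +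
            ((cc1 .F l r : ℝ) - (cc1 .L l r : ℝ)) / 1000000) -
          S2 * Ph ((y : ℝ) + (cc2 .L l r : ℝ) / 1000000 +
            ((cc2 .F l r : ℝ) - (cc2 .L l r : ℝ)) / 1000000)) +
          Q1 * (aL * ((i + 1 : ℕ) : ℝ) + aR * j) := by
      unfold phi
      rw [← hldef, ← hrdef, one_div, Real.log_inv]
      rw [show ((i + 1 : ℕ) : ℝ) - j + (cc1 .L l r : ℝ) / 1000000 +
            ((cc1 .F l r : ℝ) - (cc1 .L l r : ℝ)) / 1000000 =
            ((i + 1 : ℕ) : ℝ) - j + (cc1 .F l r : ℝ) / 1000000 by ring,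
          show (y : ℝ) + (cc2 .L l r : ℝ) / 1000000 +
            ((cc2 .F l r : ℝ) - (cc2 .L l r : ℝ)) / 1000000 =
            (y : ℝ) + (cc2 .F l r : ℝ) / 1000000 by ring]
      ring
    have E2 : Q2 * (Real.log (1 / Q2) + ((1 - θ) * phi .L y none rm i j +
          θ * phi .L y (some y) rm i j)) =
        Q2 * (-Real.log Q2 + (Real.log muL + ((1 - θ) * Real.log (cv .L 0 r : ℝ) +
            θ * Real.log (cv .L 1 r : ℝ))) -
          ((1 - θ) * (S1 * Ph (((i + 1 : ℕ) : ℝ) - j + (cc1 .L l r : ℝ) / 1000000 +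
            (((cc1 .L 0 r : ℝ) - (cc1 .L l r : ℝ)) / 1000000 - 1)) +
          S2 * Ph ((y : ℝ) + (cc2 .L l r : ℝ) / 1000000 +
            ((cc2 .L 0 r : ℝ) - (cc2 .L l r : ℝ)) / 1000000)) +
          θ * (S1 * Ph (((i + 1 : ℕ) : ℝ) - j + (cc1 .L l r : ℝ) / 1000000 +
            (((cc1 .L 1 r : ℝ) - (cc1 .L l r : ℝ)) / 1000000 - 1)) +
          S2 * Ph ((y : ℝ) + (cc2 .L l r : ℝ) / 1000000 +
            ((cc2 .L 1 r : ℝ) - (cc2 .L l r : ℝ)) / 1000000)))) +
          Q2 * (aL * ((i + 1 : ℕ) : ℝ) + aR * j) := by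
      unfold phi
      rw [← hrdef, one_div, Real.log_inv, relC_none, relC_self]
      rw [show ((i + 1 : ℕ) : ℝ) - j + (cc1 .L l r : ℝ) / 1000000 +
            (((cc1 .L 0 r : ℝ) - (cc1 .L l r : ℝ)) / 1000000 - 1) =
            (i : ℝ) - j + (cc1 .L 0 r : ℝ) / 1000000 by push_cast; ring,
          show ((i + 1 : ℕ) : ℝ) - j + (cc1 .L l r : ℝ) / 1000000 +
            (((cc1 .L 1 r : ℝ) - (cc1 .L l r : ℝ)) / 1000000 - 1) =
            (i : ℝ) - j + (cc1 .L 1 r : ℝ) / 1000000 by push_cast; ring,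
          show (y : ℝ) + (cc2 .L l r : ℝ) / 1000000 +
            ((cc2 .L 0 r : ℝ) - (cc2 .L l r : ℝ)) / 1000000 =
            (y : ℝ) + (cc2 .L 0 r : ℝ) / 1000000 by ring,
          show (y : ℝ) + (cc2 .L l r : ℝ) / 1000000 +
            ((cc2 .L 1 r : ℝ) - (cc2 .L l r : ℝ)) / 1000000 =
            (y : ℝ) + (cc2 .L 1 r : ℝ) / 1000000 by ring]
      rw [show Real.log muL = -aL by unfold aL; ring]
      push_cast
      ring
    rw [E1, E2]
    have E3 : phi .L y lf rm (i + 1) j = Real.log (cv .L l r : ℝ) -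
        S1 * Ph (((i + 1 : ℕ) : ℝ) - j + (cc1 .L l r : ℝ) / 1000000) -
        S2 * Ph ((y : ℝ) + (cc2 .L l r : ℝ) / 1000000) +
          (aL * ((i + 1 : ℕ) : ℝ) + aR * j) := by
      unfold phi
      rw [← hldef, ← hrdef]
      ring
    rw [E3]
    have E4 : Q1 * (aL * ((i + 1 : ℕ) : ℝ) + aR * j) + Q2 * (aL * ((i + 1 : ℕ) : ℝ) + aR * j) =
        aL * ((i + 1 : ℕ) : ℝ) + aR * j := by
      rw [← add_mul, qs, one_mul]
    linarith

end SL1324
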