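import Pool.Agent.Lib.MP_b8e197_co.SL.Iface

/-!
# Project SL, module SUPER (2.2)
-/

set_option linter.all false

namespace SL1324

open H98Av (Av1324 Av132)

namespace SUPER

theorem fin_av (n : ℕ) : Finite {v : List ℕ // v.Perm (List.range n) ∧ Av1324 v} := by
  have h : {v : List ℕ | v.Perm (List.range n) ∧ Av1324 v}.Finite := by
    apply Set.Finite.subset (List.finite_toSet (List.range n).permutations)
    intro v hv
    exact List.mem_permutations.mpr hv.1
  exact h.to_subtype

theorem perm_add (a b : ℕ) (v w : List ℕ) (hv : v.Perm (List.range a))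
    (hw : w.Perm (List.range b)) : (v.map (· + b) ++ w).Perm (List.range (a + b)) := by
  rw [Nat.add_comm a b, List.range_add]
  have h1 : (v.map (· + b)).Perm ((List.range a).map (b + ·)) := by
    have : (fun x : ℕ => x + b) = (fun x : ℕ => b + x) := by
      funext x; omega
    rw [this]
    exact hv.map _
  exact (h1.append hw).trans List.perm_append_comm

theorem av_add (a b : ℕ) (v w : List ℕ) (hw : w.Perm (List.range b))
    (ha : Av1324 v) (hb : Av1324 w) : Av1324 (v.map (· + b) ++ w) := by
  intro p q r s hs h
  obtain ⟨l1, l2, h1, h2, h3⟩ := List.sublist_append_iff.mp hs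
  have hge : ∀ x ∈ l1, b ≤ x := by
    intro x hx
    have := h2.subset hx
    obtain ⟨y, _, rfl⟩ := List.mem_map.mp this
    simp
  have hlt : ∀ x ∈ l2, x < b := by
    intro x hx
    exact List.mem_range.mp (hw.mem_iff.mp (h3.subset hx))
  rcases List.eq_nil_or_concat l2 with h4 | ⟨l2', x, h4⟩
  · subst h4
    rw [List.append_nil] at h1
    subst h1
    obtain ⟨l', h5, h6⟩ := List.sublist_map_iff.mp h2
    match l', h6 with
    | [p', q', r', s'], h6 =>
      simp only [List.map_cons, List.map_nil, List.cons.injEq, and_true] at h6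
      obtain ⟨rfl, rfl, rfl, rfl⟩ := h6
      exact ha p' q' r' s' h5 ⟨by omega, by omega, by omega⟩
  · have hx : x = s := by
      rw [h4, List.concat_eq_append, ← List.append_assoc] at h1
      have := congrArg List.getLast? h1
      simpa using this.symm
    have hsb : s < b := by
      apply hlt
      rw [h4, ← hx, List.concat_eq_append]
      simp
    rcases l1 with _ | ⟨y, l1'⟩
    · rw [List.nil_append] at h1
      subst h1
      exact hb p q r s h3 h
    · have hy : p = y := by
        rw [List.cons_append] at h1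
        exact (List.cons.inj h1).1
      have := hge y (by simp)
      omega

end SUPER

theorem super : SuperStatement := by
  intro a b
  unfold cntAv
  rw [← Nat.card_prod]
  haveI := SUPER.fin_av (a + b)
  let F : {v : List ℕ // v.Perm (List.range a) ∧ Av1324 v} ×
      {v : List ℕ // v.Perm (List.range b) ∧ Av1324 v} →
      {v : List ℕ // v.Perm (List.range (a + b)) ∧ Av1324 v} := fun p =>
    ⟨p.1.1.map (· + b) ++ p.2.1, SUPER.perm_add a b _ _ p.1.2.1 p.2.2.1,
      SUPER.av_add a b _ _ p.2.2.1 p.1.2.2 p.2.2.2⟩
  apply Nat.card_le_card_of_injective F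
  rintro ⟨⟨v, hv, ha⟩, ⟨w, hw, hb⟩⟩ ⟨⟨v', hv', ha'⟩, ⟨w', hw', hb'⟩⟩ h
  have h1 : v.map (· + b) ++ w = v'.map (· + b) ++ w' := congrArg Subtype.val h
  have hl : v.length = v'.length := by
    rw [hv.length_eq, hv'.length_eq]
  obtain ⟨h2, h3⟩ := List.append_inj h1 (by simpa using hl)
  have h4 : v = v' := (List.map_injective_iff.mpr (fun x y hxy => by simpa using hxy)) h2
  subst h3 h4
  rfl

end SL1324
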