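import Pool.Agent.Lib.MP_b8e197_co.SL.Iface

set_option linter.all false

namespace SL1324

open H98Av (Av1324 Av132)

noncomputable section

namespace TOT

theorem zt_nonneg : 0 ≤ zt := by
  unfold zt uw dw; norm_num

theorem beta_nonneg (h_WTC : WtcStatement) {n N0 : ℕ}
    (hW : ∀ z ∈ bitsF N0, ∀ z' ∈ bitsF N0, 0 < Wt n (init z z')) :
    ∀ k : ℕ, ∀ z ∈ bitsF N0, 0 ≤ beta n N0 k z := by
  intro k
  induction k with
  | zero => intro z _; simp [beta]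
  | succ k ih =>
    intro z' hz'
    rw [beta]
    exact Finset.sum_nonneg fun z hz => mul_nonneg (mul_nonneg (h_WTC N0 z hz).1.le (ih z hz))
      (hW z hz z' hz').le

open Classical in
/-- the cells with bits `flat z` -/
def SZ (N0 R : ℕ) (z : Fin R → List Bool) : Finset (List ℕ) :=
  (SS N0 R).filter (fun X => Sh (flat z) X)

def ZZ (N0 R : ℕ) : Finset (Fin R → List Bool) := Fintype.piFinset fun _ => bitsF N0

theorem mem_ZZ {N0 R : ℕ} {z : Fin R → List Bool} : z ∈ ZZ N0 R ↔ ∀ i, z i ∈ bitsF N0 := by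
  simp [ZZ, Fintype.mem_piFinset]

theorem mem_SS {N0 R : ℕ} {X : List ℕ} : X ∈ SS N0 R ↔ X.Perm (List.range (R * N0)) ∧
    ∃ z : Fin R → List Bool, (∀ i, z i ∈ bitsF N0) ∧ Sh (flat z) X := by
  unfold SS
  simp only [Finset.mem_filter, List.mem_toFinset, List.mem_permutations]

variable {N0 R : ℕ}

theorem mem_SZ (h_FLAT : FlatStatement) (hN : 1 ≤ N0) (hR : 1 ≤ R) {z : Fin R → List Bool}
    (hz : z ∈ ZZ N0 R) {X : List ℕ} : X ∈ SZ N0 R z ↔ Sh (flat z) X := by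
  unfold SZ
  simp only [Finset.mem_filter]
  refine ⟨fun h => h.2, fun h => ⟨?_, h⟩⟩
  rw [mem_SS]
  refine ⟨?_, z, mem_ZZ.1 hz, h⟩
  have h1 := ((h_FLAT N0 R hN hR).1 z (mem_ZZ.1 hz)).1
  have h2 := h.1
  rwa [mem_bits_length h1] at h2

theorem sum_SS (h_FLAT : FlatStatement) (h_SHU : ShuStatement) (hN : 1 ≤ N0) (hR : 1 ≤ R)
    (f : List ℕ → ℝ) : ∑ X ∈ SS N0 R, f X = ∑ z ∈ ZZ N0 R, ∑ X ∈ SZ N0 R z, f X := by
  classical
  have h1 : ∀ X : List ℕ, ∃ z : Fin R → List Bool, X ∈ SS N0 R → z ∈ ZZ N0 R ∧ Sh (flat z) X := by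
    intro X
    by_cases hX : X ∈ SS N0 R
    · obtain ⟨-, z, hz, hs⟩ := mem_SS.1 hX
      exact ⟨z, fun _ => ⟨mem_ZZ.2 hz, hs⟩⟩
    · exact ⟨fun _ => [], fun h => absurd h hX⟩
  choose g hg using h1
  rw [← Finset.sum_fiberwise_of_maps_to (g := g) (t := ZZ N0 R) (fun X hX => (hg X hX).1)]
  refine Finset.sum_congr rfl fun z hz => ?_
  refine Finset.sum_congr ?_ fun _ _ => rfl
  unfold SZ
  refine Finset.filter_congr fun X hX => ?_
  obtain ⟨h2, h3⟩ := hg X hX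
  constructor
  · rintro rfl; exact h3
  · intro h4
    exact (h_FLAT N0 R hN hR).2 _ _ (mem_ZZ.1 h2) (mem_ZZ.1 hz) (h_SHU.1 _ _ X h3 h4)

theorem card_SZ (h_FLAT : FlatStatement) (h_SHC : ShcStatement) (h_WTC : WtcStatement)
    (hN : 1 ≤ N0) (hR : 1 ≤ R) {z : Fin R → List Bool} (hz : z ∈ ZZ N0 R) :
    ∏ i, wt 0 (z i) ≤ ((SZ N0 R z).card : ℝ) := by
  obtain ⟨h1, h2⟩ := (h_FLAT N0 R hN hR).1 z (mem_ZZ.1 hz)
  rw [← h2]
  refine (h_WTC _ _ h1).2.trans ?_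
  have h3 := h_SHC _ _ h1
  rw [Nat.subtype_card (SZ N0 R z) (fun X => mem_SZ h_FLAT hN hR hz)] at h3
  exact_mod_cast h3

theorem sum_ge (h_FLAT : FlatStatement) (h_SHC : ShcStatement) (h_WTC : WtcStatement)
    (h_SHU : ShuStatement) (hN : 1 ≤ N0) (hR : 1 ≤ R) (f : List ℕ → ℝ) (K : ℝ)
    (a : Fin R → List Bool → ℝ)
    (hK : 0 ≤ K) (ha : ∀ i, ∀ z ∈ bitsF N0, 0 ≤ a i z)
    (hf : ∀ z ∈ ZZ N0 R, ∀ X, Sh (flat z) X → K * ∏ i, a i (z i) ≤ f X) :
    K * ∏ i, ∑ z ∈ bitsF N0, wt 0 z * a i z ≤ ∑ X ∈ SS N0 R, f X := by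
  rw [sum_SS h_FLAT h_SHU hN hR, Finset.prod_univ_sum, Finset.mul_sum]
  refine Finset.sum_le_sum fun z hz => ?_
  have hz' : z ∈ ZZ N0 R := hz
  have h1 : ((SZ N0 R z).card : ℝ) * (K * ∏ i, a i (z i)) ≤ ∑ X ∈ SZ N0 R z, f X := by
    rw [← nsmul_eq_mul]
    refine Finset.card_nsmul_le_sum _ _ _ fun X hX => ?_
    exact hf z hz' X ((mem_SZ h_FLAT hN hR hz').1 hX)
  refine le_trans ?_ h1
  rw [Finset.prod_mul_distrib]
  have h2 : 0 ≤ K * ∏ i, a i (z i) :=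
    mul_nonneg hK (Finset.prod_nonneg fun i _ => ha i _ (mem_ZZ.1 hz' i))
  have h3 := mul_le_mul_of_nonneg_right (card_SZ h_FLAT h_SHC h_WTC hN hR hz') h2
  calc K * ((∏ i, wt 0 (z i)) * ∏ i, a i (z i)) =
        (∏ i, wt 0 (z i)) * (K * ∏ i, a i (z i)) := by ring
    _ ≤ _ := h3

theorem chain_ge (h_COL : ColStatement) (h_SHC : ShcStatement) (h_WTC : WtcStatement)
    (h_SHU : ShuStatement) (h_FLAT : FlatStatement) {n H0 : ℕ} (hN : 1 ≤ N0) (hR : 1 ≤ R)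
    (hB : BlkIneq n N0 H0 R)
    (hW : ∀ z ∈ bitsF N0, ∀ z' ∈ bitsF N0, 0 < Wt n (init z z')) :
    ∀ k : ℕ, ∀ z' ∈ ZZ N0 R, ∀ X', Sh (flat z') X' →
      zt ^ (k * H0) * ∏ i, beta n N0 k (z' i) ≤
        chainR zt (R * N0) (H0 * (R + 1)) (SS N0 R) k X' := by
  intro k
  induction k with
  | zero => intro z' _ X' _; simp [beta, chainR]
  | succ k ih =>
    intro z' hz' X' hX'
    rw [chainR]
    have h1 := sum_ge h_FLAT h_SHC h_WTC h_SHU hN hR
      (fun X => chainR zt (R * N0) (H0 * (R + 1)) (SS N0 R) k X *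
        ∑ m ∈ Finset.range (H0 * (R + 1) + 1), zt ^ m * (nCol (R * N0) m X X' : ℝ))
      (zt ^ ((k + 1) * H0)) (fun i z => beta n N0 k z * Wt n (init z (z' i)))
      (pow_nonneg zt_nonneg _)
      (fun i z hz => mul_nonneg (beta_nonneg h_WTC hW k z hz)
        (hW z hz _ (mem_ZZ.1 hz' i)).le) (by
        intro z hz X hX
        have h2 := ih z hz X hX
        have h3 := hB z z' (mem_ZZ.1 hz) (mem_ZZ.1 hz')
        have h4 : ∑ m ∈ Finset.range (H0 * (R + 1) + 1),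
              zt ^ m * (nWord m (flat z) (flat z') : ℝ) ≤
            ∑ m ∈ Finset.range (H0 * (R + 1) + 1), zt ^ m * (nCol (R * N0) m X X' : ℝ) := by
          refine Finset.sum_le_sum fun m _ => ?_
          refine mul_le_mul_of_nonneg_left ?_ (pow_nonneg zt_nonneg _)
          have h5 := h_COL m (R * N0) (flat z) (flat z') X X'
            ((h_FLAT N0 R hN hR).1 z (mem_ZZ.1 hz)).1
            ((h_FLAT N0 R hN hR).1 z' (mem_ZZ.1 hz')).1 hX hX'
          exact_mod_cast h5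
        have h6 : 0 ≤ zt ^ (k * H0) * ∏ i, beta n N0 k (z i) :=
          mul_nonneg (pow_nonneg zt_nonneg _)
            (Finset.prod_nonneg fun i _ => beta_nonneg h_WTC hW k _ (mem_ZZ.1 hz i))
        have h7 : 0 ≤ zt ^ H0 * ∏ i, Wt n (init (z i) (z' i)) :=
          mul_nonneg (pow_nonneg zt_nonneg _)
            (Finset.prod_nonneg fun i _ => (hW _ (mem_ZZ.1 hz i) _ (mem_ZZ.1 hz' i)).le)
        have h8 := mul_le_mul h2 (h3.trans h4) h7 (h6.trans h2)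
        refine le_trans (le_of_eq ?_) h8
        rw [Finset.prod_mul_distrib]
        have h9 : zt ^ ((k + 1) * H0) = zt ^ (k * H0) * zt ^ H0 := by
          rw [← pow_add]; congr 1; ring
        rw [h9]
        ring)
    refine le_trans (le_of_eq ?_) h1
    congr 1
    refine Finset.prod_congr rfl fun i _ => ?_
    rw [beta]
    refine Finset.sum_congr rfl fun z _ => ?_
    ring

end TOT

open TOT

theorem tot (h_COL : ColStatement) (h_SHC : ShcStatement) (h_WTC : WtcStatement)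
    (h_SHU : ShuStatement) (h_FLAT : FlatStatement) : TotStatement := by
  intro n N0 H0 R k hN hR hB hW
  have h1 := sum_ge h_FLAT h_SHC h_WTC h_SHU hN hR
    (fun X => chainR zt (R * N0) (H0 * (R + 1)) (SS N0 R) k X)
    (zt ^ (k * H0)) (fun _ z => beta n N0 k z)
    (pow_nonneg zt_nonneg _) (fun i z hz => beta_nonneg h_WTC hW k z hz)
    (fun z hz X hX => chain_ge h_COL h_SHC h_WTC h_SHU h_FLAT hN hR hB hW k z hz X hX)
  rwa [Finset.prod_const, Finset.card_univ, Fintype.card_fin] at h1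

end

end SL1324
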