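import Pool.Agent.Lib.MP_b8e197_co.SL.Iface

set_option linter.all false

namespace SL1324

theorem UPB.log4 (μ : ℝ) (h : 1 / 4 ≤ μ) : -Real.log μ ≤ Real.log 4 := by
  have h1 : Real.log (1 / 4) ≤ Real.log μ := Real.log_le_log (by norm_num) h
  rw [Real.log_div (by norm_num) (by norm_num), Real.log_one] at h1
  linarith

theorem upb (h_PHI : PhiStatement) : UpbStatement := by
  refine ⟨Real.log (2 ^ 40) - Real.log (9 / 20), ?_⟩
  intro fl y lf rm xs ys hA
  obtain ⟨hl, hr, hc⟩ := hA
  have hcv : Real.log (cv fl (relC lf y) (relC rm y) : ℝ) ≤ Real.log (2 ^ 40) := by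
    apply Real.log_le_log (by exact_mod_cast hc)
    have : cv fl (relC lf y) (relC rm y) < 2 ^ 40 := Nat.mod_lt _ (by norm_num)
    exact_mod_cast this.le
  have hL : aL ≤ Real.log 4 := UPB.log4 _ (by norm_num [muL])
  have hR : aR ≤ Real.log 4 := UPB.log4 _ (by norm_num [muR])
  have hP1 := (h_PHI.1 ((xs.length : ℝ) - ys.length +
    (cc1 fl (relC lf y) (relC rm y) : ℝ) / 1000000)).1
  have hP2 := (h_PHI.1 ((y : ℝ) + (cc2 fl (relC lf y) (relC rm y) : ℝ) / 1000000)).1
  have hg : Real.log (gg ⟨fl, y, lf, rm, xs, ys⟩) =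
      Real.log (gam fl) + (xs.length + ys.length : ℝ) * Real.log 4 := by
    unfold gg
    rw [Real.log_mul (by cases fl <;> norm_num [gam]) (by positivity), Real.log_pow]
    push_cast
    ring
  have hgam : Real.log (9 / 20) ≤ Real.log (gam fl) := by
    apply Real.log_le_log (by norm_num)
    cases fl <;> norm_num [gam]
  have hi : aL * (xs.length : ℝ) ≤ Real.log 4 * xs.length :=
    mul_le_mul_of_nonneg_right hL (Nat.cast_nonneg _)
  have hj : aR * (ys.length : ℝ) ≤ Real.log 4 * ys.length :=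
    mul_le_mul_of_nonneg_right hR (Nat.cast_nonneg _)
  rw [hg]
  unfold phi
  have h1 : 0 < S1 := by norm_num [S1]
  have h2 : 0 < S2 := by norm_num [S2]
  have h3 := mul_pos h1 hP1
  have h4 := mul_pos h2 hP2
  generalize Real.log (cv fl (relC lf y) (relC rm y) : ℝ) = A at *
  generalize S1 * Ph _ = B at *
  generalize S2 * Ph _ = C at *
  generalize Real.log (2 ^ 40) = D at *
  generalize Real.log (9 / 20) = E at *
  generalize Real.log 4 = F at *
  generalize Real.log (gam fl) = G at *
  nlinarith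

end SL1324
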