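import Pool.Agent.Lib.MP_b8e197_co.SL.Iface

/-! Module VREC: the supersolution. -/

set_option linter.all false

namespace SL1324

noncomputable section

namespace VREC

theorem wm_pos (mv : Mv) : 0 < wm mv := by
  cases mv <;> norm_num [wm, uw, dw]

theorem prod_pos (w : List Mv) : 0 < (w.map wm).prod := by
  induction w with
  | nil => simp
  | cons a w ih => rw [List.map_cons, List.prod_cons]; exact mul_pos (wm_pos a) ih

theorem Wt_nonneg : ∀ (n : ℕ) (σ : St), 0 ≤ Wt n σ
  | 0, σ => by
    rw [Wt]
    split_ifs
    · exact (prod_pos _).le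
    · exact le_refl _
  | n + 1, σ => by
    rw [Wt]
    split_ifs
    · exact (prod_pos _).le
    · apply List.sum_nonneg
      intro x hx
      rw [List.mem_map] at hx
      obtain ⟨mv, _, rfl⟩ := hx
      cases h : step σ mv with
      | none => exact le_refl _
      | some σ' => exact mul_nonneg (wm_pos mv).le (Wt_nonneg n σ')

theorem gg_pos (σ : St) : 0 < gg σ := by
  unfold gg
  apply mul_pos
  · cases σ.fl <;> norm_num [gam]
  · positivity

end VREC

open VREC

theorem vrec : VrecStatement := by
  refine ⟨?_, ?_, ?_, ?_⟩
  · intro n σ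
    unfold VV
    have h1 := Wt_nonneg n σ
    have h2 := gg_pos σ
    positivity
  · intro n σ h
    have h2 := gg_pos σ
    have h3 : Wt n σ = ((fb σ).map wm).prod := by
      cases n with
      | zero => rw [Wt, if_pos h]
      | succ n => rw [Wt, if_pos h]
    unfold VV
    rw [h3]
    have : 0 ≤ (19 / 20 : ℝ) ^ n * gg σ := by positivity
    linarith
  · intro σ
    unfold VV
    have h1 := Wt_nonneg 0 σ
    simp only [pow_zero, one_mul]
    linarith
  · intro n σ h
    obtain ⟨fl, y, lf, rm, xs, ys⟩ := σ
    have hpow : (0 : ℝ) ≤ (19 / 20 : ℝ) ^ n := by positivity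
    cases fl with
    | F =>
      unfold VV
      rw [Wt, if_neg h]
      simp only [mvs, List.map_cons, List.map_nil, List.sum_cons, List.sum_nil, add_zero]
      have hr : step ⟨.F, y, lf, rm, xs, ys⟩ .r = some ⟨.R, y, lf, rm, xs, ys⟩ := rfl
      rw [hr]
      simp only []
      by_cases hf : floorOK lf (y - 1) = true
      · have hD : step ⟨.F, y, lf, rm, xs, ys⟩ .D =
            some ⟨.L, y - 1, lf, minUp rm (y - 1), xs, ys⟩ := by
          simp [step, hf]
        rw [hD]
        simp only [wm, gg, gam, dw]
        have h4 : (0 : ℝ) ≤ (19 / 20 : ℝ) ^ n * 4 ^ (xs.length + ys.length) := by positivity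
        rw [pow_succ]
        nlinarith
      · have hD : step ⟨.F, y, lf, rm, xs, ys⟩ .D = none := by
          simp [step, hf]
        rw [hD]
        simp only [wm, gg, gam, dw]
        have h4 : (0 : ℝ) ≤ (19 / 20 : ℝ) ^ n * 4 ^ (xs.length + ys.length) := by positivity
        rw [pow_succ]
        nlinarith
    | L =>
      unfold VV
      rw [Wt, if_neg h]
      simp only [mvs, List.map_cons, List.map_nil, List.sum_cons, List.sum_nil, add_zero]
      have hr : step ⟨.L, y, lf, rm, xs, ys⟩ .l = some ⟨.F, y, lf, rm, xs, ys⟩ := by
        simp [step]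
      rw [hr]
      simp only []
      cases xs with
      | nil => exact absurd (Or.inl (by simp)) h
      | cons b xs =>
        have hD : step ⟨.L, y, lf, rm, b :: xs, ys⟩ .L = some ⟨.L, y, nxt b y, rm, xs, ys⟩ := rfl
        rw [hD]
        simp only [wm, gg, gam, List.length_cons]
        have h4 : (0 : ℝ) ≤ (19 / 20 : ℝ) ^ n * 4 ^ (xs.length + ys.length) := by positivity
        have h5 : (4 : ℝ) ^ (xs.length + 1 + ys.length) = 4 * 4 ^ (xs.length + ys.length) := by
          rw [show xs.length + 1 + ys.length = (xs.length + ys.length) + 1 by ring, pow_succ]; ring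
        rw [pow_succ, h5]
        nlinarith
    | R =>
      unfold VV
      rw [Wt, if_neg h]
      simp only [mvs, List.map_cons, List.map_nil, List.sum_cons, List.sum_nil, add_zero]
      have hr : step ⟨.R, y, lf, rm, xs, ys⟩ .U = some ⟨.F, y + 1, lf, rm, xs, ys⟩ := by
        simp [step]
      rw [hr]
      simp only []
      cases ys with
      | nil => exact absurd (Or.inr (by simp)) h
      | cons b ys =>
        have h4 : (0 : ℝ) ≤ (19 / 20 : ℝ) ^ n * 4 ^ (xs.length + ys.length) := by positivity
        have h5 : (4 : ℝ) ^ (xs.length + (ys.length + 1)) = 4 * 4 ^ (xs.length + ys.length) := by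
          rw [show xs.length + (ys.length + 1) = (xs.length + ys.length) + 1 by ring, pow_succ]
          ring
        by_cases hm : minOK rm y = true
        · have hD : step ⟨.R, y, lf, rm, xs, b :: ys⟩ .R =
              some ⟨.R, y, lf, nxt b y, xs, ys⟩ := by
            simp [step, hm]
          rw [hD]
          simp only [wm, gg, gam, List.length_cons, uw]
          rw [pow_succ, h5]
          nlinarith
        · have hD : step ⟨.R, y, lf, rm, xs, b :: ys⟩ .R = none := by
            simp [step, hm]
          rw [hD]
          simp only [wm, gg, gam, List.length_cons, uw]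
          rw [pow_succ, h5]
          nlinarith

end

end SL1324
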