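import Pool.Agent.Lib.MP_b8e197_co.SL.Iface

/-!
# Project SL, module WBAL: weights of complete words
-/

set_option linter.all false

namespace SL1324

namespace WBAL

theorem prod_eq : ∀ w : List Mv, (w.map wm).prod = uw ^ (w.count Mv.U) * dw ^ (w.count Mv.D)
  | [] => by simp
  | mv :: w => by
    rw [List.map_cons, List.prod_cons, prod_eq w]
    cases mv <;> simp [wm, pow_succ] <;> ring

/-- height change of a move -/
theorem step_y {σ σ' : St} {mv : Mv} (h : step σ mv = some σ') :
    σ'.y = σ.y + (if mv = Mv.U then 1 else 0) - (if mv = Mv.D then 1 else 0) := by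
  unfold step at h
  split at h
  · simp only [Option.some.injEq] at h
    subst h; simp
  · split_ifs at h
    simp only [Option.some.injEq] at h
    subst h; simp
  · simp only [Option.some.injEq] at h
    subst h; simp
  · simp only [Option.some.injEq] at h
    subst h; simp
  · simp only [Option.some.injEq] at h
    subst h; simp
  · split_ifs at h
    simp only [Option.some.injEq] at h
    subst h; simp
  · simp at h

theorem run_y : ∀ (w : List Mv) (σ τ : St), run σ w = some τ →
    τ.y = σ.y + (w.count Mv.U : ℤ) - (w.count Mv.D : ℤ)
  | [], σ, τ, h => by
    simp only [run, Option.some.injEq] at h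
    subst h; simp
  | mv :: w, σ, τ, h => by
    simp only [run] at h
    cases hs : step σ mv with
    | none => rw [hs] at h; simp at h
    | some σ' =>
      rw [hs] at h
      simp only at h
      have h1 := run_y w σ' τ h
      have h2 := step_y hs
      rw [h1, h2]
      cases mv <;> simp <;> ring

end WBAL

theorem wbal : WbalStatement := by
  intro z z' w h
  have h1 := WBAL.run_y w _ _ h
  have h2 : (w.count Mv.U) = (w.count Mv.D) := by
    simp only [fin0, init] at h1
    omega
  rw [WBAL.prod_eq, ← h2, zt, mul_pow]

end SL1324
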