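import Pool.Agent.Lib.MP_b8e197_co.SL.Iface

/-! Module WPOS: a uniform lower bound for the weights of the block words. -/

set_option linter.all false

namespace SL1324

noncomputable section

namespace WPOS

theorem wm_pos (mv : Mv) : 0 < wm mv := by
  cases mv <;> norm_num [wm, uw, dw]

theorem prod_pos (w : List Mv) : 0 < (w.map wm).prod := by
  induction w with
  | nil => simp
  | cons a w ih => rw [List.map_cons, List.prod_cons]; exact mul_pos (wm_pos a) ih

theorem term_nonneg {n : ℕ} (h : ∀ σ, 0 ≤ Wt n σ) (σ : St) (mv : Mv) :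
    (0 : ℝ) ≤ (match step σ mv with
        | none => (0 : ℝ)
        | some σ' => wm mv * Wt n σ') := by
  cases step σ mv with
  | none => exact le_refl _
  | some σ' => exact mul_nonneg (wm_pos mv).le (h σ')

theorem Wt_nonneg : ∀ (n : ℕ) (σ : St), 0 ≤ Wt n σ
  | 0, σ => by
    rw [Wt]
    split_ifs
    · exact (prod_pos _).le
    · exact le_refl _
  | n + 1, σ => by
    rw [Wt]
    split_ifs
    · exact (prod_pos _).le
    · apply List.sum_nonneg
      intro x hx
      rw [List.mem_map] at hx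
      obtain ⟨mv, _, rfl⟩ := hx
      exact term_nonneg (Wt_nonneg n) σ mv

theorem Wt_stop (n : ℕ) {σ : St} (h : stopd σ) : 0 < Wt n σ := by
  cases n with
  | zero => rw [Wt, if_pos h]; exact prod_pos _
  | succ n => rw [Wt, if_pos h]; exact prod_pos _

theorem Wt_succ_le : ∀ (n : ℕ) (σ : St), Wt n σ ≤ Wt (n + 1) σ
  | 0, σ => by
    by_cases h : stopd σ
    · rw [Wt, Wt, if_pos h, if_pos h]
    · rw [Wt, if_neg h]; exact Wt_nonneg _ _
  | n + 1, σ => by
    by_cases h : stopd σ
    · rw [Wt, Wt, if_pos h, if_pos h]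
    · rw [Wt, Wt, if_neg h, if_neg h]
      apply List.sum_le_sum
      intro mv _
      cases step σ mv with
      | none => exact le_refl _
      | some σ' => exact mul_le_mul_of_nonneg_left (Wt_succ_le n σ') (wm_pos mv).le

theorem Wt_mono {n m : ℕ} (h : n ≤ m) (σ : St) : Wt n σ ≤ Wt m σ := by
  induction h with
  | refl => exact le_refl _
  | step _ ih => exact ih.trans (Wt_succ_le _ σ)

theorem posL : ∀ (k : ℕ) (y : ℤ) (lf rm : Option ℤ) (xs ys : List Bool), xs.length ≤ k + 1 →
    0 < Wt k ⟨.L, y, lf, rm, xs, ys⟩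
  | 0, y, lf, rm, xs, ys, h => Wt_stop 0 (Or.inl (by simpa using h))
  | k + 1, y, lf, rm, xs, ys, h => by
    by_cases hs : stopd ⟨.L, y, lf, rm, xs, ys⟩
    · exact Wt_stop _ hs
    · rw [Wt, if_neg hs]
      simp only [mvs, List.map_cons, List.map_nil, List.sum_cons, List.sum_nil, add_zero]
      have h1 := term_nonneg (Wt_nonneg k) ⟨.L, y, lf, rm, xs, ys⟩ .l
      cases xs with
      | nil => exact absurd (Or.inl (by simp)) hs
      | cons b xs =>
        have hD : step ⟨.L, y, lf, rm, b :: xs, ys⟩ .L = some ⟨.L, y, nxt b y, rm, xs, ys⟩ := rfl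
        have h2 : 0 < Wt k ⟨.L, y, nxt b y, rm, xs, ys⟩ :=
          posL k y (nxt b y) rm xs ys (by simpa using h)
        have h3 := mul_pos (wm_pos .L) h2
        rw [hD]
        exact add_pos_of_nonneg_of_pos h1 h3

theorem posF (N0 : ℕ) (z z' : List Bool) (h : z.length ≤ N0) (hN : 1 ≤ N0) :
    0 < Wt N0 (init z z') := by
  by_cases hs : stopd (init z z')
  · exact Wt_stop _ hs
  · obtain ⟨k, rfl⟩ : ∃ k, N0 = k + 1 := ⟨N0 - 1, by omega⟩
    rw [Wt, if_neg hs]
    have hF : (init z z').fl = .F := rfl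
    rw [hF]
    simp only [mvs, List.map_cons, List.map_nil, List.sum_cons, List.sum_nil, add_zero]
    have h1 := term_nonneg (Wt_nonneg k) (init z z') .r
    have hD : step (init z z') .D = some ⟨.L, 0 - 1, none, none, z, z'⟩ := by
      simp [step, init, floorOK, minUp]
    have h2 : 0 < Wt k ⟨.L, 0 - 1, none, none, z, z'⟩ := posL k _ _ _ _ _ h
    have h3 := mul_pos (wm_pos .D) h2
    rw [hD]
    exact add_pos_of_nonneg_of_pos h1 h3

end WPOS

open WPOS

theorem wpos : WposStatement := by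
  intro N0 hN
  have hne : (bitsF N0 ×ˢ bitsF N0).Nonempty := (bits_nonempty N0).product (bits_nonempty N0)
  obtain ⟨p, hp, hmin⟩ := Finset.exists_min_image (bitsF N0 ×ˢ bitsF N0)
    (fun q => Wt N0 (init q.1 q.2)) hne
  rw [Finset.mem_product] at hp
  refine ⟨Wt N0 (init p.1 p.2), posF N0 p.1 p.2 (mem_bits_length hp.1).le hN, N0, ?_⟩
  intro n hn z hz z' hz'
  have h1 := hmin (z, z') (Finset.mem_product.2 ⟨hz, hz'⟩)
  exact h1.trans (Wt_mono hn _)

end

end SL1324
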