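import Pool.Agent.Lib.MP_b8e197_co.SL.Iface

/-!
# Project SL, module WPRE: no word extends another one
-/

set_option linter.all false

namespace SL1324

namespace WPRE

/-- every word of `ext o mv rec` starts with `mv`, followed by a word of the next state -/
theorem mem_ext {o : Option St} {mv : Mv} {rec : St → List (List Mv)} {w : List Mv}
    (h : w ∈ ext o mv rec) : ∃ σ' v, o = some σ' ∧ v ∈ rec σ' ∧ w = mv :: v := by
  cases o with
  | none => simp [ext] at h
  | some σ' =>
    simp only [ext, List.mem_map] at h
    obtain ⟨v, hv, rfl⟩ := h
    exact ⟨σ', v, rfl, hv, rfl⟩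

theorem mvs_nodup (f : Fl) : (mvs f).Nodup := by
  cases f <;> simp [mvs]

theorem ext_nodup {o : Option St} {mv : Mv} {rec : St → List (List Mv)}
    (h : ∀ σ, (rec σ).Nodup) : (ext o mv rec).Nodup := by
  cases o with
  | none => simp [ext]
  | some σ' =>
    simp only [ext]
    exact (h σ').map (fun a b hab => by simpa using hab)

end WPRE

theorem wpre : WpreStatement := by
  intro n
  induction n with
  | zero =>
    intro σ
    by_cases h : stopd σ
    · constructor
      · simp [words, h]
      · intro w hw w' hw' r r' _
        simp only [words, h, if_true, List.mem_singleton] at hw hw'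
        rw [hw, hw']
    · constructor
      · simp [words, h]
      · intro w hw
        simp [words, h] at hw
  | succ n ih =>
    intro σ
    by_cases h : stopd σ
    · constructor
      · simp [words, h]
      · intro w hw w' hw' r r' _
        simp only [words, h, if_true, List.mem_singleton] at hw hw'
        rw [hw, hw']
    · constructor
      · simp only [words, h, if_false]
        rw [List.nodup_flatMap]
        refine ⟨fun mv _ => WPRE.ext_nodup (fun σ' => (ih σ').1), ?_⟩
        refine (WPRE.mvs_nodup σ.fl).imp ?_
        intro a b hab
        simp only [Function.onFun]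
        intro w h1 h2
        obtain ⟨_, v, _, _, h3⟩ := WPRE.mem_ext h1
        obtain ⟨_, v', _, _, h4⟩ := WPRE.mem_ext h2
        rw [h3] at h4
        simp only [List.cons.injEq] at h4
        exact hab h4.1
      · intro w hw w' hw' r r' hr
        simp only [words, h, if_false, List.mem_flatMap] at hw hw'
        obtain ⟨mv, _, h1⟩ := hw
        obtain ⟨mv', _, h2⟩ := hw'
        obtain ⟨τ, v, h3, h4, h5⟩ := WPRE.mem_ext h1
        obtain ⟨τ', v', h3', h4', h5'⟩ := WPRE.mem_ext h2
        rw [h5, h5'] at hr ⊢
        simp only [List.cons_append, List.cons.injEq] at hr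
        obtain ⟨h6, h7⟩ := hr
        subst h6
        rw [h3] at h3'
        simp only [Option.some.injEq] at h3'
        subst h3'
        rw [(ih τ).2 v h4 v' h4' r r' h7]

end SL1324
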