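import Pool.Agent.Lib.MP_b8e197_co.SL.Iface

/-!
# Project SL, module WSUM: the total weight is the sum over the words
-/

set_option linter.all false

namespace SL1324

namespace WSUM

theorem sum_flatMap {α β : Type} (f : β → ℝ) (g : α → List β) : ∀ l : List α,
    ((l.flatMap g).map f).sum = (l.map (fun a => ((g a).map f).sum)).sum
  | [] => by simp
  | a :: l => by
    simp only [List.flatMap_cons, List.map_append, List.sum_append, List.map_cons, List.sum_cons]
    rw [sum_flatMap f g l]

theorem ext_sum (o : Option St) (mv : Mv) (rec : St → List (List Mv)) (W : St → ℝ)
    (hW : ∀ σ, W σ = ((rec σ).map (fun w => (w.map wm).prod)).sum) :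
    ((ext o mv rec).map (fun w => (w.map wm).prod)).sum =
      (match o with
        | none => 0
        | some σ' => wm mv * W σ') := by
  cases o with
  | none => simp [ext]
  | some σ' =>
    simp only [ext, List.map_map]
    rw [hW σ']
    rw [← List.sum_map_mul_left]
    congr 1

end WSUM

theorem wsum : WsumStatement := by
  intro n
  induction n with
  | zero =>
    intro σ
    by_cases h : stopd σ
    · simp [Wt, words, h]
    · simp [Wt, words, h]
  | succ n ih =>
    intro σ
    by_cases h : stopd σ
    · simp [Wt, words, h]
    · simp only [Wt, words, h, if_false]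
      rw [WSUM.sum_flatMap]
      congr 1
      apply List.map_congr_left
      intro mv _
      rw [WSUM.ext_sum (step σ mv) mv (words n) (Wt n) (fun σ' => ih σ')]
      cases step σ mv <;> rfl

end SL1324
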