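import Pool.Agent.Lib.MP_b8e197_co.SL.Iface

/-!
# Project SL, module WTC (3.3)
-/

set_option linter.all false

namespace SL1324

namespace WTC

theorem mmv_pos (k : ℕ) : 0 < mmv k := by
  unfold mmv
  split <;> norm_num

theorem wt_pos : ∀ (x : List Bool) (k : ℕ), 0 < wt k x
  | [], k => by simp [wt]
  | false :: x, k => by simpa [wt] using wt_pos x 0
  | true :: x, k => by
    simp only [wt]
    exact mul_pos (mmv_pos _) (wt_pos x (k + 1))

theorem cat_step (k : ℕ) : (k + 2) * catalan (k + 1) = 2 * (2 * k + 1) * catalan k := by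
  have h1 := succ_mul_catalan_eq_centralBinom k
  have h2 := succ_mul_catalan_eq_centralBinom (k + 1)
  have h3 := Nat.succ_mul_centralBinom_succ k
  have h4 : (k + 1) * ((k + 2) * catalan (k + 1)) = (k + 1) * (2 * (2 * k + 1) * catalan k) := by
    have h5 : (k + 1 + 1) * catalan (k + 1) = (k + 1).centralBinom := h2
    calc (k + 1) * ((k + 2) * catalan (k + 1)) = (k + 1) * (k + 1).centralBinom := by
          rw [← h5]
      _ = 2 * (2 * k + 1) * k.centralBinom := h3
      _ = (k + 1) * (2 * (2 * k + 1) * catalan k) := by rw [← h1]; ring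
  exact Nat.eq_of_mul_eq_mul_left (Nat.succ_pos k) h4

theorem cat_step_real (k : ℕ) :
    ((k : ℝ) + 2) * (catalan (k + 1) : ℝ) = 2 * (2 * k + 1) * (catalan k : ℝ) := by
  exact_mod_cast cat_step k

noncomputable def P (k : ℕ) : ℝ := ∏ j ∈ Finset.range k, mmv (j + 1)

theorem mmv_big (k : ℕ) (hk : 8 ≤ k) : mmv (k + 1) = 17 / 5 := by
  obtain ⟨j, rfl⟩ := Nat.exists_eq_add_of_le hk
  have h : 8 + j + 1 = j + 9 := by omega
  rw [h]
  rfl

theorem mmv_num (k : ℕ) : ((k : ℝ) + 2) * mmv (k + 1) ≤ 2 * (2 * k + 1) := by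
  rcases Nat.lt_or_ge k 8 with h | h
  · interval_cases k <;> norm_num [mmv]
  · rw [mmv_big k h]
    have hk : (8 : ℝ) ≤ (k : ℝ) := by exact_mod_cast h
    linarith

/-- The quotient of two Catalan numbers is at least `mmv`. -/
theorem mmv_le (k : ℕ) : mmv (k + 1) * (catalan k : ℝ) ≤ (catalan (k + 1) : ℝ) := by
  have hs := cat_step_real k
  have hc : (0 : ℝ) ≤ (catalan k : ℝ) := Nat.cast_nonneg _
  have h2 : (0 : ℝ) < (k : ℝ) + 2 := by positivity
  have h3 : ((k : ℝ) + 2) * (mmv (k + 1) * (catalan k : ℝ)) ≤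
      ((k : ℝ) + 2) * (catalan (k + 1) : ℝ) := by
    rw [hs, ← mul_assoc]
    exact mul_le_mul_of_nonneg_right (mmv_num k) hc
  exact le_of_mul_le_mul_left h3 h2

theorem P_le : ∀ k : ℕ, P k ≤ (catalan k : ℝ)
  | 0 => by simp [P]
  | k + 1 => by
    have h := P_le k
    have h1 := mmv_le k
    have h2 := mmv_pos (k + 1)
    rw [P, Finset.prod_range_succ]
    calc (∏ j ∈ Finset.range k, mmv (j + 1)) * mmv (k + 1) ≤ (catalan k : ℝ) * mmv (k + 1) :=
          mul_le_mul_of_nonneg_right h h2.le
      _ = mmv (k + 1) * (catalan k : ℝ) := mul_comm _ _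
      _ ≤ _ := h1

theorem main : ∀ (n : ℕ) (x : List Bool), x ∈ bitsF (n + 1) → ∀ k : ℕ,
    P k * wt k x ≤ (catp k x : ℝ)
  | 0, x, hx, k => by
    simp only [bitsF, Finset.mem_singleton] at hx
    subst hx
    simpa [wt, catp] using P_le k
  | n + 1, x, hx, k => by
    have hl := mem_bits_length hx
    match x, hl, hx with
    | [], hl, hx => simp at hl
    | false :: x', hl, hx =>
      have hx' := mem_bits_cons.1 hx
      have h0 := main n x' hx' 0
      have hw := wt_pos x' 0
      simp only [wt, catp]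
      have h1 : wt 0 x' ≤ (catp 0 x' : ℝ) := by simpa [P] using h0
      push_cast
      exact mul_le_mul (P_le k) h1 hw.le (Nat.cast_nonneg _)
    | true :: x', hl, hx =>
      have hx' := mem_bits_cons.1 hx
      have h0 := main n x' hx' (k + 1)
      simp only [wt, catp]
      rw [← mul_assoc]
      rw [P, Finset.prod_range_succ] at h0
      exact h0

end WTC

open WTC in
theorem wtc : WtcStatement := by
  intro n x hx
  refine ⟨wt_pos x 0, ?_⟩
  match n, hx with
  | 0, hx =>
    simp only [bitsF, Finset.mem_singleton] at hx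
    subst hx
    simp [wt, catp]
  | n + 1, hx =>
    have h := main n x hx 0
    simpa [P] using h

end SL1324
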