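import Pool.Agent.Lib.MP_b8e197_co.SL.PERM
import Pool.Agent.Lib.MP_b8e197_co.SL.SUPER
import Pool.Agent.Lib.MP_b8e197_co.SL.GLUE
import Pool.Agent.Lib.MP_b8e197_co.SL.GLUI
import Pool.Agent.Lib.MP_b8e197_co.SL.CHN
import Pool.Agent.Lib.MP_b8e197_co.SL.CHR
import Pool.Agent.Lib.MP_b8e197_co.SL.CAT
import Pool.Agent.Lib.MP_b8e197_co.SL.SHC
import Pool.Agent.Lib.MP_b8e197_co.SL.WTC
import Pool.Agent.Lib.MP_b8e197_co.SL.SHU
import Pool.Agent.Lib.MP_b8e197_co.SL.FLAT
import Pool.Agent.Lib.MP_b8e197_co.SL.STI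
import Pool.Agent.Lib.MP_b8e197_co.SL.CB
import Pool.Agent.Lib.MP_b8e197_co.SL.CF
import Pool.Agent.Lib.MP_b8e197_co.SL.CL
import Pool.Agent.Lib.MP_b8e197_co.SL.CT
import Pool.Agent.Lib.MP_b8e197_co.SL.CR
import Pool.Agent.Lib.MP_b8e197_co.SL.CZ
import Pool.Agent.Lib.MP_b8e197_co.SL.CI
import Pool.Agent.Lib.MP_b8e197_co.SL.CN
import Pool.Agent.Lib.MP_b8e197_co.SL.COL
import Pool.Agent.Lib.MP_b8e197_co.SL.FBR
import Pool.Agent.Lib.MP_b8e197_co.SL.FBW
import Pool.Agent.Lib.MP_b8e197_co.SL.WRUN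
import Pool.Agent.Lib.MP_b8e197_co.SL.WSUM
import Pool.Agent.Lib.MP_b8e197_co.SL.WPRE
import Pool.Agent.Lib.MP_b8e197_co.SL.WBAL
import Pool.Agent.Lib.MP_b8e197_co.SL.LIFT
import Pool.Agent.Lib.MP_b8e197_co.SL.BLK
import Pool.Agent.Lib.MP_b8e197_co.SL.ENT
import Pool.Agent.Lib.MP_b8e197_co.SL.CERT
import Pool.Agent.Lib.MP_b8e197_co.SL.PHI
import Pool.Agent.Lib.MP_b8e197_co.SL.STPF
import Pool.Agent.Lib.MP_b8e197_co.SL.STPL
import Pool.Agent.Lib.MP_b8e197_co.SL.STPR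
import Pool.Agent.Lib.MP_b8e197_co.SL.VREC
import Pool.Agent.Lib.MP_b8e197_co.SL.BND
import Pool.Agent.Lib.MP_b8e197_co.SL.UPB
import Pool.Agent.Lib.MP_b8e197_co.SL.POTI
import Pool.Agent.Lib.MP_b8e197_co.SL.WPOS
import Pool.Agent.Lib.MP_b8e197_co.SL.POT
import Pool.Agent.Lib.MP_b8e197_co.SL.BETA
import Pool.Agent.Lib.MP_b8e197_co.SL.TOT
import Pool.Agent.Lib.MP_b8e197_co.SL.NUM
import Pool.Agent.Lib.MP_b8e197_co.SL.FINI
import Pool.Agent.Lib.MP_b8e197_co.SL.LAST

/-!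
# Project SL: assembly of all modules
-/

namespace SL1324

theorem main_lower : LastStatement := by
  have hCERT : CertStatement := cert
  have hPHI : PhiStatement := phi'
  have hNUM : NumStatement := num
  have hSUPER : SuperStatement := super
  have hCHR : ChrStatement := chr (chn glue glui)
  have hSHU : ShuStatement := shu
  have hSTI : StiStatement := sti
  have hCB : CbStatement := cb
  have hCL : ClStatement := cl hCB hSHU hSTI
  have hCT : CtStatement := ct' hCB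
  have hCR : CrStatement := cr hCB hSTI
  have hCZ : CzStatement := cz hCB hCL hCT hCR hSHU hSTI
  have hCI : CiStatement := ci hCB
  have hCN : CnStatement := cn
  have hCOL : ColStatement := col hCB cf hCZ hCI
  have hWRUN : WrunStatement := wrun fbr hSTI
  have hBLK : BlkStatement := blk hWRUN wsum wpre wbal lift hCN
  have hENT : EntStatement := ent
  have hBND : BndStatement := bnd fbw hPHI hCERT
  have hUPB : UpbStatement := upb hPHI
  have hPOTI : PotiStatement := poti (stpf hCERT hPHI) (stpl hCERT hPHI) (stpr hCERT hPHI) vrec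
    hBND hUPB
  have hPOT : PotStatement := pot hPOTI wpos hCERT
  have hBETA : BetaStatement := beta'
  have hTOT : TotStatement := tot hCOL (shc cat) wtc hSHU flat'
  exact last (fini hENT hPOT hBLK hBETA hTOT hCHR hNUM hSHU) hSUPER hNUM

end SL1324
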