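import Pool.Agent.Lib.MP_b8e197_co.SL.Iface

/-!
# Project SL, module PERM (2.1)
-/

set_option linter.all false

namespace SL1324

open H98Av (Av1324 Av132)

namespace PERM

theorem sub4 (v : List ℕ) (i j k l : Fin v.length) (h1 : i < j) (h2 : j < k) (h3 : k < l) :
    List.Sublist [v[i], v[j], v[k], v[l]] v := by
  have h : List.Pairwise (· < ·) [i, j, k, l] := by
    simp [h1, h2, h3, h1.trans h2, h2.trans h3, (h1.trans h2).trans h3]
  simpa using List.map_getElem_sublist h

end PERM

theorem perm : PermStatement := by
  intro n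
  unfold cntAv
  have key : ∀ v : {v : List ℕ // v.Perm (List.range n) ∧ Av1324 v},
      ∃ π : {π : Equiv.Perm (Fin n) // AvP π}, ∀ (i : ℕ) (hi : i < n),
        ((π.1 ⟨i, hi⟩ : Fin n) : ℕ) = v.1.getD i 0 := by
    rintro ⟨v, hv, ha⟩
    have hlen : v.length = n := by simpa using hv.length_eq
    subst hlen
    have hlt : ∀ i : Fin v.length, v[i] < v.length := by
      intro i
      have : v[i] ∈ List.range v.length := hv.mem_iff.mp (List.getElem_mem _)
      exact List.mem_range.mp this
    have hnd : v.Nodup := hv.nodup_iff.mpr List.nodup_range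
    let f : Fin v.length → Fin v.length := fun i => ⟨v[i], hlt i⟩
    have hf : Function.Injective f := by
      intro i j hij
      have h1 : v[(i : ℕ)] = v[(j : ℕ)] := by
        have := congrArg Fin.val hij
        exact this
      exact Fin.ext ((hnd.getElem_inj_iff).mp h1)
    refine ⟨⟨Equiv.ofBijective f (Finite.injective_iff_bijective.mp hf), ?_⟩, ?_⟩
    · intro i j k l h1 h2 h3 h4
      exact ha _ _ _ _ (PERM.sub4 v i j k l h1 h2 h3) h4
    · intro i hi
      show v[i] = _
      rw [List.getD_eq_getElem v 0 hi]
  choose F hF using key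
  apply Nat.card_le_card_of_injective F
  rintro ⟨v, hv, ha⟩ ⟨w, hw, hb⟩ h
  have hlv : v.length = n := by simpa using hv.length_eq
  have hlw : w.length = n := by simpa using hw.length_eq
  have : v = w := by
    apply List.ext_getElem (hlv.trans hlw.symm)
    intro i h1 h2
    have e1 := hF ⟨v, hv, ha⟩ i (by omega)
    have e2 := hF ⟨w, hw, hb⟩ i (by omega)
    rw [h] at e1
    have e3 := e1.symm.trans e2
    simp only at e3
    rwa [List.getD_eq_getElem v 0 h1, List.getD_eq_getElem w 0 h2] at e3
  subst this
  rfl

end SL1324
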