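import Pool.Agent.Lib.MP_b8e197_co.SL.Iface

set_option linter.all false

namespace SL1324

namespace STI

theorem nxt_some {b : Bool} {y f : ℤ} (h : nxt b y = some f) : b = true ∧ f = y := by
  unfold nxt at h
  split at h
  · rename_i hb
    simp only [Option.some.injEq] at h
    exact ⟨hb, h.symm⟩
  · simp at h

theorem bits_tail {b : Bool} {x : List Bool} (h : b :: x ∈ bitsF (b :: x).length) :
    x ∈ bitsF x.length ∧ (b = true → x ≠ []) := by
  rcases x with _ | ⟨a, x⟩
  · simp only [List.length_cons, List.length_nil, Nat.zero_add, bitsF, Finset.mem_singleton,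
      List.cons.injEq, and_true] at h
    subst h
    simp [bitsF]
  · refine ⟨?_, fun _ => by simp⟩
    simp only [List.length_cons] at h ⊢
    exact mem_bits_cons.1 h

end STI

open STI

theorem sti : StiStatement := by
  rintro ⟨fl, y, lf, rm, xs, ys⟩ σ' mv ⟨h1, h2, h3, h4⟩ hs
  simp only at h1 h2 h3 h4
  rcases fl with _ | _ | _ <;> rcases mv with _ | _ | _ | _ | _ | _ <;>
    simp only [step] at hs
  all_goals try (exfalso; simp at hs; done)
  · -- F, D
    split at hs
    · rename_i hf
      simp only [Option.some.injEq] at hs
      subst hs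
      refine ⟨?_, ?_, h3, h4⟩
      · intro f hlf
        simp only at hlf ⊢
        refine ⟨?_, (h1 f hlf).2⟩
        rw [hlf] at hf
        simpa [floorOK] using hf
      · intro m hm
        simp only at hm ⊢
        rcases rm with _ | m0
        · simp [minUp] at hm
        · simp only [minUp, Option.some.injEq] at hm
          subst hm
          exact ⟨min_le_right _ _, (h2 m0 rfl).2⟩
    · simp at hs
  · -- F, r
    simp only [Option.some.injEq] at hs
    subst hs
    exact ⟨h1, h2, h3, h4⟩
  · -- L, L
    rcases xs with _ | ⟨b, xs⟩
    · simp at hs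
    · simp only [Option.some.injEq] at hs
      subst hs
      have h5 := bits_tail h3
      refine ⟨?_, h2, h5.1, h4⟩
      intro f hf
      obtain ⟨hb, rfl⟩ := nxt_some hf
      exact ⟨le_refl _, h5.2 hb⟩
  · -- L, l
    simp only [Option.some.injEq] at hs
    subst hs
    exact ⟨h1, h2, h3, h4⟩
  · -- R, U
    simp only [Option.some.injEq] at hs
    subst hs
    refine ⟨?_, ?_, h3, h4⟩
    · intro f hf
      have := h1 f hf
      simp only
      exact ⟨by omega, this.2⟩
    · intro f hf
      have := h2 f hf
      simp only
      exact ⟨by omega, this.2⟩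
  · -- R, R
    rcases ys with _ | ⟨b, ys⟩
    · simp at hs
    · simp only at hs
      split at hs
      · simp only [Option.some.injEq] at hs
        subst hs
        have h5 := bits_tail h4
        refine ⟨h1, ?_, h3, h5.1⟩
        intro f hf
        obtain ⟨hb, rfl⟩ := nxt_some hf
        exact ⟨le_refl _, h5.2 hb⟩
      · simp at hs

end SL1324
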