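import Pool.Agent.Lib.MP_b8e197_co.SL.Iface

/-!
# Project SL: helper file, case analysis of one step of the machine
-/

set_option linter.all false

namespace SL1324

/-- One step, as an inductive predicate. -/
inductive Stp : St → Mv → St → Prop
  | r (y : ℤ) (lf rm : Option ℤ) (xs ys : List Bool) :
      Stp ⟨.F, y, lf, rm, xs, ys⟩ .r ⟨.R, y, lf, rm, xs, ys⟩
  | D (y : ℤ) (lf rm : Option ℤ) (xs ys : List Bool) (h : floorOK lf (y - 1) = true) :
      Stp ⟨.F, y, lf, rm, xs, ys⟩ .D ⟨.L, y - 1, lf, minUp rm (y - 1), xs, ys⟩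
  | l (y : ℤ) (lf rm : Option ℤ) (xs ys : List Bool) :
      Stp ⟨.L, y, lf, rm, xs, ys⟩ .l ⟨.F, y, lf, rm, xs, ys⟩
  | L (y : ℤ) (lf rm : Option ℤ) (b : Bool) (xs ys : List Bool) :
      Stp ⟨.L, y, lf, rm, b :: xs, ys⟩ .L ⟨.L, y, nxt b y, rm, xs, ys⟩
  | U (y : ℤ) (lf rm : Option ℤ) (xs ys : List Bool) :
      Stp ⟨.R, y, lf, rm, xs, ys⟩ .U ⟨.F, y + 1, lf, rm, xs, ys⟩
  | R (y : ℤ) (lf rm : Option ℤ) (xs : List Bool) (b : Bool) (ys : List Bool)
      (h : minOK rm y = true) :
      Stp ⟨.R, y, lf, rm, xs, b :: ys⟩ .R ⟨.R, y, lf, nxt b y, xs, ys⟩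

theorem stp_of_step {σ σ' : St} {mv : Mv} (h : step σ mv = some σ') : Stp σ mv σ' := by
  obtain ⟨fl, y, lf, rm, xs, ys⟩ := σ
  cases fl with
  | F =>
    cases mv with
    | r =>
      simp only [step, Option.some.injEq] at h
      subst h
      exact Stp.r _ _ _ _ _
    | D =>
      simp only [step] at h
      split at h
      · next hf =>
        simp only [Option.some.injEq] at h
        subst h
        exact Stp.D _ _ _ _ _ hf
      · cases h
    | U => simp [step] at h
    | L => simp [step] at h
    | R => simp [step] at h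
    | l => simp [step] at h
  | L =>
    cases mv with
    | l =>
      simp only [step, Option.some.injEq] at h
      subst h
      exact Stp.l _ _ _ _ _
    | L =>
      cases xs with
      | nil => simp [step] at h
      | cons b xs =>
        simp only [step, Option.some.injEq] at h
        subst h
        exact Stp.L _ _ _ _ _ _
    | U => simp [step] at h
    | D => simp [step] at h
    | R => simp [step] at h
    | r => simp [step] at h
  | R =>
    cases mv with
    | U =>
      simp only [step, Option.some.injEq] at h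
      subst h
      exact Stp.U _ _ _ _ _
    | R =>
      cases ys with
      | nil => simp [step] at h
      | cons b ys =>
        simp only [step] at h
        split at h
        · next hf =>
          simp only [Option.some.injEq] at h
          subst h
          exact Stp.R _ _ _ _ _ _ hf
        · cases h
    | D => simp [step] at h
    | L => simp [step] at h
    | l => simp [step] at h
    | r => simp [step] at h

theorem nn_cons {σ τ : St} {mv : Mv} {w : List Mv} (h : NN σ (mv :: w) τ) :
    0 ≤ σ.y ∧ ∃ σ', step σ mv = some σ' ∧ Stp σ mv σ' ∧ NN σ' w τ := by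
  cases h with
  | cons h0 hs hr => exact ⟨h0, _, hs, stp_of_step hs, hr⟩

theorem nn_nonneg {σ τ : St} {w : List Mv} (h : NN σ w τ) : 0 ≤ σ.y := by
  cases h with
  | nil _ h => exact h
  | cons h _ _ => exact h

theorem nn_nil {σ τ : St} (h : NN σ [] τ) : σ = τ := by
  cases h
  rfl

end SL1324
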