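import Pool.Agent.Lib.MP_b8e197_co.SL.Iface

/-!
# Project SL: common lemmas for the one-step inequalities (STPF, STPL, STPR)
-/

set_option linter.all false

namespace SL1324.StpAux

open SL1324

noncomputable section

/-- the penalty lemma -/
theorem pen (hP : PhiStatement) (z d0 d1 d2 p0 p1 p2 D e : ℝ) (h0 : 0 ≤ p0) (h1 : 0 ≤ p1)
    (h2 : 0 ≤ p2) (hs : p0 + p1 + p2 = 1) (hD : 0 ≤ D) (k0 : 0 < p0 → |d0| ≤ D)
    (k1 : 0 < p1 → |d1| ≤ D) (k2 : 0 < p2 → |d2| ≤ D)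
    (he : |p0 * d0 + p1 * d1 + p2 * d2| ≤ e) :
    p0 * Ph (z + d0) + p1 * Ph (z + d1) + p2 * Ph (z + d2) ≤ Ph z + e + D ^ 2 / (2 * KK) := by
  obtain ⟨s, hs1, hs2⟩ := hP.2 z
  have hKK : (0 : ℝ) < 2 * KK := by unfold KK; norm_num
  have key : ∀ p d : ℝ, 0 ≤ p → (0 < p → |d| ≤ D) →
      p * Ph (z + d) ≤ p * Ph z + s * (p * d) + p * (D ^ 2 / (2 * KK)) := by
    intro p d hp hk
    rcases hp.eq_or_lt with h | h
    · rw [← h]; simp
    · have hd := hk h
      have h3 := hs2 d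
      have h4 : d ^ 2 / (2 * KK) ≤ D ^ 2 / (2 * KK) := by
        rw [← sq_abs d]
        exact div_le_div_of_nonneg_right (pow_le_pow_left₀ (abs_nonneg _) hd 2) hKK.le
      have h5 := mul_le_mul_of_nonneg_left (h3.trans (add_le_add_right h4 _)) hp
      linarith
  have e0 := key p0 d0 h0 k0
  have e1 := key p1 d1 h1 k1
  have e2 := key p2 d2 h2 k2
  have e3 : s * (p0 * d0 + p1 * d1 + p2 * d2) ≤ e := by
    calc s * (p0 * d0 + p1 * d1 + p2 * d2) ≤ |s * (p0 * d0 + p1 * d1 + p2 * d2)| := le_abs_self _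
      _ = |s| * |p0 * d0 + p1 * d1 + p2 * d2| := abs_mul _ _
      _ ≤ 1 * |p0 * d0 + p1 * d1 + p2 * d2| := mul_le_mul_of_nonneg_right hs1 (abs_nonneg _)
      _ ≤ e := by rw [one_mul]; exact he
  have e4 : p0 * Ph z + p1 * Ph z + p2 * Ph z = Ph z := by
    rw [← add_mul, ← add_mul, hs, one_mul]
  have e5 : p0 * (D ^ 2 / (2 * KK)) + p1 * (D ^ 2 / (2 * KK)) + p2 * (D ^ 2 / (2 * KK)) =
      D ^ 2 / (2 * KK) := by
    rw [← add_mul, ← add_mul, hs, one_mul]
  linarith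

theorem log_gain : (29 : ℝ) / 100000 ≤ Real.log (1000300 / 1000000) := by
  have h := Real.one_sub_inv_le_log_of_pos (show (0 : ℝ) < 1000300 / 1000000 by norm_num)
  norm_num at h ⊢
  linarith

/-- the master inequality -/
theorem master (hP : PhiStatement) {V a1 a2 : ℝ} (hV : 0 < V) (h1 : 0 ≤ a1) (h2 : 0 ≤ a2)
    (hA : V * 10000 * 1000300 ≤ 1000000 * (a1 + a2)) (L1 L2 : ℝ)
    (hL1 : 0 < a1 → Real.log (a1 / 10000) ≤ L1) (hL2 : 0 < a2 → Real.log (a2 / 10000) ≤ L2)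
    (θ : ℝ) (hθ0 : 0 ≤ θ) (hθ1 : θ ≤ 1) (z1 z2 d10 d11 d12 d20 d21 d22 : ℝ)
    (hD1 : 0 < a1 → |d10| ≤ 5 ∧ |d20| ≤ 2)
    (hD2 : 0 < a2 → |d11| ≤ 5 ∧ |d12| ≤ 5 ∧ |d21| ≤ 2 ∧ |d22| ≤ 2)
    (hC1 : |a1 * d10 + a2 * ((1 - θ) * d11 + θ * d12)| ≤ 1 / 100000 * (a1 + a2))
    (hC2 : |a1 * d20 + a2 * ((1 - θ) * d21 + θ * d22)| ≤ 2 / 100000 * (a1 + a2)) :
    0 ≤ a1 / (a1 + a2) ∧ 0 ≤ a2 / (a1 + a2) ∧ a1 / (a1 + a2) + a2 / (a1 + a2) = 1 ∧
    (0 < a1 / (a1 + a2) → 0 < a1) ∧ (0 < a2 / (a1 + a2) → 0 < a2) ∧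
    Real.log V - S1 * Ph z1 - S2 * Ph z2 ≤
      a1 / (a1 + a2) * (-Real.log (a1 / (a1 + a2)) + L1 - S1 * Ph (z1 + d10) -
        S2 * Ph (z2 + d20)) +
      a2 / (a1 + a2) * (-Real.log (a2 / (a1 + a2)) + L2 -
        ((1 - θ) * (S1 * Ph (z1 + d11) + S2 * Ph (z2 + d21)) +
          θ * (S1 * Ph (z1 + d12) + S2 * Ph (z2 + d22)))) := by
  have hApos : 0 < a1 + a2 := by nlinarith
  set A := a1 + a2 with hAdef
  have hq1 : 0 ≤ a1 / A := div_nonneg h1 hApos.le
  have hq2 : 0 ≤ a2 / A := div_nonneg h2 hApos.le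
  have hsum : a1 / A + a2 / A = 1 := by rw [← add_div, ← hAdef, div_self hApos.ne']
  have g1 : 0 < a1 / A → 0 < a1 := by
    intro h
    rcases h1.eq_or_lt with h' | h'
    · rw [← h'] at h; simp at h
    · exact h'
  have g2 : 0 < a2 / A → 0 < a2 := by
    intro h
    rcases h2.eq_or_lt with h' | h'
    · rw [← h'] at h; simp at h
    · exact h'
  refine ⟨hq1, hq2, hsum, g1, g2, ?_⟩
  have main : ∀ a L : ℝ, 0 ≤ a → (0 < a → Real.log (a / 10000) ≤ L) →
      a / A * Real.log (A / 10000) ≤ a / A * (-Real.log (a / A) + L) := by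
    intro a L ha hL
    rcases ha.eq_or_lt with h' | h'
    · rw [← h']; simp
    · refine mul_le_mul_of_nonneg_left ?_ (div_nonneg ha hApos.le)
      have h3 := hL h'
      rw [Real.log_div h'.ne' (by norm_num)] at h3
      rw [Real.log_div hApos.ne' (by norm_num), Real.log_div h'.ne' hApos.ne']
      linarith
  have m1 := main a1 L1 h1 hL1
  have m2 := main a2 L2 h2 hL2
  have m3 : Real.log V + 29 / 100000 ≤ Real.log (A / 10000) := by
    have h3 : V * (1000300 / 1000000) ≤ A / 10000 := by linarith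
    have h4 := Real.log_le_log (by positivity) h3
    rw [Real.log_mul hV.ne' (by norm_num)] at h4
    linarith [log_gain]
  have m4 : a1 / A * Real.log (A / 10000) + a2 / A * Real.log (A / 10000) =
      Real.log (A / 10000) := by rw [← add_mul, hsum, one_mul]
  have hc : ∀ x y e : ℝ, |a1 * x + a2 * y| ≤ e * A → |a1 / A * x + a2 / A * y| ≤ e := by
    intro x y e h
    have h3 : a1 / A * x + a2 / A * y = (a1 * x + a2 * y) / A := by ring
    rw [h3, abs_div, abs_of_pos hApos, div_le_iff₀ hApos]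
    exact h
  have hp1 : 0 ≤ a2 / A * (1 - θ) := mul_nonneg hq2 (by linarith)
  have hp2 : 0 ≤ a2 / A * θ := mul_nonneg hq2 hθ0
  have hps : a1 / A + a2 / A * (1 - θ) + a2 / A * θ = 1 := by
    have : a1 / A + a2 / A * (1 - θ) + a2 / A * θ = a1 / A + a2 / A := by ring
    rw [this, hsum]
  have k1 : 0 < a2 / A * (1 - θ) → 0 < a2 := fun h => g2 (by
    rcases hq2.eq_or_lt with h' | h'
    · rw [← h'] at h; simp at h
    · exact h')
  have k2 : 0 < a2 / A * θ → 0 < a2 := fun h => g2 (by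
    rcases hq2.eq_or_lt with h' | h'
    · rw [← h'] at h; simp at h
    · exact h')
  have P1 := pen hP z1 d10 d11 d12 (a1 / A) (a2 / A * (1 - θ)) (a2 / A * θ) 5 (1 / 100000)
    hq1 hp1 hp2 hps (by norm_num) (fun h => (hD1 (g1 h)).1) (fun h => (hD2 (k1 h)).1)
    (fun h => (hD2 (k2 h)).2.1) (by
      have := hc _ _ _ hC1
      rwa [show a1 / A * d10 + a2 / A * (1 - θ) * d11 + a2 / A * θ * d12 =
        a1 / A * d10 + a2 / A * ((1 - θ) * d11 + θ * d12) by ring])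
  have P2 := pen hP z2 d20 d21 d22 (a1 / A) (a2 / A * (1 - θ)) (a2 / A * θ) 2 (2 / 100000)
    hq1 hp1 hp2 hps (by norm_num) (fun h => (hD1 (g1 h)).2) (fun h => (hD2 (k1 h)).2.2.1)
    (fun h => (hD2 (k2 h)).2.2.2) (by
      have := hc _ _ _ hC2
      rwa [show a1 / A * d20 + a2 / A * (1 - θ) * d21 + a2 / A * θ * d22 =
        a1 / A * d20 + a2 / A * ((1 - θ) * d21 + θ * d22) by ring])
  have n1 : (5 : ℝ) ^ 2 / (2 * KK) = 25 / 200000 := by unfold KK; norm_num
  have n2 : (2 : ℝ) ^ 2 / (2 * KK) = 4 / 200000 := by unfold KK; norm_num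
  rw [n1] at P1
  rw [n2] at P2
  have hS1 : (0 : ℝ) ≤ S1 := by unfold S1; norm_num
  have hS2 : (0 : ℝ) ≤ S2 := by unfold S2; norm_num
  have Q1 := mul_le_mul_of_nonneg_left P1 hS1
  have Q2 := mul_le_mul_of_nonneg_left P2 hS2
  have Q3 : S1 * (1 / 100000 + 25 / 200000) + S2 * (2 / 100000 + 4 / 200000) ≤
      (29 : ℝ) / 100000 := by unfold S1 S2; norm_num
  have Q4 : a1 / A * (-Real.log (a1 / A) + L1 - S1 * Ph (z1 + d10) - S2 * Ph (z2 + d20)) +
      a2 / A * (-Real.log (a2 / A) + L2 -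
        ((1 - θ) * (S1 * Ph (z1 + d11) + S2 * Ph (z2 + d21)) +
          θ * (S1 * Ph (z1 + d12) + S2 * Ph (z2 + d22)))) =
      a1 / A * (-Real.log (a1 / A) + L1) + a2 / A * (-Real.log (a2 / A) + L2) -
      S1 * (a1 / A * Ph (z1 + d10) + a2 / A * (1 - θ) * Ph (z1 + d11) +
        a2 / A * θ * Ph (z1 + d12)) -
      S2 * (a1 / A * Ph (z2 + d20) + a2 / A * (1 - θ) * Ph (z2 + d21) +
        a2 / A * θ * Ph (z2 + d22)) := by ring
  rw [Q4]
  have Q5 : S1 * (Ph z1 + 1 / 100000 + 25 / 200000) + S2 * (Ph z2 + 2 / 100000 + 4 / 200000) =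
      S1 * Ph z1 + S2 * Ph z2 + (S1 * (1 / 100000 + 25 / 200000) +
        S2 * (2 / 100000 + 4 / 200000)) := by ring
  linarith

/-! ## the checks -/

theorem chk_unpack (hC : CertStatement) {f : Fl} {l r : ℕ} (hl : l ≤ 9) (hr : r ≤ 9)
    (hv : 0 < cv f l r) :
    cv f l r * 10000 * 1000300 ≤ 1000000 * (A1 f l r + A2 f l r) ∧ chkT f l r = true ∧
    chkC 1 cc1 10 f l r = true ∧ chkC 2 cc2 20 f l r = true ∧ chkD f l r = true := by
  have h := hC.1 f l r hl hr
  unfold chk1 at h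
  simp only [Bool.or_eq_true, Bool.and_eq_true, decide_eq_true_eq, beq_iff_eq] at h
  rcases h with h | h
  · omega
  · exact ⟨h.1.1.1.1.1, h.1.1.1.1.2, h.1.1.1.2, h.1.1.2, h.1.2⟩

theorem chkC_real {w : ℕ} {c : Fl → ℕ → ℕ → ℤ} {e : ℤ} {f : Fl} {l r : ℕ}
    (h : chkC w c e f l r = true) :
    |(A1 f l r : ℝ) * (B1 w c f l r : ℝ) + (A2 f l r : ℝ) * (B2 w c f l r : ℝ) -
      3 * ((A1 f l r : ℝ) + (A2 f l r : ℝ)) * (c f l r : ℝ)| ≤
      3 * (e : ℝ) * ((A1 f l r : ℝ) + (A2 f l r : ℝ)) := by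
  unfold chkC at h
  simp only [Bool.and_eq_true, decide_eq_true_eq] at h
  obtain ⟨h1, h2⟩ := h
  rw [abs_le]
  constructor
  · exact_mod_cast h2
  · exact_mod_cast h1

theorem absLe_real {z k : ℤ} (h : absLe z k = true) : |(z : ℝ)| ≤ (k : ℝ) := by
  unfold absLe at h
  simp only [Bool.and_eq_true, decide_eq_true_eq] at h
  rw [abs_le]
  exact ⟨by exact_mod_cast h.2, by exact_mod_cast h.1⟩

/-! ## relative codes -/

theorem relC_none (y : ℤ) : relC none y = 0 := rfl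

theorem relC_self (y : ℤ) : relC (some y) y = 1 := by
  unfold relC; simp

theorem relC_some (f y : ℤ) : relC (some f) y = (y - f).toNat + 1 := rfl

theorem relC_down {lf : Option ℤ} {y : ℤ} (hb : ∀ f, lf = some f → f ≤ y)
    (h : relC lf y ≠ 1) : floorOK lf (y - 1) = true ∧ relC lf (y - 1) = dnL (relC lf y) := by
  cases lf with
  | none => exact ⟨rfl, rfl⟩
  | some f =>
    have hf := hb f rfl
    rw [relC_some] at h
    have h1 : f ≤ y - 1 := by omega
    refine ⟨by simp [floorOK, h1], ?_⟩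
    rw [relC_some, relC_some]
    unfold dnL
    omega

theorem relC_minUp {rm : Option ℤ} {y : ℤ} (hb : ∀ f, rm = some f → f ≤ y) :
    relC (minUp rm (y - 1)) (y - 1) = dnR (relC rm y) := by
  cases rm with
  | none => rfl
  | some f =>
    have hf := hb f rfl
    unfold minUp
    simp only
    rw [relC_some, relC_some]
    unfold dnR
    rcases hf.eq_or_lt with h | h
    · subst h
      simp
    · have h1 : min f (y - 1) = f := by omega
      rw [h1]
      have h2 : (y - f).toNat + 1 ≠ 0 := by omega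
      have h3 : (y - f).toNat + 1 ≠ 1 := by omega
      rw [if_neg h2, if_neg h3]
      omega

theorem relC_up {lf : Option ℤ} {y : ℤ} (hb : ∀ f, lf = some f → f ≤ y) :
    relC lf (y + 1) = upC (relC lf y) := by
  cases lf with
  | none => rfl
  | some f =>
    have hf := hb f rfl
    rw [relC_some, relC_some]
    unfold upC
    rw [if_neg (by omega)]
    omega

theorem relC_zero_iff {lf : Option ℤ} {y : ℤ} : relC lf y = 0 ↔ lf = none := by
  cases lf with
  | none => simp [relC]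
  | some f => simp [relC]

theorem minOK_of {rm : Option ℤ} {y : ℤ} (hb : ∀ f, rm = some f → f ≤ y)
    (h : relC rm y ≤ 1) : minOK rm y = true := by
  cases rm with
  | none => rfl
  | some f =>
    have hf := hb f rfl
    rw [relC_some] at h
    have h1 : y ≤ f := by omega
    simp [minOK, h1]

/-- the letter move: from the cube inequality to logarithms -/
theorem cube_log {t u v μ : ℕ} (ht : 0 < t) (hu : 0 < u) (hv : 0 < v) (hμ : 0 < μ)
    (h : t ^ 3 ≤ μ ^ 3 * u ^ 2 * v) :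
    Real.log ((t : ℝ) / 10000) ≤ Real.log ((μ : ℝ) / 10000) + 2 / 3 * Real.log u +
      1 / 3 * Real.log v := by
  have ht' : (0 : ℝ) < t := by exact_mod_cast ht
  have hu' : (0 : ℝ) < u := by exact_mod_cast hu
  have hv' : (0 : ℝ) < v := by exact_mod_cast hv
  have hμ' : (0 : ℝ) < μ := by exact_mod_cast hμ
  have h1 : (t : ℝ) ^ 3 ≤ (μ : ℝ) ^ 3 * (u : ℝ) ^ 2 * (v : ℝ) := by exact_mod_cast h
  have h2 := Real.log_le_log (by positivity) h1
  rw [Real.log_mul (by positivity) (by positivity), Real.log_mul (by positivity) (by positivity),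
    Real.log_pow, Real.log_pow, Real.log_pow] at h2
  rw [Real.log_div ht'.ne' (by norm_num), Real.log_div hμ'.ne' (by norm_num)]
  push_cast at h2
  linarith

/-- `q * log (w / q) = q * (log w - log q)` also for `q = 0` -/
theorem q_log {q w : ℝ} (hw : 0 < w) (hq : 0 ≤ q) :
    q * Real.log (w / q) = q * (Real.log w - Real.log q) := by
  rcases hq.eq_or_lt with h | h
  · rw [← h]; simp
  · rw [Real.log_div hw.ne' h.ne']

end

end SL1324.StpAux
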