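import Pool.Agent.Lib.MP_b8e197_co.SL.Iface

/-!
# Project SL: WRUN (5.3)
-/

set_option linter.all false

namespace SL1324

namespace WRUN

lemma dl_length (t : ℕ) : (dl t).length = 2 * t := by
  simp [dl, List.length_flatten, mul_comm]

lemma ru_length (t : ℕ) : (ru t).length = 2 * t := by
  simp [ru, List.length_flatten, mul_comm]

lemma fbY_bd (σ : St) : σ.y ≤ fbY σ ∧ fbY σ ≤ σ.y + 1 := by
  unfold fbY
  cases σ.fl <;> simp

lemma fb_length (σ : St) (hI : Inv σ) (a : ℤ) (h1 : |σ.y| ≤ a)
    (h2 : ∀ m, σ.rm = some m → -a ≤ m) :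
    ((fb σ).length : ℤ) ≤ 6 * a + σ.xs.length + σ.ys.length + 13 := by
  obtain ⟨hy1, hy2⟩ := fbY_bd σ
  obtain ⟨ha1, ha2⟩ := abs_le.1 h1
  have hT : (fbT σ : ℤ) ≤ 2 * a + 1 ∧ fbZ σ ≤ a + 2 ∧ -(a + 2) ≤ fbZ σ := by
    unfold fbZ fbT
    cases hr : σ.rm with
    | none =>
      simp only [Nat.cast_zero]
      refine ⟨by omega, by omega, by omega⟩
    | some m =>
      have h3 := h2 m hr
      have h4 := (hI.rm m hr).1
      have h5 : ((fbY σ - m).toNat : ℤ) = fbY σ - m := Int.toNat_of_nonneg (by omega)
      simp only [h5]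
      refine ⟨by omega, by omega, by omega⟩
  have hZ : ((if 0 ≤ fbZ σ then dl (fbZ σ).toNat else ru (-fbZ σ).toNat).length : ℤ) ≤
      2 * (a + 2) := by
    split_ifs with h
    · rw [dl_length]
      push_cast
      rw [Int.toNat_of_nonneg h]
      omega
    · rw [ru_length]
      push_cast
      rw [Int.toNat_of_nonneg (by omega)]
      omega
  cases hfl : σ.fl <;>
  · simp only [fb, hfl, List.length_append, List.length_cons, List.length_nil,
      List.length_replicate, dl_length]
    push_cast
    omega

lemma minUp_bd {rm : Option ℤ} {y m a : ℤ} (h : ∀ m, rm = some m → -a ≤ m) (hy : -a ≤ y)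
    (hm : minUp rm (y - 1) = some m) : -(a + 1) ≤ m := by
  cases rm with
  | none => simp [minUp] at hm
  | some m0 =>
    simp only [minUp, Option.some.injEq] at hm
    have := h m0 rfl
    omega

lemma nxt_bd {b : Bool} {y m a : ℤ} (hy : -a ≤ y) (hm : nxt b y = some m) : -(a + 1) ≤ m := by
  unfold nxt at hm
  split_ifs at hm
  simp only [Option.some.injEq] at hm
  omega

lemma step_bd (σ σ' : St) (mv : Mv) (a : ℤ) (h1 : |σ.y| ≤ a)
    (h2 : ∀ m, σ.rm = some m → -a ≤ m) (hs : step σ mv = some σ') :
    |σ'.y| ≤ a + 1 ∧ (∀ m, σ'.rm = some m → -(a + 1) ≤ m) ∧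
      σ'.xs.length ≤ σ.xs.length ∧ σ'.ys.length ≤ σ.ys.length := by
  obtain ⟨fl, y, lf, rm, xs, ys⟩ := σ
  rw [abs_le] at h1 ⊢
  simp only at h1 h2
  have h3 : ∀ m, rm = some m → -(a + 1) ≤ m := by
    intro m hm
    have := h2 m hm
    omega
  cases fl <;> cases mv <;> cases xs <;> cases ys <;> simp only [step] at hs <;>
    (try split_ifs at hs) <;> cases hs <;>
    refine ⟨⟨by simp only; omega, by simp only; omega⟩, ?_, by simp, by simp⟩ <;>
    first
      | exact h3
      | exact fun m hm => minUp_bd h2 h1.1 hm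
      | exact fun m hm => nxt_bd h1.1 hm

end WRUN

open WRUN in
theorem wrun (h_FBR : FbrStatement) (h_STI : StiStatement) : WrunStatement := by
  have key : ∀ (n : ℕ) (σ : St) (a : ℤ), Inv σ → |σ.y| ≤ a → (∀ m, σ.rm = some m → -a ≤ m) →
      ∀ w ∈ words n σ, run σ w = some fin0 ∧
        (w.length : ℤ) ≤ 7 * n + 6 * a + σ.xs.length + σ.ys.length + 13 := by
    intro n
    induction n with
    | zero =>
      intro σ a hI h1 h2 w hw
      simp only [words] at hw
      split_ifs at hw with hst
      · simp only [List.mem_singleton] at hw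
        subst hw
        have := fb_length σ hI a h1 h2
        exact ⟨h_FBR σ hI, by push_cast; omega⟩
      · simp at hw
    | succ n ih =>
      intro σ a hI h1 h2 w hw
      simp only [words] at hw
      split_ifs at hw with hst
      · simp only [List.mem_singleton] at hw
        subst hw
        have := fb_length σ hI a h1 h2
        exact ⟨h_FBR σ hI, by push_cast; omega⟩
      · simp only [List.mem_flatMap] at hw
        obtain ⟨mv, hmv, hw⟩ := hw
        cases hs : step σ mv with
        | none =>
          rw [hs] at hw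
          simp [ext] at hw
        | some σ' =>
          rw [hs] at hw
          simp only [ext, List.mem_map] at hw
          obtain ⟨w', hw', rfl⟩ := hw
          obtain ⟨hb1, hb2, hb3, hb4⟩ := step_bd σ σ' mv a h1 h2 hs
          obtain ⟨hr, hl⟩ := ih σ' (a + 1) (h_STI σ σ' mv hI hs) hb1 hb2 w' hw'
          refine ⟨?_, ?_⟩
          · simp only [run, hs]
            exact hr
          · simp only [List.length_cons]
            push_cast
            omega
  intro n N0 z z' hz hz' w hw
  have hI : Inv (init z z') := by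
    refine ⟨by simp [init], by simp [init], ?_, ?_⟩
    · simp only [init]
      rw [mem_bits_length hz]
      exact hz
    · simp only [init]
      rw [mem_bits_length hz']
      exact hz'
  obtain ⟨h1, h2⟩ := key n (init z z') 0 hI (by simp [init]) (by simp [init]) w hw
  refine ⟨h1, ?_⟩
  simp only [init, mem_bits_length hz, mem_bits_length hz'] at h2
  omega

end SL1324
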